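import Pool.Agent.Lib.MP_6947cd_al.Y.TW

/-!
Problem MP_6947cd_al (Chollet).  PACKED TABLES in one number, checked RANGE BY RANGE: every theorem checks the digits
`i0 ≤ i < i1` of the full numeral, the ranges (from different modules) are glued.  The check of a row is a parameter
`rc` (`RcOK rc`; `rcOK_row : RcOK rowOK`).
-/

set_option autoImplicit false
open Finset

namespace Pool.Agent.Lib.MP_6947cd_al
namespace PkA

open Ent Ent.Pk Fr Fr.WT B1

/-- `rc` is a sound check of a row -/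
def RcOK (rc : List (ℕ × ℕ) → List ℕ → List ℕ → ℕ → Bool) : Prop :=
  ∀ v m X V, rc v m X V = true → FM (mk m (v.map fun u => (u.1 : ℝ) / (u.2 : ℝ))) ≤ (V : ℝ) / 10 ^ 7

theorem rcOK_row : RcOK rowOK := row_sound

/-- the facts of the digits `i0 ≤ i < i1` of a table -/
def Rng (rd ks : List ℕ) (b g c0 TW i0 i1 : ℕ) : Prop :=
  ∀ i, i0 ≤ i → i < i1 → 1 ≤ dg TW i → FctT (vls b g ks) rd ks (b + g) c0 (dg TW i) i

theorem Rng.glue {rd ks : List ℕ} {b g c0 TW i0 i1 i2 : ℕ} (h : Rng rd ks b g c0 TW i0 i1)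
    (h' : Rng rd ks b g c0 TW i1 i2) : Rng rd ks b g c0 TW i0 i2 := by
  intro i h1 h2 h3
  rcases Nat.lt_or_ge i i1 with h4 | h4
  · exact h i h1 h4 h3
  · exact h' i h4 h2 h3

theorem Rng.mono {rd ks : List ℕ} {b g c0 TW i0 i1 j0 j1 : ℕ} (h : Rng rd ks b g c0 TW i0 i1)
    (h0 : i0 ≤ j0) (h1 : j1 ≤ i1) : Rng rd ks b g c0 TW j0 j1 :=
  fun i h2 h3 h4 => h i (h0.trans h2) (h3.trans_le h1) h4

/-- a smaller constant in the maximum -/
theorem Rng.monoC {rd ks : List ℕ} {b g c0 c0' TW i0 i1 : ℕ} (h : Rng rd ks b g c0 TW i0 i1) (hc : c0' ≤ c0) :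
    Rng rd ks b g c0' TW i0 i1 :=
  fun i h1 h2 h3 => ⟨hc.trans (h i h1 h2 h3).1, (h i h1 h2 h3).2⟩

/-! ### the check -/

/-- the loop over the nonzero digits of a block; `b` = index of the lowest digit of `B`, `n` = number of certificates
used so far -/
noncomputable def tabBLr (rc : List (ℕ × ℕ) → List ℕ → List ℕ → ℕ → Bool) (v : List (ℕ × ℕ)) (rd ks : List ℕ)
    (c c0 R R32 msk : ℕ) (f : ℕ) : ℕ → ℕ → ℕ → ℕ → (ℕ → Bool) → Bool :=
  @Nat.rec (fun _ => ℕ → ℕ → ℕ → ℕ → (ℕ → Bool) → Bool) (fun _ B _ n k => cond (Nat.beq B (nat_lit 0)) (k n) false)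
    (fun _ ih b B XC n k => cond (Nat.beq B (nat_lit 0)) (k n)
      (frc (lowD B) fun d => frc (Nat.add b d) fun i => frc (Nat.mul (nat_lit 64) d) fun s =>
        frc (Nat.shiftRight B s) fun B1 =>
        cond (Nat.beq (Nat.shiftLeft B1 s) B)
          (frc (Nat.land B1 (nat_lit 18446744073709551615)) fun D =>
          frc (Nat.land D (nat_lit 4294967295)) fun V =>
          cond (CA.digC rd i fun ns =>
              cond (frc (Nat.land XC msk) fun N => CA.upk R N fun X => rc v (CA.app [1, 1, 1] ns) X V)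
                (cond (Nat.ble c0 V) (frc (ldot ns ks c) fun tt =>
                  Nat.ble (Nat.mul (nat_lit 4) (Nat.shiftRight D (nat_lit 32))) (w4 tt)) false) false)
            (frc (Nat.succ i) fun i' => frc (Nat.shiftRight B1 (nat_lit 64)) fun B' =>
              frc (Nat.shiftRight XC R32) fun XC' => frc (Nat.succ n) fun n' => ih i' B' XC' n' k) false) false)) f

/-- the loop over the blocks -/
noncomputable def tabTLr (rc : List (ℕ × ℕ) → List ℕ → List ℕ → ℕ → Bool) (v : List (ℕ × ℕ)) (rd ks : List ℕ)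
    (c c0 R R32 msk mB mC : ℕ) (f : ℕ) : ℕ → ℕ → ℕ → Bool :=
  @Nat.rec (fun _ => ℕ → ℕ → ℕ → Bool) (fun _ T _ => Nat.beq T (nat_lit 0))
    (fun _ ih b T XS => cond (Nat.beq T (nat_lit 0)) true
      (frc (Nat.land T mB) fun B => frc (Nat.land XS mC) fun XC =>
        tabBLr rc v rd ks c c0 R R32 msk (nat_lit 32) b B XC (nat_lit 0) fun n =>
          frc (Nat.add b (nat_lit 32)) fun b' => frc (Nat.shiftRight T (nat_lit 2048)) fun T' =>
          frc (Nat.shiftRight XS (Nat.mul R32 n)) fun XS' => ih b' T' XS')) f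

/-- THE CHECK OF A RANGE of a table: the digits `i0 ≤ i < i1` of `TW` (`R = 3 + number of knots`; `XS`: certificates of
the nonzero digits OF THE RANGE, `R` words of 32 bits, from the lowest to the highest) -/
noncomputable def tabWr (rc : List (ℕ × ℕ) → List ℕ → List ℕ → ℕ → Bool) (rd ks : List ℕ)
    (b g c0 R TW XS i0 i1 : ℕ) : Bool :=
  cond (Nat.ble (nat_lit 60) (Nat.add b g))
    (frc (Nat.sub i1 i0) fun n => frc (Nat.mul (nat_lit 32) R) fun R32 =>
      frc (Nat.sub (Nat.shiftLeft (nat_lit 1) R32) (nat_lit 1)) fun msk =>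
      frc mBk fun mB =>
      frc (Nat.sub (Nat.shiftLeft (nat_lit 1) (Nat.mul (nat_lit 32) R32)) (nat_lit 1)) fun mC =>
      frc (Nat.land (Nat.shiftRight TW (Nat.mul (nat_lit 64) i0))
        (Nat.sub (Nat.shiftLeft (nat_lit 1) (Nat.mul (nat_lit 64) n)) (nat_lit 1))) fun T =>
        tabTLr rc (vls b g ks) rd ks (Nat.add b g) c0 R R32 msk mB mC n i0 T XS) false

lemma tabBLr_sound {rc : List (ℕ × ℕ) → List ℕ → List ℕ → ℕ → Bool} (hrc : RcOK rc)
    (v : List (ℕ × ℕ)) (rd ks : List ℕ) (c c0 R R32 msk : ℕ) (hc : 60 ≤ c) (f : ℕ) :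
    ∀ b B XC n k, tabBLr rc v rd ks c c0 R R32 msk f b B XC n k = true → (∃ n', k n' = true) ∧
      ∀ j, 1 ≤ dg B j → FctT v rd ks c c0 (dg B j) (b + j) := by
  induction f with
  | zero =>
    intro b B XC n k h
    have e : tabBLr rc v rd ks c c0 R R32 msk 0 b B XC n k = cond (Nat.beq B (nat_lit 0)) (k n) false := rfl
    rw [e] at h
    obtain ⟨h1, h2⟩ := cond_eq_true h
    refine ⟨⟨n, h2⟩, fun j hj => ?_⟩
    have h0 : B = 0 := Nat.eq_of_beq_eq_true h1
    rw [h0, dg_eq, Nat.zero_div] at hj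
    norm_num at hj
  | succ f ih =>
    intro b B XC n k h
    have e : tabBLr rc v rd ks c c0 R R32 msk (f + 1) b B XC n k = cond (Nat.beq B (nat_lit 0)) (k n)
      (frc (lowD B) fun d => frc (Nat.add b d) fun i => frc (Nat.mul (nat_lit 64) d) fun s =>
        frc (Nat.shiftRight B s) fun B1 =>
        cond (Nat.beq (Nat.shiftLeft B1 s) B)
          (frc (Nat.land B1 (nat_lit 18446744073709551615)) fun D =>
          frc (Nat.land D (nat_lit 4294967295)) fun V =>
          cond (CA.digC rd i fun ns =>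
              cond (frc (Nat.land XC msk) fun N => CA.upk R N fun X => rc v (CA.app [1, 1, 1] ns) X V)
                (cond (Nat.ble c0 V) (frc (ldot ns ks c) fun tt =>
                  Nat.ble (Nat.mul (nat_lit 4) (Nat.shiftRight D (nat_lit 32))) (w4 tt)) false) false)
            (frc (Nat.succ i) fun i' => frc (Nat.shiftRight B1 (nat_lit 64)) fun B' =>
              frc (Nat.shiftRight XC R32) fun XC' => frc (Nat.succ n) fun n' =>
                tabBLr rc v rd ks c c0 R R32 msk f i' B' XC' n' k) false) false) := rfl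
    rw [e] at h
    simp only [frc_eq] at h
    cases hb : Nat.beq B (nat_lit 0) with
    | true =>
      rw [hb, cond_true] at h
      refine ⟨⟨n, h⟩, fun j hj => ?_⟩
      have h0 : B = 0 := Nat.eq_of_beq_eq_true hb
      rw [h0, dg_eq, Nat.zero_div] at hj
      norm_num at hj
    | false =>
      rw [hb, cond_false] at h
      obtain ⟨d, hd⟩ : ∃ d, d = lowD B := ⟨_, rfl⟩
      rw [← hd] at h
      obtain ⟨h1, h⟩ := cond_eq_true h
      obtain ⟨h2, h3⟩ := cond_eq_true h
      have h1 : Nat.shiftLeft (Nat.shiftRight B (Nat.mul 64 d)) (Nat.mul 64 d) = B := Nat.eq_of_beq_eq_true h1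
      have e3 : Nat.shiftRight (Nat.shiftRight B (Nat.mul 64 d)) (nat_lit 64) = Nat.shiftRight B (Nat.mul 64 (d + 1)) := by
        show (B >>> (64 * d)) >>> 64 = B >>> (64 * (d + 1))
        rw [← Nat.shiftRight_add]
        congr 1
      have eD : Nat.land (Nat.shiftRight B (Nat.mul 64 d)) (nat_lit 18446744073709551615) = dg B d := rfl
      rw [e3] at h3
      rw [eD] at h2
      obtain ⟨h4, h5⟩ := ih _ _ _ _ _ h3
      refine ⟨h4, fun j hj => ?_⟩
      rcases Nat.lt_trichotomy j d with hlt | rfl | hgt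
      · exfalso
        rw [← h1, dg_shl _ _ _ hlt] at hj
        norm_num at hj
      · rw [CA.digC_eq] at h2
        obtain ⟨h9, h10⟩ := cond_eq_true h2
        obtain ⟨h11, h12⟩ := cond_eq_true h10
        obtain ⟨X, hX⟩ := CA.upk_sound _ _ _ h9
        rw [CA.app_eq] at hX
        refine ⟨Nat.le_of_ble_eq_true h11, hrc _ _ _ _ hX, ?_⟩
        have h13 := Nat.le_of_ble_eq_true h12
        rw [ldot_eq] at h13
        have h14 := w4_le (c + Pk.dotN (CA.dig rd (Nat.add b j)) ks) (by omega)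
        have h15 : (4 : ℝ) * ((Nat.shiftRight (dg B j) 32 : ℕ) : ℝ)
            ≤ (w4 (c + Pk.dotN (CA.dig rd (Nat.add b j)) ks) : ℝ) := by
          exact_mod_cast h13
        refine le_trans ?_ h14
        rw [div_le_div_iff₀ (by norm_num) (by norm_num)]
        nlinarith
      · obtain ⟨e', he'⟩ := Nat.exists_eq_add_of_lt hgt
        have h6 := h5 e' (by
          rw [dg_shr, show e' + (d + 1) = j by omega]
          exact hj)
        rw [dg_shr, show e' + (d + 1) = j by omega] at h6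
        have e4 : Nat.succ (Nat.add b d) + e' = b + j := by
          show b + d + 1 + e' = b + j
          omega
        rw [e4] at h6
        exact h6

lemma tabTLr_sound {rc : List (ℕ × ℕ) → List ℕ → List ℕ → ℕ → Bool} (hrc : RcOK rc)
    (v : List (ℕ × ℕ)) (rd ks : List ℕ) (c c0 R R32 msk mC : ℕ) (hc : 60 ≤ c) (f : ℕ) :
    ∀ b T XS, tabTLr rc v rd ks c c0 R R32 msk mBk mC f b T XS = true → ∀ j, 1 ≤ dg T j →
      FctT v rd ks c c0 (dg T j) (b + j) := by
  induction f with
  | zero =>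
    intro b T XS h j hj
    have h0 : T = 0 := Nat.eq_of_beq_eq_true h
    rw [h0, dg_eq, Nat.zero_div] at hj
    norm_num at hj
  | succ f ih =>
    intro b T XS h j hj
    have e : tabTLr rc v rd ks c c0 R R32 msk mBk mC (f + 1) b T XS = cond (Nat.beq T (nat_lit 0)) true
      (frc (Nat.land T mBk) fun B => frc (Nat.land XS mC) fun XC =>
        tabBLr rc v rd ks c c0 R R32 msk (nat_lit 32) b B XC (nat_lit 0) fun n =>
          frc (Nat.add b (nat_lit 32)) fun b' => frc (Nat.shiftRight T (nat_lit 2048)) fun T' =>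
          frc (Nat.shiftRight XS (Nat.mul R32 n)) fun XS' =>
            tabTLr rc v rd ks c c0 R R32 msk mBk mC f b' T' XS') := rfl
    rw [e] at h
    simp only [frc_eq] at h
    cases hb : Nat.beq T (nat_lit 0) with
    | true =>
      have h0 : T = 0 := Nat.eq_of_beq_eq_true hb
      rw [h0, dg_eq, Nat.zero_div] at hj
      norm_num at hj
    | false =>
      rw [hb, cond_false] at h
      obtain ⟨⟨n, h1⟩, h2⟩ := tabBLr_sound hrc _ _ _ _ _ _ _ _ hc _ _ _ _ _ _ h
      rcases Nat.lt_or_ge j 32 with h3 | h3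
      · have h4 := h2 j (by rw [dg_blk T j h3]; exact hj)
        rw [dg_blk T j h3] at h4
        exact h4
      · obtain ⟨e', rfl⟩ := Nat.exists_eq_add_of_le h3
        have e3 : Nat.shiftRight T (nat_lit 2048) = Nat.shiftRight T (Nat.mul 64 32) := rfl
        rw [e3] at h1
        have h4 := ih _ _ _ h1 e' (by
          rw [dg_shr, show e' + 32 = 32 + e' by ring]
          exact hj)
        rw [dg_shr, show e' + 32 = 32 + e' by ring] at h4
        have e4 : Nat.add b 32 + e' = b + (32 + e') := by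
          show b + 32 + e' = b + (32 + e')
          ring
        rw [e4] at h4
        exact h4

/-- the lowest `n` digits -/
lemma dg_cut (T n j : ℕ) (h : j < n) :
    dg (Nat.land T (Nat.sub (Nat.shiftLeft (nat_lit 1) (Nat.mul 64 n)) (nat_lit 1))) j = dg T j := by
  refine Nat.eq_of_testBit_eq fun l => ?_
  have e0 : Nat.sub (Nat.shiftLeft (nat_lit 1) (Nat.mul 64 n)) (nat_lit 1) = 2 ^ (64 * n) - 1 := by
    show (1 <<< (64 * n)) - 1 = 2 ^ (64 * n) - 1
    rw [Nat.one_shiftLeft]
  have e1 : Nat.land T (2 ^ (64 * n) - 1) = T &&& (2 ^ (64 * n) - 1) := rfl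
  rw [e0, e1, testBit_dg, testBit_dg, Nat.testBit_and, Nat.testBit_two_pow_sub_one]
  rcases Nat.lt_or_ge l 64 with h1 | h1
  · rw [decide_eq_true (show 64 * j + l < 64 * n by omega), Bool.and_true]
  · rw [decide_eq_false (show ¬ l < 64 by omega), Bool.false_and, Bool.false_and]

/-- SOUNDNESS of the check of a range. -/
theorem tabWr_sound {rc : List (ℕ × ℕ) → List ℕ → List ℕ → ℕ → Bool} (hrc : RcOK rc) {rd ks : List ℕ}
    {b g c0 R TW XS i0 i1 : ℕ} (h : tabWr rc rd ks b g c0 R TW XS i0 i1 = true) : Rng rd ks b g c0 TW i0 i1 := by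
  unfold tabWr at h
  obtain ⟨h3, h⟩ := cond_eq_true h
  simp only [frc_eq] at h
  have h4 := tabTLr_sound hrc _ _ _ _ _ _ _ _ _ (Nat.le_of_ble_eq_true h3) _ _ _ _ h
  intro i h5 h6 h7
  obtain ⟨j, rfl⟩ := Nat.exists_eq_add_of_le h5
  have h8 : j < Nat.sub i1 i0 := by
    show j < i1 - i0
    omega
  have h9 := h4 j
  rw [dg_cut _ _ _ h8, dg_shr, show j + i0 = i0 + j by ring] at h9
  exact h9 h7

/-- all the digits of a table -/
theorem rowT_of_rng {rd ks : List ℕ} {b g c0 TW : ℕ} (h : Rng rd ks b g c0 TW 0 (prd rd)) :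
    RowT rd ks b g c0 (loT (prd rd) TW) (hiT (prd rd) TW) := by
  have h4 : ∀ j < prd rd, 1 ≤ dg TW j → FctT (vls b g ks) rd ks (b + g) c0 (dg TW j) j :=
    fun j hj hp => h j (Nat.zero_le _) hj hp
  have ev : (vls b g ks).map (fun u => (u.1 : ℝ) / (u.2 : ℝ))
      = 1 :: (b : ℝ) / 200 :: (g : ℝ) / 200 :: ks.map fun k : ℕ => (k : ℝ) / 200 := by
    unfold vls
    simp only [List.map_cons, List.map_map]
    norm_num
  unfold FctT at h4
  rw [ev] at h4
  have h5 : ∀ i < prd rd, 1 ≤ dg (loT (prd rd) TW) i → 1 ≤ dg TW i := by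
    intro i hi hp
    rw [dg_lo _ _ _ hi] at hp
    have h6 : Nat.land (dg TW i) 4294967295 ≤ dg TW i := Nat.and_le_left
    omega
  refine ⟨lo_lt _ _, hi_lt _ _, ?_, ?_, ?_, ?_, ?_⟩
  · intro i hi
    rw [dg_lo _ _ _ hi]
    exact land32_lt _
  · intro i hi
    rw [dg_hi _ _ _ hi]
    exact dgs_lt _ _
  · intro i hi hp
    have := (h4 i hi (h5 i hi hp)).1
    rw [dg_lo _ _ _ hi]
    exact this
  · intro i hi hp
    have := (h4 i hi (h5 i hi hp)).2.1
    rw [dg_lo _ _ _ hi]
    exact this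
  · intro i hi hp
    have := (h4 i hi (h5 i hi hp)).2.2
    rw [dg_hi _ _ _ hi]
    exact this

/-- all the digits of a table, `N` = the number of digits as a literal (`hN` by `rfl` or `by decide`) -/
theorem rowT_of_rngN {rd ks : List ℕ} {b g c0 TW N : ℕ} (hN : prd rd = N) (h : Rng rd ks b g c0 TW 0 N) :
    RowT rd ks b g c0 (loT (prd rd) TW) (hiT (prd rd) TW) := by
  subst hN
  exact rowT_of_rng h

end PkA
end Pool.Agent.Lib.MP_6947cd_al
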