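import Pool.Agent.Lib.MP_6947cd_al.Y.Tab

/-!
Problem MP_6947cd_al (Chollet).  The certified table of the row `i`: entries `1, h, t, x` and a concentrated rest
(one free entry `s mod m` and `s / m` entries `m`, unit `1/200`), `s = 0 .. 160`.
-/

set_option autoImplicit false
open Finset

namespace Pool.Agent.Lib.MP_6947cd_al
namespace PkA

open Ent Ent.Pk Fr Fr.WT B1

/-- a certified table of the row `i` -/
structure RowI (m h t x TI : ℕ) : Prop where
  lt : TI < 2 ^ (64 * 161)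
  dT : ∀ s < 161, dg TI s < 2 ^ 32
  hF : ∀ s < 161, 1 ≤ dg TI s → FM (1 ::ₘ (h : ℝ) / 200 ::ₘ (t : ℝ) / 200 ::ₘ (x : ℝ) / 200
    ::ₘ ((s % m : ℕ) : ℝ) / 200 ::ₘ Multiset.replicate (s / m) ((m : ℝ) / 200)) ≤ (dg TI s : ℝ) / 10 ^ 7

/-- value and multiplicity of an entry which may be `0` -/
noncomputable def opt (x : ℕ) (k : ℕ → ℕ → Bool) : Bool :=
  cond (Nat.beq x (nat_lit 0)) (k (nat_lit 1) (nat_lit 0)) (k x (nat_lit 1))

/-- one row -/
noncomputable def oneI (m h t x i V N : ℕ) : Bool :=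
  opt x fun x' ex => frc (Nat.mod i m) fun r => opt r fun r' er => frc (Nat.div i m) fun q =>
    CA.upk (nat_lit 6) N fun X =>
      rowOK [(1, 1), (h, 200), (t, 200), (x', 200), (m, 200), (r', 200)] [1, 1, 1, ex, q, er] X V

/-- the loop -/
noncomputable def tabIL (m h t x TI msk : ℕ) (f : ℕ) : ℕ → ℕ → Bool :=
  @Nat.rec (fun _ => ℕ → ℕ → Bool) (fun _ _ => true)
    (fun _ ih i XS => frc (dg TI i) fun V =>
      cond (Nat.beq (Nat.shiftRight V (nat_lit 32)) (nat_lit 0))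
        (cond (Nat.beq V (nat_lit 0)) (frc (Nat.succ i) fun i' => ih i' XS)
          (cond (frc (Nat.land XS msk) fun N => oneI m h t x i V N)
            (frc (Nat.succ i) fun i' => frc (Nat.shiftRight XS (nat_lit 192)) fun XS' => ih i' XS')
            false)) false) f

/-- THE CHECK of the table: `XS` = stream of certificates (6 digits of 32 bits for every nonzero digit) -/
noncomputable def tabI (m h t x TI XS : ℕ) : Bool :=
  cond (Nat.beq (Nat.shiftRight TI (nat_lit 10304)) (nat_lit 0))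
    (frc (Nat.sub (Nat.shiftLeft (nat_lit 1) (nat_lit 192)) (nat_lit 1)) fun msk =>
      tabIL m h t x TI msk (nat_lit 161) (nat_lit 0) XS) false

lemma opt_sound {x : ℕ} {k : ℕ → ℕ → Bool} (h : opt x k = true) :
    ∃ x' ex, k x' ex = true ∧ ∀ s : Multiset ℝ,
      FM ((x : ℝ) / 200 ::ₘ s) = FM (Multiset.replicate ex ((x' : ℝ) / 200) + s) := by
  unfold opt at h
  cases hb : Nat.beq x (nat_lit 0) with
  | true =>
    rw [hb, cond_true] at h
    have hx : x = 0 := Nat.eq_of_beq_eq_true hb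
    refine ⟨1, 0, h, fun s => ?_⟩
    rw [hx, Multiset.replicate_zero, zero_add]
    have e : ((0 : ℕ) : ℝ) / 200 = 0 := by norm_num
    rw [e, FM_zero_cons]
  | false =>
    rw [hb, cond_false] at h
    refine ⟨x, 1, h, fun s => ?_⟩
    rw [Multiset.replicate_one, Multiset.singleton_add]

lemma oneI_sound {m h t x i V N : ℕ} (hc : oneI m h t x i V N = true) :
    FM (1 ::ₘ (h : ℝ) / 200 ::ₘ (t : ℝ) / 200 ::ₘ (x : ℝ) / 200
    ::ₘ ((i % m : ℕ) : ℝ) / 200 ::ₘ Multiset.replicate (i / m) ((m : ℝ) / 200)) ≤ (V : ℝ) / 10 ^ 7 := by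
  unfold oneI at hc
  obtain ⟨x', ex, hc, hx⟩ := opt_sound hc
  rw [frc_eq] at hc
  obtain ⟨r', er, hc, hr⟩ := opt_sound hc
  rw [frc_eq] at hc
  obtain ⟨X, hX⟩ := CA.upk_sound _ _ _ hc
  have h1 := row_sound _ _ _ _ hX
  refine le_trans (le_of_eq ?_) h1
  have e1 : (1 ::ₘ (h : ℝ) / 200 ::ₘ (t : ℝ) / 200 ::ₘ (x : ℝ) / 200
      ::ₘ ((i % m : ℕ) : ℝ) / 200 ::ₘ Multiset.replicate (i / m) ((m : ℝ) / 200))
      = (x : ℝ) / 200 ::ₘ (1 ::ₘ (h : ℝ) / 200 ::ₘ (t : ℝ) / 200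
      ::ₘ ((i % m : ℕ) : ℝ) / 200 ::ₘ Multiset.replicate (i / m) ((m : ℝ) / 200)) := by
    simp only [← Multiset.singleton_add]
    abel
  rw [e1, hx]
  have e2 : (Multiset.replicate ex ((x' : ℝ) / 200) + (1 ::ₘ (h : ℝ) / 200 ::ₘ (t : ℝ) / 200
      ::ₘ ((i % m : ℕ) : ℝ) / 200 ::ₘ Multiset.replicate (i / m) ((m : ℝ) / 200)))
      = ((i % m : ℕ) : ℝ) / 200 ::ₘ (Multiset.replicate ex ((x' : ℝ) / 200) + (1 ::ₘ (h : ℝ) / 200 ::ₘ (t : ℝ) / 200
      ::ₘ Multiset.replicate (i / m) ((m : ℝ) / 200))) := by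
    simp only [← Multiset.singleton_add]
    abel
  rw [e2]
  have e3 : ((i % m : ℕ) : ℝ) = ((Nat.mod i m : ℕ) : ℝ) := rfl
  rw [e3, hr]
  have e4 : ([(1, 1), (h, 200), (t, 200), (x', 200), (m, 200), (r', 200)] : List (ℕ × ℕ)).map
      (fun u => (u.1 : ℝ) / (u.2 : ℝ)) = [1, (h : ℝ) / 200, (t : ℝ) / 200, (x' : ℝ) / 200, (m : ℝ) / 200,
        (r' : ℝ) / 200] := by
    simp
  rw [e4]
  have e5 : mk [1, 1, 1, ex, Nat.div i m, er] [1, (h : ℝ) / 200, (t : ℝ) / 200, (x' : ℝ) / 200, (m : ℝ) / 200,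
        (r' : ℝ) / 200] = {1} + ({(h : ℝ) / 200} + ({(t : ℝ) / 200} + (Multiset.replicate ex ((x' : ℝ) / 200)
    + (Multiset.replicate (i / m) ((m : ℝ) / 200) + (Multiset.replicate er ((r' : ℝ) / 200) + 0))))) := by
    simp only [Ent.mk_cons, Ent.mk_nil, Multiset.replicate_one]
    rfl
  rw [e5]
  congr 1
  simp only [← Multiset.singleton_add]
  abel

lemma tabIL_sound (m h t x TI msk : ℕ) (f : ℕ) : ∀ i0 XS, tabIL m h t x TI msk f i0 XS = true →
    ∀ i, i0 ≤ i → i < i0 + f → dg TI i < 2 ^ 32 ∧ (1 ≤ dg TI i →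
      FM (1 ::ₘ (h : ℝ) / 200 ::ₘ (t : ℝ) / 200 ::ₘ (x : ℝ) / 200
      ::ₘ ((i % m : ℕ) : ℝ) / 200 ::ₘ Multiset.replicate (i / m) ((m : ℝ) / 200)) ≤ (dg TI i : ℝ) / 10 ^ 7) := by
  induction f with
  | zero => intro i0 XS _ i h1 h2; omega
  | succ f ih =>
    intro i0 XS hh i h1 h2
    have e : tabIL m h t x TI msk (f + 1) i0 XS = frc (dg TI i0) fun V =>
      cond (Nat.beq (Nat.shiftRight V (nat_lit 32)) (nat_lit 0))
        (cond (Nat.beq V (nat_lit 0)) (frc (Nat.succ i0) fun i' => tabIL m h t x TI msk f i' XS)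
          (cond (frc (Nat.land XS msk) fun N => oneI m h t x i0 V N)
            (frc (Nat.succ i0) fun i' => frc (Nat.shiftRight XS (nat_lit 192)) fun XS' =>
              tabIL m h t x TI msk f i' XS')
            false)) false := rfl
    rw [e] at hh
    simp only [frc_eq] at hh
    obtain ⟨h3, h4⟩ := cond_eq_true hh
    have h5 := shift_zero h3
    cases hb : Nat.beq (dg TI i0) (nat_lit 0) with
    | true =>
      rw [hb, cond_true] at h4
      rcases Nat.eq_or_lt_of_le h1 with rfl | hlt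
      · refine ⟨h5, fun h7 => ?_⟩
        have h8 : dg TI i0 = 0 := Nat.eq_of_beq_eq_true hb
        omega
      · exact ih _ _ h4 i hlt (by omega)
    | false =>
      rw [hb, cond_false] at h4
      obtain ⟨h7, h8⟩ := cond_eq_true h4
      rcases Nat.eq_or_lt_of_le h1 with rfl | hlt
      · exact ⟨h5, fun _ => oneI_sound h7⟩
      · exact ih _ _ h8 i hlt (by omega)

/-- soundness of the table of the row `i` -/
theorem tabI_sound {m h t x TI XS : ℕ} (hh : tabI m h t x TI XS = true) : RowI m h t x TI := by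
  unfold tabI at hh
  obtain ⟨h1, hh⟩ := cond_eq_true hh
  rw [frc_eq] at hh
  have h2 := tabIL_sound _ _ _ _ _ _ _ _ _ hh
  exact ⟨shift_zero h1, fun i hi => (h2 i (Nat.zero_le _) (by show i < 0 + 161; omega)).1,
    fun i hi => (h2 i (Nat.zero_le _) (by show i < 0 + 161; omega)).2⟩

end PkA
end Pool.Agent.Lib.MP_6947cd_al
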