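import Pool.Agent.Lib.MP_6947cd_al.Y.SpecR

/-!
Problem MP_6947cd_al (Chollet).  SpecR4 - SpecR8: concentration, class constraints, interpolation, prices.
-/

set_option autoImplicit false
open Finset

namespace Pool.Agent.Lib.MP_6947cd_al
namespace B1

open Ent Fr Fr.WT

namespace R4M

/-- one step of the interpolation -/
lemma ipl_cons (a va k v : ℝ) (ks vs : List ℝ) (u : ℝ) : ipl a va (k :: ks) (v :: vs) u
    = if u ≤ k then va + (v - va) / (k - a) * (u - a) else ipl k v ks vs u := rfl

lemma ipl_left (a va : ℝ) (ks vs : List ℝ) (h : Inc a ks) (hl : vs.length = ks.length) : ipl a va ks vs a = va := by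
  cases ks with
  | nil => cases vs <;> rfl
  | cons k ks =>
    cases vs with
    | nil => simp at hl
    | cons v vs =>
      rw [ipl_cons, if_pos h.1.le]
      ring

lemma aff_congr {φ ψ : ℝ → ℝ} (ks : List ℝ) : ∀ a, Inc a ks → (∀ x, a ≤ x → φ x = ψ x) → Aff φ a ks → Aff ψ a ks := by
  induction ks with
  | nil => intro a _ _ _; trivial
  | cons k ks ih =>
    intro a hi h hA
    obtain ⟨⟨α, β, h1⟩, h2⟩ := hA
    refine ⟨⟨α, β, fun x hx1 hx2 => ?_⟩, ih k hi.2 (fun x hx => h x (hi.1.le.trans hx)) h2⟩
    rw [← h x hx1, h1 x hx1 hx2]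

end R4M

open R4M

/-- **R7.** -/
theorem specR7 : SpecR7 := by
  intro ks
  induction ks with
  | nil =>
    intro vs a va h hl
    refine ⟨trivial, ipl_left a va [] vs h hl, fun n hn => absurd hn (by simp)⟩
  | cons k ks ih =>
    intro vs a va h hl
    cases vs with
    | nil => simp at hl
    | cons v vs =>
      obtain ⟨i1, i2, i3⟩ := ih vs k v h.2 (by simpa using hl)
      have hk : 0 < k - a := by linarith [h.1]
      have hk1 : va + (v - va) / (k - a) * (k - a) = v := by
        rw [div_mul_cancel₀ _ hk.ne']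
        ring
      refine ⟨⟨⟨(v - va) / (k - a), va - (v - va) / (k - a) * a, fun x _ hx => ?_⟩, ?_⟩, ipl_left _ _ _ _ h hl, ?_⟩
      · rw [ipl_cons, if_pos hx]
        ring
      · refine aff_congr ks k h.2 (fun x hx => ?_) i1
        rw [ipl_cons]
        split_ifs with h1
        · have : x = k := le_antisymm h1 hx
          subst this
          rw [i2, hk1]
        · rfl
      · intro n hn
        cases n with
        | zero =>
          show ipl a va (k :: ks) (v :: vs) k = v
          rw [ipl_cons, if_pos le_rfl, hk1]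
        | succ n =>
          have hn' : n < ks.length := by simpa using hn
          have hgt : ∀ (l : List ℝ) (b : ℝ), Inc b l → ∀ m (hm : m < l.length), b < l[m] := by
            intro l
            induction l with
            | nil => intro b _ m hm; exact absurd hm (by simp)
            | cons c l ihl =>
              intro b hb m hm
              cases m with
              | zero => exact hb.1
              | succ m => exact hb.1.trans (ihl c hb.2 m (by simpa using hm))
          have h1 := hgt ks k h.2 n hn'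
          show ipl a va (k :: ks) (v :: vs) ks[n] = vs.getD n 0
          rw [ipl_cons, if_neg (not_le.mpr h1)]
          exact i3 n hn'

/-- **R6.** -/
theorem specR6 : SpecR6 := by
  intro ks
  induction ks with
  | nil =>
    intro a _ u h1 h2
    have : u = a := le_antisymm h2 h1
    subst this
    exact le_rfl
  | cons k ks ih =>
    intro a h u h1 h2
    rw [List.map_cons, ipl_cons]
    split_ifs with h3
    · have hk : 0 < k - a := by linarith [h.1]
      have e : omg a + (omg k - omg a) / (k - a) * (u - a) - omg u = 39 / 200 * ((u - a) * (k - u)) := by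
        unfold omg
        field_simp
        ring
      have : 0 ≤ (u - a) * (k - u) := mul_nonneg (by linarith) (by linarith)
      linarith
    · exact ih k h.2 u (not_le.mp h3).le h2

/-- **R8.** -/
theorem specR8 (hG : SpecG1) : SpecR8 := by
  intro h0 ks
  induction ks with
  | nil => intro vs a va _ _ _ hne; exact absurd rfl hne
  | cons k ks ih =>
    intro vs a va hh0 ha hi _ hl hpr h s u hh h1 s0 s1 hau hut hu1 ht
    cases vs with
    | nil => simp at hl
    | cons v vs =>
      rw [ipl_cons]
      have hk : 0 < k - a := by linarith [hi.1]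
      have hu0 : 0 ≤ u := ha.trans hau
      split_ifs with h3
      · obtain ⟨hp, -⟩ := hpr
        set t := (u - a) / (k - a) with htd
        have t0 : 0 ≤ t := div_nonneg (by linarith) hk.le
        have t1 : t ≤ 1 := by rw [htd, div_le_one hk]; linarith
        have eu : u = a + t * (k - a) := by rw [htd, div_mul_cancel₀ _ hk.ne']; ring
        have ei : va + (v - va) / (k - a) * (u - a) = va + t * (v - va) := by
          rw [htd]; ring
        rw [ei]
        rcases hp with ⟨h4, h5⟩ | ⟨μ, h4, h5, h6⟩
        · have : va + t * (v - va) = (1 - t) * va + t * v := by ring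
          rw [this]
          have := mul_nonpos_of_nonneg_of_nonpos (by linarith : (0 : ℝ) ≤ 1 - t) h4
          have := mul_nonpos_of_nonneg_of_nonpos t0 h5
          linarith
        · have h7 := hG μ h0 h s u h4 hh0 hh h1 s0 s1 hu0 hu1 ht
          have h8 := mul_le_mul_of_nonneg_left h5 (by linarith : (0 : ℝ) ≤ 1 - t)
          have h9 := mul_le_mul_of_nonneg_left h6 t0
          have h10 : (va + t * (v - va)) * (μ - 1) ≤ s * (μ - 1) := by
            have e1 : u * (1 - h0 / μ) = (1 - t) * (a * (1 - h0 / μ)) + t * (k * (1 - h0 / μ)) := by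
              rw [eu]; ring
            have e2 : (va + t * (v - va)) * (μ - 1) = (1 - t) * (va * (μ - 1)) + t * (v * (μ - 1)) := by ring
            have e3 : (1 - t) * (a * (1 - h0 / μ) - (1 - h0)) + t * (k * (1 - h0 / μ) - (1 - h0))
              = (1 - t) * (a * (1 - h0 / μ)) + t * (k * (1 - h0 / μ)) - (1 - h0) := by ring
            linarith
          exact le_of_mul_le_mul_right h10 (by linarith)
      · obtain ⟨-, hp⟩ := hpr
        have hne : ks ≠ [] := by
          rintro rfl
          exact h3 hut
        exact ih vs k v hh0 (ha.trans hi.1.le) hi.2 hne (by simpa using hl) hp h s u hh h1 s0 s1 (not_le.mp h3).le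
          hut hu1 ht

namespace R4M

/-- the squares are at most as if the entries were concentrated -/
lemma sq_conc (m : ℝ) (hm : 0 < m) (M : Multiset ℝ) : (∀ e ∈ M, 0 ≤ e ∧ e ≤ m) → ∀ q : ℕ, q * m ≤ M.sum →
    M.sum ≤ (q + 1) * m → (M.map fun e => e ^ 2).sum ≤ (M.sum - q * m) ^ 2 + q * m ^ 2 := by
  induction M using Multiset.induction_on with
  | empty =>
    intro _ q h1 _
    have hq : (0 : ℝ) ≤ q * m ^ 2 := by positivity
    simp only [Multiset.map_zero, Multiset.sum_zero]
    nlinarith [sq_nonneg (0 - (q : ℝ) * m)]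
  | cons e M ih =>
    intro hM q h1 h2
    have he := hM e (Multiset.mem_cons_self _ _)
    have ih' := ih fun z hz => hM z (Multiset.mem_cons_of_mem hz)
    rw [Multiset.sum_cons] at h1 h2 ⊢
    rw [Multiset.map_cons, Multiset.sum_cons]
    rcases le_or_gt ((q : ℝ) * m) M.sum with h3 | h3
    · have h4 := ih' q h3 (by linarith [he.1])
      nlinarith [mul_nonneg he.1 (show 0 ≤ M.sum - q * m by linarith)]
    · cases q with
      | zero =>
        exfalso
        have : 0 ≤ M.sum := Multiset.sum_nonneg fun z hz => (hM z (Multiset.mem_cons_of_mem hz)).1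
        simp only [Nat.cast_zero, zero_mul] at h3
        linarith
      | succ q =>
        push_cast at h1 h2 h3 ⊢
        have h4 := ih' q (by linarith [he.2]) (by linarith)
        have h5 : 0 ≤ (m - (M.sum - q * m)) * (m - e) := mul_nonneg (by linarith) (by linarith [he.2])
        nlinarith

lemma om_eq (M : Multiset ℝ) : Om M = 43 / 200 * M.sum + 39 / 200 * (M.map fun e => e ^ 2).sum := by
  unfold Om
  induction M using Multiset.induction_on with
  | empty => simp
  | cons e M ih =>
    rw [Multiset.map_cons, Multiset.sum_cons, Multiset.sum_cons, Multiset.map_cons, Multiset.sum_cons, ih]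
    unfold omg
    ring

end R4M

open R4M in
/-- **R4.** -/
theorem specR4 : SpecR4 := by
  intro S M m q h1 hS hm hm1 hM hq1 hq2
  refine ⟨?_, ?_⟩
  · have hinc : Inc 0 [m] := ⟨hm, hm1⟩
    obtain ⟨c, ns, fs, M', r1, r2, -, r4⟩ := reduce [m] 0 le_rfl hinc S M h1 hS hM
    have e1 : S + (Multiset.replicate c 0 + M') = Multiset.replicate c 0 + (S + M') := by abel
    rw [e1, FM_zero_add] at r2
    refine r2.trans (le_of_eq ?_)
    rw [mul_zero, zero_add] at r4
    cases ns with
    | nil => exact absurd r1 (by simp [Red])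
    | cons n ns =>
      cases fs with
      | nil => exact absurd r1 (by simp [Red])
      | cons f fs =>
        obtain ⟨M2, r, r5, r6, r7⟩ := r1
        have hns : M2 = 0 := by
          cases ns with
          | nil =>
            cases fs with
            | nil => exact r5
            | cons _ _ => exact absurd r5 (by simp [Red])
          | cons _ _ => exact absurd r5 (by simp [Red])
        subst hns
        rw [add_zero] at r7
        have hsr : (Multiset.replicate n m).sum = n * m := by
          rw [Multiset.sum_replicate, nsmul_eq_mul]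
        cases f with
        | true =>
          obtain ⟨x, x1, x2, rfl⟩ := r6
          have hsum : M.sum = x + n * m := by
            rw [r4, r7, Multiset.sum_add, Multiset.sum_singleton, hsr]
          have hnq : n = q := by
            rcases Nat.lt_trichotomy n q with h | h | h
            · exfalso
              have h' : ((n : ℝ) + 1) ≤ q := by exact_mod_cast h
              have := mul_le_mul_of_nonneg_right h' hm.le
              nlinarith
            · exact h
            · exfalso
              have h' : ((q : ℝ) + 1) ≤ n := by exact_mod_cast h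
              have := mul_le_mul_of_nonneg_right h' hm.le
              nlinarith
          subst hnq
          have e2 : M.sum - n * m = x := by rw [hsum]; ring
          rw [e2, r7, Multiset.singleton_add]
        | false =>
          have r6 : r = 0 := r6
          subst r6
          rw [zero_add] at r7
          have hsum : M.sum = n * m := by rw [r4, r7, hsr]
          have hnq : n = q ∨ n = q + 1 := by
            rcases Nat.lt_or_ge n q with h | h
            · exfalso
              have h' : ((n : ℝ) + 1) ≤ q := by exact_mod_cast h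
              have := mul_le_mul_of_nonneg_right h' hm.le
              nlinarith
            · rcases Nat.lt_or_ge (q + 1) n with h2 | h2
              · exfalso
                have h' : ((q : ℝ) + 1 + 1) ≤ n := by exact_mod_cast h2
                have := mul_le_mul_of_nonneg_right h' hm.le
                nlinarith
              · omega
          rcases hnq with rfl | rfl
          · have e2 : M.sum - n * m = 0 := by rw [hsum]; ring
            rw [e2, r7]
            have e3 : S + 0 ::ₘ Multiset.replicate n m = 0 ::ₘ (S + Multiset.replicate n m) := by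
              rw [Multiset.add_cons]
            rw [e3, FM_zero_cons]
          · have e2 : M.sum - q * m = m := by rw [hsum]; push_cast; ring
            rw [e2, r7, Multiset.replicate_succ]
  · rw [om_eq]
    have := sq_conc m hm M hM q hq1 hq2
    linarith

namespace R4M

/-- the contribution of a payer -/
lemma pay {h h0 β κ D M R : ℝ} (hh0 : 0 < h0) (hh : h0 ≤ h) (h1 : h ≤ 1) (hβ : 0 ≤ β) (hκ : 0 ≤ κ) (hD : 0 < D)
    (hM : 0 ≤ M) (hR : 0 ≤ R) (hb : β * (4 - h0) ≤ 3 * h0 * κ) :
    β * (D * (4 * h - h ^ 2) + 4 * R * M) ≤ 3 * h ^ 2 * (κ * (D + R * M * (4 / (4 * h0 - h0 ^ 2)))) := by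
  have hh' : 0 < h := hh0.trans_le hh
  have hq : 0 < 4 * h0 - h0 ^ 2 := by nlinarith
  have a1 : β * (4 - h) ≤ 3 * h * κ := by nlinarith
  have a2 : β * (4 * h - h ^ 2) ≤ 3 * h ^ 2 * κ := by nlinarith
  have a3 : β * (4 * h0 - h0 ^ 2) ≤ 3 * h ^ 2 * κ := by
    have b1 : β * (4 * h0 - h0 ^ 2) ≤ 3 * h0 ^ 2 * κ := by nlinarith
    have b2 : h0 ^ 2 * κ ≤ h ^ 2 * κ := mul_le_mul_of_nonneg_right (pow_le_pow_left₀ hh0.le hh 2) hκ
    linarith
  have a4 : 4 * β ≤ 3 * h ^ 2 * κ * (4 / (4 * h0 - h0 ^ 2)) := by
    rw [mul_div_assoc', le_div_iff₀ hq]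
    linarith
  have a5 := mul_le_mul_of_nonneg_left a2 hD.le
  have a6 := mul_le_mul_of_nonneg_left a4 (mul_nonneg hR hM)
  have e : 3 * h ^ 2 * (κ * (D + R * M * (4 / (4 * h0 - h0 ^ 2)))) = D * (3 * h ^ 2 * κ)
      + R * M * (3 * h ^ 2 * κ * (4 / (4 * h0 - h0 ^ 2))) := by ring
  rw [e]
  have e2 : β * (D * (4 * h - h ^ 2) + 4 * R * M) = D * (β * (4 * h - h ^ 2)) + R * M * (4 * β) := by ring
  rw [e2]
  linarith

/-- one payer -/
lemma pay1 {h h0 β κ D M R d : ℝ} (hh0 : 0 < h0) (hh : h0 ≤ h) (h1 : h ≤ 1) (hβ : 0 ≤ β) (hκ : 0 ≤ κ) (hD : 0 < D)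
    (hM : 0 ≤ M) (hR : 0 ≤ R) (hb : β * (4 - h0) ≤ 3 * h0 * κ)
    (hp : 3 * h ^ 2 * (-d) < D * (4 * h - h ^ 2) + 4 * R * M) :
    β * (-d) ≤ κ * (D + R * M * (4 / (4 * h0 - h0 ^ 2))) := by
  have hh' : 0 < h := hh0.trans_le hh
  have h3 : 0 < 3 * h ^ 2 := by positivity
  have a1 := pay hh0 hh h1 hβ hκ hD hM hR hb
  have a2 := mul_le_mul_of_nonneg_left hp.le hβ
  have a3 : 3 * h ^ 2 * (β * (-d)) ≤ 3 * h ^ 2 * (κ * (D + R * M * (4 / (4 * h0 - h0 ^ 2)))) := by
    have e : 3 * h ^ 2 * (β * (-d)) = β * (3 * h ^ 2 * (-d)) := by ring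
    rw [e]
    linarith
  exact le_of_mul_le_mul_left a3 h3

/-- a payer with the share `A` -/
lemma payA {h h0 β κ D M R d A : ℝ} (hh0 : 0 < h0) (hh : h0 ≤ h) (h1 : h ≤ 1) (hβ : 0 ≤ β) (hκ : 0 ≤ κ) (hD : 0 < D)
    (hM : 0 ≤ M) (hR : 0 ≤ R) (hb : β * (4 - h0) ≤ 3 * h0 * κ) (hA : 0 ≤ A)
    (hp : 3 * h ^ 2 * (-d) = A * (D * (4 * h - h ^ 2) + 4 * R * M)) :
    β * (-d) ≤ A * (κ * (D + R * M * (4 / (4 * h0 - h0 ^ 2)))) := by
  have hh' : 0 < h := hh0.trans_le hh
  have h3 : 0 < 3 * h ^ 2 := by positivity
  have a1 := mul_le_mul_of_nonneg_left (pay hh0 hh h1 hβ hκ hD hM hR hb) hA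
  have a3 : 3 * h ^ 2 * (β * (-d)) ≤ 3 * h ^ 2 * (A * (κ * (D + R * M * (4 / (4 * h0 - h0 ^ 2))))) := by
    have e : 3 * h ^ 2 * (β * (-d)) = A * (β * (D * (4 * h - h ^ 2) + 4 * R * M)) := by
      have : 3 * h ^ 2 * (β * (-d)) = β * (3 * h ^ 2 * (-d)) := by ring
      rw [this, hp]
      ring
    rw [e]
    linarith
  exact le_of_mul_le_mul_left a3 h3

end R4M

open R4M in
/-- **R5.** -/
theorem specR5 : SpecR5 := by
  intro bj bk h t x S D dj dk K KJ KK βj βk Γ R2 Rj Rk h0 t0 hh0 ht0 hh ht h1 t1 hth hx hS hD hK hKJ hKK hβj hβk hΓ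
    hR2 hRj hRk cj ck pj pk hG sj sk yj yk y2
  obtain ⟨M, hM⟩ : ∃ M, M = max D (1 / 1000) := ⟨_, rfl⟩
  have hM0 : 0 ≤ M := by rw [hM]; exact le_trans (by norm_num) (le_max_right _ _)
  rw [← hM]
  have hqh : 0 < 4 * h0 - h0 ^ 2 := by nlinarith
  have hqt : 0 < 4 * t0 - t0 ^ 2 := by nlinarith
  obtain ⟨qh, eqh⟩ : ∃ qh, qh = 4 / (4 * h0 - h0 ^ 2) := ⟨_, rfl⟩
  obtain ⟨qt, eqt⟩ : ∃ qt, qt = 4 / (4 * t0 - t0 ^ 2) := ⟨_, rfl⟩
  have qh0 : 0 < qh := by rw [eqh]; positivity
  have qt0 : 0 < qt := by rw [eqt]; positivity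
  have qht : qh ≤ qt := by
    rw [eqh, eqt]
    exact div_le_div_of_nonneg_left (by norm_num) hqt (by nlinarith)
  rw [← eqh, ← eqt] at hG
  have hhp : 0 < h := hh0.trans_le hh
  have htp : 0 < t := ht0.trans_le ht
  have hxS : 0 ≤ x + S := by linarith
  cases bj with
  | true =>
    obtain ⟨rfl, rfl⟩ := cj rfl
    have sj : 0 < dj := by simpa using sj
    cases bk with
    | true =>
      obtain ⟨-, rfl⟩ := ck rfl
      have sk : 0 < dk := by simpa using sk
      have g1 := mul_nonneg hΓ hM0
      have g2 := mul_nonneg hβj sj.le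
      have g3 := mul_nonneg hβk sk.le
      linarith
    | false =>
      have yk := yk rfl
      have pk := pk rfl
      simp only [if_true, zero_add] at yk hRk pk
      have hR : 0 ≤ h + x + S := by linarith
      unfold need at yk
      rw [← hM] at yk
      have g1 := pay1 ht0 ht t1 hβk hKK hD hM0 hR pk yk
      rw [← eqt] at g1
      have g2 := mul_nonneg hβj sj.le
      have g3 : KK * ((h + x + S) * M * qt) ≤ Γ * M := by
        have a1 : KK * (h + x + S) * qt ≤ Γ := by
          have b1 : KK * (h + x + S) * qt ≤ KK * Rk * qt :=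
            mul_le_mul_of_nonneg_right (mul_le_mul_of_nonneg_left hRk hKK) qt0.le
          linarith
        have := mul_le_mul_of_nonneg_right a1 hM0
        linarith
      linarith
  | false =>
    have pj := pj rfl
    have yj := yj rfl
    cases bk with
    | true =>
      obtain ⟨rfl, rfl⟩ := ck rfl
      have sk : 0 < dk := by simpa using sk
      simp only [if_true, zero_add] at yj hRj pj
      have hR : 0 ≤ t + x + S := by linarith
      unfold need at yj
      rw [← hM] at yj
      have g1 := pay1 hh0 hh h1 hβj hKJ hD hM0 hR pj yj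
      rw [← eqh] at g1
      have g2 := mul_nonneg hβk sk.le
      have g3 : KJ * ((t + x + S) * M * qh) ≤ Γ * M := by
        have a1 : KJ * (t + x + S) * qh ≤ Γ := by
          have b1 : KJ * (t + x + S) * qh ≤ KJ * Rj * qh :=
            mul_le_mul_of_nonneg_right (mul_le_mul_of_nonneg_left hRj hKJ) qh0.le
          linarith
        have := mul_le_mul_of_nonneg_right a1 hM0
        linarith
      linarith
    | false =>
      have pk := pk rfl
      have y2 := y2 rfl rfl
      have sj : dj ≤ 0 := by simpa using sj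
      have sk : dk ≤ 0 := by simpa using sk
      simp only [Bool.false_eq_true, if_false, zero_add] at hRj hRk
      unfold need at y2
      rw [← hM] at y2
      have hNh : 0 < D * (4 * h - h ^ 2) + 4 * (x + S) * M := by
        have b1 : 0 < D * (4 * h - h ^ 2) := mul_pos hD (by nlinarith)
        have b2 : 0 ≤ 4 * (x + S) * M := by positivity
        linarith
      have hNt : 0 < D * (4 * t - t ^ 2) + 4 * (x + S) * M := by
        have b1 : 0 < D * (4 * t - t ^ 2) := mul_pos hD (by nlinarith)
        have b2 : 0 ≤ 4 * (x + S) * M := by positivity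
        linarith
      obtain ⟨A, hA⟩ : ∃ A, A = 3 * h ^ 2 * (-dj) / (D * (4 * h - h ^ 2) + 4 * (x + S) * M) := ⟨_, rfl⟩
      obtain ⟨B, hB⟩ : ∃ B, B = 3 * t ^ 2 * (-dk) / (D * (4 * t - t ^ 2) + 4 * (x + S) * M) := ⟨_, rfl⟩
      have hA0 : 0 ≤ A := by
        rw [hA]
        exact div_nonneg (mul_nonneg (by positivity) (by linarith)) hNh.le
      have hB0 : 0 ≤ B := by
        rw [hB]
        exact div_nonneg (mul_nonneg (by positivity) (by linarith)) hNt.le
      rw [← hA, ← hB] at y2
      have eA : 3 * h ^ 2 * (-dj) = A * (D * (4 * h - h ^ 2) + 4 * (x + S) * M) := by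
        rw [hA, div_mul_cancel₀ _ hNh.ne']
      have eB : 3 * t ^ 2 * (-dk) = B * (D * (4 * t - t ^ 2) + 4 * (x + S) * M) := by
        rw [hB, div_mul_cancel₀ _ hNt.ne']
      have g1 := payA hh0 hh h1 hβj (add_nonneg hK hKJ) hD hM0 hxS pj hA0 eA
      have g2 := payA ht0 ht t1 hβk (add_nonneg hK hKK) hD hM0 hxS pk hB0 eB
      rw [← eqh] at g1
      rw [← eqt] at g2
      obtain ⟨U, hU⟩ : ∃ U, U = (x + S) * M := ⟨_, rfl⟩
      have hU0 : 0 ≤ U := by rw [hU]; exact mul_nonneg hxS hM0
      rw [← hU] at g1 g2
      have k1 : A * ((K + KJ) * (D + U * qh)) ≤ A * (K * (D + U * qt)) + KJ * (D + U * qh) := by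
        have b1 : K * (D + U * qh) ≤ K * (D + U * qt) :=
          mul_le_mul_of_nonneg_left (by have := mul_le_mul_of_nonneg_left qht hU0; linarith) hK
        have b2 : 0 ≤ KJ * (D + U * qh) := mul_nonneg hKJ (by positivity)
        have b3 : A * (KJ * (D + U * qh)) ≤ 1 * (KJ * (D + U * qh)) :=
          mul_le_mul_of_nonneg_right (by linarith) b2
        have b4 := mul_le_mul_of_nonneg_left b1 hA0
        have e : A * ((K + KJ) * (D + U * qh)) = A * (K * (D + U * qh)) + A * (KJ * (D + U * qh)) := by ring
        rw [e]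
        linarith
      have k2 : B * ((K + KK) * (D + U * qt)) ≤ B * (K * (D + U * qt)) + KK * (D + U * qt) := by
        have b2 : 0 ≤ KK * (D + U * qt) := mul_nonneg hKK (by positivity)
        have b3 : B * (KK * (D + U * qt)) ≤ 1 * (KK * (D + U * qt)) :=
          mul_le_mul_of_nonneg_right (by linarith) b2
        have e : B * ((K + KK) * (D + U * qt)) = B * (K * (D + U * qt)) + B * (KK * (D + U * qt)) := by ring
        rw [e]
        linarith
      have k3 : A * (K * (D + U * qt)) + B * (K * (D + U * qt)) ≤ K * (D + U * qt) := by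
        have b1 : 0 ≤ K * (D + U * qt) := mul_nonneg hK (by positivity)
        have b2 := mul_le_mul_of_nonneg_right y2.le b1
        linarith
      have k4 : K * (U * qt) + KJ * (U * qh) + KK * (U * qt) ≤ Γ * M := by
        have b0 : K * (x + S) * qt + KJ * (x + S) * qh + KK * (x + S) * qt ≤ Γ := by
          have b1 : K * (x + S) * qt ≤ K * R2 * qt :=
            mul_le_mul_of_nonneg_right (mul_le_mul_of_nonneg_left hR2 hK) qt0.le
          have b2 : KJ * (x + S) * qh ≤ KJ * Rj * qh :=
            mul_le_mul_of_nonneg_right (mul_le_mul_of_nonneg_left hRj hKJ) qh0.le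
          have b3 : KK * (x + S) * qt ≤ KK * Rk * qt :=
            mul_le_mul_of_nonneg_right (mul_le_mul_of_nonneg_left hRk hKK) qt0.le
          linarith
        have := mul_le_mul_of_nonneg_right b0 hM0
        rw [hU]
        linarith
      linarith

end B1
end Pool.Agent.Lib.MP_6947cd_al
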