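import Pool.Agent.Lib.MP_6947cd_al.Y.SpecS

/-!
Problem MP_6947cd_al (Chollet).  CASE B, large second entry: reduced multisets (SpecS1, SpecS2, SpecS3).
-/

set_option autoImplicit false
open Finset

namespace Pool.Agent.Lib.MP_6947cd_al
namespace B1

open Ent Ent.Pk Fr Fr.WT

namespace S1M

/-- an affine function between its values at the ends -/
theorem aff_mid {φ : ℝ → ℝ} {a k : ℝ} (h : ∃ α β : ℝ, ∀ x, a ≤ x → x ≤ k → φ x = α * x + β) (hak : a < k)
    (hm : φ a ≤ φ k) (x : ℝ) (h1 : a ≤ x) (h2 : x ≤ k) : φ a ≤ φ x ∧ φ x ≤ φ k := by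
  obtain ⟨α, β, h⟩ := h
  have ea := h a le_rfl hak.le
  have ek := h k hak.le le_rfl
  have ex := h x h1 h2
  have hα : 0 ≤ α := by
    by_contra hcon
    rw [not_le] at hcon
    have := mul_lt_mul_of_neg_left hak hcon
    linarith
  rw [ea, ek, ex]
  constructor
  · nlinarith
  · nlinarith

theorem main (ks : List ℝ) : ∀ (vs : List ℝ) (a va : ℝ) (φ : ℝ → ℝ) (ns : List ℕ) (fs : List Bool)
    (M' : Multiset ℝ), Inc a ks → vs.length = ks.length → Aff φ a ks → φ a = va →
    (∀ (n : ℕ) (_ : n < ks.length), φ (ks.getD n 0) = vs.getD n 0) → Mo va vs → Red a ks ns fs M' →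
    dotR ns vs + lowS va vs fs ≤ (M'.map φ).sum ∧ (M'.map φ).sum ≤ dotR ns vs + uppS vs fs := by
  induction ks with
  | nil =>
    intro vs a va φ ns fs M' _ hl _ _ _ _ hr
    have hvs : vs = [] := List.length_eq_zero_iff.mp hl
    subst hvs
    cases ns with
    | cons n ns => cases fs <;> exact hr.elim
    | nil =>
      cases fs with
      | cons f fs => exact hr.elim
      | nil =>
        have h0 : M' = 0 := hr
        subst h0
        simp [dotR, lowS, uppS]
  | cons k ks ih =>
    intro vs a va φ ns fs M' hinc hl haff hva hv hmo hr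
    cases vs with
    | nil => simp at hl
    | cons v vs =>
    cases ns with
    | nil => exact hr.elim
    | cons n ns =>
    cases fs with
    | nil => exact hr.elim
    | cons f fs =>
    obtain ⟨M2, r, hr2, hf, rfl⟩ := hr
    have hk : φ k = v := by simpa using hv 0 (by simp)
    obtain ⟨i1, i2⟩ := ih vs k v φ ns fs M2 hinc.2 (by simpa using hl) haff.2 hk
      (fun m hm => by simpa using hv (m + 1) (by simpa using hm)) hmo.2 hr2
    have hrr : (if f = true then va else 0) ≤ (r.map φ).sum ∧ (r.map φ).sum ≤ (if f = true then v else 0) := by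
      cases f with
      | false =>
        have h0 : r = 0 := hf
        subst h0
        simp
      | true =>
        obtain ⟨x, h1, h2, rfl⟩ := hf
        have h3 := aff_mid haff.1 hinc.1 (by rw [hva, hk]; exact hmo.1) x h1.le h2.le
        rw [hva, hk] at h3
        simpa using h3
    have e : ((r + (Multiset.replicate n k + M2)).map φ).sum = (r.map φ).sum + (n * v + (M2.map φ).sum) := by
      rw [Multiset.map_add, Multiset.map_add, Multiset.sum_add, Multiset.sum_add, Multiset.map_replicate,
        Multiset.sum_replicate, hk, nsmul_eq_mul]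
    rw [e]
    have d1 : dotR (n :: ns) (v :: vs) = n * v + dotR ns vs := rfl
    have d2 : lowS va (v :: vs) (f :: fs) = (if f = true then va else 0) + lowS v vs fs := rfl
    have d3 : uppS (v :: vs) (f :: fs) = (if f = true then v else 0) + uppS vs fs := rfl
    rw [d1, d2, d3]
    constructor
    · linarith [hrr.1]
    · linarith [hrr.2]

theorem aff_id (ks : List ℝ) : ∀ a : ℝ, Aff (fun x => x) a ks := by
  induction ks with
  | nil => intro a; exact trivial
  | cons k ks ih => intro a; exact ⟨⟨1, 0, fun x _ _ => by ring⟩, ih k⟩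

theorem mo_inc (ks : List ℝ) : ∀ a : ℝ, Inc a ks → Mo a ks := by
  induction ks with
  | nil => intro a _; exact trivial
  | cons k ks ih => intro a h; exact ⟨h.1.le, ih k h.2⟩

theorem entries (ks : List ℝ) : ∀ (a : ℝ) (ns : List ℕ) (fs : List Bool) (M : Multiset ℝ),
    Inc a ks → Red a ks ns fs M → (∀ e ∈ M, a ≤ e ∧ e ≤ top a ks) ∧ ns.length = ks.length ∧
      fs.length = ks.length := by
  induction ks with
  | nil =>
    intro a ns fs M _ hr
    cases ns with
    | cons n ns => cases fs <;> exact hr.elim
    | nil =>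
      cases fs with
      | cons f fs => exact hr.elim
      | nil =>
        have h0 : M = 0 := hr
        subst h0
        exact ⟨fun e he => absurd he (Multiset.notMem_zero e), rfl, rfl⟩
  | cons k ks ih =>
    intro a ns fs M hinc hr
    cases ns with
    | nil => exact hr.elim
    | cons n ns =>
    cases fs with
    | nil => exact hr.elim
    | cons f fs =>
    obtain ⟨M2, r, hr2, hf, rfl⟩ := hr
    obtain ⟨i1, i2, i3⟩ := ih k ns fs M2 hinc.2 hr2
    have htop : k ≤ top k ks := hinc.2.le_top
    refine ⟨?_, by simp [i2], by simp [i3]⟩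
    intro e he
    show a ≤ e ∧ e ≤ top k ks
    rcases Multiset.mem_add.mp he with he | he
    · cases f with
      | false =>
        have h0 : r = 0 := hf
        subst h0
        exact absurd he (Multiset.notMem_zero e)
      | true =>
        obtain ⟨x, h1, h2, rfl⟩ := hf
        rw [Multiset.mem_singleton] at he
        subst he
        exact ⟨h1.le, h2.le.trans htop⟩
    · rcases Multiset.mem_add.mp he with he | he
      · rw [Multiset.eq_of_mem_replicate he]
        exact ⟨hinc.1.le, htop⟩
      · exact ⟨hinc.1.le.trans (i1 e he).1, (i1 e he).2⟩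

theorem mk_sum (φ : ℝ → ℝ) (ks : List ℝ) : ∀ ns : List ℕ, ns.length = ks.length →
    ((mk ns ks).map φ).sum = dotR ns (ks.map φ) := by
  induction ks with
  | nil =>
    intro ns h
    have hns : ns = [] := List.length_eq_zero_iff.mp h
    subst hns
    simp [mk_nil, dotR]
  | cons k ks ih =>
    intro ns h
    cases ns with
    | nil => simp at h
    | cons n ns =>
      rw [Ent.mk_cons, Multiset.map_add, Multiset.sum_add, Multiset.map_replicate, Multiset.sum_replicate,
        nsmul_eq_mul, ih ns (by simpa using h)]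
      rfl

theorem mk_inc (ks : List ℝ) : ∀ (ns : List ℕ), ns.length = ks.length → ∀ a < ks.length,
    mk (Pk.incN a ns) ks = ks.getD a 0 ::ₘ mk ns ks := by
  induction ks with
  | nil => intro ns _ a ha; simp at ha
  | cons k ks ih =>
    intro ns h a ha
    cases ns with
    | nil => simp at h
    | cons n ns =>
      cases a with
      | zero =>
        show mk ((n + 1) :: ns) (k :: ks) = _
        rw [Ent.mk_cons, Ent.mk_cons, List.getD_cons_zero, Multiset.replicate_succ, Multiset.cons_add]
      | succ a =>
        show mk (n :: Pk.incN a ns) (k :: ks) = _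
        rw [Ent.mk_cons, Ent.mk_cons, List.getD_cons_succ, ih ns (by simpa using h) a (by simpa using ha),
          Multiset.add_cons]

end S1M

theorem specS1 : SpecS1 := fun ks vs a va φ ns fs M' h1 h2 h3 h4 h5 h6 h7 =>
  S1M.main ks vs a va φ ns fs M' h1 h2 h3 h4 h5 h6 h7

theorem specS2 : SpecS2 := by
  intro ks a ns fs M' ha hinc hr
  obtain ⟨e1, e2, e3⟩ := S1M.entries ks a ns fs M' hinc hr
  have h := S1M.main ks ks a a (fun x => x) ns fs M' hinc rfl (S1M.aff_id ks a) rfl (fun _ _ => rfl)
    (S1M.mo_inc ks a hinc) hr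
  rw [Multiset.map_id'] at h
  exact ⟨h.1, h.2, e1, e2, e3⟩

theorem specS3 : SpecS3 := by
  intro φ ks ns hl
  refine ⟨S1M.mk_sum φ ks ns hl, ?_, S1M.mk_inc ks ns hl⟩
  have h := S1M.mk_sum (fun x => x) ks ns hl
  rw [Multiset.map_id', List.map_id'] at h
  exact h

end B1
end Pool.Agent.Lib.MP_6947cd_al
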