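import Pool.Agent.Lib.MP_6947cd_al.Y.SpecS

/-!
Problem MP_6947cd_al (Chollet).  CASE B, large second entry: corners as offsets (SpecS4).
-/

set_option autoImplicit false
open Finset

namespace Pool.Agent.Lib.MP_6947cd_al
namespace B1

open Ent Ent.Pk Fr Fr.WT

namespace S4M

/-- the index of a list with one digit raised -/
theorem idx_incN (rd : List ℕ) : ∀ (l : List ℕ) (a : ℕ), l.length = rd.length → a < l.length →
    CA.idx rd (Pk.incN a l) = CA.idx rd l + strd rd a := by
  induction rd with
  | nil =>
    intro l a h1 h2
    exact absurd h2 (by rw [h1]; exact Nat.not_lt_zero _)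
  | cons r rd ih =>
    intro l a h1 h2
    cases l with
    | nil => exact absurd h1 (by simp)
    | cons c cs =>
      cases a with
      | zero =>
        show c + 1 + r * CA.idx rd cs = c + r * CA.idx rd cs + 1
        ring
      | succ a =>
        have := ih cs a (by simpa using h1) (by simpa using h2)
        show c + r * CA.idx rd (Pk.incN a cs) = c + r * CA.idx rd cs + r * strd rd a
        rw [this]
        ring

theorem okD_incN (rd : List ℕ) : ∀ (l : List ℕ) (a : ℕ), List.Forall₂ (fun n r => n + 1 < r) l rd →
    CA.OkD rd (Pk.incN a l) := by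
  induction rd with
  | nil =>
    intro l a h
    cases h
    cases a <;> exact List.Forall₂.nil
  | cons r rd ih =>
    intro l a h
    cases h with
    | cons h1 h2 =>
      rename_i n ns
      cases a with
      | zero =>
        show CA.OkD (r :: rd) ((n + 1) :: ns)
        exact List.Forall₂.cons h1 (h2.imp fun _ _ h => by omega)
      | succ a =>
        show CA.OkD (r :: rd) (n :: Pk.incN a ns)
        exact List.Forall₂.cons (by omega) (ih ns a h2)

theorem okD_of (rd l : List ℕ) (h : List.Forall₂ (fun n r => n + 1 < r) l rd) : CA.OkD rd l :=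
  h.imp fun _ _ h => by omega

theorem main (ns : List ℕ) : ∀ (rd : List ℕ) (fs : List Bool), fs.length = ns.length →
    List.Forall₂ (fun n r => n + 3 < r) ns rd → ∀ t ∈ cors ns fs,
    ∃ o ∈ coff rd fs, o.1 = t.1 ∧ t.1 ≤ 1 ∧ CA.idx rd t.2 = CA.idx rd ns + o.2 ∧
      List.Forall₂ (fun n r => n + 1 < r) t.2 rd ∧ t.2.length = ns.length := by
  induction ns with
  | nil =>
    intro rd fs hl h t ht
    cases h
    have e : t = (0, []) := by simpa [cors] using ht
    subst e
    have e2 : fs = [] := List.length_eq_zero_iff.mp hl
    subst e2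
    exact ⟨(0, 0), by simp [coff], rfl, Nat.zero_le 1, rfl, List.Forall₂.nil, rfl⟩
  | cons n ns ih =>
    intro rd fs hl h t ht
    cases h with
    | cons h1 h2 =>
      rename_i r rd
      cases fs with
      | nil => exact absurd hl (by simp)
      | cons f fs =>
        have hl' : fs.length = ns.length := by simpa using hl
        cases f with
        | true =>
          have ht' : ∃ s ∈ cors ns fs, t = (1, (n + s.1) :: s.2) ∨ t = (0, (n + s.1 + 1) :: s.2) := by
            simpa [cors, List.mem_flatMap] using ht
          obtain ⟨s, hs, hts⟩ := ht'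
          obtain ⟨o, ho, e1, e2, e3, e4, e5⟩ := ih rd fs hl' h2 s hs
          rcases hts with rfl | rfl
          · refine ⟨(1, o.1 + r * o.2), ?_, rfl, le_rfl, ?_, ?_, ?_⟩
            · simp only [coff, List.mem_flatMap]
              exact ⟨o, ho, by simp⟩
            · show (n + s.1) + r * CA.idx rd s.2 = n + r * CA.idx rd ns + (o.1 + r * o.2)
              rw [e3, e1]
              ring
            · exact List.Forall₂.cons (by omega) e4
            · simpa using e5
          · refine ⟨(0, o.1 + 1 + r * o.2), ?_, rfl, Nat.zero_le 1, ?_, ?_, ?_⟩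
            · simp only [coff, List.mem_flatMap]
              exact ⟨o, ho, by simp⟩
            · show (n + s.1 + 1) + r * CA.idx rd s.2 = n + r * CA.idx rd ns + (o.1 + 1 + r * o.2)
              rw [e3, e1]
              ring
            · exact List.Forall₂.cons (by omega) e4
            · simpa using e5
        | false =>
          have ht' : ∃ s ∈ cors ns fs, t = (0, (n + s.1) :: s.2) := by
            simpa [cors, List.mem_flatMap] using ht
          obtain ⟨s, hs, rfl⟩ := ht'
          obtain ⟨o, ho, e1, e2, e3, e4, e5⟩ := ih rd fs hl' h2 s hs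
          refine ⟨(0, o.1 + r * o.2), ?_, rfl, Nat.zero_le 1, ?_, ?_, ?_⟩
          · simp only [coff, List.mem_flatMap]
            exact ⟨o, ho, by simp⟩
          · show (n + s.1) + r * CA.idx rd s.2 = n + r * CA.idx rd ns + (o.1 + r * o.2)
            rw [e3, e1]
            ring
          · exact List.Forall₂.cons (by omega) e4
          · simpa using e5

end S4M

theorem specS4 : SpecS4 := by
  intro rd ns fs hl h t ht
  obtain ⟨o, ho, e1, _, e3, e4, e5⟩ := S4M.main ns rd fs hl h t ht
  refine ⟨o, ho, e1, e3, S4M.okD_of rd t.2 e4, e5, fun a ha => ⟨S4M.okD_incN rd t.2 a e4, ?_⟩⟩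
  exact S4M.idx_incN rd t.2 a e4.length_eq (by rw [e5]; exact ha)

end B1
end Pool.Agent.Lib.MP_6947cd_al
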