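import Pool.Agent.Lib.MP_6947cd_al.Y.SpecR

/-!
Problem MP_6947cd_al (Chollet).  Coordinate convexity: SpecR1, SpecR2, SpecR3.
-/

set_option autoImplicit false
open Finset

namespace Pool.Agent.Lib.MP_6947cd_al
namespace B1

open Ent Fr Fr.WT

namespace R1M

theorem corner {f : ℝ → ℝ} {p q u C : ℝ} (hf : ConvexOn ℝ (Set.Icc p q) f) (h1 : p ≤ u) (h2 : u ≤ q)
    (hp : f p ≤ C) (hq : f q ≤ C) : f u ≤ C := by
  have h := hf.le_max_of_mem_Icc (Set.left_mem_Icc.mpr (h1.trans h2)) (Set.right_mem_Icc.mpr (h1.trans h2))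
    (Set.mem_Icc.mpr ⟨h1, h2⟩)
  exact h.trans (max_le hp hq)

theorem fmc (S : Multiset ℝ) (h1 : 1 ∈ S) (hs : ∀ z ∈ S, 0 ≤ z ∧ z ≤ 1) (p q : ℝ) (hp : 0 ≤ p) (hq : q ≤ 1) :
    ConvexOn ℝ (Set.Icc p q) fun t => FM (t ::ₘ S) :=
  (FM_convexOn S h1 hs).subset (Set.Icc_subset_Icc hp hq) (convex_Icc p q)

theorem wcc (c p q : ℝ) : ConvexOn ℝ (Set.Icc p q) fun t => -Wc (t + c) := by
  refine ⟨convex_Icc p q, fun x _ y _ a b ha hb hab => ?_⟩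
  have h := Wc_concave.2 (Set.mem_univ (x + c)) (Set.mem_univ (y + c)) ha hb hab
  simp only [smul_eq_mul] at h ⊢
  have e : a * (x + c) + b * (y + c) = a * x + b * y + c := by
    have : a * (x + c) + b * (y + c) = a * x + b * y + (a + b) * c := by ring
    rw [this, hab, one_mul]
  rw [e] at h
  linarith

theorem omc (p q : ℝ) : ConvexOn ℝ (Set.Icc p q) fun t => omg t := by
  refine ⟨convex_Icc p q, fun x _ y _ a b ha hb hab => ?_⟩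
  simp only [smul_eq_mul]
  unfold omg
  have hb' : b = 1 - a := by linarith
  subst hb'
  nlinarith [mul_nonneg (mul_nonneg ha hb) (sq_nonneg (x - y))]

theorem linc (w p q : ℝ) : ConvexOn ℝ (Set.Icc p q) fun t => w * t := by
  refine ⟨convex_Icc p q, fun x _ y _ a b ha hb hab => ?_⟩
  simp only [smul_eq_mul]
  nlinarith

theorem lgc (a c p q : ℝ) (ha : 0 ≤ a) (hp : 0 < p + c) :
    ConvexOn ℝ (Set.Icc p q) fun t => -(2 * a * Real.log (2 * (t + c))) := by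
  refine ⟨convex_Icc p q, fun x hx y hy s t hs ht hst => ?_⟩
  have h := strictConcaveOn_log_Ioi.concaveOn.2 (x := 2 * (x + c)) (y := 2 * (y + c))
    (Set.mem_Ioi.mpr (by linarith [hx.1])) (Set.mem_Ioi.mpr (by linarith [hy.1])) hs ht hst
  simp only [smul_eq_mul] at h ⊢
  have e : s * (2 * (x + c)) + t * (2 * (y + c)) = 2 * (s * x + t * y + c) := by
    have : s * (2 * (x + c)) + t * (2 * (y + c)) = 2 * (s * x + t * y + (s + t) * c) := by ring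
    rw [this, hst, one_mul]
  rw [e] at h
  nlinarith [mul_le_mul_of_nonneg_left h (show (0 : ℝ) ≤ 2 * a by linarith)]

/-- defect -/
theorem dfc (S : Multiset ℝ) (c : ℝ) (h1 : 1 ∈ S) (hs : ∀ z ∈ S, 0 ≤ z ∧ z ≤ 1) (p q : ℝ) (hp : 0 ≤ p)
    (hq : q ≤ 1) : ConvexOn ℝ (Set.Icc p q) fun t => FM (t ::ₘ S) - Wc (t + c) := by
  have h := (fmc S h1 hs p q hp hq).add (wcc c p q)
  refine h.congr fun t _ => ?_
  simp only [Pi.add_apply]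
  ring

theorem ctc (k p q : ℝ) : ConvexOn ℝ (Set.Icc p q) fun _ => k := convexOn_const k (convex_Icc p q)

theorem mxc {f : ℝ → ℝ} {p q : ℝ} (hf : ConvexOn ℝ (Set.Icc p q) f) (k : ℝ) :
    ConvexOn ℝ (Set.Icc p q) fun t => max (f t) k := hf.sup (ctc k p q)

theorem smc {f : ℝ → ℝ} {p q : ℝ} (hf : ConvexOn ℝ (Set.Icc p q) f) (k : ℝ) (hk : 0 ≤ k) :
    ConvexOn ℝ (Set.Icc p q) fun t => k * f t := hf.smul hk

theorem adc {f g : ℝ → ℝ} {p q : ℝ} (hf : ConvexOn ℝ (Set.Icc p q) f) (hg : ConvexOn ℝ (Set.Icc p q) g) :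
    ConvexOn ℝ (Set.Icc p q) fun t => f t + g t := hf.add hg

/-- the row `i` in one variable -/
theorem uic (a κ Γ : ℝ) (o l : ℝ → ℝ) (S : Multiset ℝ) (c p q : ℝ) (ha : 0 ≤ a) (hk : 0 ≤ κ) (hG : 0 ≤ Γ)
    (h1 : 1 ∈ S) (hs : ∀ z ∈ S, 0 ≤ z ∧ z ≤ 1) (hp : 0 ≤ p) (hq : q ≤ 1)
    (ho : ConvexOn ℝ (Set.Icc p q) o) (hl : ConvexOn ℝ (Set.Icc p q) l) :
    ConvexOn ℝ (Set.Icc p q) fun t => a * (FM (t ::ₘ S) + o t) + κ * (FM (t ::ₘ S) - Wc (t + c))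
      + Γ * max (FM (t ::ₘ S) - Wc (t + c)) (1 / 1000) + l t := by
  have hd := dfc S c h1 hs p q hp hq
  exact adc (adc (adc (smc (adc (fmc S h1 hs p q hp hq) ho) a ha) (smc hd κ hk)) (smc (mxc hd (1 / 1000)) Γ hG)) hl

/-- the rows `j`, `k` in one variable -/
theorem ujc (a β c0 : ℝ) (l : ℝ → ℝ) (S : Multiset ℝ) (c p q : ℝ) (ha : 0 ≤ a) (hb : 0 ≤ β)
    (h1 : 1 ∈ S) (hs : ∀ z ∈ S, 0 ≤ z ∧ z ≤ 1) (hp : 0 ≤ p) (hq : q ≤ 1)
    (hl : ConvexOn ℝ (Set.Icc p q) l) :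
    ConvexOn ℝ (Set.Icc p q) fun t => (a + β) * max (FM (t ::ₘ S)) c0 + β * (-Wc (t + c)) + l t :=
  adc (adc (smc (mxc (fmc S h1 hs p q hp hq) c0) (a + β) (add_nonneg ha hb)) (smc (wcc c p q) β hb)) hl

theorem mem1 (u v : ℝ) (N : Multiset ℝ) : (1 : ℝ) ∈ 1 ::ₘ u ::ₘ v ::ₘ N := Multiset.mem_cons_self _ _

theorem memS {u v : ℝ} {N : Multiset ℝ} (hu : 0 ≤ u ∧ u ≤ 1) (hv : 0 ≤ v ∧ v ≤ 1) (hN : ∀ e ∈ N, 0 ≤ e ∧ e ≤ 1) :
    ∀ z ∈ 1 ::ₘ u ::ₘ v ::ₘ N, 0 ≤ z ∧ z ≤ 1 := by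
  intro z hz
  rw [Multiset.mem_cons, Multiset.mem_cons, Multiset.mem_cons] at hz
  rcases hz with rfl | rfl | rfl | hz
  · exact ⟨zero_le_one, le_rfl⟩
  · exact hu
  · exact hv
  · exact hN z hz

theorem sw1 (h t x : ℝ) (N : Multiset ℝ) : 1 ::ₘ h ::ₘ t ::ₘ x ::ₘ N = h ::ₘ 1 ::ₘ t ::ₘ x ::ₘ N :=
  Multiset.cons_swap _ _ _

theorem sw2 (h t x : ℝ) (N : Multiset ℝ) : 1 ::ₘ h ::ₘ t ::ₘ x ::ₘ N = t ::ₘ 1 ::ₘ h ::ₘ x ::ₘ N := by
  rw [Multiset.cons_swap h t, Multiset.cons_swap 1 t]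

theorem sw3 (h t x : ℝ) (N : Multiset ℝ) : 1 ::ₘ h ::ₘ t ::ₘ x ::ₘ N = x ::ₘ 1 ::ₘ h ::ₘ t ::ₘ N := by
  rw [Multiset.cons_swap t x, Multiset.cons_swap h x, Multiset.cons_swap 1 x]

section I
variable (a κ Γ w : ℝ) (ha : 0 ≤ a) (hk : 0 ≤ κ) (hG : 0 ≤ Γ) (N : Multiset ℝ) (hN : ∀ e ∈ N, 0 ≤ e ∧ e ≤ 1)
include ha hk hG hN

theorem cIh (t x p q : ℝ) (ht : 0 ≤ t ∧ t ≤ 1) (hx : 0 ≤ x ∧ x ≤ 1) (hp : 0 ≤ p) (hq : q ≤ 1) :
    ConvexOn ℝ (Set.Icc p q) fun h => UI a κ Γ w h t x N := by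
  have h := uic a κ Γ (fun _ => omg x) (fun _ => w * x) (1 ::ₘ t ::ₘ x ::ₘ N) (t + x + N.sum) p q ha hk hG
    (mem1 _ _ _) (memS ht hx hN) hp hq (ctc _ _ _) (ctc _ _ _)
  refine h.congr fun u _ => ?_
  unfold UI
  rw [sw1, show u + t + x + N.sum = u + (t + x + N.sum) by ring]

theorem cIt (h x p q : ℝ) (hh : 0 ≤ h ∧ h ≤ 1) (hx : 0 ≤ x ∧ x ≤ 1) (hp : 0 ≤ p) (hq : q ≤ 1) :
    ConvexOn ℝ (Set.Icc p q) fun t => UI a κ Γ w h t x N := by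
  have h' := uic a κ Γ (fun _ => omg x) (fun _ => w * x) (1 ::ₘ h ::ₘ x ::ₘ N) (h + x + N.sum) p q ha hk hG
    (mem1 _ _ _) (memS hh hx hN) hp hq (ctc _ _ _) (ctc _ _ _)
  refine h'.congr fun u _ => ?_
  unfold UI
  rw [sw2, show h + u + x + N.sum = u + (h + x + N.sum) by ring]

theorem cIx (h t p q : ℝ) (hh : 0 ≤ h ∧ h ≤ 1) (ht : 0 ≤ t ∧ t ≤ 1) (hp : 0 ≤ p) (hq : q ≤ 1) :
    ConvexOn ℝ (Set.Icc p q) fun x => UI a κ Γ w h t x N := by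
  have h' := uic a κ Γ (fun x => omg x) (fun x => w * x) (1 ::ₘ h ::ₘ t ::ₘ N) (h + t + N.sum) p q ha hk hG
    (mem1 _ _ _) (memS hh ht hN) hp hq (omc _ _) (linc _ _ _)
  refine h'.congr fun u _ => ?_
  unfold UI
  rw [sw3, show h + t + u + N.sum = u + (h + t + N.sum) by ring]

end I

section J
variable (a β c0 cy μ : ℝ) (om pr : ℝ → ℝ) (ha : 0 ≤ a) (hb : 0 ≤ β) (M : Multiset ℝ)
  (hM : ∀ e ∈ M, 0 ≤ e ∧ e ≤ 1)
include ha hb hM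

theorem cJb (g y p q : ℝ) (hg : 0 ≤ g ∧ g ≤ 1) (hy : 0 ≤ y ∧ y ≤ 1) (hp : 0 ≤ p) (hq : q ≤ 1) :
    ConvexOn ℝ (Set.Icc p q) fun b => UJ a β c0 cy μ om pr b g y M := by
  have h := ujc a β c0 (fun _ => a * omg y - cy * pr y + a * (M.map om).sum - μ * (M.map pr).sum)
    (1 ::ₘ g ::ₘ y ::ₘ M) (g + y + M.sum) p q ha hb
    (mem1 _ _ _) (memS hg hy hM) hp hq (ctc _ _ _)
  refine h.congr fun u _ => ?_
  unfold UJ
  rw [sw1, show u + g + y + M.sum = u + (g + y + M.sum) by ring]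
  ring

theorem cJg (b y p q : ℝ) (hbb : 0 ≤ b ∧ b ≤ 1) (hy : 0 ≤ y ∧ y ≤ 1) (hp : 0 ≤ p) (hq : q ≤ 1) :
    ConvexOn ℝ (Set.Icc p q) fun g => UJ a β c0 cy μ om pr b g y M := by
  have h := ujc a β c0 (fun _ => a * omg y - cy * pr y + a * (M.map om).sum - μ * (M.map pr).sum)
    (1 ::ₘ b ::ₘ y ::ₘ M) (b + y + M.sum) p q ha hb
    (mem1 _ _ _) (memS hbb hy hM) hp hq (ctc _ _ _)
  refine h.congr fun u _ => ?_
  unfold UJ
  rw [sw2, show b + u + y + M.sum = u + (b + y + M.sum) by ring]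
  ring

theorem cJy (b g p q : ℝ) (hbb : 0 ≤ b ∧ b ≤ 1) (hg : 0 ≤ g ∧ g ≤ 1) (hp : 0 ≤ p) (hq : q ≤ 1)
    (hpr : ConvexOn ℝ (Set.Icc p q) fun u => -(cy * pr u)) :
    ConvexOn ℝ (Set.Icc p q) fun y => UJ a β c0 cy μ om pr b g y M := by
  have h := ujc a β c0 (fun y => a * omg y + -(cy * pr y) + (a * (M.map om).sum - μ * (M.map pr).sum))
    (1 ::ₘ b ::ₘ g ::ₘ M) (b + g + M.sum) p q ha hb
    (mem1 _ _ _) (memS hbb hg hM) hp hq (adc (adc (smc (omc _ _) a ha) hpr) (ctc _ _ _))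
  refine h.congr fun u _ => ?_
  unfold UJ
  rw [sw3, show b + g + u + M.sum = u + (b + g + M.sum) by ring]
  ring

end J

/-- from the ends of an interval to the interval -/
theorem bstep {f : ℝ → ℝ} {p q C : ℝ} (hf : ConvexOn ℝ (Set.Icc p q) f)
    (hc : ∀ b : Bool, f (bif b then q else p) ≤ C) : ∀ u, p ≤ u → u ≤ q → f u ≤ C :=
  fun _ h1 h2 => corner hf h1 h2 (hc false) (hc true)

theorem bmem {p q : ℝ} (hp : 0 ≤ p) (hpq : p ≤ q) (hq : q ≤ 1) (b : Bool) :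
    0 ≤ (bif b then q else p) ∧ (bif b then q else p) ≤ 1 := by
  cases b
  · exact ⟨hp, hpq.trans hq⟩
  · exact ⟨hp.trans hpq, hq⟩

theorem bpos {p q : ℝ} (hp : 0 < p) (hpq : p ≤ q) (b : Bool) : 0 < (bif b then q else p) := by
  cases b
  · exact hp
  · exact hp.trans_le hpq

end R1M

open R1M

theorem specR1 : SpecR1 := by
  intro a κ Γ w βj βk c0j c0k cy cz μj μk C omj prj omk prk h0 h1 t0 t1 g0 g1 x0 x1 y0 y1 z0 z1 h t g x y z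
    N Mj Mk ha hκ hΓ hβj hβk hN hMj hMk ph0 pt0 pg0 px0 py0 pz0 qh1 qt1 qg1 qx1 qy1 qz1
    hh0 hh1 ht0 ht1 hg0 hg1 hx0 hx1 hy0 hy1 hz0 hz1 hcj hck H
  have bH := bmem ph0.le (hh0.trans hh1) qh1
  have bT := bmem pt0.le (ht0.trans ht1) qt1
  have bG := bmem pg0 (hg0.trans hg1) qg1
  have bX := bmem px0 (hx0.trans hx1) qx1
  have bY := bmem py0 (hy0.trans hy1) qy1
  have bZ := bmem pz0 (hz0.trans hz1) qz1
  have mh : 0 ≤ h ∧ h ≤ 1 := ⟨ph0.le.trans hh0, hh1.trans qh1⟩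
  have mt : 0 ≤ t ∧ t ≤ 1 := ⟨pt0.le.trans ht0, ht1.trans qt1⟩
  have mg : 0 ≤ g ∧ g ≤ 1 := ⟨pg0.trans hg0, hg1.trans qg1⟩
  have mx : 0 ≤ x ∧ x ≤ 1 := ⟨px0.trans hx0, hx1.trans qx1⟩
  have my : 0 ≤ y ∧ y ≤ 1 := ⟨py0.trans hy0, hy1.trans qy1⟩
  -- the function
  let Φ : ℝ → ℝ → ℝ → ℝ → ℝ → ℝ → ℝ := fun h t g x y z =>
    UI a κ Γ w h t x N + UJ a βj c0j cy μj omj prj h g y Mj + UJ a βk c0k cz μk omk prk t g z Mk
      + -(2 * a * Real.log (2 * (h + t + g)))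
  have hΦ : ∀ bh bt bg bx by' bz : Bool, Φ (bif bh then h1 else h0) (bif bt then t1 else t0)
      (bif bg then g1 else g0) (bif bx then x1 else x0) (bif by' then y1 else y0) (bif bz then z1 else z0) ≤ C := by
    intro bh bt bg bx by' bz
    have := H bh bt bg bx by' bz
    show _ + _ + _ + -_ ≤ C
    linarith
  -- h
  have s1 : ∀ bt bg bx by' bz : Bool, Φ h (bif bt then t1 else t0)
      (bif bg then g1 else g0) (bif bx then x1 else x0) (bif by' then y1 else y0) (bif bz then z1 else z0) ≤ C := by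
    intro bt bg bx by' bz
    refine bstep (f := fun h => Φ h (bif bt then t1 else t0)
      (bif bg then g1 else g0) (bif bx then x1 else x0) (bif by' then y1 else y0) (bif bz then z1 else z0)) ?_
      (fun bh => hΦ bh bt bg bx by' bz) h hh0 hh1
    have p1 := bpos pt0 (ht0.trans ht1) bt
    have p2 := (bG bg).1
    refine (adc (adc (adc (cIh a κ Γ w ha hκ hΓ N hN _ _ h0 h1 (bT bt) (bX bx) ph0.le qh1)
      (cJb a βj c0j cy μj omj prj ha hβj Mj hMj _ _ h0 h1 (bG bg) (bY by') ph0.le qh1))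
      (ctc (UJ a βk c0k cz μk omk prk (bif bt then t1 else t0) (bif bg then g1 else g0) (bif bz then z1 else z0) Mk) h0 h1))
      (lgc a ((bif bt then t1 else t0) + (bif bg then g1 else g0)) h0 h1 ha (by linarith))).congr fun u _ => ?_
    show _ = _ + _ + _ + -(2 * a * Real.log (2 * (u + (bif bt then t1 else t0) + (bif bg then g1 else g0))))
    rw [add_assoc u]
  -- t
  have s2 : ∀ bg bx by' bz : Bool, Φ h t
      (bif bg then g1 else g0) (bif bx then x1 else x0) (bif by' then y1 else y0) (bif bz then z1 else z0) ≤ C := by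
    intro bg bx by' bz
    refine bstep (f := fun t => Φ h t
      (bif bg then g1 else g0) (bif bx then x1 else x0) (bif by' then y1 else y0) (bif bz then z1 else z0)) ?_
      (fun bt => s1 bt bg bx by' bz) t ht0 ht1
    have p2 := (bG bg).1
    refine (adc (adc (adc (cIt a κ Γ w ha hκ hΓ N hN _ _ t0 t1 mh (bX bx) pt0.le qt1)
      (ctc (UJ a βj c0j cy μj omj prj h (bif bg then g1 else g0) (bif by' then y1 else y0) Mj) t0 t1))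
      (cJb a βk c0k cz μk omk prk ha hβk Mk hMk _ _ t0 t1 (bG bg) (bZ bz) pt0.le qt1))
      (lgc a (h + (bif bg then g1 else g0)) t0 t1 ha (by linarith [mh.1]))).congr fun u _ => ?_
    show _ = _ + _ + _ + -(2 * a * Real.log (2 * (h + u + (bif bg then g1 else g0))))
    rw [show h + u + (bif bg then g1 else g0) = u + (h + (bif bg then g1 else g0)) by ring]
  -- g
  have s3 : ∀ bx by' bz : Bool, Φ h t g
      (bif bx then x1 else x0) (bif by' then y1 else y0) (bif bz then z1 else z0) ≤ C := by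
    intro bx by' bz
    refine bstep (f := fun g => Φ h t g
      (bif bx then x1 else x0) (bif by' then y1 else y0) (bif bz then z1 else z0)) ?_
      (fun bg => s2 bg bx by' bz) g hg0 hg1
    refine (adc (adc (adc (ctc (UI a κ Γ w h t (bif bx then x1 else x0) N) g0 g1)
      (cJg a βj c0j cy μj omj prj ha hβj Mj hMj _ _ g0 g1 mh (bY by') pg0 qg1))
      (cJg a βk c0k cz μk omk prk ha hβk Mk hMk _ _ g0 g1 mt (bZ bz) pg0 qg1))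
      (lgc a (h + t) g0 g1 ha (by linarith))).congr fun u _ => ?_
    show _ = _ + _ + _ + -(2 * a * Real.log (2 * (h + t + u)))
    rw [show h + t + u = u + (h + t) by ring]
  -- x
  have s4 : ∀ by' bz : Bool, Φ h t g x (bif by' then y1 else y0) (bif bz then z1 else z0) ≤ C := by
    intro by' bz
    refine bstep (f := fun x => Φ h t g x (bif by' then y1 else y0) (bif bz then z1 else z0)) ?_
      (fun bx => s3 bx by' bz) x hx0 hx1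
    exact adc (adc (adc (cIx a κ Γ w ha hκ hΓ N hN _ _ x0 x1 mh mt px0 qx1) (ctc _ _ _)) (ctc _ _ _)) (ctc _ _ _)
  -- y
  have s5 : ∀ bz : Bool, Φ h t g x y (bif bz then z1 else z0) ≤ C := by
    intro bz
    refine bstep (f := fun y => Φ h t g x y (bif bz then z1 else z0)) ?_ (fun by' => s4 by' bz) y hy0 hy1
    exact adc (adc (adc (ctc _ _ _) (cJy a βj c0j cy μj omj prj ha hβj Mj hMj _ _ y0 y1 mh mg py0 qy1 hcj))
      (ctc _ _ _)) (ctc _ _ _)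
  -- z
  have s6 : Φ h t g x y z ≤ C := by
    refine bstep (f := fun z => Φ h t g x y z) ?_ s5 z hz0 hz1
    exact adc (adc (adc (ctc _ _ _) (ctc _ _ _)) (cJy a βk c0k cz μk omk prk ha hβk Mk hMk _ _ z0 z1 mt mg pz0 qz1 hck))
      (ctc _ _ _)
  have s7 : UI a κ Γ w h t x N + UJ a βj c0j cy μj omj prj h g y Mj + UJ a βk c0k cz μk omk prk t g z Mk
      + -(2 * a * Real.log (2 * (h + t + g))) ≤ C := s6
  linarith

namespace R1M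

theorem sw4 (h t x r : ℝ) (N : Multiset ℝ) :
    1 ::ₘ h ::ₘ t ::ₘ x ::ₘ r ::ₘ N = r ::ₘ 1 ::ₘ h ::ₘ t ::ₘ x ::ₘ N := by
  rw [Multiset.cons_swap x r, Multiset.cons_swap t r, Multiset.cons_swap h r, Multiset.cons_swap 1 r]

theorem memR {r κ : ℝ} {q : ℕ} (hr : 0 ≤ r ∧ r ≤ 1) (hk : 0 ≤ κ ∧ κ ≤ 1) :
    ∀ e ∈ r ::ₘ Multiset.replicate q κ, 0 ≤ e ∧ e ≤ 1 := by
  intro e he
  rcases Multiset.mem_cons.mp he with rfl | he
  · exact hr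
  · rw [Multiset.eq_of_mem_replicate he]; exact hk

theorem memP {x κ : ℝ} {q : ℕ} (hx : 0 ≤ x ∧ x ≤ 1) (hk : 0 ≤ κ ∧ κ ≤ 1) :
    ∀ e ∈ x ::ₘ Multiset.replicate q κ, 0 ≤ e ∧ e ≤ 1 := memR hx hk

/-- the defect in one variable -/
theorem dh (t x p q : ℝ) (N : Multiset ℝ) (hN : ∀ e ∈ N, 0 ≤ e ∧ e ≤ 1) (ht : 0 ≤ t ∧ t ≤ 1) (hx : 0 ≤ x ∧ x ≤ 1)
    (hp : 0 ≤ p) (hq : q ≤ 1) :
    ConvexOn ℝ (Set.Icc p q) fun h => FM (1 ::ₘ h ::ₘ t ::ₘ x ::ₘ N) - Wc (h + t + x + N.sum) := by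
  refine (dfc (1 ::ₘ t ::ₘ x ::ₘ N) (t + x + N.sum) (mem1 _ _ _) (memS ht hx hN) p q hp hq).congr fun u _ => ?_
  show _ = FM (1 ::ₘ u ::ₘ t ::ₘ x ::ₘ N) - Wc (u + t + x + N.sum)
  rw [sw1, show u + t + x + N.sum = u + (t + x + N.sum) by ring]

theorem dt (h x p q : ℝ) (N : Multiset ℝ) (hN : ∀ e ∈ N, 0 ≤ e ∧ e ≤ 1) (hh : 0 ≤ h ∧ h ≤ 1) (hx : 0 ≤ x ∧ x ≤ 1)
    (hp : 0 ≤ p) (hq : q ≤ 1) :
    ConvexOn ℝ (Set.Icc p q) fun t => FM (1 ::ₘ h ::ₘ t ::ₘ x ::ₘ N) - Wc (h + t + x + N.sum) := by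
  refine (dfc (1 ::ₘ h ::ₘ x ::ₘ N) (h + x + N.sum) (mem1 _ _ _) (memS hh hx hN) p q hp hq).congr fun u _ => ?_
  show _ = FM (1 ::ₘ h ::ₘ u ::ₘ x ::ₘ N) - Wc (h + u + x + N.sum)
  rw [sw2, show h + u + x + N.sum = u + (h + x + N.sum) by ring]

theorem dx (h t p q : ℝ) (N : Multiset ℝ) (hN : ∀ e ∈ N, 0 ≤ e ∧ e ≤ 1) (hh : 0 ≤ h ∧ h ≤ 1) (ht : 0 ≤ t ∧ t ≤ 1)
    (hp : 0 ≤ p) (hq : q ≤ 1) :
    ConvexOn ℝ (Set.Icc p q) fun x => FM (1 ::ₘ h ::ₘ t ::ₘ x ::ₘ N) - Wc (h + t + x + N.sum) := by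
  refine (dfc (1 ::ₘ h ::ₘ t ::ₘ N) (h + t + N.sum) (mem1 _ _ _) (memS hh ht hN) p q hp hq).congr fun u _ => ?_
  show _ = FM (1 ::ₘ h ::ₘ t ::ₘ u ::ₘ N) - Wc (h + t + u + N.sum)
  rw [sw3, show h + t + u + N.sum = u + (h + t + N.sum) by ring]

theorem memS4 {h t x κ : ℝ} {n : ℕ} (hh : 0 ≤ h ∧ h ≤ 1) (ht : 0 ≤ t ∧ t ≤ 1) (hx : 0 ≤ x ∧ x ≤ 1)
    (hk : 0 ≤ κ ∧ κ ≤ 1) : ∀ z ∈ 1 ::ₘ h ::ₘ t ::ₘ x ::ₘ Multiset.replicate n κ, 0 ≤ z ∧ z ≤ 1 :=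
  memS hh ht (memR hx hk)

theorem sumr (r κ : ℝ) (q : ℕ) : (r ::ₘ Multiset.replicate q κ).sum = r + (Multiset.replicate q κ).sum :=
  Multiset.sum_cons _ _

theorem dr (h t x κ p q : ℝ) (n : ℕ) (hh : 0 ≤ h ∧ h ≤ 1) (ht : 0 ≤ t ∧ t ≤ 1) (hx : 0 ≤ x ∧ x ≤ 1)
    (hk : 0 ≤ κ ∧ κ ≤ 1) (hp : 0 ≤ p) (hq : q ≤ 1) :
    ConvexOn ℝ (Set.Icc p q) fun r => FM (1 ::ₘ h ::ₘ t ::ₘ x ::ₘ r ::ₘ Multiset.replicate n κ)
      - Wc (h + t + x + (r ::ₘ Multiset.replicate n κ).sum) := by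
  refine (dfc (1 ::ₘ h ::ₘ t ::ₘ x ::ₘ Multiset.replicate n κ) (h + t + x + (Multiset.replicate n κ).sum)
    (Multiset.mem_cons_self _ _) (memS4 hh ht hx hk) p q hp hq).congr fun u _ => ?_
  show _ = FM (1 ::ₘ h ::ₘ t ::ₘ x ::ₘ u ::ₘ Multiset.replicate n κ)
      - Wc (h + t + x + (u ::ₘ Multiset.replicate n κ).sum)
  rw [sw4, sumr, show h + t + x + (u + (Multiset.replicate n κ).sum)
    = u + (h + t + x + (Multiset.replicate n κ).sum) by ring]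

end R1M

theorem specR2 : SpecR2 := by
  intro h0 h1 t0 t1 x0 x1 r0 r1 C h t x r κ q ph0 pt0 px0 pr0 pk qh1 qt1 qx1 qr1 qk
    hh0 hh1 ht0 ht1 hx0 hx1 hr0 hr1 H
  have bT := bmem pt0 (ht0.trans ht1) qt1
  have bX := bmem px0 (hx0.trans hx1) qx1
  have bR := bmem pr0 (hr0.trans hr1) qr1
  have mh : 0 ≤ h ∧ h ≤ 1 := ⟨ph0.trans hh0, hh1.trans qh1⟩
  have mt : 0 ≤ t ∧ t ≤ 1 := ⟨pt0.trans ht0, ht1.trans qt1⟩
  have mx : 0 ≤ x ∧ x ≤ 1 := ⟨px0.trans hx0, hx1.trans qx1⟩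
  let Φ : ℝ → ℝ → ℝ → ℝ → ℝ := fun h t x r =>
    FM (1 ::ₘ h ::ₘ t ::ₘ x ::ₘ r ::ₘ Multiset.replicate q κ)
      - Wc (h + t + x + (r ::ₘ Multiset.replicate q κ).sum)
  have s1 : ∀ bt bx br : Bool, Φ h (bif bt then t1 else t0) (bif bx then x1 else x0) (bif br then r1 else r0) ≤ C := by
    intro bt bx br
    refine bstep (f := fun h => Φ h (bif bt then t1 else t0) (bif bx then x1 else x0) (bif br then r1 else r0)) ?_
      (fun bh => H bh bt bx br) h hh0 hh1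
    exact dh _ _ _ _ _ (memR (bR br) ⟨pk, qk⟩) (bT bt) (bX bx) ph0 qh1
  have s2 : ∀ bx br : Bool, Φ h t (bif bx then x1 else x0) (bif br then r1 else r0) ≤ C := by
    intro bx br
    refine bstep (f := fun t => Φ h t (bif bx then x1 else x0) (bif br then r1 else r0)) ?_
      (fun bt => s1 bt bx br) t ht0 ht1
    exact dt _ _ _ _ _ (memR (bR br) ⟨pk, qk⟩) mh (bX bx) pt0 qt1
  have s3 : ∀ br : Bool, Φ h t x (bif br then r1 else r0) ≤ C := by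
    intro br
    refine bstep (f := fun x => Φ h t x (bif br then r1 else r0)) ?_ (fun bx => s2 bx br) x hx0 hx1
    exact dx _ _ _ _ _ (memR (bR br) ⟨pk, qk⟩) mh mt px0 qx1
  exact bstep (f := fun r => Φ h t x r) (dr _ _ _ _ _ _ _ mh mt mx ⟨pk, qk⟩ pr0 qr1) s3 r hr0 hr1

theorem specR3 : SpecR3 := by
  intro a κ Γ w v r0 r1 C h t x r m q ha hκ hΓ ph pt px pr0 pm qh qt qx qr1 qm hr0 hr1 H
  refine bstep (f := fun r => UI a κ Γ w h t x (r ::ₘ Multiset.replicate q m)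
    + a * (43 / 200 * (r + q * m) + 39 / 200 * (r ^ 2 + q * m ^ 2)) + v * (r + q * m)) ?_ H r hr0 hr1
  have h1 := uic a κ Γ (fun _ => omg x) (fun _ => w * x) (1 ::ₘ h ::ₘ t ::ₘ x ::ₘ Multiset.replicate q m)
    (h + t + x + (Multiset.replicate q m).sum) r0 r1 ha hκ hΓ (Multiset.mem_cons_self _ _)
    (memS4 ⟨ph, qh⟩ ⟨pt, qt⟩ ⟨px, qx⟩ ⟨pm, qm⟩) pr0 qr1 (ctc _ _ _) (ctc _ _ _)
  have h2 := adc (adc h1 (adc (smc (omc r0 r1) a ha) (ctc (a * (43 / 200 * (q * m) + 39 / 200 * (q * m ^ 2))) _ _)))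
    (adc (linc v r0 r1) (ctc (v * (q * m)) _ _))
  refine h2.congr fun u _ => ?_
  unfold UI
  rw [sw4, sumr, show h + t + x + (u + (Multiset.replicate q m).sum)
    = u + (h + t + x + (Multiset.replicate q m).sum) by ring]
  unfold omg
  ring

end B1
end Pool.Agent.Lib.MP_6947cd_al
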