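import Pool.Agent.Lib.MP_6947cd_al.Y.SpecS
import Pool.Agent.Lib.MP_6947cd_al.Y.R1

/-!
Problem MP_6947cd_al (Chollet).  CASE B, large second entry: lines at the corners (SpecS5).
-/

set_option autoImplicit false
open Finset

namespace Pool.Agent.Lib.MP_6947cd_al
namespace B1

open Ent Ent.Pk Fr Fr.WT

namespace S5M

open R1M

/-- an affine function is convex -/
theorem affc {φ : ℝ → ℝ} {a k : ℝ} (h : ∃ α β : ℝ, ∀ x, a ≤ x → x ≤ k → φ x = α * x + β) (c : ℝ) :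
    ConvexOn ℝ (Set.Icc a k) fun t => c * φ t := by
  obtain ⟨α, β, h⟩ := h
  have h1 := adc (linc (c * α) a k) (ctc (c * β) a k)
  refine h1.congr fun t ht => ?_
  rw [h t ht.1 ht.2]
  ring

theorem conv (a β c0 cy μ b g y : ℝ) (om pr : ℝ → ℝ) (ha : 0 ≤ a) (hβ : 0 ≤ β) (hb : 0 ≤ b ∧ b ≤ 1)
    (hg : 0 ≤ g ∧ g ≤ 1) (hy : 0 ≤ y ∧ y ≤ 1) (ks : List ℝ) :
    ∀ c : ℝ, 0 ≤ c → Inc c ks → Aff om c ks → Aff pr c ks →
      ConvP (fun M => UJ a β c0 cy μ om pr b g y M) c ks := by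
  induction ks with
  | nil => intro c _ _ _ _; exact trivial
  | cons k ks ih =>
    intro c hc hinc hom hpr
    refine ⟨fun N hN => ?_, ih k (hc.trans hinc.1.le) hinc.2 hom.2 hpr.2⟩
    have hN' : ∀ z ∈ y ::ₘ N, 0 ≤ z ∧ z ≤ 1 := by
      intro z hz
      rcases Multiset.mem_cons.mp hz with rfl | hz
      · exact hy
      · exact hN z hz
    have h := ujc a β c0 (fun t => a * om t + (-μ) * pr t
        + (a * omg y - cy * pr y + a * (N.map om).sum - μ * (N.map pr).sum))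
      (1 ::ₘ b ::ₘ g ::ₘ (y ::ₘ N)) (b + g + y + N.sum) c k ha hβ (mem1 _ _ _) (memS hb hg hN') hc
      hinc.2.le_one (adc (adc (affc hom.1 a) (affc hpr.1 (-μ))) (ctc _ _ _))
    refine h.congr fun u _ => ?_
    have e : (1 : ℝ) ::ₘ b ::ₘ g ::ₘ y ::ₘ u ::ₘ N = u ::ₘ 1 ::ₘ b ::ₘ g ::ₘ (y ::ₘ N) := by
      rw [Multiset.cons_swap y u, Multiset.cons_swap g u, Multiset.cons_swap b u, Multiset.cons_swap 1 u]
    show _ = UJ a β c0 cy μ om pr b g y (u ::ₘ N)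
    unfold UJ
    rw [e, Multiset.sum_cons, Multiset.map_cons, Multiset.map_cons, Multiset.sum_cons, Multiset.sum_cons,
      show b + g + y + (u + N.sum) = u + (b + g + y + N.sum) by ring]
    ring

end S5M

theorem specS5 : SpecS5 := by
  intro a β c0 cy μ b g y C om pr ks ns fs M' ha hβ hb0 hb1 hg0 hg1 hy0 hy1 hinc hom hpr hred H
  have h := corner_le (fun M => UJ a β c0 cy μ om pr b g y M) C ks 0 ns fs 0 M' le_rfl hinc hred
    (S5M.conv a β c0 cy μ b g y om pr ha hβ ⟨hb0, hb1⟩ ⟨hg0, hg1⟩ ⟨hy0, hy1⟩ ks 0 le_rfl hinc hom hpr)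
    (fun z hz => absurd hz (Multiset.notMem_zero z)) (by
      intro t ht
      rw [zero_add]
      exact H t ht)
  simpa only [zero_add] using h

end B1
end Pool.Agent.Lib.MP_6947cd_al
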