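import Pool.Agent.Lib.MP_6947cd_al.Y.SpecS
import Pool.Agent.Lib.MP_6947cd_al.Y.R1

/-!
Problem MP_6947cd_al (Chollet).  CASE B, large second entry: richness at the corners (SpecS6).
-/

set_option autoImplicit false
open Finset

namespace Pool.Agent.Lib.MP_6947cd_al
namespace B1

open Ent Ent.Pk Fr Fr.WT

namespace S6M

open R1M

theorem inc_top (ks : List ℝ) : ∀ a : ℝ, Inc a ks → top a ks ≤ 1 := by
  induction ks with
  | nil => intro a h; exact h
  | cons k ks ih => intro a h; exact ih k h.2

theorem red_mem (ks : List ℝ) : ∀ (a : ℝ) (ns : List ℕ) (fs : List Bool) (M : Multiset ℝ), 0 ≤ a →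
    Inc a ks → Red a ks ns fs M → ∀ z ∈ M, 0 ≤ z ∧ z ≤ 1 := by
  induction ks with
  | nil =>
    intro a ns fs M _ _ hr z hz
    cases ns with
    | nil =>
      cases fs with
      | nil =>
        have h0 : M = 0 := hr
        rw [h0] at hz
        exact absurd hz (Multiset.notMem_zero z)
      | cons f fs => exact hr.elim
    | cons n ns => cases fs <;> exact hr.elim
  | cons k ks ih =>
    intro a ns fs M ha hinc hr z hz
    cases ns with
    | nil => exact hr.elim
    | cons n ns =>
      cases fs with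
      | nil => exact hr.elim
      | cons f fs =>
        obtain ⟨M2, r, hr2, hf, rfl⟩ := hr
        rcases Multiset.mem_add.mp hz with hz | hz
        · cases f with
          | true =>
            obtain ⟨x, h1, h2, rfl⟩ := hf
            rw [Multiset.mem_singleton] at hz
            subst hz
            exact ⟨ha.trans h1.le, h2.le.trans hinc.2.le_one⟩
          | false =>
            have hf' : r = 0 := hf
            rw [hf'] at hz
            exact absurd hz (Multiset.notMem_zero z)
        · rcases Multiset.mem_add.mp hz with hz | hz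
          · rw [Multiset.eq_of_mem_replicate hz]
            exact ⟨ha.trans hinc.1.le, hinc.2.le_one⟩
          · exact ih k ns fs M2 (ha.trans hinc.1.le) hinc.2 hr2 z hz

/-- the functional -/
noncomputable def V (c0 b g y : ℝ) (M : Multiset ℝ) : ℝ :=
  max (FM (1 ::ₘ b ::ₘ g ::ₘ y ::ₘ M)) c0 + -Wc (b + g + y + M.sum)

/-- one variable -/
theorem vc (c0 : ℝ) (S : Multiset ℝ) (c p q : ℝ) (h1 : 1 ∈ S) (hs : ∀ z ∈ S, 0 ≤ z ∧ z ≤ 1) (hp : 0 ≤ p)
    (hq : q ≤ 1) : ConvexOn ℝ (Set.Icc p q) fun t => max (FM (t ::ₘ S)) c0 + -Wc (t + c) :=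
  adc (mxc (fmc S h1 hs p q hp hq) c0) (wcc c p q)

theorem conv (c0 b g y : ℝ) (hb : 0 ≤ b ∧ b ≤ 1) (hg : 0 ≤ g ∧ g ≤ 1) (hy : 0 ≤ y ∧ y ≤ 1) (ks : List ℝ) :
    ∀ a : ℝ, 0 ≤ a → Inc a ks → ConvP (V c0 b g y) a ks := by
  induction ks with
  | nil => intro a _ _; exact trivial
  | cons k ks ih =>
    intro a ha hinc
    refine ⟨fun N hN => ?_, ih k (ha.trans hinc.1.le) hinc.2⟩
    have hN' : ∀ z ∈ y ::ₘ N, 0 ≤ z ∧ z ≤ 1 := by
      intro z hz
      rcases Multiset.mem_cons.mp hz with rfl | hz
      · exact hy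
      · exact hN z hz
    have h := vc c0 (1 ::ₘ b ::ₘ g ::ₘ (y ::ₘ N)) (b + g + y + N.sum) a k (mem1 _ _ _) (memS hb hg hN') ha
      hinc.2.le_one
    refine h.congr fun u _ => ?_
    unfold V
    rw [Multiset.sum_cons, show b + g + y + (u + N.sum) = u + (b + g + y + N.sum) by ring]
    congr 3
    rw [Multiset.cons_swap y u, Multiset.cons_swap g u, Multiset.cons_swap b u, Multiset.cons_swap 1 u]

end S6M

open S6M R1M

theorem specS6 : SpecS6 := by
  intro c0 d b0 b1 g0 g1 y0 y1 b g y ks ns fs M' hb0 hb1 hg0 hg1 hy0 hy1 lb ub lg ug ly uy hinc hred H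
  have mB := bmem hb0 (lb.trans ub) hb1
  have mG := bmem hg0 (lg.trans ug) hg1
  have mY := bmem hy0 (ly.trans uy) hy1
  have mb : 0 ≤ b ∧ b ≤ 1 := ⟨hb0.trans lb, ub.trans hb1⟩
  have mg : 0 ≤ g ∧ g ≤ 1 := ⟨hg0.trans lg, ug.trans hg1⟩
  have mM := red_mem ks 0 ns fs M' le_rfl hinc hred
  -- the corners of the cell
  have s0 : ∀ bb bg by' : Bool, V c0 (bif bb then b1 else b0) (bif bg then g1 else g0)
      (bif by' then y1 else y0) M' ≤ -d := by
    intro bb bg by'
    have h := corner_le (V c0 (bif bb then b1 else b0) (bif bg then g1 else g0) (bif by' then y1 else y0))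
      (-d) ks 0 ns fs 0 M' le_rfl hinc hred (conv c0 _ _ _ (mB bb) (mG bg) (mY by') ks 0 le_rfl hinc)
      (fun z hz => absurd hz (Multiset.notMem_zero z)) (by
        intro t ht
        have := H bb bg by' t ht
        unfold V
        rw [zero_add]
        linarith)
    rwa [zero_add] at h
  have s1 : ∀ bg by' : Bool, V c0 b (bif bg then g1 else g0) (bif by' then y1 else y0) M' ≤ -d := by
    intro bg by'
    refine bstep (f := fun b => V c0 b (bif bg then g1 else g0) (bif by' then y1 else y0) M') ?_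
      (fun bb => s0 bb bg by') b lb ub
    have h := vc c0 (1 ::ₘ (bif bg then g1 else g0) ::ₘ (bif by' then y1 else y0) ::ₘ M')
      ((bif bg then g1 else g0) + (bif by' then y1 else y0) + M'.sum) b0 b1 (mem1 _ _ _)
      (memS (mG bg) (mY by') mM) hb0 hb1
    refine h.congr fun u _ => ?_
    unfold V
    rw [sw1, show u + (bif bg then g1 else g0) + (bif by' then y1 else y0) + M'.sum
      = u + ((bif bg then g1 else g0) + (bif by' then y1 else y0) + M'.sum) by ring]
  have s2 : ∀ by' : Bool, V c0 b g (bif by' then y1 else y0) M' ≤ -d := by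
    intro by'
    refine bstep (f := fun g => V c0 b g (bif by' then y1 else y0) M') ?_ (fun bg => s1 bg by') g lg ug
    have h := vc c0 (1 ::ₘ b ::ₘ (bif by' then y1 else y0) ::ₘ M')
      (b + (bif by' then y1 else y0) + M'.sum) g0 g1 (mem1 _ _ _) (memS mb (mY by') mM) hg0 hg1
    refine h.congr fun u _ => ?_
    unfold V
    rw [sw2, show b + u + (bif by' then y1 else y0) + M'.sum
      = u + (b + (bif by' then y1 else y0) + M'.sum) by ring]
  have s3 : V c0 b g y M' ≤ -d := by
    refine bstep (f := fun y => V c0 b g y M') ?_ (fun by' => s2 by') y ly uy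
    have h := vc c0 (1 ::ₘ b ::ₘ g ::ₘ M') (b + g + M'.sum) y0 y1 (mem1 _ _ _) (memS mb mg mM) hy0 hy1
    refine h.congr fun u _ => ?_
    unfold V
    rw [sw3, show b + g + u + M'.sum = u + (b + g + M'.sum) by ring]
  unfold V at s3
  linarith

end B1
end Pool.Agent.Lib.MP_6947cd_al
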