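import Pool.Agent.Lib.MP_6947cd_al.Y.Defs
import Pool.Agent.Lib.MP_6947cd_al.L.Pay
import Pool.Agent.Lib.MP_6947cd_al.T.Geo

/-!
Problem MP_6947cd_al (Chollet).  CASE B, large second entry: the class logic.
-/

set_option autoImplicit false
open scoped Matrix ComplexOrder

namespace Pool.Agent.Lib.MP_6947cd_al
namespace B1

open Ent Fr Fr.LL


namespace DM

section Ms
variable {κ : Type} [Fintype κ] [DecidableEq κ]

/-- the vertices outside `{a, b, c}` -/
def C3 (a b c : κ) : Finset κ := ({a, b, c} : Finset κ)ᶜ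

lemma mem_C3 {a b c l : κ} : l ∈ C3 a b c ↔ l ≠ a ∧ l ≠ b ∧ l ≠ c := by
  unfold C3
  simp

lemma erase_eq3 (a b c : κ) (hab : a ≠ b) (hac : a ≠ c) (hbc : b ≠ c) :
    (Finset.univ.erase a : Finset κ) = insert b (insert c (C3 a b c)) := by
  ext l
  simp only [Finset.mem_erase, Finset.mem_univ, and_true, Finset.mem_insert, mem_C3]
  constructor
  · intro h
    by_cases h1 : l = b
    · exact Or.inl h1
    · by_cases h2 : l = c
      · exact Or.inr (Or.inl h2)
      · exact Or.inr (Or.inr ⟨h, h1, h2⟩)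
  · rintro (rfl | rfl | ⟨h, _⟩)
    · exact hab.symm
    · exact hac.symm
    · exact h

lemma sum_row (a b c : κ) (hab : a ≠ b) (hac : a ≠ c) (hbc : b ≠ c) (f : κ → ℝ) :
    ∑ l ∈ Finset.univ.erase a, f l = f b + (f c + ∑ l ∈ C3 a b c, f l) := by
  rw [erase_eq3 a b c hab hac hbc, Finset.sum_insert, Finset.sum_insert]
  · rw [mem_C3]; tauto
  · rw [Finset.mem_insert, mem_C3]; tauto

lemma map_row (a b c : κ) (hab : a ≠ b) (hac : a ≠ c) (hbc : b ≠ c) (f : κ → ℝ) :
    (Finset.univ : Finset κ).val.map f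
      = f a ::ₘ f b ::ₘ f c ::ₘ (C3 a b c).val.map f := by
  have h : (Finset.univ : Finset κ) = insert a (insert b (insert c (C3 a b c))) := by
    rw [← erase_eq3 a b c hab hac hbc, Finset.insert_erase (Finset.mem_univ a)]
  rw [h, Finset.insert_val_of_notMem, Finset.insert_val_of_notMem, Finset.insert_val_of_notMem,
    Multiset.map_cons, Multiset.map_cons, Multiset.map_cons]
  · rw [mem_C3]; tauto
  · rw [Finset.mem_insert, mem_C3]; tauto
  · rw [Finset.mem_insert, Finset.mem_insert, mem_C3]; tauto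

lemma C3_rot (a b c : κ) : C3 b a c = C3 a b c := by
  ext l; rw [mem_C3, mem_C3]; tauto

lemma C3_rot2 (a b c : κ) : C3 c a b = C3 a b c := by
  ext l; rw [mem_C3, mem_C3]; tauto

end Ms

variable {n : ℕ} {A : Matrix (Fin n) (Fin n) ℂ}

/-- the functional of a row is the row function or at most `1/2` -/
lemma GG_or {κ : Type} [Fintype κ] [DecidableEq κ] (b : κ → ℝ) (i : κ) (hi : b i = 1) :
    GG.G κ b ≤ max (F b) (1 / 2) := by
  refine GG_le b i hi _ (le_max_left _ _) ?_
  exact (min_le_right _ _).trans (le_max_right _ _)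

/-- the class of a vertex -/
lemma class_of (hce : CEG GG A) (a : Fin n) (V T : ℝ) (hV : F (row A a) = V)
    (hT : LL.tot A a = T) :
    if decide (0 < D What A a) = true then
      0 < GG.G (Fin n) (row A a) - What T ∧ GG.G (Fin n) (row A a) ≤ V
    else GG.G (Fin n) (row A a) - What T ≤ 0 ∧ GG.G (Fin n) (row A a) ≤ max V (1 / 2) := by
  have e : D What A a = GG.G (Fin n) (row A a) - What T := by
    unfold D
    rw [hT]
  split_ifs with h
  · have h' := of_decide_eq_true h
    refine ⟨by rw [← e]; exact h', ?_⟩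
    rw [GG_eq_of_bad hce a h', hV]
  · have h' : ¬ 0 < D What A a := fun h2 => h (decide_eq_true h2)
    refine ⟨by rw [← e]; linarith, ?_⟩
    rw [← hV]
    exact GG_or (row A a) a (row_diag A hce.diag a)

lemma bad_iff (a : Fin n) : (decide (0 < D What A a) = true) ↔ 0 < D What A a := by simp

/-- `rho` for the vertex `i` and the payer `j`, the third vertex `k` -/
lemma rho_le (i j k : Fin n) (hj : D What A j ≤ 0) :
    rho What A i j ≤ (if decide (0 < D What A k) = true then row A i k else 0)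
      + ∑ l ∈ C3 i j k, row A i l := by
  classical
  have hnn := fun l => row_nonneg A i l
  by_cases hk : 0 < D What A k
  · have hk' := (bad_iff (A := A) k).mpr hk
    rw [if_pos hk']
    have h1 := rho_le_sum (W := What) (A := A) i j hj (insert k (C3 i j k)) (fun l h1 h2 _ _ => by
      rw [Finset.mem_insert, mem_C3]
      by_cases h : l = k
      · exact Or.inl h
      · exact Or.inr ⟨h1, h2, h⟩)
    refine h1.trans ?_
    rw [Finset.sum_insert (by rw [mem_C3]; tauto)]
    refine add_le_add (mul_le_of_le_one_left (hnn _) (y_le_one k)) ?_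
    exact Finset.sum_le_sum fun l _ => mul_le_of_le_one_left (hnn _) (y_le_one l)
  · have hk' : ¬ (decide (0 < D What A k) = true) := by simpa using hk
    rw [if_neg hk', zero_add]
    have h1 := rho_le_sum (W := What) (A := A) i j hj (C3 i j k) (fun l h1 h2 h3 _ => by
      rw [mem_C3]
      refine ⟨h1, h2, fun h => hk ?_⟩
      rw [← h]
      exact h3)
    refine h1.trans ?_
    exact Finset.sum_le_sum fun l _ => mul_le_of_le_one_left (hnn _) (y_le_one l)

/-- THE CONFIGURATION of a counterexample to the local lemma. -/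
theorem cfg_of (hce : CEG GG A) (i j k : Fin n) (hij : i ≠ j) (hik : i ≠ k) (hjk : j ≠ k)
    (hD : 0 < D What A i) (hkj : row A i k ≤ row A i j) (hk : 17 / 20 ≤ row A i k)
    (hno : ¬ LLat What A i) (m x y z : ℝ) (Mi Mj Mk : Multiset ℝ) (hm : m ≤ 3 / 10)
    (hx : 0 ≤ x ∧ x ≤ 3 / 10) (hy : 0 ≤ y ∧ y ≤ 1) (hz : 0 ≤ z ∧ z ≤ 1)
    (ty : Tri (row A i j) x y) (tz : Tri (row A i k) x z)
    (ri : ∀ e ∈ Mi, 0 ≤ e ∧ e ≤ m)
    (rj : ∀ u ∈ Mj, 0 ≤ u ∧ u ≤ 1 ∧ ∃ s, 0 ≤ s ∧ s ≤ m ∧ s ≤ Mi.sum ∧ Tri (row A i j) s u)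
    (rk : ∀ u ∈ Mk, 0 ≤ u ∧ u ≤ 1 ∧ ∃ s, 0 ≤ s ∧ s ≤ m ∧ s ≤ Mi.sum ∧ Tri (row A i k) s u)
    (pj : ∀ φ : ℝ → ℝ, (∀ s u, 0 ≤ s → s ≤ m → s ≤ Mi.sum → 0 ≤ u → u ≤ 1 →
      Tri (row A i j) s u → φ u ≤ s) → (Mj.map φ).sum ≤ Mi.sum)
    (pk : ∀ φ : ℝ → ℝ, (∀ s u, 0 ≤ s → s ≤ m → s ≤ Mi.sum → 0 ≤ u → u ≤ 1 →
      Tri (row A i k) s u → φ u ≤ s) → (Mk.map φ).sum ≤ Mi.sum)
    (Fi : F (row A i) = FM (1 ::ₘ row A i j ::ₘ row A i k ::ₘ x ::ₘ Mi))
    (Fj : F (row A j) = FM (1 ::ₘ row A i j ::ₘ row A j k ::ₘ y ::ₘ Mj))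
    (Fk : F (row A k) = FM (1 ::ₘ row A i k ::ₘ row A j k ::ₘ z ::ₘ Mk))
    (si : ∑ l ∈ C3 i j k, row A i l = x + Mi.sum) (sj : ∑ l ∈ C3 i j k, row A j l = y + Mj.sum)
    (sk : ∑ l ∈ C3 i j k, row A k l = z + Mk.sum)
    (oi : ∑ l ∈ C3 i j k, omg (row A i l) = omg x + Om Mi)
    (oj : ∑ l ∈ C3 i j k, omg (row A j l) = omg y + Om Mj)
    (ok : ∑ l ∈ C3 i j k, omg (row A k l) = omg z + Om Mk) :
    ∃ (bj bk : Bool) (Gj Gk : ℝ),
      Cfg bj bk m (row A i j) (row A i k) (row A j k) x y z Mi Mj Mk Gj Gk := by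
  have hnn := fun a l => row_nonneg A a l
  have hle := fun a l => row_le_one A hce.psd hce.diag a l
  have hsym := fun a l => row_symm A hce.psd a l
  have hG := GG_eq_of_bad hce i hD
  have ti : LL.tot A i = row A i j + row A i k + x + Mi.sum := by
    unfold LL.tot
    rw [sum_row i j k hij hik hjk, si]
    ring
  have tj : LL.tot A j = row A i j + row A j k + y + Mj.sum := by
    unfold LL.tot
    rw [sum_row j i k hij.symm hjk hik, C3_rot, sj, hsym j i]
    ring
  have tk : LL.tot A k = row A i k + row A j k + z + Mk.sum := by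
    unfold LL.tot
    rw [sum_row k i j hik.symm hjk.symm hij, C3_rot2, sk, hsym k i, hsym k j]
    ring
  have hDi : D What A i = FM (1 ::ₘ row A i j ::ₘ row A i k ::ₘ x ::ₘ Mi)
      - What (row A i j + row A i k + x + Mi.sum) := by
    unfold D
    rw [hG, Fi, ti]
  have hMi0 : 0 ≤ Mi.sum := Multiset.sum_nonneg fun e he => (ri e he).1
  have hb1 : 3 / 10 ≤ row A i j := by linarith
  have hb2 : 3 / 10 ≤ row A i k := by linarith
  refine ⟨decide (0 < D What A j), decide (0 < D What A k), GG.G (Fin n) (row A j),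
    GG.G (Fin n) (row A k), ?_⟩
  refine ⟨hkj, hle _ _, hk, ⟨hnn _ _, hle _ _⟩, hx, hy, hz, hm, ?_, ty, tz, ri, rj, rk, pj, pk, ?_,
    ?_, ?_, ?_, ?_, ?_, ?_⟩
  · have h := tri_row A hce.psd hce.diag i j k
    unfold Tri
    linarith
  · rw [← hDi]; exact hD
  · have h1 := hce.nr {i, j, k} (Finset.insert_nonempty i {j, k})
    have h2 := (S_three_ge A hce.psd hce.diag i j k hij hik hjk).1
    have h3 : Real.log (2 * (row A i j + row A i k + row A j k)) ≤ Real.log (S A {i, j, k}) := by
      refine Real.log_le_log ?_ h2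
      have := hnn j k
      linarith
    rw [Finset.sum_insert (by simp [hij, hik]), Finset.sum_insert (by simp [hjk]),
      Finset.sum_singleton] at h1
    change _ < GG.G (Fin n) (row A i) + ∑ l ∈ C3 i j k, omg (row A i l)
      + (GG.G (Fin n) (row A j) + ∑ l ∈ C3 i j k, omg (row A j l)
        + (GG.G (Fin n) (row A k) + ∑ l ∈ C3 i j k, omg (row A k l))) at h1
    rw [oi, oj, ok, hG, Fi] at h1
    linarith
  · exact class_of hce j _ _ Fj tj
  · exact class_of hce k _ _ Fk tk
  · intro hbj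
    have hj : ¬ 0 < D What A j := by simpa using hbj
    by_contra hcon
    push Not at hcon
    refine hno ?_
    refine LLat_of_one hce.psd hce.diag i j hD hb1
      ((if decide (0 < D What A k) = true then row A i k else 0) + x + Mi.sum) (fun _ => ?_) ?_ ?_
    · have := rho_le i j k (not_lt.mp hj)
      rw [si] at this
      linarith
    · have : 0 ≤ (if decide (0 < D What A k) = true then row A i k else 0) := by
        split_ifs
        · exact hnn _ _
        · exact le_rfl
      linarith [hx.1]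
    · have e : LL.need What A i j
          ((if decide (0 < D What A k) = true then row A i k else 0) + x + Mi.sum)
          = need (D What A i) (row A i j)
            ((if decide (0 < D What A k) = true then row A i k else 0) + x + Mi.sum) := rfl
      rw [e, hDi]
      refine hcon.trans (le_of_eq ?_)
      unfold D
      rw [tj]
      ring
  · intro hbk
    have hk' : ¬ 0 < D What A k := by simpa using hbk
    by_contra hcon
    push Not at hcon
    refine hno ?_
    refine LLat_of_one hce.psd hce.diag i k hD hb2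
      ((if decide (0 < D What A j) = true then row A i j else 0) + x + Mi.sum) (fun _ => ?_) ?_ ?_
    · have := rho_le i k j (not_lt.mp hk')
      have e : C3 i k j = C3 i j k := by
        ext l; rw [mem_C3, mem_C3]; tauto
      rw [e, si] at this
      linarith
    · have : 0 ≤ (if decide (0 < D What A j) = true then row A i j else 0) := by
        split_ifs
        · exact hnn _ _
        · exact le_rfl
      linarith [hx.1]
    · have e : LL.need What A i k
          ((if decide (0 < D What A j) = true then row A i j else 0) + x + Mi.sum)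
          = need (D What A i) (row A i k)
            ((if decide (0 < D What A j) = true then row A i j else 0) + x + Mi.sum) := rfl
      rw [e, hDi]
      refine hcon.trans (le_of_eq ?_)
      unfold D
      rw [tk]
      ring
  · intro hbj hbk
    have hj : ¬ 0 < D What A j := by simpa using hbj
    have hk' : ¬ 0 < D What A k := by simpa using hbk
    by_contra hcon
    push Not at hcon
    refine hno ?_
    have r1 := rho_le i j k (not_lt.mp hj)
    have r2 := rho_le i k j (not_lt.mp hk')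
    have e3 : C3 i k j = C3 i j k := by
      ext l; rw [mem_C3, mem_C3]; tauto
    rw [if_neg (by simpa using hk'), zero_add, si] at r1
    rw [if_neg (by simpa using hj), zero_add, e3, si] at r2
    refine LLat_of_two hce.psd hce.diag i j k hjk hD (not_lt.mp hj) (not_lt.mp hk') hb1 hb2
      (x + Mi.sum) (x + Mi.sum) r1 r2 ?_
    have e1 : LL.need What A i j (x + Mi.sum) = need (D What A i) (row A i j) (x + Mi.sum) := rfl
    have e2 : LL.need What A i k (x + Mi.sum) = need (D What A i) (row A i k) (x + Mi.sum) := rfl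
    rw [e1, e2, hDi]
    refine hcon.trans (le_of_eq ?_)
    unfold D
    rw [tj, tk, neg_sub, neg_sub]

end DM

open DM in
/-- THE CLASS LOGIC. -/
theorem specD : SpecD := by
  classical
  intro hZ hV n A hce i j k hij hik hjk hD hkj hk _ hrest
  by_contra hno
  have hnn := fun a l => row_nonneg A a l
  have hle := fun a l => row_le_one A hce.psd hce.diag a l
  have hsym := fun a l => row_symm A hce.psd a l
  have hdg := fun a => row_diag A hce.diag a
  have tri : ∀ a b c, Tri (row A a b) (row A a c) (row A b c) := by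
    intro a b c
    have h := tri_row A hce.psd hce.diag a b c
    unfold Tri
    linarith
  -- the rows as multisets
  have Fi : F (row A i) = FM (1 ::ₘ row A i j ::ₘ row A i k ::ₘ (C3 i j k).val.map (row A i)) := by
    rw [F_eq_FM, map_row i j k hij hik hjk, hdg]
  have Fj : F (row A j) = FM (1 ::ₘ row A i j ::ₘ row A j k ::ₘ (C3 i j k).val.map (row A j)) := by
    rw [F_eq_FM, map_row j i k hij.symm hjk hik, hdg, C3_rot, hsym j i]
  have Fk : F (row A k) = FM (1 ::ₘ row A i k ::ₘ row A j k ::ₘ (C3 i j k).val.map (row A k)) := by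
    rw [F_eq_FM, map_row k i j hik.symm hjk.symm hij, hdg, C3_rot2, hsym k i, hsym k j]
  have hr : ∀ l ∈ C3 i j k, row A i l ≤ 3 / 10 := by
    intro l hl
    obtain ⟨h1, h2, h3⟩ := mem_C3.mp hl
    exact hrest l h1 h2 h3
  -- a general subset of the rests
  have hgen : ∀ T : Finset (Fin n), (∀ a, ∀ u ∈ T.val.map (row A a), 0 ≤ u ∧ u ≤ 1) := by
    intro T a u hu
    obtain ⟨l, _, rfl⟩ := Multiset.mem_map.mp hu
    exact ⟨hnn _ _, hle _ _⟩
  have hrr : ∀ (T : Finset (Fin n)) (m : ℝ), (∀ l ∈ T, row A i l ≤ m) → ∀ a, ∀ u ∈ T.val.map (row A a),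
      0 ≤ u ∧ u ≤ 1 ∧ ∃ s, 0 ≤ s ∧ s ≤ m ∧ s ≤ (T.val.map (row A i)).sum ∧ Tri (row A i a) s u := by
    intro T m hT a u hu
    obtain ⟨l, hl, rfl⟩ := Multiset.mem_map.mp hu
    refine ⟨hnn _ _, hle _ _, row A i l, hnn _ _, hT l hl, ?_, tri i a l⟩
    exact Finset.single_le_sum (f := fun l => row A i l) (fun c _ => hnn i c) hl
  have hpp : ∀ (T : Finset (Fin n)) (m : ℝ), (∀ l ∈ T, row A i l ≤ m) → ∀ a, ∀ φ : ℝ → ℝ,
      (∀ s u, 0 ≤ s → s ≤ m → s ≤ (T.val.map (row A i)).sum → 0 ≤ u → u ≤ 1 →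
        Tri (row A i a) s u → φ u ≤ s) →
      ((T.val.map (row A a)).map φ).sum ≤ (T.val.map (row A i)).sum := by
    intro T m hT a φ hφ
    rw [Multiset.map_map]
    refine Finset.sum_le_sum fun l hl => ?_
    refine hφ _ _ (hnn i l) (hT l hl) ?_ (hnn a l) (hle a l) (tri i a l)
    exact Finset.single_le_sum (f := fun l => row A i l) (fun c _ => hnn i c) hl
  have hg0 : omg 0 = 0 := by unfold omg; norm_num
  have hOm : ∀ (T : Finset (Fin n)) (a : Fin n), Om (T.val.map (row A a)) = ∑ l ∈ T, omg (row A a l) := by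
    intro T a
    unfold Om
    rw [Multiset.map_map]
    rfl
  have hSm : ∀ (T : Finset (Fin n)) (a : Fin n), (T.val.map (row A a)).sum = ∑ l ∈ T, row A a l :=
    fun T a => rfl
  rcases le_total (∑ l ∈ C3 i j k, row A i l) (3 / 20) with hS | hS
  · -- no special vertex
    have hz : ∀ (a b : ℝ) (M : Multiset ℝ), FM (1 ::ₘ a ::ₘ b ::ₘ 0 ::ₘ M) = FM (1 ::ₘ a ::ₘ b ::ₘ M) := by
      intro a b M
      rw [Multiset.cons_swap b 0, Multiset.cons_swap a 0, Multiset.cons_swap 1 0, FM_zero_cons]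
    have tri0 : ∀ a, 0 ≤ a → a ≤ 1 → Tri a 0 0 := by
      intro a _ ha
      unfold Tri
      rw [Real.sqrt_zero]
      linarith
    obtain ⟨bj, bk, Gj, Gk, hC⟩ := cfg_of hce i j k hij hik hjk hD hkj hk hno (3 / 10) 0 0 0
      ((C3 i j k).val.map (row A i)) ((C3 i j k).val.map (row A j)) ((C3 i j k).val.map (row A k))
      le_rfl ⟨le_rfl, by norm_num⟩ ⟨le_rfl, zero_le_one⟩ ⟨le_rfl, zero_le_one⟩
      (tri0 _ (hnn _ _) (hle _ _)) (tri0 _ (hnn _ _) (hle _ _))
      (fun e he => by
        obtain ⟨l, hl, rfl⟩ := Multiset.mem_map.mp he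
        exact ⟨hnn _ _, hr l hl⟩)
      (hrr _ _ hr j) (hrr _ _ hr k) (hpp _ _ hr j) (hpp _ _ hr k)
      (by rw [hz]; exact Fi) (by rw [hz]; exact Fj) (by rw [hz]; exact Fk)
      (by rw [hSm, zero_add]) (by rw [hSm, zero_add]) (by rw [hSm, zero_add])
      (by rw [hOm, hg0, zero_add]) (by rw [hOm, hg0, zero_add]) (by rw [hOm, hg0, zero_add])
    exact hZ bj bk _ _ _ _ _ _ Gj Gk (by rw [hSm]; exact hS) hC
  · -- the special vertex
    have hne : (C3 i j k).Nonempty := by
      rw [Finset.nonempty_iff_ne_empty]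
      intro h
      rw [h, Finset.sum_empty] at hS
      norm_num at hS
    obtain ⟨v, hv, hvm⟩ := Finset.exists_max_image (C3 i j k) (fun l => row A i l) hne
    set T := (C3 i j k).erase v with hT
    have hins : C3 i j k = insert v T := (Finset.insert_erase hv).symm
    have hvT : v ∉ T := Finset.notMem_erase _ _
    have hTm : ∀ l ∈ T, row A i l ≤ row A i v := fun l hl => hvm l (Finset.mem_of_mem_erase hl)
    have hsp : ∀ f : Fin n → ℝ, ∑ l ∈ C3 i j k, f l = f v + ∑ l ∈ T, f l := by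
      intro f
      rw [hins, Finset.sum_insert hvT]
    have hmp : ∀ f : Fin n → ℝ, (C3 i j k).val.map f = f v ::ₘ T.val.map f := by
      intro f
      rw [hins, Finset.insert_val_of_notMem hvT, Multiset.map_cons]
    obtain ⟨bj, bk, Gj, Gk, hC⟩ := cfg_of hce i j k hij hik hjk hD hkj hk hno (row A i v) (row A i v)
      (row A j v) (row A k v) (T.val.map (row A i)) (T.val.map (row A j)) (T.val.map (row A k))
      (hr v hv) ⟨hnn _ _, hr v hv⟩ ⟨hnn _ _, hle _ _⟩ ⟨hnn _ _, hle _ _⟩ (tri i j v) (tri i k v)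
      (fun e he => by
        obtain ⟨l, hl, rfl⟩ := Multiset.mem_map.mp he
        exact ⟨hnn _ _, hTm l hl⟩)
      (hrr _ _ hTm j) (hrr _ _ hTm k) (hpp _ _ hTm j) (hpp _ _ hTm k)
      (by rw [Fi, hmp]) (by rw [Fj, hmp]) (by rw [Fk, hmp])
      (by rw [hSm, hsp]) (by rw [hSm, hsp]) (by rw [hSm, hsp])
      (by rw [hOm, hsp (fun l => omg (row A i l))]) (by rw [hOm, hsp (fun l => omg (row A j l))])
      (by rw [hOm, hsp (fun l => omg (row A k l))])
    refine hV bj bk _ _ _ _ _ _ _ _ _ Gj Gk ?_ hC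
    rw [hSm, ← hsp]
    exact hS

end B1
end Pool.Agent.Lib.MP_6947cd_al
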