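import Pool.Agent.Lib.MP_6947cd_al.Y.LeafR
import Pool.Agent.Lib.MP_6947cd_al.Y.TabI

/-!
Problem MP_6947cd_al (Chollet).  CASE B, large second entry: the numeric check of the row `i` and of the corners.
-/

set_option autoImplicit false
open Finset

namespace Pool.Agent.Lib.MP_6947cd_al
namespace B1

open Ent Ent.Pk Fr Fr.WT PkA

/-! ### logarithms -/

/-- lower bound of `10 ^ 12 * log (n / 100)` -/
def lgL (n : ℕ) : ℕ :=
  Nat.sub (nat_lit 11090354884800) (lgU (Nat.succ (Nat.div (nat_lit 26843545600) n)))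

theorem lgL_le (n : ℕ) (h1 : 410 ≤ n) (h2 : n ≤ 600) : (lgL n : ℝ) ≤ 10 ^ 12 * Real.log ((n : ℝ) / 100) := by
  have hn : (0 : ℝ) < n := by exact_mod_cast (by omega : 0 < n)
  obtain ⟨v, hv⟩ : ∃ v, v = Nat.succ (Nat.div 26843545600 n) := ⟨_, rfl⟩
  have hv' : v = 26843545600 / n + 1 := hv
  have hge := lgU_ge v (by
    rw [hv']
    have : 26843545600 / 600 ≤ 26843545600 / n := Nat.div_le_div_left h2 (by omega)
    norm_num at this
    omega) (by
    rw [hv']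
    have : 26843545600 / n ≤ 26843545600 / 410 := Nat.div_le_div_left h1 (by norm_num)
    norm_num at this
    omega)
  have hlog : Real.log (6553600 / (n : ℝ)) * 10 ≤ Real.log (6553600 / (n : ℝ)) * 10 := le_rfl
  have h3 : (26843545600 : ℝ) / n ≤ v := by
    rw [hv']
    push_cast
    exact div_up 26843545600 n (by omega)
  have h4 : Real.log (6553600 / (n : ℝ)) ≤ Real.log ((v : ℝ) / 4096) := by
    refine Real.log_le_log (by positivity) ?_
    rw [le_div_iff₀ (by norm_num)]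
    refine le_trans (le_of_eq ?_) h3
    ring
  have h5 : Real.log (6553600 / (n : ℝ)) = 16 * Real.log 2 - Real.log ((n : ℝ) / 100) := by
    have e : (6553600 : ℝ) / n = 2 ^ 16 / ((n : ℝ) / 100) := by
      rw [div_div_eq_mul_div]
      norm_num
    rw [e, Real.log_div (by positivity) (by positivity), Real.log_pow]
    norm_num
  have h6 := Real.log_two_gt_d9
  have h7 : (lgL n : ℝ) = ((11090354884800 - lgU v : ℕ) : ℝ) := by
    rw [hv]
    rfl
  rw [h7]
  rcases le_total (lgU v) 11090354884800 with h8 | h8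
  · rw [Nat.cast_sub h8]
    push_cast
    rw [h5] at h4
    nlinarith
  · rw [Nat.sub_eq_zero_of_le h8]
    push_cast
    have : 0 ≤ Real.log ((n : ℝ) / 100) := by
      refine Real.log_nonneg ?_
      rw [le_div_iff₀ (by norm_num)]
      have : (410 : ℝ) ≤ n := by exact_mod_cast h1
      linarith
    positivity

/-! ### lists of numbers -/

/-- element of a list -/
noncomputable def gt (l : List ℕ) : ℕ → ℕ :=
  @List.rec ℕ (fun _ => ℕ → ℕ) (fun _ => nat_lit 0)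
    (fun a _ ih i => @Nat.rec (fun _ => ℕ) a (fun j _ => ih j) i) l

lemma gt_eq (l : List ℕ) : ∀ i, gt l i = l.getD i 0 := by
  induction l with
  | nil => intro i; simp [gt]
  | cons a l ih =>
    intro i
    cases i with
    | zero => rfl
    | succ i =>
      have e : gt (a :: l) (i + 1) = gt l i := rfl
      rw [e, ih, List.getD_cons_succ]

/-- maximum -/
def mx (a b : ℕ) : ℕ := cond (Nat.ble a b) b a

lemma le_mx_left (a b : ℕ) : a ≤ mx a b := by
  unfold mx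
  cases h : Nat.ble a b with
  | true => exact Nat.le_of_ble_eq_true h
  | false => exact le_rfl

lemma le_mx_right (a b : ℕ) : b ≤ mx a b := by
  unfold mx
  cases h : Nat.ble a b with
  | true => exact le_rfl
  | false =>
    have : ¬ a ≤ b := fun h' => by rw [Nat.ble_eq_true_of_le h'] at h; exact absurd h (by simp)
    rw [cond_false]
    omega

/-- for all Boolean values -/
def allB (f : Bool → Bool) : Bool := cond (f false) (f true) false

lemma allB_sound {f : Bool → Bool} (h : allB f = true) : ∀ b, f b = true := by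
  unfold allB at h
  obtain ⟨h1, h2⟩ := cond_eq_true h
  intro b
  cases b
  · exact h1
  · exact h2

/-! ### the row `i` -/

/-- the value at a node -/
def uNode (aF aG aO sS aW m x5 ct : ℕ) (F w s : ℕ) : ℕ :=
  Nat.sub (Nat.add (Nat.add (Nat.add (Nat.mul aF F) (Nat.mul aG (mx (Nat.sub F w) (nat_lit 10000)))) x5)
    (Nat.add (Nat.mul aO (Nat.add (Nat.mul (nat_lit 8600) s) (Nat.mul (nat_lit 39)
      (Nat.add (Nat.mul (Nat.div s m) (Nat.mul m m)) (Nat.mul (Nat.mod s m) (Nat.mod s m))))))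
      (Nat.mul sS s))) (Nat.add (Nat.mul aW w) ct)

/-- the nodes at a corner: `k` gets the maxima of the values and of the defects -/
noncomputable def nodeL (aF aG aO sS aW m hx x5 ct TI : ℕ) (nodes : List ℕ) :
    ℕ → ℕ → (ℕ → ℕ → Bool) → Bool :=
  @List.rec ℕ (fun _ => ℕ → ℕ → (ℕ → ℕ → Bool) → Bool) (fun L D k => k L D)
    (fun s _ ih L D k => frc (dg TI s) fun F => cond (Nat.ble (nat_lit 1) F) (cond (Nat.ble s (nat_lit 160))
      (frc (Nat.div (w4 (Nat.add hx s)) (nat_lit 4)) fun w =>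
      frc (mx L (uNode aF aG aO sS aW m x5 ct F w s)) fun L' =>
      frc (mx D (Nat.sub F w)) fun D' => ih L' D' k) false) false) nodes

/-- the facts at a node -/
def NodeF (aF aG aO sS aW m hx x5 ct TI L D s : ℕ) : Prop :=
  s ≤ 160 ∧ 1 ≤ dg TI s ∧ uNode aF aG aO sS aW m x5 ct (dg TI s) (w4 (hx + s) / 4) s ≤ L ∧
    dg TI s ≤ w4 (hx + s) / 4 + D

lemma NodeF.mono {aF aG aO sS aW m hx x5 ct TI L D s L' D' : ℕ} (h : NodeF aF aG aO sS aW m hx x5 ct TI L D s)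
    (h1 : L ≤ L') (h2 : D ≤ D') : NodeF aF aG aO sS aW m hx x5 ct TI L' D' s :=
  ⟨h.1, h.2.1, h.2.2.1.trans h1, h.2.2.2.trans (by omega)⟩

lemma nodeL_sound (aF aG aO sS aW m hx x5 ct TI : ℕ) (nodes : List ℕ) : ∀ L D k,
    nodeL aF aG aO sS aW m hx x5 ct TI nodes L D k = true → ∃ L' D', k L' D' = true ∧ L ≤ L' ∧ D ≤ D' ∧
      ∀ s ∈ nodes, NodeF aF aG aO sS aW m hx x5 ct TI L' D' s := by
  induction nodes with
  | nil => intro L D k h; exact ⟨L, D, h, le_rfl, le_rfl, fun s hs => absurd hs (by simp)⟩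
  | cons s nodes ih =>
    intro L D k h
    have e : nodeL aF aG aO sS aW m hx x5 ct TI (s :: nodes) L D k = frc (dg TI s) fun F =>
      cond (Nat.ble (nat_lit 1) F) (cond (Nat.ble s (nat_lit 160))
      (frc (Nat.div (w4 (Nat.add hx s)) (nat_lit 4)) fun w =>
      frc (mx L (uNode aF aG aO sS aW m x5 ct F w s)) fun L' =>
      frc (mx D (Nat.sub F w)) fun D' => nodeL aF aG aO sS aW m hx x5 ct TI nodes L' D' k) false) false := rfl
    rw [e, frc_eq] at h
    obtain ⟨h1, h⟩ := cond_eq_true h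
    obtain ⟨h2, h⟩ := cond_eq_true h
    rw [frc_eq, frc_eq, frc_eq] at h
    obtain ⟨L', D', g1, g2, g3, g4⟩ := ih _ _ _ h
    refine ⟨L', D', g1, (le_mx_left _ _).trans g2, (le_mx_left _ _).trans g3, ?_⟩
    intro s' hs'
    rcases List.mem_cons.mp hs' with rfl | hs'
    · refine ⟨Nat.le_of_ble_eq_true h2, Nat.le_of_ble_eq_true h1, (le_mx_right _ _).trans g2, ?_⟩
      have h5 := (le_mx_right D (Nat.sub (dg TI s') (Nat.div (w4 (Nat.add hx s')) 4))).trans g3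
      have h6 : dg TI s' - w4 (hx + s') / 4 ≤ D' := h5
      omega
    · exact g4 s' hs'

/-- the contribution of `x` -/
def x5 (aO sX x : ℕ) : ℕ :=
  Nat.add (Nat.mul aO (Nat.add (Nat.mul (nat_lit 8600) x) (Nat.mul (nat_lit 39) (Nat.mul x x)))) (Nat.mul sX x)

/-- the corners of the row `i`: records `(TI, h + t + x, x)` -/
noncomputable def crnI (aF aG aO sS sX aW m ct : ℕ) (nodes : List ℕ) (cs : List (ℕ × ℕ × ℕ)) :
    ℕ → (List ℕ → ℕ → Bool) → Bool :=
  @List.rec (ℕ × ℕ × ℕ) (fun _ => ℕ → (List ℕ → ℕ → Bool) → Bool) (fun D k => k [] D)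
    (fun c _ ih D k => frc (x5 aO sX c.2.2) fun xx => nodeL aF aG aO sS aW m c.2.1 xx ct c.1 nodes (nat_lit 0) D
      fun L D' => ih D' fun Ls D'' => k (L :: Ls) D'') cs

lemma crnI_sound (aF aG aO sS sX aW m ct : ℕ) (nodes : List ℕ) (cs : List (ℕ × ℕ × ℕ)) : ∀ D k,
    crnI aF aG aO sS sX aW m ct nodes cs D k = true → ∃ Ls D', k Ls D' = true ∧ D ≤ D' ∧
      ∀ q < cs.length, ∀ s ∈ nodes, NodeF aF aG aO sS aW m (cs.getD q (0, 0, 0)).2.1
        (x5 aO sX (cs.getD q (0, 0, 0)).2.2) ct (cs.getD q (0, 0, 0)).1 (Ls.getD q 0) D' s := by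
  induction cs with
  | nil => intro D k h; exact ⟨[], D, h, le_rfl, fun q hq => absurd hq (by simp)⟩
  | cons c cs ih =>
    intro D k h
    have e : crnI aF aG aO sS sX aW m ct nodes (c :: cs) D k = frc (x5 aO sX c.2.2) fun xx =>
      nodeL aF aG aO sS aW m c.2.1 xx ct c.1 nodes 0 D
      fun L D' => crnI aF aG aO sS sX aW m ct nodes cs D' fun Ls D'' => k (L :: Ls) D'' := rfl
    rw [e, frc_eq] at h
    obtain ⟨L, D1, h1, -, h2, h3⟩ := nodeL_sound _ _ _ _ _ _ _ _ _ _ _ _ _ _ h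
    obtain ⟨Ls, D2, h4, h5, h6⟩ := ih _ _ h1
    refine ⟨L :: Ls, D2, h4, h2.trans h5, ?_⟩
    intro q hq s hs
    cases q with
    | zero => exact (h3 s hs).mono le_rfl h5
    | succ q => simpa using h6 q (by simpa using hq) s hs

/-- the 64 corners -/
noncomputable def all64 (A O2 H0 H1 T0 T1 G0 G1 : ℕ) (Ls rj rk : List ℕ) : Bool :=
  allB fun bh => allB fun bt => allB fun bg =>
    frc (Nat.add (cond bh H1 H0) (Nat.add (cond bt T1 T0) (cond bg G1 G0))) fun n =>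
      cond (Nat.ble (nat_lit 410) n) (cond (Nat.ble n (nat_lit 600))
        (frc (Nat.add (Nat.mul (Nat.mul (nat_lit 8) A) (lgL n)) O2) fun B =>
          allB fun bx => allB fun b1 => allB fun b2 =>
            Nat.ble (Nat.mul (nat_lit 100000) (Nat.add (gt Ls (ix bh bt bx)) (Nat.add (gt rj (ix bh bg b1))
              (gt rk (ix bt bg b2))))) B) false) false

lemma all64_sound {A O2 H0 H1 T0 T1 G0 G1 : ℕ} {Ls rj rk : List ℕ} (h : all64 A O2 H0 H1 T0 T1 G0 G1 Ls rj rk = true)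
    (bh bt bg bx b1 b2 : Bool) : 410 ≤ (bif bh then H1 else H0) + ((bif bt then T1 else T0) + (bif bg then G1 else G0)) ∧
    (bif bh then H1 else H0) + ((bif bt then T1 else T0) + (bif bg then G1 else G0)) ≤ 600 ∧
    100000 * (Ls.getD (ix bh bt bx) 0 + (rj.getD (ix bh bg b1) 0 + rk.getD (ix bt bg b2) 0))
      ≤ 8 * A * lgL ((bif bh then H1 else H0) + ((bif bt then T1 else T0) + (bif bg then G1 else G0))) + O2 := by
  have h1 := allB_sound (allB_sound (allB_sound h bh) bt) bg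
  rw [frc_eq] at h1
  obtain ⟨h2, h1⟩ := cond_eq_true h1
  obtain ⟨h3, h1⟩ := cond_eq_true h1
  rw [frc_eq] at h1
  have h4 := Nat.le_of_ble_eq_true (allB_sound (allB_sound (allB_sound h1 bx) b1) b2)
  rw [gt_eq, gt_eq, gt_eq] at h4
  exact ⟨Nat.le_of_ble_eq_true h2, Nat.le_of_ble_eq_true h3, h4⟩

/-- the nodes cover `[s0, s1]` by segments -/
noncomputable def chn (m s1 : ℕ) (nodes : List ℕ) : ℕ → Bool :=
  @List.rec ℕ (fun _ => ℕ → Bool) (fun a => Nat.ble s1 a)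
    (fun b _ ih a => cond (Nat.ble a b) (cond (Nat.ble b (Nat.mul (Nat.succ (Nat.div a m)) m)) (ih b) false) false)
    nodes

lemma chn_sound (m s1 : ℕ) (hm : 0 < m) (nodes : List ℕ) : ∀ a, chn m s1 nodes a = true → ∀ S : ℝ, (a : ℝ) / 200 ≤ S →
    S ≤ (s1 : ℝ) / 200 → ∃ a' ∈ a :: nodes, ∃ b' ∈ a :: nodes, a' ≤ b' ∧ b' ≤ (a' / m + 1) * m ∧
      (a' : ℝ) / 200 ≤ S ∧ S ≤ (b' : ℝ) / 200 := by
  induction nodes with
  | nil =>
    intro a h S h1 h2
    have h3 : s1 ≤ a := Nat.le_of_ble_eq_true h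
    refine ⟨a, by simp, a, by simp, le_rfl, ?_, h1, h2.trans ?_⟩
    · have := Nat.lt_div_mul_add (a := a) (b := m) hm
      rw [Nat.add_mul, Nat.one_mul]
      omega
    · have : (s1 : ℝ) ≤ a := by exact_mod_cast h3
      exact div_le_div_of_nonneg_right this (by norm_num)
  | cons b nodes ih =>
    intro a h S h1 h2
    have e : chn m s1 (b :: nodes) a = cond (Nat.ble a b) (cond (Nat.ble b (Nat.mul (Nat.succ (Nat.div a m)) m))
      (chn m s1 nodes b) false) false := rfl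
    rw [e] at h
    obtain ⟨h3, h⟩ := cond_eq_true h
    obtain ⟨h4, h⟩ := cond_eq_true h
    rcases le_total S ((b : ℝ) / 200) with h5 | h5
    · exact ⟨a, by simp, b, by simp, Nat.le_of_ble_eq_true h3, Nat.le_of_ble_eq_true h4, h1, h5⟩
    · obtain ⟨a', ha', b', hb', h6⟩ := ih b h S h5 h2
      exact ⟨a', List.mem_cons_of_mem _ ha', b', List.mem_cons_of_mem _ hb', h6⟩

/-! ### one node, real form -/

lemma node_mul (m q s : ℕ) (hm : 0 < m) (h1 : q * m ≤ s) (h2 : s ≤ (q + 1) * m) :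
    (s / m = q ∧ s % m = s - q * m) ∨ (s = (q + 1) * m ∧ s / m = q + 1 ∧ s % m = 0) := by
  rcases Nat.eq_or_lt_of_le h2 with h | h
  · right
    exact ⟨h, by rw [h]; exact Nat.mul_div_cancel _ hm, by rw [h]; exact Nat.mul_mod_left _ _⟩
  · left
    have h3 : s / m = q := by
      apply Nat.div_eq_of_lt_le <;> linarith
    refine ⟨h3, ?_⟩
    have := Nat.div_add_mod s m
    rw [h3, mul_comm] at this
    omega

/-- the multiset of a node -/
noncomputable def nodeM (m q s : ℕ) : Multiset ℝ :=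
  ((s : ℝ) / 200 - q * ((m : ℝ) / 200)) ::ₘ Multiset.replicate q ((m : ℝ) / 200)

theorem node_real {m q s H T X TI : ℕ} (hI : RowI m H T X TI) (hm : 0 < m) (hs : s ≤ 160) (h1 : q * m ≤ s)
    (h2 : s ≤ (q + 1) * m) (h3 : 1 ≤ dg TI s) :
    FM (1 ::ₘ (H : ℝ) / 200 ::ₘ (T : ℝ) / 200 ::ₘ (X : ℝ) / 200 ::ₘ nodeM m q s) ≤ (dg TI s : ℝ) / 10 ^ 7 ∧
    (nodeM m q s).sum = (s : ℝ) / 200 ∧
    ((s : ℝ) / 200 - q * ((m : ℝ) / 200)) ^ 2 + q * ((m : ℝ) / 200) ^ 2
      = ((s / m * (m * m) + s % m * (s % m) : ℕ) : ℝ) / 40000 := by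
  have h4 := hI.hF s (by omega) h3
  have hsum : (nodeM m q s).sum = (s : ℝ) / 200 := by
    unfold nodeM
    rw [Multiset.sum_cons, Multiset.sum_replicate, nsmul_eq_mul]
    ring
  rcases node_mul m q s hm h1 h2 with ⟨e1, e2⟩ | ⟨e0, e1, e2⟩
  · refine ⟨?_, hsum, ?_⟩
    · rw [e1, e2, Nat.cast_sub h1] at h4
      refine le_trans (le_of_eq ?_) h4
      unfold nodeM
      congr 5
      push_cast
      ring
    · rw [e1, e2]
      push_cast [Nat.cast_sub h1]
      ring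
  · refine ⟨?_, hsum, ?_⟩
    · rw [e1, e2] at h4
      have e3 : (1 : ℝ) ::ₘ (H : ℝ) / 200 ::ₘ (T : ℝ) / 200 ::ₘ (X : ℝ) / 200 ::ₘ ((0 : ℕ) : ℝ) / 200
          ::ₘ Multiset.replicate (q + 1) ((m : ℝ) / 200)
          = (0 : ℝ) ::ₘ (1 ::ₘ (H : ℝ) / 200 ::ₘ (T : ℝ) / 200 ::ₘ (X : ℝ) / 200 ::ₘ nodeM m q s) := by
        unfold nodeM
        have e4 : (s : ℝ) / 200 - q * ((m : ℝ) / 200) = (m : ℝ) / 200 := by
          rw [e0]
          push_cast
          ring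
        rw [e4, Multiset.replicate_succ]
        simp only [Nat.cast_zero, zero_div, ← Multiset.singleton_add]
        abel
      rw [e3, FM_zero_cons] at h4
      exact h4
    · have e4 : (s : ℝ) / 200 - q * ((m : ℝ) / 200) = (m : ℝ) / 200 := by
        rw [e0]
        push_cast
        ring
      rw [e4, e1, e2]
      push_cast
      ring

/-- the row functional at a node -/
theorem node_U {m q s H T X TI A κ Γ mS CX Ct tl L D : ℕ} (hI : RowI m H T X TI) (hm : 0 < m) (h1 : q * m ≤ s)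
    (h2 : s ≤ (q + 1) * m) (hHT : 60 ≤ H + T + X)
    (hN : NodeF (4 * (A + κ)) (4 * Γ) (5 * A) (64 * mS) (4 * κ) m (H + T + X) (x5 (5 * A) (64 * CX) X)
      (64 * Ct * tl) TI L D s) :
    UI A κ Γ ((CX : ℝ) / 3125) ((H : ℝ) / 200) ((T : ℝ) / 200) ((X : ℝ) / 200) (nodeM m q s)
      + A * (43 / 200 * (((s : ℝ) / 200 - q * ((m : ℝ) / 200)) + q * ((m : ℝ) / 200))
        + 39 / 200 * (((s : ℝ) / 200 - q * ((m : ℝ) / 200)) ^ 2 + q * ((m : ℝ) / 200) ^ 2))
      + (mS : ℝ) / 3125 * (((s : ℝ) / 200 - q * ((m : ℝ) / 200)) + q * ((m : ℝ) / 200))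
      ≤ (L : ℝ) / 40000000 + (Ct : ℝ) / 3125 * ((tl : ℝ) / 200) ∧
    FM (1 ::ₘ (H : ℝ) / 200 ::ₘ (T : ℝ) / 200 ::ₘ (X : ℝ) / 200 ::ₘ nodeM m q s)
      - Wc ((H : ℝ) / 200 + (T : ℝ) / 200 + (X : ℝ) / 200 + (nodeM m q s).sum) ≤ (D : ℝ) / 10 ^ 7 := by
  obtain ⟨n1, n2, n3, n4⟩ := hN
  obtain ⟨f1, f2, f3⟩ := node_real hI hm n1 h1 h2 n2
  have w1 := w4_le (H + T + X + s) (by omega)
  have w2 : ((w4 (H + T + X + s) / 4 : ℕ) : ℝ) / 10 ^ 7 ≤ Wc ((H : ℝ) / 200 + (T : ℝ) / 200 + (X : ℝ) / 200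
      + (nodeM m q s).sum) := by
    rw [f2]
    have e : (H : ℝ) / 200 + (T : ℝ) / 200 + (X : ℝ) / 200 + (s : ℝ) / 200 = ((H + T + X + s : ℕ) : ℝ) / 200 := by
      push_cast
      ring
    rw [e]
    refine le_trans ?_ w1
    have : (((w4 (H + T + X + s) / 4 : ℕ) : ℝ)) * 4 ≤ (w4 (H + T + X + s) : ℝ) := by
      exact_mod_cast Nat.div_mul_le_self _ _
    rw [div_le_div_iff₀ (by norm_num) (by norm_num)]
    nlinarith
  obtain ⟨F, hF⟩ : ∃ F, F = FM (1 ::ₘ (H : ℝ) / 200 ::ₘ (T : ℝ) / 200 ::ₘ (X : ℝ) / 200 ::ₘ nodeM m q s) := ⟨_, rfl⟩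
  obtain ⟨W, hW⟩ : ∃ W, W = Wc ((H : ℝ) / 200 + (T : ℝ) / 200 + (X : ℝ) / 200 + (nodeM m q s).sum) := ⟨_, rfl⟩
  obtain ⟨w, hw⟩ : ∃ w, w = w4 (H + T + X + s) / 4 := ⟨_, rfl⟩
  obtain ⟨V, hV⟩ : ∃ V, V = dg TI s := ⟨_, rfl⟩
  unfold UI
  rw [← hF] at f1
  rw [← hW, ← hw] at w2
  rw [← hV] at f1 n3 n4
  rw [← hw] at n3 n4
  rw [f3, ← hF, ← hW]
  have hD1 : F - W ≤ (V : ℝ) / 10 ^ 7 - (w : ℝ) / 10 ^ 7 := by linarith
  refine ⟨?_, ?_⟩
  · -- the functional
    have hmax : max (F - W) (1 / 1000) ≤ ((mx (V - w) 10000 : ℕ) : ℝ) / 10 ^ 7 := by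
      refine max_le ?_ ?_
      · have k1 := le_mx_left (V - w) 10000
        have k2 : (V : ℝ) - w ≤ ((V - w : ℕ) : ℝ) := by
          have : (V : ℝ) ≤ ((V - w : ℕ) : ℝ) + w := by exact_mod_cast (by omega : V ≤ (V - w) + w)
          linarith
        have k3 : ((V - w : ℕ) : ℝ) ≤ ((mx (V - w) 10000 : ℕ) : ℝ) := by exact_mod_cast k1
        rw [← sub_div] at hD1
        refine hD1.trans ?_
        exact div_le_div_of_nonneg_right (k2.trans k3) (by positivity)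
      · have k1 := le_mx_right (V - w) 10000
        have k3 : ((10000 : ℕ) : ℝ) ≤ ((mx (V - w) 10000 : ℕ) : ℝ) := by exact_mod_cast k1
        rw [le_div_iff₀ (by positivity)]
        refine le_trans (le_of_eq ?_) k3
        norm_num
    obtain ⟨E, hE⟩ : ∃ E, E = mx (V - w) 10000 := ⟨_, rfl⟩
    rw [← hE] at hmax
    obtain ⟨Q, hQ⟩ : ∃ Q, Q = s / m * (m * m) + s % m * (s % m) := ⟨_, rfl⟩
    rw [← hQ]
    have hU : 4 * (A + κ) * V + 4 * Γ * E + (5 * A * (8600 * X + 39 * (X * X)) + 64 * CX * X)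
        + (5 * A * (8600 * s + 39 * Q) + 64 * mS * s) ≤ L + (4 * κ * w + 64 * Ct * tl) := by
      have e : uNode (4 * (A + κ)) (4 * Γ) (5 * A) (64 * mS) (4 * κ) m (x5 (5 * A) (64 * CX) X) (64 * Ct * tl) V w s
          = 4 * (A + κ) * V + 4 * Γ * E + (5 * A * (8600 * X + 39 * (X * X)) + 64 * CX * X)
        + (5 * A * (8600 * s + 39 * Q) + 64 * mS * s) - (4 * κ * w + 64 * Ct * tl) := by
        rw [hE, hQ]
        rfl
      rw [e] at n3
      omega
    have hUR : 4 * ((A : ℝ) + κ) * V + 4 * Γ * E + (5 * A * (8600 * X + 39 * (X * X)) + 64 * CX * X)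
        + (5 * A * (8600 * s + 39 * Q) + 64 * mS * s) ≤ L + (4 * κ * w + 64 * Ct * tl) := by
      have h0 := (Nat.cast_le (α := ℝ)).mpr hU
      push_cast at h0
      linarith
    have hA : (0 : ℝ) ≤ (A : ℝ) := Nat.cast_nonneg _
    have hκ : (0 : ℝ) ≤ (κ : ℝ) := Nat.cast_nonneg _
    have hΓ : (0 : ℝ) ≤ (Γ : ℝ) := Nat.cast_nonneg _
    have u1 := mul_le_mul_of_nonneg_left f1 (add_nonneg hA hκ)
    have u2 := mul_le_mul_of_nonneg_left w2 hκ
    have u3 := mul_le_mul_of_nonneg_left hmax hΓ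
    unfold omg
    have goal' : 40000000 * (A * (F + (43 / 200 * ((X : ℝ) / 200) + 39 / 200 * ((X : ℝ) / 200) ^ 2)) + κ * (F - W)
        + Γ * max (F - W) (1 / 1000) + (CX : ℝ) / 3125 * ((X : ℝ) / 200)
        + A * (43 / 200 * (((s : ℝ) / 200 - q * ((m : ℝ) / 200)) + q * ((m : ℝ) / 200)) + 39 / 200 * ((Q : ℝ) / 40000))
        + (mS : ℝ) / 3125 * (((s : ℝ) / 200 - q * ((m : ℝ) / 200)) + q * ((m : ℝ) / 200)))
        ≤ L + 64 * Ct * tl := by
      norm_num at u1 u2 u3 ⊢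
      linarith
    have e5 : (L : ℝ) / 40000000 + (Ct : ℝ) / 3125 * ((tl : ℝ) / 200) = (L + 64 * Ct * tl) / 40000000 := by
      ring
    rw [e5, le_div_iff₀ (by norm_num)]
    linarith
  · refine hD1.trans ?_
    rw [← sub_div]
    refine div_le_div_of_nonneg_right ?_ (by positivity)
    have : (V : ℝ) ≤ w + D := by exact_mod_cast n4
    linarith

end B1
end Pool.Agent.Lib.MP_6947cd_al
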