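import Pool.Agent.Lib.MP_6947cd_al.Y.Side

/-!
Problem MP_6947cd_al (Chollet).  THE CHECK OF A ROW, real form: the main theorem.
-/

set_option autoImplicit false
open Finset

namespace Pool.Agent.Lib.MP_6947cd_al
namespace PkA

open Ent Ent.Pk Fr Fr.WT B1

/-- index of a corner of the box -/
def ix (a b c : Bool) : ℕ := (bif a then 1 else 0) + (bif b then 2 else 0) + (bif c then 4 else 0)

/-- the facts behind the reduction -/
structure SpS : Prop where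
  s2 : SpecS2
  s3 : SpecS3
  s4 : SpecS4
  s5 : SpecS5
  s6 : SpecS6
  r7 : SpecR7

lemma yval_le (ks : List ℕ) (h : ∀ k ∈ ks, k ≤ 200) (ya : ℕ) : yval ks ya ≤ 200 := by
  cases ya with
  | zero => simp [yval]
  | succ a =>
    simp only [yval, List.getD_cons_succ]
    rcases Nat.lt_or_ge a ks.length with h1 | h1
    · rw [List.getD_eq_getElem _ _ h1]
      exact h _ (List.getElem_mem h1)
    · rw [List.getD_eq_default _ _ h1]
      norm_num

lemma nat01 {k : ℕ} (h : k ≤ 200) : (0 : ℝ) ≤ (k : ℝ) / 200 ∧ (k : ℝ) / 200 ≤ 1 := by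
  have : (k : ℝ) ≤ 200 := by exact_mod_cast h
  constructor
  · positivity
  · linarith

/-- four certified tables at the corners of the box -/
structure Tabs (rd ks : List ℕ) (b0 b1 g0 g1 cF : ℕ) (tabs : List (ℕ × ℕ)) : Prop where
  len : tabs.length = 4
  t : ∀ bb bg : Bool, RowT rd ks (bif bb then b1 else b0) (bif bg then g1 else g0) cF
    (tabs.getD (ix bb bg false) (0, 0)).1 (tabs.getD (ix bb bg false) (0, 0)).2

lemma Tabs.smT {rd ks : List ℕ} {b0 b1 g0 g1 cF : ℕ} {tabs : List (ℕ × ℕ)} (h : Tabs rd ks b0 b1 g0 g1 cF tabs) :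
    SmT (prd rd) tabs := by
  intro q hq
  rw [h.len] at hq
  have : ∃ bb bg : Bool, q = ix bb bg false := by
    have : q = 0 ∨ q = 1 ∨ q = 2 ∨ q = 3 := by omega
    rcases this with rfl | rfl | rfl | rfl
    · exact ⟨false, false, rfl⟩
    · exact ⟨true, false, rfl⟩
    · exact ⟨false, true, rfl⟩
    · exact ⟨true, true, rfl⟩
  obtain ⟨bb, bg, rfl⟩ := this
  have := h.t bb bg
  exact ⟨this.hT, this.hW, this.dT, this.dW⟩

/-- THE CHECK OF A ROW, real form. -/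
theorem side_real (hS : SpS) (rd ks Ps Ns : List ℕ) (hcnt : CntOK rd Ns) (hk : ks.length = rd.length)
    (hP : Ps.length = rd.length) (hkn : KnOK ks) (hk2 : ∀ k ∈ ks, k ≤ 200) (b0 b1 g0 g1 cF : ℕ)
    (tabs : List (ℕ × ℕ)) (hT : Tabs rd ks b0 b1 g0 g1 cF tabs) (hb0 : b0 ≤ b1) (hb : b1 ≤ 200) (hg0 : g0 ≤ g1)
    (hg : g1 ≤ 200) (ya0 ya1 : ℕ)
    (hy0 : ya0 ≤ ks.length) (hy1 : ya1 ≤ ks.length)
    (A β C mu O d c0 TC p1 lb u ub : ℕ) (rs : List ℕ) (hX : Pk.dotN rd Ps < 2 ^ 62) (hR : Pk.dotN rd ks < 2 ^ 62)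
    (h : sideC (mm rd ks Ps 0 0) (pk (fun _ => 2 ^ 63) (prd rd)) (pk (fun _ => 1) (prd rd)) (4 * (A + β)) (4 * β) mu
      (linC (omA A ks) Ns) (linC Ps Ns) (linC ks Ns) (Pk.dotN rd Ps) (Pk.dotN rd (omA A ks)) d c0 TC p1 lb u ub
      (yoff rd ya0) (A * (5 * (8600 * yval ks ya0 + 39 * (yval ks ya0 * yval ks ya0))) + O) (C * yval Ps ya0)
      (yoff rd ya1) (A * (5 * (8600 * yval ks ya1 + 39 * (yval ks ya1 * yval ks ya1))) + O) (C * yval Ps ya1)
      tabs rs = true)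
    (ns : List ℕ) (fs : List Bool) (M' : Multiset ℝ) (hred : Red 0 (kR ks) ns fs M')
    (hroom : List.Forall₂ (fun n r => n + 3 < r) ns rd)
    (h1 : Pk.dotN ns ks + c0 + lowN 0 ks fs ≤ TC) (h2 : Pk.dotN ns Ps + lowN 0 Ps fs ≤ p1)
    (h3 : lb ≤ Pk.dotN ns ks + u * uppN ks fs) (h4 : Pk.dotN ns ks ≤ ub) :
    (∀ bb bg by' : Bool, UJ A β ((cF : ℝ) / 10 ^ 7) ((C : ℝ) / 3125) ((mu : ℝ) / 3125) (omF ks) (prF ks Ps)
      (bif bb then (b1 : ℝ) / 200 else (b0 : ℝ) / 200) (bif bg then (g1 : ℝ) / 200 else (g0 : ℝ) / 200)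
      (bif by' then (yval ks ya1 : ℝ) / 200 else (yval ks ya0 : ℝ) / 200) M'
      ≤ ((rs.getD (ix bb bg by') 0 : ℝ) - O) / 40000000) ∨
    (∀ b g y : ℝ, (b0 : ℝ) / 200 ≤ b → b ≤ (b1 : ℝ) / 200 → (g0 : ℝ) / 200 ≤ g → g ≤ (g1 : ℝ) / 200 →
      (yval ks ya0 : ℝ) / 200 ≤ y → y ≤ (yval ks ya1 : ℝ) / 200 →
      max (FM (1 ::ₘ b ::ₘ g ::ₘ y ::ₘ M')) ((cF : ℝ) / 10 ^ 7) + (d : ℝ) / 10 ^ 7 ≤ Wc (b + g + y + M'.sum)) := by
  obtain ⟨q1, q2, q3, q4, q5⟩ := hS.s2 (kR ks) 0 ns fs M' le_rfl hkn hred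
  rw [kR_length] at q4 q5
  have hok : CA.OkD rd ns := hroom.imp fun _ _ h => by omega
  have hc4 := hS.s4 rd ns fs (by omega) hroom
  have hne : tabs ≠ [] := by
    intro hcon
    have := hT.len
    rw [hcon] at this
    simp at this
  have hsc := sideC_sound rd ks Ps (omA A ks) Ns hcnt hk hP (4 * (A + β)) (4 * β) mu d c0 TC p1 lb u ub
    _ _ _ _ _ _ tabs rs hne hT.smT hX hR h ns fs hok (by omega) h1 h2 h3 h4
  rcases hsc with hsc | hsc
  · left
    intro bb bg by'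
    obtain ⟨o1, -, -⟩ := omF_facts hS.r7 ks hkn
    obtain ⟨p1', -, -⟩ := prF_facts hS.r7 ks Ps hkn (by omega)
    have hbb : (0 : ℝ) ≤ (bif bb then (b1 : ℝ) / 200 else (b0 : ℝ) / 200)
        ∧ (bif bb then (b1 : ℝ) / 200 else (b0 : ℝ) / 200) ≤ 1 := by
      cases bb
      · exact nat01 (by omega)
      · exact nat01 hb
    have hgg : (0 : ℝ) ≤ (bif bg then (g1 : ℝ) / 200 else (g0 : ℝ) / 200)
        ∧ (bif bg then (g1 : ℝ) / 200 else (g0 : ℝ) / 200) ≤ 1 := by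
      cases bg
      · exact nat01 (by omega)
      · exact nat01 hg
    have hyy : (0 : ℝ) ≤ (bif by' then (yval ks ya1 : ℝ) / 200 else (yval ks ya0 : ℝ) / 200)
        ∧ (bif by' then (yval ks ya1 : ℝ) / 200 else (yval ks ya0 : ℝ) / 200) ≤ 1 := by
      cases by'
      · exact nat01 (yval_le ks hk2 ya0)
      · exact nat01 (yval_le ks hk2 ya1)
    refine hS.s5 A β _ _ _ _ _ _ _ _ _ (kR ks) ns fs M' (Nat.cast_nonneg _) (Nat.cast_nonneg _) hbb.1 hbb.2 hgg.1 hgg.2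
      hyy.1 hyy.2 hkn o1 p1' hred ?_
    intro t ht
    obtain ⟨o, ho, ho1, ho2, ho3, ho4, ho5⟩ := hc4 t ht
    obtain ⟨l1, l2⟩ := hsc o ho
    rw [← ho2] at l1 l2
    have hq : ix bb bg false < tabs.length := by
      rw [hT.len]
      cases bb <;> cases bg <;> decide
    have hRT := hT.t bb bg
    have hb' : (bif bb then (b1 : ℝ) / 200 else (b0 : ℝ) / 200) = ((bif bb then b1 else b0 : ℕ) : ℝ) / 200 := by
      cases bb <;> rfl
    have hg' : (bif bg then (g1 : ℝ) / 200 else (g0 : ℝ) / 200) = ((bif bg then g1 else g0 : ℕ) : ℝ) / 200 := by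
      cases bg <;> rfl
    rw [hb', hg']
    cases by' with
    | false =>
      obtain ⟨m1, m2⟩ := l1.2 _ hq
      beta_reduce at m2
      rw [CA.dig_idx rd _ ho3] at m2
      have e : ix bb bg false = ix bb bg false := rfl
      refine line_at hS.s3 hS.r7 rd ks Ps _ _ cF _ _ hRT hkn (by omega) ya0 hy0 t.1 t.2 (by omega) ho3
        (fun a ha => ho5 a (by omega)) m1 A β C mu O _ ?_
      have : rs.getD (ix bb bg false) 0 + C * yval Ps ya0
          + 4 * β * dg (tabs.getD (ix bb bg false) (0, 0)).2 (CA.idx rd t.2 + yoff rd ya0) + mu * Pk.dotN t.2 Ps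
        = rs.getD (ix bb bg false) 0 + C * yval Ps ya0
          + 4 * β * dg (tabs.getD (ix bb bg false) (0, 0)).2 (CA.idx rd t.2 + yoff rd ya0) + mu * Pk.dotN t.2 Ps := rfl
      omega
    | true =>
      obtain ⟨m1, m2⟩ := l2.2 _ hq
      beta_reduce at m2
      rw [CA.dig_idx rd _ ho3] at m2
      have e : (rs.drop tabs.length).getD (ix bb bg false) 0 = rs.getD (ix bb bg true) 0 := by
        rw [hT.len]
        rw [List.getD_eq_getElem?_getD, List.getElem?_drop, List.getD_eq_getElem?_getD]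
        congr 2
        cases bb <;> cases bg <;> rfl
      rw [e] at m2
      refine line_at hS.s3 hS.r7 rd ks Ps _ _ cF _ _ hRT hkn (by omega) ya1 hy1 t.1 t.2 (by omega) ho3
        (fun a ha => ho5 a (by omega)) m1 A β C mu O _ ?_
      omega
  · right
    intro b g y hb1 hb2 hg1 hg2 hy1' hy2'
    refine hS.s6 _ _ ((b0 : ℝ) / 200) ((b1 : ℝ) / 200) ((g0 : ℝ) / 200) ((g1 : ℝ) / 200) ((yval ks ya0 : ℝ) / 200)
      ((yval ks ya1 : ℝ) / 200) b g y (kR ks) ns fs M' (by positivity) (nat01 hb).2 (by positivity) (nat01 hg).2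
      (by positivity) (nat01 (yval_le ks hk2 ya1)).2 hb1 hb2 hg1 hg2 hy1' hy2' hkn hred ?_
    intro bb bg by' t ht
    obtain ⟨o, ho, ho1, ho2, ho3, ho4, ho5⟩ := hc4 t ht
    obtain ⟨l1, l2⟩ := hsc o ho
    rw [← ho2] at l1 l2
    have hq : ix bb bg false < tabs.length := by
      rw [hT.len]
      cases bb <;> cases bg <;> decide
    have hRT := hT.t bb bg
    have hb' : (bif bb then (b1 : ℝ) / 200 else (b0 : ℝ) / 200) = ((bif bb then b1 else b0 : ℕ) : ℝ) / 200 := by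
      cases bb <;> rfl
    have hg' : (bif bg then (g1 : ℝ) / 200 else (g0 : ℝ) / 200) = ((bif bg then g1 else g0 : ℕ) : ℝ) / 200 := by
      cases bg <;> rfl
    rw [hb', hg']
    cases by' with
    | false =>
      obtain ⟨m1, m2⟩ := l1.2 _ hq
      exact rich_at hS.s3 rd ks _ _ cF _ _ hRT ya0 hy0 t.1 t.2 (by omega) ho3 (fun a ha => ho5 a (by omega)) m1 d m2
    | true =>
      obtain ⟨m1, m2⟩ := l2.2 _ hq
      exact rich_at hS.s3 rd ks _ _ cF _ _ hRT ya1 hy1 t.1 t.2 (by omega) ho3 (fun a ha => ho5 a (by omega)) m1 d m2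

end PkA
end Pool.Agent.Lib.MP_6947cd_al
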