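import Pool.Agent.Lib.MP_6947cd_al.Y.LeafN

/-!
Problem MP_6947cd_al (Chollet).  CASE B, large second entry: the environment of a row and the check of a row in a leaf.
-/

set_option autoImplicit false
open Finset

namespace Pool.Agent.Lib.MP_6947cd_al
namespace B1

open Ent Ent.Pk Fr Fr.WT PkA

/-- environment of a row: knots, prices, radices, masks, packed constants, the four tables; `u = 0`: the state bounds the base of the cell from
below, `u = 1`: it bounds base + upper ends of the mask -/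
structure SE where
  ms : List (List (ℕ × ℕ) × ℕ × ℕ × ℕ)
  HH : ℕ
  ONE : ℕ
  Om : ℕ
  X0 : ℕ
  R0 : ℕ
  bX : ℕ
  bO : ℕ
  tabs : List (ℕ × ℕ)
  rd : List ℕ
  ks : List ℕ
  Ps : List ℕ
  u : ℕ

/-- the environment is correct; unit of the multipliers: `1 / A` -/
structure SE.OK (A : ℕ) (e : SE) (b0 b1 g0 g1 cf : ℕ) : Prop where
  Ns : ∃ Ns, CntOK e.rd Ns ∧ e.Om = linC (omA A e.ks) Ns ∧ e.X0 = linC e.Ps Ns ∧ e.R0 = linC e.ks Ns
  ms : e.ms = mm e.rd e.ks e.Ps 0 0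
  HH : e.HH = pk (fun _ => 2 ^ 63) (prd e.rd)
  ONE : e.ONE = pk (fun _ => 1) (prd e.rd)
  bX : e.bX = Pk.dotN e.rd e.Ps
  bO : e.bO = Pk.dotN e.rd (omA A e.ks)
  bX2 : Pk.dotN e.rd e.Ps < 2 ^ 62
  bR2 : Pk.dotN e.rd e.ks < 2 ^ 62
  tabs : Tabs e.rd e.ks b0 b1 g0 g1 cf e.tabs
  lk : e.ks.length = e.rd.length
  lP : e.Ps.length = e.rd.length
  kn : KnOK e.ks
  mo : Mo 0 (pR e.Ps)
  le : ∀ k ∈ e.ks, k ≤ 200

/-- room for three more entries at every knot -/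
noncomputable def roomC (T p1 : ℕ) (rd : List ℕ) : List ℕ → List ℕ → Bool :=
  @List.rec ℕ (fun _ => List ℕ → List ℕ → Bool) (fun _ _ => true)
    (fun r _ ih ks Ps => @List.rec ℕ (fun _ => Bool) false (fun k ks' _ =>
      @List.rec ℕ (fun _ => Bool) false (fun p Ps' _ =>
        cond (cond (Nat.ble (Nat.succ T) (Nat.mul (Nat.sub r (nat_lit 3)) k)) true
          (Nat.ble (Nat.succ p1) (Nat.mul (Nat.sub r (nat_lit 3)) p))) (ih ks' Ps') false) Ps) ks) rd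

lemma roomC_sound (T p1 : ℕ) (rd : List ℕ) : ∀ ks Ps ns : List ℕ, roomC T p1 rd ks Ps = true →
    ns.length = rd.length → Pk.dotN ns ks ≤ T → Pk.dotN ns Ps ≤ p1 →
    List.Forall₂ (fun n r => n + 3 < r) ns rd := by
  induction rd with
  | nil =>
    intro ks Ps ns _ h1 _ _
    have := List.eq_nil_of_length_eq_zero h1
    subst this
    exact List.Forall₂.nil
  | cons r rd ih =>
    intro ks Ps ns h h1 h2 h3
    cases ns with
    | nil => simp at h1
    | cons n ns =>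
      cases ks with
      | nil => exact absurd h (by simp [roomC])
      | cons k ks =>
        cases Ps with
        | nil => exact absurd h (by simp [roomC])
        | cons p Ps =>
          have e : roomC T p1 (r :: rd) (k :: ks) (p :: Ps) = cond (cond (Nat.ble (Nat.succ T)
            (Nat.mul (Nat.sub r (nat_lit 3)) k)) true (Nat.ble (Nat.succ p1) (Nat.mul (Nat.sub r (nat_lit 3)) p)))
              (roomC T p1 rd ks Ps) false := rfl
          rw [e] at h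
          obtain ⟨h4, h5⟩ := cond_eq_true h
          have h2' : n * k + Pk.dotN ns ks ≤ T := h2
          have h3' : n * p + Pk.dotN ns Ps ≤ p1 := h3
          refine List.Forall₂.cons ?_ (ih ks Ps ns h5 (by simpa using h1) (by omega) (by omega))
          cases hb : Nat.ble (Nat.succ T) (Nat.mul (Nat.sub r (nat_lit 3)) k) with
          | true =>
            have h6 : T + 1 ≤ (r - 3) * k := Nat.le_of_ble_eq_true hb
            have h7 : n * k < (r - 3) * k := by omega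
            have h8 := lt_of_mul_lt_mul_right h7 (Nat.zero_le k)
            omega
          | false =>
            rw [hb, cond_false] at h4
            have h6 : p1 + 1 ≤ (r - 3) * p := Nat.le_of_ble_eq_true h4
            have h7 : n * p < (r - 3) * p := by omega
            have h8 := lt_of_mul_lt_mul_right h7 (Nat.zero_le p)
            omega

/-- the check of a row in a leaf; `bg` = sum of the lower ends of the two main entries -/
noncomputable def sideN (A : ℕ) (e : SE) (β mu C O d bg TC p1 J0 J1 ya0 ya1 : ℕ) (rs : List ℕ) : Bool :=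
  frc (gt ((nat_lit 0) :: e.ks) ya0) fun y0 => frc (gt ((nat_lit 0) :: e.ks) ya1) fun y1 =>
  cond (Nat.ble ya1 e.ks.length)
    (cond (Nat.ble ya0 ya1)
    (cond (roomC (Nat.sub TC (Nat.add bg y0)) p1 e.rd e.ks e.Ps)
    (frc (Nat.mul (nat_lit 4) β) fun b4 => frc (Nat.add (Nat.mul (nat_lit 4) A) b4) fun a4 =>
     frc (Nat.add bg y0) fun c0 =>
     frc (yoff e.rd ya0) fun e0 => frc (yoff e.rd ya1) fun e1 =>
     frc (Nat.add (Nat.mul A (Nat.mul (nat_lit 5) (Nat.add (Nat.mul (nat_lit 8600) y0)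
       (Nat.mul (nat_lit 39) (Nat.mul y0 y0))))) O) fun L0 =>
     frc (Nat.add (Nat.mul A (Nat.mul (nat_lit 5) (Nat.add (Nat.mul (nat_lit 8600) y1)
       (Nat.mul (nat_lit 39) (Nat.mul y1 y1))))) O) fun L1 =>
     frc (Nat.mul C (gt ((nat_lit 0) :: e.Ps) ya0)) fun A0 => frc (Nat.mul C (gt ((nat_lit 0) :: e.Ps) ya1)) fun A1 =>
      sideC e.ms e.HH e.ONE a4 b4 mu e.Om e.X0 e.R0 e.bX e.bO d c0 TC p1 J0 e.u J1 e0 L0 A0 e1 L1 A1
        e.tabs rs) false) false) false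

lemma lowS_nat (c : ℝ) (vs : List ℕ) : ∀ (va : ℕ) (fs : List Bool),
    lowS ((va : ℝ) / c) (vs.map fun v : ℕ => (v : ℝ) / c) fs = (lowN va vs fs : ℝ) / c := by
  induction vs with
  | nil => intro va fs; cases fs <;> simp [lowS, lowN]
  | cons v vs ih =>
    intro va fs
    cases fs with
    | nil => simp [lowS, lowN]
    | cons f fs =>
      simp only [List.map_cons, lowS, lowN, ih]
      cases f <;> simp [add_div]

lemma uppS_nat (c : ℝ) (vs : List ℕ) : ∀ (fs : List Bool),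
    uppS (vs.map fun v : ℕ => (v : ℝ) / c) fs = (uppN vs fs : ℝ) / c := by
  induction vs with
  | nil => intro fs; cases fs <;> simp [uppS, uppN]
  | cons v vs ih =>
    intro fs
    cases fs with
    | nil => simp [uppS, uppN]
    | cons f fs =>
      simp only [List.map_cons, uppS, uppN, ih]
      cases f <;> simp [add_div]

/-- THE CHECK OF A ROW in a leaf. -/
theorem side_leaf (hS : SpS) (hS1 : SpecS1) {A : ℕ} {e : SE} {b0 b1 g0 g1 cf : ℕ} (he : e.OK A b0 b1 g0 g1 cf)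
    (hb0 : b0 ≤ b1) (hb : b1 ≤ 200) (hg0 : g0 ≤ g1) (hg : g1 ≤ 200)
    {β mu C O d TC p1 J0 J1 ya0 ya1 : ℕ} {rs : List ℕ}
    (h : sideN A e β mu C O d (b0 + g0) TC p1 J0 J1 ya0 ya1 rs = true)
    {ns : List ℕ} {fs : List Bool} {M' : Multiset ℝ} (hred : Red 0 (kR e.ks) ns fs M') {b g y S : ℝ}
    (hb1 : (b0 : ℝ) / 200 ≤ b) (hb2 : b ≤ (b1 : ℝ) / 200) (hg1 : (g0 : ℝ) / 200 ≤ g) (hg2 : g ≤ (g1 : ℝ) / 200)
    (hy1 : (yval e.ks ya0 : ℝ) / 200 ≤ y) (hy2 : y ≤ (yval e.ks ya1 : ℝ) / 200)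
    (htot : b + g + y + M'.sum ≤ (TC : ℝ) / 200) (hpr : (M'.map (prF e.ks e.Ps)).sum ≤ S)
    (hSp : S ≤ (p1 : ℝ) / 12800) (hJ0 : J0 ≤ Pk.dotN ns e.ks + e.u * uppN e.ks fs) (hJ1 : Pk.dotN ns e.ks ≤ J1) :
    ya0 ≤ ya1 ∧ ya1 ≤ e.ks.length ∧
    ((∀ bb bg by' : Bool, UJ A β ((cf : ℝ) / 10 ^ 7) ((C : ℝ) / 3125) ((mu : ℝ) / 3125) (omF e.ks) (prF e.ks e.Ps)
      (bif bb then (b1 : ℝ) / 200 else (b0 : ℝ) / 200) (bif bg then (g1 : ℝ) / 200 else (g0 : ℝ) / 200)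
      (bif by' then (yval e.ks ya1 : ℝ) / 200 else (yval e.ks ya0 : ℝ) / 200) M'
      ≤ ((rs.getD (ix bb bg by') 0 : ℝ) - O) / 40000000) ∨
    (max (FM (1 ::ₘ b ::ₘ g ::ₘ y ::ₘ M')) ((cf : ℝ) / 10 ^ 7) + (d : ℝ) / 10 ^ 7 ≤ Wc (b + g + y + M'.sum))) := by
  unfold sideN at h
  rw [frc_eq, frc_eq] at h
  obtain ⟨h1, h⟩ := cond_eq_true h
  obtain ⟨h2, h⟩ := cond_eq_true h
  obtain ⟨h3, h⟩ := cond_eq_true h
  simp only [frc_eq, gt_eq] at h h3
  have h1 := Nat.le_of_ble_eq_true h1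
  have h2 := Nat.le_of_ble_eq_true h2
  obtain ⟨q1, q2, q3, q4, q5⟩ := hS.s2 (kR e.ks) 0 ns fs M' le_rfl he.kn hred
  rw [kR_length] at q4 q5
  obtain ⟨p1', p2', p3'⟩ := prF_facts hS.r7 e.ks e.Ps he.kn (by rw [he.lP, he.lk])
  have hprv : ∀ (n : ℕ) (_ : n < (kR e.ks).length), prF e.ks e.Ps ((kR e.ks).getD n 0) = (pR e.Ps).getD n 0 := by
    intro n hn
    rw [List.getD_eq_getElem _ _ hn]
    have e1 := congrArg (fun l => l.getD n 0) p3'
    beta_reduce at e1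
    rw [List.getD_eq_getElem _ _ (by simpa using hn), List.getElem_map] at e1
    exact e1
  have hp := (hS1 (kR e.ks) (pR e.Ps) 0 0 (prF e.ks e.Ps) ns fs M' he.kn
    (by rw [kR_length]; simp [pR, he.lP, he.lk]) p1' p2' hprv he.mo hred).1
  have l1 := lowS_nat 200 e.ks 0 fs
  have l2 := lowS_nat 12800 e.Ps 0 fs
  simp only [Nat.cast_zero, zero_div] at l1 l2
  have d1 := dotR_nat ns e.ks 200
  have d2 := dotR_nat ns e.Ps 12800
  have q1' : (Pk.dotN ns e.ks : ℝ) / 200 + (lowN 0 e.ks fs : ℝ) / 200 ≤ M'.sum := by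
    rw [← l1, ← d1]
    exact q1
  have hp' : (Pk.dotN ns e.Ps : ℝ) / 12800 + (lowN 0 e.Ps fs : ℝ) / 12800 ≤ (M'.map (prF e.ks e.Ps)).sum := by
    rw [← l2, ← d2]
    exact hp
  have hc1 : Pk.dotN ns e.ks + (b0 + g0 + yval e.ks ya0) + lowN 0 e.ks fs ≤ TC := by
    have : ((Pk.dotN ns e.ks + (b0 + g0 + yval e.ks ya0) + lowN 0 e.ks fs : ℕ) : ℝ) ≤ (TC : ℝ) := by
      push_cast
      linarith
    exact_mod_cast this
  have hc2 : Pk.dotN ns e.Ps + lowN 0 e.Ps fs ≤ p1 := by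
    have : ((Pk.dotN ns e.Ps + lowN 0 e.Ps fs : ℕ) : ℝ) ≤ (p1 : ℝ) := by
      push_cast
      linarith
    exact_mod_cast this
  have hroom := roomC_sound _ _ _ _ _ ns h3 (by rw [q4, he.lk]) (by
    show Pk.dotN ns e.ks ≤ TC - (b0 + g0 + yval e.ks ya0)
    omega) (by omega)
  obtain ⟨Ns, n1, n2, n3, n4⟩ := he.Ns
  have h' : sideC (mm e.rd e.ks e.Ps 0 0) (pk (fun _ => 2 ^ 63) (prd e.rd)) (pk (fun _ => 1) (prd e.rd))
      (4 * (A + β)) (4 * β) mu (linC (omA A e.ks) Ns) (linC e.Ps Ns) (linC e.ks Ns) (Pk.dotN e.rd e.Ps)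
      (Pk.dotN e.rd (omA A e.ks)) d (b0 + g0 + yval e.ks ya0) TC p1 J0 e.u J1
      (yoff e.rd ya0) (A * (5 * (8600 * yval e.ks ya0 + 39 * (yval e.ks ya0 * yval e.ks ya0))) + O)
      (C * yval e.Ps ya0)
      (yoff e.rd ya1) (A * (5 * (8600 * yval e.ks ya1 + 39 * (yval e.ks ya1 * yval e.ks ya1))) + O)
      (C * yval e.Ps ya1) e.tabs rs = true := by
    rw [← he.ms, ← he.HH, ← he.ONE, ← n2, ← n3, ← n4, ← he.bX, ← he.bO, Nat.mul_add]
    exact h
  have hside := side_real hS e.rd e.ks e.Ps Ns n1 he.lk he.lP he.kn he.le b0 b1 g0 g1 cf e.tabs he.tabs hb0 hb hg0 hg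
    ya0 ya1 (by omega) h1 A β C mu O d _ TC p1 J0 e.u J1 rs he.bX2 he.bR2 h' ns fs M' hred hroom hc1 hc2
    hJ0 hJ1
  refine ⟨h2, h1, ?_⟩
  rcases hside with hside | hside
  · exact Or.inl hside
  · exact Or.inr (hside b g y hb1 hb2 hg1 hg2 hy1 hy2)

end B1
end Pool.Agent.Lib.MP_6947cd_al
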