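import Pool.Agent.Lib.MP_6947cd_al.Y.Defs

/-!
Problem MP_6947cd_al (Chollet).  CASE B, large second entry: geometry of triples.
-/

set_option autoImplicit false

namespace Pool.Agent.Lib.MP_6947cd_al
namespace B1

/-- tangent of the upper cap -/
theorem specG1 : SpecG1 := by
  intro μ h0 h s u hμ h00 hh h1 hs0 hs1 hu0 hu1 ht
  unfold Tri at ht
  have hμ0 : 0 < μ := by linarith
  have hh0 : 0 ≤ h := h00.trans hh
  have e1 : Real.sqrt h * Real.sqrt s * Real.sqrt u = Real.sqrt (h * u) * Real.sqrt s := by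
    rw [Real.sqrt_mul hh0]; ring
  rw [e1] at ht
  have a1 := Real.sq_sqrt (mul_nonneg hh0 hu0)
  have a2 := Real.sq_sqrt hs0
  have key : 2 * (Real.sqrt (h * u) * Real.sqrt s) ≤ h * u / μ + μ * s := by
    have h3 : 0 ≤ (Real.sqrt (h * u) - μ * Real.sqrt s) ^ 2 := sq_nonneg _
    have h4 : 2 * (Real.sqrt (h * u) * Real.sqrt s) * μ ≤ h * u + μ ^ 2 * s := by nlinarith
    rw [← mul_le_mul_iff_left₀ hμ0]
    refine h4.trans (le_of_eq ?_)
    field_simp
  have h5 : 0 ≤ (h - h0) * (1 - u / μ) := by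
    refine mul_nonneg (by linarith) ?_
    rw [sub_nonneg, div_le_one hμ0]
    linarith
  have e2 : u * (1 - h0 / μ) = u - h * u / μ + (h - h0) * (u / μ) := by ring
  have e3 : (h - h0) * (1 - u / μ) = (h - h0) - (h - h0) * (u / μ) := by ring
  rw [e2]
  linarith

/-- lower bound of the third entry of a triple with two large entries -/
theorem specG2 : SpecG2 := by
  intro g0 h0 t0 h t g hg0 hh0 hh h1 ht0 htt t1 hg hgt hpos hsq htri
  unfold Tri at htri
  have hh' : 0 ≤ h := hh0.trans hh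
  have ht' : 0 ≤ t := ht0.trans htt
  set x := Real.sqrt g with hx
  set x0 := Real.sqrt g0 with hx0
  set p := Real.sqrt (h * t) with hp
  set p0 := Real.sqrt (h0 * t0) with hp0
  set q := Real.sqrt ((1 - h) * (1 - t)) with hq
  set q0 := Real.sqrt ((1 - h0) * (1 - t0)) with hq0
  have ex : x ^ 2 = g := Real.sq_sqrt hg
  have ex0 : x0 ^ 2 = g0 := Real.sq_sqrt hg0
  have ep : p ^ 2 = h * t := Real.sq_sqrt (mul_nonneg hh' ht')
  have ep0 : p0 ^ 2 = h0 * t0 := Real.sq_sqrt (mul_nonneg hh0 ht0)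
  have eq : q ^ 2 = (1 - h) * (1 - t) := Real.sq_sqrt (mul_nonneg (by linarith) (by linarith))
  have eq0 : q0 ^ 2 = (1 - h0) * (1 - t0) := Real.sq_sqrt (mul_nonneg (by linarith) (by linarith))
  have nx : 0 ≤ x := Real.sqrt_nonneg _
  have nx0 : 0 ≤ x0 := Real.sqrt_nonneg _
  have np0 : 0 ≤ p0 := Real.sqrt_nonneg _
  have nq : 0 ≤ q := Real.sqrt_nonneg _
  have nq0 : 0 ≤ q0 := Real.sqrt_nonneg _
  have m1 : p0 ≤ p := Real.sqrt_le_sqrt (mul_le_mul hh htt ht0 hh')
  have m2 : q ≤ q0 := Real.sqrt_le_sqrt (mul_le_mul (by linarith) (by linarith) (by linarith) (by linarith))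
  have m3 : x0 ≤ p0 := Real.sqrt_le_sqrt hgt
  have e1 : Real.sqrt h * Real.sqrt t * Real.sqrt g = p * x := by rw [hp, Real.sqrt_mul hh']
  rw [e1] at htri
  -- lower root for `(h, t)`
  have k1 : p - q ≤ x := by
    by_contra hcon
    push Not at hcon
    have : 0 ≤ p - q - x := by linarith
    nlinarith
  -- `x0` below the lower root for `(h0, t0)`
  have k2 : x0 ≤ p0 - q0 := by
    by_contra hcon
    push Not at hcon
    have h3 : 2 * (p0 * x0) ≤ h0 + t0 + g0 - 1 := by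
      refine abs_le_of_sq_le_sq' ?_ hpos |>.2
      refine le_trans (le_of_eq ?_) hsq
      rw [mul_pow, mul_pow, ep0, ex0]
      ring
    have h4 : 0 ≤ p0 - x0 := by linarith
    have h5 : p0 - x0 < q0 := by linarith
    have h6 : (p0 - x0) ^ 2 < q0 ^ 2 := pow_lt_pow_left₀ h5 h4 (by norm_num)
    nlinarith
  have k3 : x0 ≤ x := by linarith
  rw [← ex, ← ex0]
  exact pow_le_pow_left₀ nx0 k3 2

end B1
end Pool.Agent.Lib.MP_6947cd_al
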