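import Pool.Agent.Lib.MP_6947cd_al.L.Split
import Pool.Agent.Lib.MP_6947cd_al.L.SpecW
import Pool.Agent.Lib.MP_6947cd_al.L.Cell

/-!
Problem MP_6947cd_al (Chollet).  CASE B, large second entry (`t ≥ 17/20`): the abstract configuration.

`h = b i j ≥ t = b i k ≥ 17/20`, `g = b j k`; a special vertex `v` with `x = b i v`, `y = b j v`, `z = b k v`
(or no special vertex: `x = y = z = 0`); `Mi`, `Mj`, `Mk` = the remaining entries of the three rows.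
`bj = true`: the vertex `j` is bad, `bj = false`: it can pay (same for `k`).
-/

set_option autoImplicit false
open Finset

namespace Pool.Agent.Lib.MP_6947cd_al
namespace B1

open Ent Fr

/-- condition on the squared moduli of a triple of vertices -/
def Tri (a s u : ℝ) : Prop := a + s + u - 1 ≤ 2 * (Real.sqrt a * Real.sqrt s * Real.sqrt u)

/-- the total loss of a multiset of entries -/
noncomputable def Om (M : Multiset ℝ) : ℝ := (M.map omg).sum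

/-- what a payer has to provide (`a` = entry of the row `i`, `D` = the defect of the row `i`) -/
noncomputable def need (D a R : ℝ) : ℝ := D * (4 * a - a ^ 2) + 4 * R * max D (1 / 1000)

/-- the configuration -/
structure Cfg (bj bk : Bool) (m h t g x y z : ℝ) (Mi Mj Mk : Multiset ℝ) (Gj Gk : ℝ) : Prop where
  th : t ≤ h
  h1 : h ≤ 1
  t0 : 17 / 20 ≤ t
  g01 : 0 ≤ g ∧ g ≤ 1
  x01 : 0 ≤ x ∧ x ≤ 3 / 10
  y01 : 0 ≤ y ∧ y ≤ 1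
  z01 : 0 ≤ z ∧ z ≤ 1
  m0 : m ≤ 3 / 10
  trig : Tri h t g
  triy : Tri h x y
  triz : Tri t x z
  ri : ∀ e ∈ Mi, 0 ≤ e ∧ e ≤ m
  rj : ∀ u ∈ Mj, 0 ≤ u ∧ u ≤ 1 ∧ ∃ s, 0 ≤ s ∧ s ≤ m ∧ s ≤ Mi.sum ∧ Tri h s u
  rk : ∀ u ∈ Mk, 0 ≤ u ∧ u ≤ 1 ∧ ∃ s, 0 ≤ s ∧ s ≤ m ∧ s ≤ Mi.sum ∧ Tri t s u
  pj : ∀ φ : ℝ → ℝ, (∀ s u, 0 ≤ s → s ≤ m → s ≤ Mi.sum → 0 ≤ u → u ≤ 1 → Tri h s u → φ u ≤ s) →
    (Mj.map φ).sum ≤ Mi.sum
  pk : ∀ φ : ℝ → ℝ, (∀ s u, 0 ≤ s → s ≤ m → s ≤ Mi.sum → 0 ≤ u → u ≤ 1 → Tri t s u → φ u ≤ s) →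
    (Mk.map φ).sum ≤ Mi.sum
  di : 0 < FM (1 ::ₘ h ::ₘ t ::ₘ x ::ₘ Mi) - What (h + t + x + Mi.sum)
  nr : 2 * Real.log (2 * (h + t + g)) < FM (1 ::ₘ h ::ₘ t ::ₘ x ::ₘ Mi) + (omg x + Om Mi)
    + (Gj + (omg y + Om Mj)) + (Gk + (omg z + Om Mk))
  cj : if bj = true then 0 < Gj - What (h + g + y + Mj.sum) ∧ Gj ≤ FM (1 ::ₘ h ::ₘ g ::ₘ y ::ₘ Mj)
    else Gj - What (h + g + y + Mj.sum) ≤ 0 ∧ Gj ≤ max (FM (1 ::ₘ h ::ₘ g ::ₘ y ::ₘ Mj)) (1 / 2)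
  ck : if bk = true then 0 < Gk - What (t + g + z + Mk.sum) ∧ Gk ≤ FM (1 ::ₘ t ::ₘ g ::ₘ z ::ₘ Mk)
    else Gk - What (t + g + z + Mk.sum) ≤ 0 ∧ Gk ≤ max (FM (1 ::ₘ t ::ₘ g ::ₘ z ::ₘ Mk)) (1 / 2)
  payj : bj = false → 3 * h ^ 2 * (What (h + g + y + Mj.sum) - Gj)
    < need (FM (1 ::ₘ h ::ₘ t ::ₘ x ::ₘ Mi) - What (h + t + x + Mi.sum)) h
      ((if bk = true then t else 0) + x + Mi.sum)
  payk : bk = false → 3 * t ^ 2 * (What (t + g + z + Mk.sum) - Gk)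
    < need (FM (1 ::ₘ h ::ₘ t ::ₘ x ::ₘ Mi) - What (h + t + x + Mi.sum)) t
      ((if bj = true then h else 0) + x + Mi.sum)
  pay2 : bj = false → bk = false →
    3 * h ^ 2 * (What (h + g + y + Mj.sum) - Gj)
        / need (FM (1 ::ₘ h ::ₘ t ::ₘ x ::ₘ Mi) - What (h + t + x + Mi.sum)) h (x + Mi.sum)
      + 3 * t ^ 2 * (What (t + g + z + Mk.sum) - Gk)
        / need (FM (1 ::ₘ h ::ₘ t ::ₘ x ::ₘ Mi) - What (h + t + x + Mi.sum)) t (x + Mi.sum) < 1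

/-- no configuration without special vertex, rests at most `3/20` together -/
def NoZ : Prop := ∀ (bj bk : Bool) (h t g : ℝ) (Mi Mj Mk : Multiset ℝ) (Gj Gk : ℝ), Mi.sum ≤ 3 / 20 →
  ¬ Cfg bj bk (3 / 10) h t g 0 0 0 Mi Mj Mk Gj Gk

/-- no configuration with a special vertex, `x` = third entry of the row `i`, rests (with `x`) at least `3/20` -/
def NoV : Prop := ∀ (bj bk : Bool) (h t g x y z : ℝ) (Mi Mj Mk : Multiset ℝ) (Gj Gk : ℝ),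
  3 / 20 ≤ x + Mi.sum → ¬ Cfg bj bk x h t g x y z Mi Mj Mk Gj Gk

/-- the class logic -/
def SpecD : Prop := NoZ → NoV → LL.SpecBI What (17 / 20) 1

/-- tangent of the upper cap -/
def SpecG1 : Prop := ∀ (μ h0 h s u : ℝ), 1 < μ → 0 ≤ h0 → h0 ≤ h → h ≤ 1 → 0 ≤ s → s ≤ 1 → 0 ≤ u → u ≤ 1 →
  Tri h s u → u * (1 - h0 / μ) ≤ 1 - h0 + (μ - 1) * s

/-- lower bound of the third entry of a triple with two large entries -/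
def SpecG2 : Prop := ∀ (g0 h0 t0 h t g : ℝ), 0 ≤ g0 → 0 ≤ h0 → h0 ≤ h → h ≤ 1 → 0 ≤ t0 → t0 ≤ t → t ≤ 1 →
  0 ≤ g → g0 ≤ h0 * t0 → 0 ≤ h0 + t0 + g0 - 1 → 4 * h0 * t0 * g0 ≤ (h0 + t0 + g0 - 1) ^ 2 →
  Tri h t g → g0 ≤ g

/-- TAIL: rows with a large total are rich -/
def SpecT (κ δ : ℝ) : Prop := ∀ (a b : ℝ) (M : Multiset ℝ), 0 ≤ a → a ≤ 1 → 0 ≤ b → b ≤ 1 →
  (∀ e ∈ M, 0 ≤ e ∧ e ≤ κ) → 37 / 5 ≤ a + b + M.sum →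
  FM (1 ::ₘ a ::ₘ b ::ₘ M) ≤ What (a + b + M.sum) - δ

end B1
end Pool.Agent.Lib.MP_6947cd_al
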