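import Pool.Agent.Lib.MP_6947cd_al.L.PtP
import Pool.Agent.Lib.MP_6947cd_al.T.Tail
import Pool.Agent.Lib.MP_6947cd_al.T.WhatLB
import Pool.Agent.Lib.MP_6947cd_al.Y.Defs

/-!
Problem MP_6947cd_al (Chollet).  CASE B, large second entry: TAIL (rows with a large total are rich).
-/

set_option autoImplicit false
open Finset

namespace Pool.Agent.Lib.MP_6947cd_al
namespace B1
namespace Tl

open Ent Ent.Pk Fr

/-! ### patterns -/

/-- the patterns `1 ^ (a + 1), (p / q) ^ n` below the line `(C + L * total) / 10 ^ 7` -/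
noncomputable def rows (p q a C L : ℕ) : List (ℕ × ℕ × ℕ) → ℕ → Bool
  | [], _ => true
  | (x, y, V) :: l, n => rowOK [(1, 1), (p, q)] [a + 1, n] [x, y] V
      && Nat.ble (V * q) (C * q + L * (a * q + n * p)) && rows p q a C L l (n + 1)

lemma rows_sound (p q a C L : ℕ) (hq : 0 < q) (l : List (ℕ × ℕ × ℕ)) : ∀ n, rows p q a C L l n = true →
    ∀ k, n ≤ k → k < n + l.length →
    FM (Multiset.replicate (a + 1) 1 + Multiset.replicate k ((p : ℝ) / q))
      ≤ (C : ℝ) / 10 ^ 7 + (L : ℝ) / 10 ^ 7 * ((a : ℝ) + k * ((p : ℝ) / q)) := by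
  have hq' : (0 : ℝ) < q := by exact_mod_cast hq
  induction l with
  | nil => intro n _ k h1 h2; simp at h2; omega
  | cons c l ih =>
    intro n h k h1 h2
    obtain ⟨x, y, V⟩ := c
    simp only [rows, Bool.and_eq_true] at h
    rcases Nat.eq_or_lt_of_le h1 with h3 | h3
    · subst h3
      have h4 := row_sound _ _ _ _ h.1.1
      have e : mk [a + 1, n] ([(1, 1), (p, q)].map fun u => (u.1 : ℝ) / (u.2 : ℝ))
          = Multiset.replicate (a + 1) 1 + Multiset.replicate n ((p : ℝ) / q) := by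
        simp only [List.map_cons, List.map_nil, Ent.mk_cons, Ent.mk_nil, Nat.cast_one, div_one, add_zero]
      rw [e] at h4
      refine h4.trans ?_
      have h5 : V * q ≤ C * q + L * (a * q + n * p) := Nat.le_of_ble_eq_true h.1.2
      have h6 : (V : ℝ) * q ≤ C * q + L * (a * q + n * p) := by exact_mod_cast h5
      have h7 : (V : ℝ) ≤ C + L * (a + n * (p / q)) := by
        rw [← mul_le_mul_iff_left₀ hq']
        refine h6.trans (le_of_eq ?_)
        field_simp
      have h8 := div_le_div_of_nonneg_right h7 (show (0 : ℝ) ≤ 10 ^ 7 by positivity)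
      refine h8.trans (le_of_eq ?_)
      ring
    · exact ih (n + 1) h.2 k h3 (by rw [List.length_cons] at h2; omega)

/-! ### reduction to the patterns -/

lemma max_conv (f : ℝ → ℝ) (lam C a b x : ℝ) (hab : a ≤ b) (h : ConvexOn ℝ (Set.Icc a b) f) (h1 : a ≤ x)
    (h2 : x ≤ b) (ha : f a ≤ C + lam * a) (hb : f b ≤ C + lam * b) : f x ≤ C + lam * x := by
  have h3 : ConvexOn ℝ (Set.Icc a b) fun t => f t + (-lam * t + (0 : ℝ)) := by
    refine h.add ?_
    refine ⟨convex_Icc a b, fun x _ y _ s t _ _ hst => ?_⟩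
    simp only [smul_eq_mul]
    nlinarith
  have h4 := h3.le_max_of_mem_Icc (Set.left_mem_Icc.mpr hab) (Set.right_mem_Icc.mpr hab) ⟨h1, h2⟩
  have h5 : max (f a + (-lam * a + (0 : ℝ))) (f b + (-lam * b + (0 : ℝ))) ≤ C :=
    max_le (by linarith) (by linarith)
  linarith [h4.trans h5]

/-- one number of ones -/
lemma red1 (κ : ℝ) (h0 : 0 < κ) (h1 : κ ≤ 1) (C lam : ℝ) (lo hi c : ℕ)
    (H : ∀ n, lo ≤ n → n < hi → FM (Multiset.replicate (c + 1) 1 + Multiset.replicate n κ)
      ≤ C + lam * (c + n * κ)) (M : Multiset ℝ) (hM : ∀ e ∈ M, 0 ≤ e ∧ e ≤ κ)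
    (hl : (lo : ℝ) * κ ≤ M.sum - κ) (hh : M.sum + κ < hi * κ) :
    FM (Multiset.replicate (c + 1) 1 + M) ≤ C + lam * (c + M.sum) := by
  have h1S : (1 : ℝ) ∈ (Multiset.replicate (c + 1) 1 : Multiset ℝ) := by
    rw [Multiset.mem_replicate]; exact ⟨by omega, rfl⟩
  have hS : ∀ z ∈ (Multiset.replicate (c + 1) 1 : Multiset ℝ), 0 ≤ z ∧ z ≤ 1 := by
    intro z hz
    rw [Multiset.eq_of_mem_replicate hz]
    exact ⟨zero_le_one, le_rfl⟩
  obtain ⟨m, n, r, g1, g2, g3, g4, g5⟩ := piece 0 κ le_rfl h0 h1 M _ h1S hS hM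
  have e0 : ∀ X : Multiset ℝ, FM (Multiset.replicate (c + 1) 1 + (Multiset.replicate m 0
      + Multiset.replicate n κ + X)) = FM (Multiset.replicate (c + 1) 1 + (Multiset.replicate n κ + X)) := by
    intro X
    rw [← FM_zero_add m (Multiset.replicate (c + 1) 1 + (Multiset.replicate n κ + X))]
    congr 1
    abel
  rw [e0] at g5
  rw [mul_zero, zero_add] at g4
  refine g5.trans ?_
  rcases Nat.lt_or_ge 0 r.card with hr | hr
  · obtain ⟨y, rfl⟩ := Multiset.card_eq_one.mp (le_antisymm g1 hr)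
    have hy := g2 y (Multiset.mem_singleton_self y)
    rw [Multiset.sum_singleton] at g4
    have k1 : lo ≤ n := by
      have : (lo : ℝ) * κ < n * κ := by linarith [hy.2]
      exact_mod_cast (lt_of_mul_lt_mul_right this h0.le).le
    have k2 : n + 1 < hi := by
      have : ((n + 1 : ℕ) : ℝ) * κ < hi * κ := by push_cast; linarith [hy.1]
      exact_mod_cast lt_of_mul_lt_mul_right this h0.le
    have hN : ∀ z ∈ Multiset.replicate (c + 1) 1 + Multiset.replicate n κ, 0 ≤ z ∧ z ≤ 1 := by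
      intro z hz
      rcases Multiset.mem_add.mp hz with hz | hz
      · exact hS z hz
      · rw [Multiset.eq_of_mem_replicate hz]; exact ⟨h0.le, h1⟩
    have hcv := (FM_convexOn (Multiset.replicate (c + 1) 1 + Multiset.replicate n κ)
      (Multiset.mem_add.mpr (Or.inl h1S)) hN).subset (Set.Icc_subset_Icc le_rfl h1 : Set.Icc 0 κ ⊆ _)
      (convex_Icc 0 κ)
    have q := max_conv _ lam (C + lam * (c + n * κ)) 0 κ y h0.le hcv hy.1.le hy.2.le (by
      have := H n k1 (by omega)
      show FM (0 ::ₘ _) ≤ _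
      rw [FM_zero_cons]
      linarith) (by
      have := H (n + 1) (by omega) k2
      show FM (κ ::ₘ _) ≤ _
      have e : κ ::ₘ (Multiset.replicate (c + 1) 1 + Multiset.replicate n κ)
          = Multiset.replicate (c + 1) 1 + Multiset.replicate (n + 1) κ := by
        rw [Multiset.replicate_succ (n := n), ← Multiset.add_cons]
      rw [e]
      push_cast at this
      linarith)
    have e : y ::ₘ (Multiset.replicate (c + 1) 1 + Multiset.replicate n κ)
        = Multiset.replicate (c + 1) 1 + (Multiset.replicate n κ + {y}) := by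
      rw [← Multiset.singleton_add]
      abel
    rw [e] at q
    refine q.trans (le_of_eq ?_)
    rw [← g4]
    ring
  · have hr0 : r = 0 := Multiset.card_eq_zero.mp (Nat.le_zero.mp hr)
    subst hr0
    rw [Multiset.sum_zero, add_zero] at g4
    have k1 : lo ≤ n := by
      have : (lo : ℝ) * κ < n * κ := by linarith
      exact_mod_cast (lt_of_mul_lt_mul_right this h0.le).le
    have k2 : n < hi := by
      have : (n : ℝ) * κ < hi * κ := by linarith
      exact_mod_cast lt_of_mul_lt_mul_right this h0.le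
    rw [add_zero, ← g4]
    exact H n k1 k2

theorem red (κ : ℝ) (h0 : 0 < κ) (h1 : κ ≤ 1) (C lam : ℝ) (lo hi : ℕ)
    (H : ∀ c, c ≤ 2 → ∀ n, lo ≤ n → n < hi → FM (Multiset.replicate (c + 1) 1 + Multiset.replicate n κ)
      ≤ C + lam * (c + n * κ)) (a b : ℝ) (ha : 0 ≤ a) (ha1 : a ≤ 1) (hb : 0 ≤ b) (hb1 : b ≤ 1)
    (M : Multiset ℝ) (hM : ∀ e ∈ M, 0 ≤ e ∧ e ≤ κ)
    (hl : (lo : ℝ) * κ ≤ M.sum - κ) (hh : M.sum + κ < hi * κ) :
    FM (1 ::ₘ a ::ₘ b ::ₘ M) ≤ C + lam * (a + b + M.sum) := by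
  have hM' : ∀ z ∈ M, 0 ≤ z ∧ z ≤ 1 := fun z hz => ⟨(hM z hz).1, (hM z hz).2.trans h1⟩
  have key : ∀ c, c ≤ 2 → FM (Multiset.replicate (c + 1) 1 + M) ≤ C + lam * (c + M.sum) := fun c hc =>
    red1 κ h0 h1 C lam lo hi c (H c hc) M hM hl hh
  have z0 : (0 : ℝ) ≤ 0 ∧ (0 : ℝ) ≤ 1 := ⟨le_rfl, zero_le_one⟩
  have z1 : (0 : ℝ) ≤ 1 ∧ (1 : ℝ) ≤ 1 := ⟨zero_le_one, le_rfl⟩
  have V1 : ∀ x, 0 ≤ x ∧ x ≤ 1 → ∀ z ∈ 1 ::ₘ x ::ₘ M, 0 ≤ z ∧ z ≤ 1 := by
    intro x hx z hz
    rcases Multiset.mem_cons.mp hz with rfl | hz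
    · exact z1
    rcases Multiset.mem_cons.mp hz with rfl | hz
    · exact hx
    exact hM' z hz
  -- `b`
  have kb : ∀ c, c ≤ 1 → FM (b ::ₘ (Multiset.replicate (c + 1) 1 + M)) ≤ C + lam * (c + b + M.sum) := by
    intro c hc
    have hV : ∀ z ∈ Multiset.replicate (c + 1) 1 + M, 0 ≤ z ∧ z ≤ 1 := by
      intro z hz
      rcases Multiset.mem_add.mp hz with hz | hz
      · rw [Multiset.eq_of_mem_replicate hz]; exact z1
      · exact hM' z hz
    have hcv := FM_convexOn (Multiset.replicate (c + 1) 1 + M)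
      (Multiset.mem_add.mpr (Or.inl (by rw [Multiset.mem_replicate]; exact ⟨by omega, rfl⟩))) hV
    have q := max_conv _ lam (C + lam * (c + M.sum)) 0 1 b zero_le_one hcv hb hb1 (by
      show FM (0 ::ₘ _) ≤ _
      rw [FM_zero_cons]
      linarith [key c (by omega)]) (by
      show FM (1 ::ₘ _) ≤ _
      have e : (1 : ℝ) ::ₘ (Multiset.replicate (c + 1) 1 + M) = Multiset.replicate (c + 1 + 1) 1 + M := by
        rw [Multiset.replicate_succ (n := c + 1), Multiset.cons_add]
      rw [e]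
      have := key (c + 1) (by omega)
      push_cast at this
      linarith)
    refine q.trans (le_of_eq ?_)
    ring
  have hcv := FM_convexOn (1 ::ₘ b ::ₘ M) (Multiset.mem_cons_self 1 _) (V1 b ⟨hb, hb1⟩)
  have q := max_conv _ lam (C + lam * (b + M.sum)) 0 1 a zero_le_one hcv ha ha1 (by
    show FM (0 ::ₘ _) ≤ _
    rw [FM_zero_cons]
    have := kb 0 (by omega)
    have e : (1 : ℝ) ::ₘ b ::ₘ M = b ::ₘ (Multiset.replicate (0 + 1) 1 + M) := by
      rw [zero_add, Multiset.replicate_one, Multiset.singleton_add, Multiset.cons_swap]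
    rw [e]
    push_cast at this
    linarith) (by
    show FM (1 ::ₘ _) ≤ _
    have := kb 1 (by omega)
    have e : (1 : ℝ) ::ₘ 1 ::ₘ b ::ₘ M = b ::ₘ (Multiset.replicate (1 + 1) 1 + M) := by
      rw [Multiset.replicate_succ, Multiset.replicate_one, Multiset.cons_add, Multiset.singleton_add,
        Multiset.cons_swap b 1, Multiset.cons_swap b 1]
    rw [e]
    push_cast at this
    linarith)
  have e : (1 : ℝ) ::ₘ a ::ₘ b ::ₘ M = a ::ₘ 1 ::ₘ b ::ₘ M := Multiset.cons_swap _ _ _
  rw [e]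
  refine q.trans (le_of_eq ?_)
  ring

/-! ### large totals -/

lemma FM_ones (M : Multiset ℝ) (hM : ∀ z ∈ M, 0 ≤ z ∧ z ≤ 1) (n : ℕ) (h1 : (n : ℝ) ≤ M.sum)
    (h2 : M.sum ≤ (n : ℝ) + 1) :
    FM (1 ::ₘ M) ≤ ((n : ℝ) + 1 - M.sum) * Lone n + (M.sum - n) * Lone (n + 1) := by
  obtain ⟨N, b, hb⟩ := exists_row (1 ::ₘ M)
  have hmem : ∀ k, b k ∈ 1 ::ₘ M := fun k => by
    rw [← hb]
    exact Multiset.mem_map_of_mem b (Finset.mem_univ_val k)
  have h01 : ∀ k, 0 ≤ b k ∧ b k ≤ 1 := by
    intro k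
    rcases Multiset.mem_cons.mp (hmem k) with h | h
    · rw [h]; exact ⟨zero_le_one, le_rfl⟩
    · exact hM _ h
  obtain ⟨i, _, hi⟩ := Multiset.mem_map.mp (by rw [hb]; exact Multiset.mem_cons_self 1 M :
    (1 : ℝ) ∈ (Finset.univ : Finset (Fin N)).val.map b)
  have hs : ∑ k ∈ Finset.univ.erase i, b k = M.sum := by
    have h3 := Finset.add_sum_erase Finset.univ b (Finset.mem_univ i)
    have h4 : ∑ k, b k = (1 ::ₘ M).sum := by rw [← hb]; rfl
    rw [Multiset.sum_cons] at h4
    linarith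
  have h := F_le_ones b (fun k => (h01 k).1) (fun k => (h01 k).2) i hi n (by rw [hs]; exact h1)
    (by rw [hs]; exact h2)
  rw [hs, F_eq_FM, hb] at h
  exact h

section Check
open IA

/-- the tail inequality between `n` and `n + 1` -/
def teE (n : ℕ) (d : ℤ) : E :=
  .sub (.add (.add (.mul (.sub (.cst ((n : ℤ) + 1) 1) .x0) (loE n))
    (.mul (.sub .x0 (.cst n 1)) (loE (n + 1)))) (.cst d 1000)) (W6E .x0)

/-- the line -/
def tlE (C L : ℤ) (d : ℤ) : E :=
  .sub (.add (.add (.cst C 10000000) (.mul (.cst L 10000000) .x0)) (.cst d 1000)) (W6E .x0)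

/-- the inequality for large sums -/
def tgE : E := .sub (.add (.log (.div (.add .x0 (.cst 3 1)) (.cst 2 1))) (.cst 250 1000)) (W6E .x0)

/-- a numerical constant -/
def tkE : E := .sub (.cst 1406 1000) (.log (.cst 33 8))

open T in
theorem e70a : chk [teE 8 205] (s0 (s0 (d 0) (d 0)) (s0 (d 0) (d 0))) ⟨8906044184985, 9895604649984⟩ ⟨0, 0⟩ ⟨0, 0⟩ = true := by decide +kernel

open T in
theorem e51a : chk [teE 8 235] (s0 (s0 (d 0) (d 0)) (s0 (d 0) (d 0))) ⟨9675702324428, 9895604649984⟩ ⟨0, 0⟩ ⟨0, 0⟩ = true := by decide +kernel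

open T in
theorem e51b : chk [teE 9 235] (s0 (s0 (d 0) (d 0)) (s0 (d 0) (d 0))) ⟨9895604649984, 10005555812762⟩ ⟨0, 0⟩ ⟨0, 0⟩ = true := by decide +kernel

open T in
theorem e30a : chk [teE 9 250] (s0 (s0 (d 0) (d 0)) (s0 (d 0) (d 0))) ⟨10005555812761, 10995116277760⟩ ⟨0, 0⟩ ⟨0, 0⟩ = true := by decide +kernel

open T in
theorem e30n10 : chk [teE 10 250] (s0 (s0 (d 0) (d 0)) (s0 (d 0) (d 0))) ⟨10995116277760, 12094627905536⟩ ⟨0, 0⟩ ⟨0, 0⟩ = true := by decide +kernel

open T in
theorem e30n11 : chk [teE 11 250] (s0 (s0 (d 0) (d 0)) (s0 (d 0) (d 0))) ⟨12094627905536, 13194139533312⟩ ⟨0, 0⟩ ⟨0, 0⟩ = true := by decide +kernel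

open T in
theorem e30n12 : chk [teE 12 250] (s0 (s0 (d 0) (d 0)) (s0 (d 0) (d 0))) ⟨13194139533312, 14293651161088⟩ ⟨0, 0⟩ ⟨0, 0⟩ = true := by decide +kernel

open T in
theorem e30n13 : chk [teE 13 250] (s0 (s0 (d 0) (d 0)) (s0 (d 0) (d 0))) ⟨14293651161088, 15393162788864⟩ ⟨0, 0⟩ ⟨0, 0⟩ = true := by decide +kernel

open T in
theorem e30n14 : chk [teE 14 250] (s0 (s0 (d 0) (d 0)) (s0 (d 0) (d 0))) ⟨15393162788864, 16492674416640⟩ ⟨0, 0⟩ ⟨0, 0⟩ = true := by decide +kernel

open T in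
theorem e30n15 : chk [teE 15 250] (s0 (s0 (d 0) (d 0)) (s0 (d 0) (d 0))) ⟨16492674416640, 17592186044416⟩ ⟨0, 0⟩ ⟨0, 0⟩ = true := by decide +kernel

open T in
theorem e30n16 : chk [teE 16 250] (s0 (s0 (d 0) (d 0)) (s0 (d 0) (d 0))) ⟨17592186044416, 18691697672192⟩ ⟨0, 0⟩ ⟨0, 0⟩ = true := by decide +kernel

open T in
theorem egC : chk [tgE] (s0 (s0 (s0 (s0 (s0 (d 0) (d 0)) (s0 (d 0) (d 0))) (s0 (s0 (d 0) (d 0)) (s0 (d 0) (d 0)))) (s0 (s0 (s0 (d 0) (d 0)) (s0 (d 0) (d 0))) (s0 (s0 (d 0) (d 0)) (s0 (d 0) (d 0))))) (s0 (s0 (s0 (s0 (d 0) (d 0)) (s0 (d 0) (d 0))) (s0 (s0 (d 0) (d 0)) (s0 (d 0) (d 0)))) (s0 (s0 (s0 (d 0) (d 0)) (s0 (d 0) (d 0))) (s0 (s0 (d 0) (d 0)) (s0 (d 0) (d 0)))))) ⟨18691697672192, 32985348833280⟩ ⟨0, 0⟩ ⟨0, 0⟩ = true := by decide +kernel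

theorem ekC : chk [tkE] (T.v 0) ⟨0, 0⟩ ⟨0, 0⟩ ⟨0, 0⟩ = true := by decide +kernel

open T in
theorem l30 : chk [tlE 5284238 1005000 250] (s0 (s0 (s0 (s0 (d 0) (d 0)) (s0 (d 0) (d 0))) (s0 (s0 (d 0) (d 0)) (s0 (d 0) (d 0)))) (s0 (s0 (s0 (d 0) (d 0)) (s0 (d 0) (d 0))) (s0 (s0 (d 0) (d 0)) (s0 (d 0) (d 0))))) ⟨8136386045542, 10005555812762⟩ ⟨0, 0⟩ ⟨0, 0⟩ = true := by decide +kernel

open T in
theorem l51 : chk [tlE 5709127 990000 235] (s0 (s0 (s0 (s0 (d 0) (d 0)) (s0 (d 0) (d 0))) (s0 (s0 (d 0) (d 0)) (s0 (d 0) (d 0)))) (s0 (s0 (s0 (d 0) (d 0)) (s0 (d 0) (d 0))) (s0 (s0 (d 0) (d 0)) (s0 (d 0) (d 0))))) ⟨8136386045542, 9675702324429⟩ ⟨0, 0⟩ ⟨0, 0⟩ = true := by decide +kernel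

open T in
theorem l70 : chk [tlE 5924727 995000 205] (s0 (s0 (s0 (s0 (d 0) (d 0)) (s0 (d 0) (d 0))) (s0 (s0 (d 0) (d 0)) (s0 (d 0) (d 0)))) (s0 (s0 (s0 (d 0) (d 0)) (s0 (d 0) (d 0))) (s0 (s0 (d 0) (d 0)) (s0 (d 0) (d 0))))) ⟨8136386045542, 8906044184986⟩ ⟨0, 0⟩ ⟨0, 0⟩ = true := by decide +kernel

end Check

lemma teE_use (n : ℕ) (d : ℤ) (t : IA.T) (X : IA.I) (h : IA.chk [teE n d] t X ⟨0, 0⟩ ⟨0, 0⟩ = true) (s : ℝ)
    (h1 : (X.lo : ℝ) ≤ s * 1099511627776) (h2 : s * 1099511627776 ≤ (X.hi : ℝ)) (hs : 6 / 5 < s) :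
    ((n : ℝ) + 1 - s) * Lone n + (s - n) * Lone (n + 1) ≤ What s - (d : ℝ) / 1000 := by
  have h3 := chk1 _ _ _ h s h1 h2
  simp only [teE, IA.E.ev, loE_ev, W6E_ev] at h3
  push_cast at h3
  simp only [div_one] at h3
  linarith [What_six s hs]

lemma tlE_use (C L d : ℤ) (t : IA.T) (X : IA.I) (h : IA.chk [tlE C L d] t X ⟨0, 0⟩ ⟨0, 0⟩ = true) (s : ℝ)
    (h1 : (X.lo : ℝ) ≤ s * 1099511627776) (h2 : s * 1099511627776 ≤ (X.hi : ℝ)) (hs : 6 / 5 < s) :
    (C : ℝ) / 10 ^ 7 + (L : ℝ) / 10 ^ 7 * s ≤ What s - (d : ℝ) / 1000 := by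
  have h3 := chk1 _ _ _ h s h1 h2
  simp only [tlE, IA.E.ev, W6E_ev] at h3
  push_cast at h3
  norm_num at h3 ⊢
  linarith [What_six s hs]

/-- from 10 on -/
theorem far (s : ℝ) (hs : 10 ≤ s) (M : Multiset ℝ) (hM : ∀ z ∈ M, 0 ≤ z ∧ z ≤ 1) (hsum : M.sum = s) :
    FM (1 ::ₘ M) ≤ What s - 1 / 4 := by
  have hstep : ∀ n : ℕ, (n : ℝ) ≤ s → s ≤ (n : ℝ) + 1 →
      FM (1 ::ₘ M) ≤ ((n : ℝ) + 1 - s) * Lone n + (s - n) * Lone (n + 1) := by
    intro n h1 h2
    have := FM_ones M hM n (by rw [hsum]; exact h1) (by rw [hsum]; exact h2)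
    rwa [hsum] at this

  rcases le_or_gt s 11 with h11 | h11
  · have := (hstep 10 (by push_cast; linarith) (by push_cast; linarith)).trans
      (teE_use 10 _ _ _ e30n10 s (by push_cast; linarith) (by push_cast; linarith) (by linarith))
    push_cast at this
    linarith
  rcases le_or_gt s 12 with h12 | h12
  · have := (hstep 11 (by push_cast; linarith) (by push_cast; linarith)).trans
      (teE_use 11 _ _ _ e30n11 s (by push_cast; linarith) (by push_cast; linarith) (by linarith))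
    push_cast at this
    linarith
  rcases le_or_gt s 13 with h13 | h13
  · have := (hstep 12 (by push_cast; linarith) (by push_cast; linarith)).trans
      (teE_use 12 _ _ _ e30n12 s (by push_cast; linarith) (by push_cast; linarith) (by linarith))
    push_cast at this
    linarith
  rcases le_or_gt s 14 with h14 | h14
  · have := (hstep 13 (by push_cast; linarith) (by push_cast; linarith)).trans
      (teE_use 13 _ _ _ e30n13 s (by push_cast; linarith) (by push_cast; linarith) (by linarith))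
    push_cast at this
    linarith
  rcases le_or_gt s 15 with h15 | h15
  · have := (hstep 14 (by push_cast; linarith) (by push_cast; linarith)).trans
      (teE_use 14 _ _ _ e30n14 s (by push_cast; linarith) (by push_cast; linarith) (by linarith))
    push_cast at this
    linarith
  rcases le_or_gt s 16 with h16 | h16
  · have := (hstep 15 (by push_cast; linarith) (by push_cast; linarith)).trans
      (teE_use 15 _ _ _ e30n15 s (by push_cast; linarith) (by push_cast; linarith) (by linarith))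
    push_cast at this
    linarith
  rcases le_or_gt s 17 with h17 | h17
  · have := (hstep 16 (by push_cast; linarith) (by push_cast; linarith)).trans
      (teE_use 16 _ _ _ e30n16 s (by push_cast; linarith) (by push_cast; linarith) (by linarith))
    push_cast at this
    linarith
  have hs0 : 0 ≤ s := by linarith
  have hF : FM (1 ::ₘ M) ≤ Real.log ((s + 3) / 2) := by
    set n := ⌊s⌋₊ with hn
    have hn1 : (n : ℝ) ≤ s := Nat.floor_le hs0
    have hn2 : s ≤ (n : ℝ) + 1 := (Nat.lt_floor_add_one s).le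
    refine (hstep n hn1 hn2).trans ?_
    have hn0 : (0 : ℝ) ≤ n := Nat.cast_nonneg n
    have h1 : Lone n ≤ Real.log ((s + 3) / 2) :=
      (Lone_le n).trans (Real.log_le_log (by positivity) (by linarith))
    have h2 : Lone (n + 1) ≤ Real.log ((s + 3) / 2) := by
      refine (Lone_le (n + 1)).trans (Real.log_le_log (by positivity) ?_)
      push_cast
      linarith
    have h3 := mul_le_mul_of_nonneg_left h1 (show 0 ≤ (n : ℝ) + 1 - s by linarith)
    have h4 := mul_le_mul_of_nonneg_left h2 (show 0 ≤ s - (n : ℝ) by linarith)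
    have e : Real.log ((s + 3) / 2) = ((n : ℝ) + 1 - s) * Real.log ((s + 3) / 2)
        + (s - (n : ℝ)) * Real.log ((s + 3) / 2) := by ring
    rw [e]
    exact add_le_add h3 h4
  refine hF.trans ?_
  have h6 := What_six s (by linarith)
  rcases le_or_gt s 30 with h30 | h30
  · have h := chk1 _ _ _ egC s (by push_cast; linarith) (by push_cast; linarith)
    simp only [tgE, IA.E.ev, W6E_ev] at h
    push_cast at h
    simp only [div_one] at h
    linarith
  · have hc : 1406 / 1000 ≤ Real.log (33 / 8) := by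
      have h := chk1 _ _ _ ekC 0 (by simp) (by simp)
      simp only [tkE, IA.E.ev] at h
      push_cast at h
      linarith
    have h8 : Real.log (33 / 8) ≤ Real.log ((s + 3) / 8) := Real.log_le_log (by norm_num) (by linarith)
    have e1 : Real.log ((3 + s) / 4) = Real.log ((s + 3) / 8) + Real.log 2 := by
      rw [← Real.log_mul (by positivity) (by norm_num)]
      congr 1
      ring
    have e2 : Real.log ((s + 3) / 2) = Real.log ((s + 3) / 8) + 2 * Real.log 2 := by
      have : (2 : ℝ) * Real.log 2 = Real.log 4 := by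
        rw [show (4 : ℝ) = 2 ^ 2 by norm_num, Real.log_pow]
        push_cast
        ring
      rw [this, ← Real.log_mul (by positivity) (by norm_num)]
      congr 1
      ring
    have h9 : 0 ≤ 2 / (1 + s) * Real.log ((3 + s) / 2) :=
      mul_nonneg (by positivity) (Real.log_nonneg (by rw [le_div_iff₀ (by norm_num)]; linarith))
    have h10 : 0 ≤ Real.log ((8 / 9 + s) / (1 + s)) + (1 / 9) / (8 / 9 + s) := by
      have h11 := Real.one_sub_inv_le_log_of_pos (show 0 < (8 / 9 + s) / (1 + s) by positivity)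
      have h12 : 1 - ((8 / 9 + s) / (1 + s))⁻¹ = -((1 / 9) / (8 / 9 + s)) := by
        rw [inv_div]
        field_simp
        ring
      rw [h12] at h11
      linarith
    refine le_trans ?_ (sub_le_sub_right h6 _)
    unfold W6 CholB.WM.w0
    rw [e1, e2]
    norm_num at h9 h10 hc ⊢
    linarith

lemma vals (a b : ℝ) (M : Multiset ℝ) (κ : ℝ) (hκ : κ ≤ 1) (ha : 0 ≤ a) (ha1 : a ≤ 1) (hb : 0 ≤ b) (hb1 : b ≤ 1)
    (hM : ∀ e ∈ M, 0 ≤ e ∧ e ≤ κ) : (∀ z ∈ a ::ₘ b ::ₘ M, 0 ≤ z ∧ z ≤ 1) ∧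
      (a ::ₘ b ::ₘ M).sum = a + b + M.sum := by
  constructor
  · intro z hz
    rcases Multiset.mem_cons.mp hz with rfl | hz
    · exact ⟨ha, ha1⟩
    rcases Multiset.mem_cons.mp hz with rfl | hz
    · exact ⟨hb, hb1⟩
    · exact ⟨(hM z hz).1, (hM z hz).2.trans hκ⟩
  · rw [Multiset.sum_cons, Multiset.sum_cons]
    ring

def c30_0 : List (ℕ × ℕ × ℕ) :=
  [(14193927, 3112640, 9586667), (13430908, 2982105, 9996213), (12741868, 2861418, 10390451), (12116923, 2749594, 10770390), (11547819, 2645761, 11136964), (11027622, 2549145, 11491023), (10550469, 2459058, 11833347), (10111377, 2374893, 12164653), (9706085, 2296109, 12485596), (9330931, 2222226, 12796780), (8982754, 2152817, 13098764), (8658811, 2087500, 13392054), (8356712, 2025934, 13677123), (8074365, 1967815, 13954412), (7809934, 1912867, 14224318), (7561798, 1860844, 14487217)]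

theorem r30_0 : rows 3 10 0 5284238 1005000 c30_0 17 = true := by decide +kernel

def c30_1 : List (ℕ × ℕ × ℕ) :=
  [(11452996, 2600165, 11124668), (10955461, 2510993, 11470782), (10496648, 2427132, 11806320), (10072452, 2348195, 12131819), (9679295, 2273820, 12447789), (9314052, 2203668, 12754707), (8973984, 2137428, 13053029), (8656681, 2074810, 13343180), (8360023, 2015550, 13625560), (8082131, 1959405, 13900543), (7821342, 1906153, 14168484), (7576178, 1855587, 14429706), (7345319, 1807523, 14684526), (7127587, 1761788, 14933231), (6921926, 1718224, 15176090), (6727387, 1676688, 15413366)]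

theorem r30_1 : rows 3 10 1 5284238 1005000 c30_1 17 = true := by decide +kernel

def c30_2 : List (ℕ × ℕ × ℕ) :=
  [(9638493, 2246666, 12419480), (9284838, 2180794, 12721228), (8954333, 2118200, 13015089), (8644936, 2058700, 13301389), (8354819, 2002112, 13580445), (8082342, 1948263, 13852561), (7826035, 1896987, 14118025), (7584575, 1848128, 14377120), (7356774, 1801539, 14630111), (7141558, 1757082, 14877248), (6937960, 1714627, 15118771), (6745103, 1674053, 15354909), (6562193, 1635249, 15585880), (6388509, 1598109, 15811886), (6223396, 1562536, 16033123), (6066258, 1528438, 16249775)]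

theorem r30_2 : rows 3 10 2 5284238 1005000 c30_2 17 = true := by decide +kernel

theorem near30 (a b : ℝ) (M : Multiset ℝ) (ha : 0 ≤ a) (ha1 : a ≤ 1) (hb : 0 ≤ b) (hb1 : b ≤ 1)
    (hM : ∀ e ∈ M, 0 ≤ e ∧ e ≤ (3 / 10 : ℝ)) (h1 : 37 / 5 ≤ a + b + M.sum) (h2 : a + b + M.sum ≤ 91 / 10) :
    FM (1 ::ₘ a ::ₘ b ::ₘ M) ≤ What (a + b + M.sum) - 250 / 1000 := by
  have h3 := red (3 / 10) (by norm_num) (by norm_num) ((5284238 : ℕ) / 10 ^ 7) ((1005000 : ℕ) / 10 ^ 7) 17 33 (by
    intro c hc n k1 k2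
    interval_cases c
    · exact rows_sound 3 10 0 _ _ (by norm_num) _ _ r30_0 n k1 (by
        have : c30_0.length = 16 := rfl
        omega)
    · exact rows_sound 3 10 1 _ _ (by norm_num) _ _ r30_1 n k1 (by
        have : c30_1.length = 16 := rfl
        omega)
    · exact rows_sound 3 10 2 _ _ (by norm_num) _ _ r30_2 n k1 (by
        have : c30_2.length = 16 := rfl
        omega)) a b ha ha1 hb hb1 M hM (by push_cast; linarith) (by push_cast; linarith)
  refine h3.trans ?_
  have h4 := tlE_use _ _ _ _ _ l30 (a + b + M.sum) (by push_cast; linarith) (by push_cast; linarith) (by linarith)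
  push_cast at h4 ⊢
  linarith

def c51_0 : List (ℕ × ℕ × ℕ) :=
  [(14391688, 5857457, 9383281), (13071081, 5403772, 10096920), (11965006, 5013072, 10764043), (11026252, 4673546, 11390079), (10220265, 4376041, 11979625), (9521246, 4113397, 12536583), (8909575, 3879949, 13064289), (8370093, 3671169, 13565603), (7890915, 3483405, 14043003), (7462598, 3313678, 14498636), (7077556, 3159539, 14934379)]

theorem r51_0 : rows 51 100 0 5709127 990000 c51_0 9 = true := by decide +kernel

def c51_1 : List (ℕ × ℕ × ℕ) :=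
  [(11641419, 4869552, 10913133), (10767970, 4557286, 11519691), (10011010, 4280617, 12093237), (9349473, 4034155, 12636900), (8766928, 3813457, 13153439), (8250407, 3614856, 13645290), (7789563, 3435312, 14114599), (7376058, 3272293, 14563265), (7003107, 3123682, 14992966), (6665139, 2987696, 15405194), (6357541, 2862827, 15801281)]

theorem r51_1 : rows 51 100 1 5709127 990000 c51_1 9 = true := by decide +kernel

def c51_2 : List (ℕ × ℕ × ℕ) :=
  [(9807582, 4187340, 12207154), (9181700, 3956370, 12737602), (8627065, 3747964, 13243017), (8132679, 3559230, 13725418), (7689602, 3387692, 14186637), (7290513, 3231233, 14628323), (6929373, 3088046, 15051964), (6601169, 2956581, 15458900), (6301711, 2835510, 15850339), (6027472, 2723688, 16227367), (5775467, 2620126, 16590973)]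

theorem r51_2 : rows 51 100 2 5709127 990000 c51_2 9 = true := by decide +kernel

theorem near51 (a b : ℝ) (M : Multiset ℝ) (ha : 0 ≤ a) (ha1 : a ≤ 1) (hb : 0 ≤ b) (hb1 : b ≤ 1)
    (hM : ∀ e ∈ M, 0 ≤ e ∧ e ≤ (51 / 100 : ℝ)) (h1 : 37 / 5 ≤ a + b + M.sum) (h2 : a + b + M.sum ≤ 44 / 5) :
    FM (1 ::ₘ a ::ₘ b ::ₘ M) ≤ What (a + b + M.sum) - 235 / 1000 := by
  have h3 := red (51 / 100) (by norm_num) (by norm_num) ((5709127 : ℕ) / 10 ^ 7) ((990000 : ℕ) / 10 ^ 7) 9 20 (by
    intro c hc n k1 k2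
    interval_cases c
    · exact rows_sound 51 100 0 _ _ (by norm_num) _ _ r51_0 n k1 (by
        have : c51_0.length = 11 := rfl
        omega)
    · exact rows_sound 51 100 1 _ _ (by norm_num) _ _ r51_1 n k1 (by
        have : c51_1.length = 11 := rfl
        omega)
    · exact rows_sound 51 100 2 _ _ (by norm_num) _ _ r51_2 n k1 (by
        have : c51_2.length = 11 := rfl
        omega)) a b ha ha1 hb hb1 M hM (by push_cast; linarith) (by push_cast; linarith)
  refine h3.trans ?_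
  have h4 := tlE_use _ _ _ _ _ l51 (a + b + M.sum) (by push_cast; linarith) (by push_cast; linarith) (by linarith)
  push_cast at h4 ⊢
  linarith

def c70_0 : List (ℕ × ℕ × ℕ) :=
  [(14452277, 8776088, 9242769), (12638440, 7781480, 10240503), (11221160, 6985955, 11147294), (10084745, 6336006, 11978058), (9154103, 5795470, 12744420), (8378509, 5339118, 13455577), (7722523, 4948857, 14118910), (7160673, 4611395, 14740431)]

theorem r70_0 : rows 7 10 0 5924727 995000 c70_0 6 = true := by decide +kernel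

def c70_1 : List (ℕ × ℕ × ℕ) :=
  [(11749703, 7268233, 10752625), (10527696, 6579059, 11606472), (9529875, 6006132, 12394020), (8700844, 5523013, 13124476), (8001788, 5110523, 13805348), (7404789, 4754475, 14442810), (6889299, 4444184, 15041981), (6439880, 4171465, 15607147)]

theorem r70_1 : rows 7 10 1 5924727 995000 c70_1 6 = true := by decide +kernel

def c70_2 : List (ℕ × ℕ × ℕ) :=
  [(9923586, 6223007, 12039083), (9038903, 5713156, 12788425), (8294682, 5278094, 13486717), (7660679, 4902974, 14140169), (7114575, 4576508, 14753995), (6639592, 4290002, 15332593), (6222902, 4036675, 15879701), (5854546, 3811166, 16398501)]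

theorem r70_2 : rows 7 10 2 5924727 995000 c70_2 6 = true := by decide +kernel

theorem near70 (a b : ℝ) (M : Multiset ℝ) (ha : 0 ≤ a) (ha1 : a ≤ 1) (hb : 0 ≤ b) (hb1 : b ≤ 1)
    (hM : ∀ e ∈ M, 0 ≤ e ∧ e ≤ (7 / 10 : ℝ)) (h1 : 37 / 5 ≤ a + b + M.sum) (h2 : a + b + M.sum ≤ 81 / 10) :
    FM (1 ::ₘ a ::ₘ b ::ₘ M) ≤ What (a + b + M.sum) - 205 / 1000 := by
  have h3 := red (7 / 10) (by norm_num) (by norm_num) ((5924727 : ℕ) / 10 ^ 7) ((995000 : ℕ) / 10 ^ 7) 6 14 (by
    intro c hc n k1 k2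
    interval_cases c
    · exact rows_sound 7 10 0 _ _ (by norm_num) _ _ r70_0 n k1 (by
        have : c70_0.length = 8 := rfl
        omega)
    · exact rows_sound 7 10 1 _ _ (by norm_num) _ _ r70_1 n k1 (by
        have : c70_1.length = 8 := rfl
        omega)
    · exact rows_sound 7 10 2 _ _ (by norm_num) _ _ r70_2 n k1 (by
        have : c70_2.length = 8 := rfl
        omega)) a b ha ha1 hb hb1 M hM (by push_cast; linarith) (by push_cast; linarith)
  refine h3.trans ?_
  have h4 := tlE_use _ _ _ _ _ l70 (a + b + M.sum) (by push_cast; linarith) (by push_cast; linarith) (by linarith)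
  push_cast at h4 ⊢
  linarith

end Tl

open Tl Ent

/-- TAIL, entries at most `3/10` -/
theorem specT30 : SpecT (3 / 10) (1 / 4) := by
  intro a b M ha ha1 hb hb1 hM hs
  obtain ⟨v1, v2⟩ := vals a b M _ (by norm_num) ha ha1 hb hb1 hM
  rcases le_or_gt (a + b + M.sum) (91 / 10) with h | h
  · linarith [near30 a b M ha ha1 hb hb1 hM hs h]
  rcases le_or_gt (a + b + M.sum) 10 with h' | h'
  · have h1 := FM_ones _ v1 9 (by rw [v2]; push_cast; linarith) (by rw [v2]; push_cast; linarith)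
    rw [v2] at h1
    have h2 := h1.trans (teE_use 9 _ _ _ e30a (a + b + M.sum) (by push_cast; linarith)
      (by push_cast; linarith) (by linarith))
    push_cast at h2
    linarith
  · exact far _ h'.le _ v1 v2

/-- TAIL, entries at most `51/100` -/
theorem specT51 : SpecT (51 / 100) (47 / 200) := by
  intro a b M ha ha1 hb hb1 hM hs
  obtain ⟨v1, v2⟩ := vals a b M _ (by norm_num) ha ha1 hb hb1 hM
  rcases le_or_gt (a + b + M.sum) (44 / 5) with h | h
  · linarith [near51 a b M ha ha1 hb hb1 hM hs h]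
  rcases le_or_gt (a + b + M.sum) 9 with h' | h'
  · have h1 := FM_ones _ v1 8 (by rw [v2]; push_cast; linarith) (by rw [v2]; push_cast; linarith)
    rw [v2] at h1
    have h2 := h1.trans (teE_use 8 _ _ _ e51a (a + b + M.sum) (by push_cast; linarith)
      (by push_cast; linarith) (by linarith))
    push_cast at h2
    linarith
  rcases le_or_gt (a + b + M.sum) (91 / 10) with h'' | h''
  · have h1 := FM_ones _ v1 9 (by rw [v2]; push_cast; linarith) (by rw [v2]; push_cast; linarith)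
    rw [v2] at h1
    have h2 := h1.trans (teE_use 9 _ _ _ e51b (a + b + M.sum) (by push_cast; linarith)
      (by push_cast; linarith) (by linarith))
    push_cast at h2
    linarith
  rcases le_or_gt (a + b + M.sum) 10 with h3 | h3
  · have h1 := FM_ones _ v1 9 (by rw [v2]; push_cast; linarith) (by rw [v2]; push_cast; linarith)
    rw [v2] at h1
    have h2 := h1.trans (teE_use 9 _ _ _ e30a (a + b + M.sum) (by push_cast; linarith)
      (by push_cast; linarith) (by linarith))
    push_cast at h2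
    linarith
  · linarith [far _ h3.le _ v1 v2]

/-- TAIL, entries at most `7/10` -/
theorem specT70 : SpecT (7 / 10) (41 / 200) := by
  intro a b M ha ha1 hb hb1 hM hs
  obtain ⟨v1, v2⟩ := vals a b M _ (by norm_num) ha ha1 hb hb1 hM
  rcases le_or_gt (a + b + M.sum) (81 / 10) with h | h
  · linarith [near70 a b M ha ha1 hb hb1 hM hs h]
  rcases le_or_gt (a + b + M.sum) 9 with h' | h'
  · have h1 := FM_ones _ v1 8 (by rw [v2]; push_cast; linarith) (by rw [v2]; push_cast; linarith)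
    rw [v2] at h1
    have h2 := h1.trans (teE_use 8 _ _ _ e70a (a + b + M.sum) (by push_cast; linarith)
      (by push_cast; linarith) (by linarith))
    push_cast at h2
    linarith
  rcases le_or_gt (a + b + M.sum) (91 / 10) with h'' | h''
  · have h1 := FM_ones _ v1 9 (by rw [v2]; push_cast; linarith) (by rw [v2]; push_cast; linarith)
    rw [v2] at h1
    have h2 := h1.trans (teE_use 9 _ _ _ e51b (a + b + M.sum) (by push_cast; linarith)
      (by push_cast; linarith) (by linarith))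
    push_cast at h2
    linarith
  rcases le_or_gt (a + b + M.sum) 10 with h3 | h3
  · have h1 := FM_ones _ v1 9 (by rw [v2]; push_cast; linarith) (by rw [v2]; push_cast; linarith)
    rw [v2] at h1
    have h2 := h1.trans (teE_use 9 _ _ _ e30a (a + b + M.sum) (by push_cast; linarith)
      (by push_cast; linarith) (by linarith))
    push_cast at h2
    linarith
  · linarith [far _ h3.le _ v1 v2]

end B1
end Pool.Agent.Lib.MP_6947cd_al
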