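import Pool.Agent.Lib.MP_6947cd_al.Y.TabI
import Pool.Agent.Lib.MP_6947cd_al.Y.T
import Pool.Agent.Lib.MP_6947cd_al.Y.R1

/-!
Problem MP_6947cd_al (Chollet).  The far range of the row `i`: rests of total at least `8/10`.
-/

set_option autoImplicit false
set_option maxRecDepth 100000
open Finset

namespace Pool.Agent.Lib.MP_6947cd_al
namespace PkA

open Ent Ent.Pk Fr Fr.WT B1

/-- rests of total at least `8/10` are harmless -/
def SpecRI : Prop := ∀ (h t : ℝ) (M : Multiset ℝ), 17 / 20 ≤ h → h ≤ 1 → 17 / 20 ≤ t → t ≤ 1 →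
  (∀ e ∈ M, 0 ≤ e ∧ e ≤ 3 / 10) → 8 / 10 ≤ M.sum → FM (1 ::ₘ h ::ₘ t ::ₘ M) ≤ What (h + t + M.sum)

namespace RIM

/-- the check of the nodes: (index, value, certificate) -/
noncomputable def far (h t : ℕ) (L : List (ℕ × ℕ × ℕ)) : Bool :=
  L.all fun u => oneI (nat_lit 60) h t (nat_lit 0) u.1 u.2.1 u.2.2 &&
    (Nat.ble (Nat.mul (nat_lit 4) u.2.1) (w4 (Nat.add (Nat.add h t) u.1)) && Nat.ble (nat_lit 60) (Nat.add h t))

/-- certificates -/
def cA : List (ℕ × ℕ × ℕ) :=
  [(160, 6181256, 0x248cfc003d1f520001000001064ce001064ce001549a62),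
   (180, 6368984, 0x10000003c41110001000000ffe2bf00ffe2bf014b7712),
   (240, 6845070, 0x10000003a402c0001000000f098c600f098c60135cd87),
   (300, 7312633, 0x10000003829d30001000000e285e800e285e8012222d4),
   (360, 7769398, 0x10000003611da0001000000d5a07000d5a070011053c4),
   (420, 8214082, 0x100000034046b0001000000c9d59800c9d598010035a3),
   (480, 8646053, 0x10000003208ba0001000000bf0eb700bf0eb700f19c87),
   (540, 9065110, 0x10000003022c20001000000b5343800b5343800e45e7e),
   (600, 9471327, 0x10000002e54700001000000ac2f3300ac2f3300d854fc),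
   (660, 9864963, 0x10000002c9e5c0001000000a3ea3c00a3ea3c00cd5d59),
   (720, 10246384, 0x10000002b004a00010000009c51be009c51be00c358d5),
   (780, 10616022, 0x100000029797c000100000095540e0095540e00ba2c5f),
   (840, 10974348, 0x10000002808ea00010000008ee163008ee16300b1c035),
   (900, 11321844, 0x100000026ad63000100000088ebaf0088ebaf00a9ff91),
   (960, 11658996, 0x10000002565a9000100000083667c0083667c00a2d841),
   (1020, 11986279, 0x100000024307700010000007e46be007e46be009c3a5a),
   (1080, 12304155, 0x1000000230c9500010000007982ad007982ad009617e8),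
   (1140, 12613066, 0x100000021f8d6000100000075119d0075119d009064a9)]

/-- certificates -/
def cB : List (ℕ × ℕ × ℕ) :=
  [(160, 6638792, 0x225bd90039637a0001000000f3de7e013b7f3c013b7f3c),
   (180, 6815306, 0x100000038abb90001000000ee6eb70133c6f00133c6f0),
   (240, 7264616, 0x10000003702a50001000000e15b4e01214cf101214cf1),
   (300, 7707559, 0x1000000353d000001000000d52c5e0110513301105133),
   (360, 8141779, 0x1000000336dea0001000000c9e34b0100c47e0100c47e),
   (420, 8565858, 0x100000031a1a30001000000bf77fb00f28e2800f28e28),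
   (480, 8979003, 0x10000002fdfdc0001000000b5dd5500e591c900e591c9),
   (540, 9380850, 0x10000002e2d380001000000ad040200d9b26300d9b263),
   (600, 9771317, 0x10000002c8c590001000000a4dc1200ced41a00ced41a),
   (660, 10150512, 0x10000002afe8700010000009d55eb00c4dd0500c4dd05),
   (720, 10518669, 0x100000029842800010000009662cb00bbb58a00bbb58a),
   (780, 10876100, 0x1000000281d1200010000008ff50700b3486900b34869),
   (840, 11223168, 0x100000026c8bd00010000008a002300ab82a700ab82a7),
   (900, 11560259, 0x100000025866a00010000008478cf00a4536200a45362),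
   (960, 11887771, 0x100000024553a00010000007f54da009daba1009daba1),
   (1020, 12206108, 0x100000023344200010000007a8b1e00977e2100977e21),
   (1080, 12515663, 0x100000022229000010000007613680091bf1e0091bf1e),
   (1140, 12816821, 0x1000000211f36000100000071e65f008c642e008c642e)]

/-- certificates -/
def cC : List (ℕ × ℕ × ℕ) :=
  [(160, 7064923, 0x207e03003635b30001000001265cc801265cc801265cc8),
   (180, 7231866, 0x1000000359ae000010000011fba61011fba61011fba61),
   (240, 7658128, 0x10000003434a300010000010fb9be010fb9be010fb9be),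
   (300, 8079642, 0x100000032ae07000100000100dde00100dde00100dde0),
   (360, 8494043, 0x100000031191c0001000000f3230900f3230900f32309),
   (420, 8899844, 0x10000002f81ca0001000000e67bc000e67bc000e67bc0),
   (480, 9296157, 0x10000002defd30001000000dad5ba00dad5ba00dad5ba),
   (540, 9682505, 0x10000002c68270001000000d01ccd00d01ccd00d01ccd),
   (600, 10058693, 0x10000002aedca0001000000c63ca000c63ca000c63ca0),
   (660, 10424722, 0x10000002982720001000000bd219f00bd219f00bd219f),
   (720, 10780720, 0x10000002826f20001000000b4b97800b4b97800b4b978),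
   (780, 11126908, 0x100000026db860001000000acf35300acf35300acf353),
   (840, 11463560, 0x100000025a0020001000000a5bfe100a5bfe100a5bfe1),
   (900, 11790984, 0x10000002473fd00010000009f114e009f114e009f114e),
   (960, 12109513, 0x10000002356e4000100000098db2d0098db2d0098db2d),
   (1020, 12419480, 0x100000022480a000100000093125d0093125d0093125d),
   (1080, 12721228, 0x10000002146ba00010000008dace6008dace6008dace6),
   (1140, 13015089, 0x1000000205238000100000088a1dd0088a1dd0088a1dd)]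

theorem okA : far 170 170 cA = true := by decide +kernel

theorem okB : far 200 170 cB = true := by decide +kernel

theorem okC : far 200 200 cC = true := by decide +kernel

lemma far_sound {h t : ℕ} {L : List (ℕ × ℕ × ℕ)} (hc : far h t L = true) (i : ℕ)
    (hi : i ∈ L.map fun u => u.1) :
    FM (1 ::ₘ (h : ℝ) / 200 ::ₘ (t : ℝ) / 200 ::ₘ ((i % 60 : ℕ) : ℝ) / 200
      ::ₘ Multiset.replicate (i / 60) ((60 : ℝ) / 200)) ≤ Wc (((h + t + i : ℕ) : ℝ) / 200) := by
  obtain ⟨u, hu, rfl⟩ := List.mem_map.mp hi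
  have h1 := List.all_eq_true.mp hc u hu
  rw [Bool.and_eq_true, Bool.and_eq_true] at h1
  obtain ⟨h1, h2, h3⟩ := h1
  have h4 := oneI_sound h1
  have h5 : 4 * u.2.1 ≤ w4 (h + t + u.1) := Nat.le_of_ble_eq_true h2
  have h6 : 60 ≤ h + t := Nat.le_of_ble_eq_true h3
  have h7 := w4_le (h + t + u.1) (by omega)
  have h8 : ((4 * u.2.1 : ℕ) : ℝ) ≤ (w4 (h + t + u.1) : ℝ) := by exact_mod_cast h5
  have e : (1 ::ₘ (h : ℝ) / 200 ::ₘ (t : ℝ) / 200 ::ₘ ((0 : ℕ) : ℝ) / 200
      ::ₘ ((u.1 % 60 : ℕ) : ℝ) / 200 ::ₘ Multiset.replicate (u.1 / 60) (((60 : ℕ) : ℝ) / 200))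
      = 0 ::ₘ (1 ::ₘ (h : ℝ) / 200 ::ₘ (t : ℝ) / 200 ::ₘ ((u.1 % 60 : ℕ) : ℝ) / 200
      ::ₘ Multiset.replicate (u.1 / 60) ((60 : ℝ) / 200)) := by
    rw [show ((0 : ℕ) : ℝ) / 200 = 0 by norm_num, show ((60 : ℕ) : ℝ) = 60 by norm_num]
    simp only [← Multiset.singleton_add]
    abel
  have h9 : FM (1 ::ₘ (h : ℝ) / 200 ::ₘ (t : ℝ) / 200 ::ₘ ((u.1 % 60 : ℕ) : ℝ) / 200
      ::ₘ Multiset.replicate (u.1 / 60) ((60 : ℝ) / 200)) ≤ (u.2.1 : ℝ) / 10 ^ 7 := by
    rw [← FM_zero_cons, ← e]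
    exact h4
  refine h9.trans (le_trans ?_ h7)
  push_cast at h8
  rw [div_le_div_iff₀ (by norm_num) (by norm_num)]
  linarith

/-- the corners of the box -/
noncomputable def H (b : Bool) : ℝ := bif b then 1 else 17 / 20

theorem all_sound (b c : Bool) (i : ℕ) (hi : i ∈ cA.map fun u => u.1) :
    FM (1 ::ₘ H b ::ₘ H c ::ₘ ((i % 60 : ℕ) : ℝ) / 200
      ::ₘ Multiset.replicate (i / 60) ((60 : ℝ) / 200)) ≤ Wc (H b + H c + (i : ℝ) / 200) := by
  have eB : cB.map (fun u => u.1) = cA.map fun u => u.1 := by decide +kernel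
  have eC : cC.map (fun u => u.1) = cA.map fun u => u.1 := by decide +kernel
  cases b <;> cases c
  · refine le_trans (le_of_eq ?_) ((far_sound okA i hi).trans (le_of_eq ?_))
    · show FM (1 ::ₘ (17 / 20 : ℝ) ::ₘ (17 / 20 : ℝ) ::ₘ _) = _
      norm_num
    · show _ = Wc ((17 / 20 : ℝ) + (17 / 20 : ℝ) + (i : ℝ) / 200)
      congr 1
      push_cast
      ring
  · refine le_trans (le_of_eq ?_) ((far_sound okB i (by rw [eB]; exact hi)).trans (le_of_eq ?_))
    · show FM (1 ::ₘ (17 / 20 : ℝ) ::ₘ (1 : ℝ) ::ₘ _) = _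
      rw [Multiset.cons_swap (17 / 20 : ℝ) 1]
      norm_num
    · show _ = Wc ((17 / 20 : ℝ) + (1 : ℝ) + (i : ℝ) / 200)
      congr 1
      push_cast
      ring
  · refine le_trans (le_of_eq ?_) ((far_sound okB i (by rw [eB]; exact hi)).trans (le_of_eq ?_))
    · show FM (1 ::ₘ (1 : ℝ) ::ₘ (17 / 20 : ℝ) ::ₘ _) = _
      norm_num
    · show _ = Wc ((1 : ℝ) + (17 / 20 : ℝ) + (i : ℝ) / 200)
      congr 1
      push_cast
      ring
  · refine le_trans (le_of_eq ?_) ((far_sound okC i (by rw [eC]; exact hi)).trans (le_of_eq ?_))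
    · show FM (1 ::ₘ (1 : ℝ) ::ₘ (1 : ℝ) ::ₘ _) = _
      norm_num
    · show _ = Wc ((1 : ℝ) + (1 : ℝ) + (i : ℝ) / 200)
      congr 1
      push_cast
      ring

/-- nodes without free entry -/
theorem nodeA (b c : Bool) (n : ℕ) (h3 : 3 ≤ n) (h19 : n ≤ 19) :
    FM (1 ::ₘ H b ::ₘ H c ::ₘ Multiset.replicate n (3 / 10 : ℝ)) ≤ Wc (H b + H c + n * (3 / 10)) := by
  have hm : ((List.range 17).all fun k => decide (60 * (3 + k) ∈ cA.map fun u => u.1)) = true := by decide +kernel
  have hi : 60 * n ∈ cA.map fun u => u.1 := by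
    have := List.all_eq_true.mp hm (n - 3) (List.mem_range.mpr (by omega))
    have h := of_decide_eq_true this
    rwa [show 3 + (n - 3) = n by omega] at h
  have h := all_sound b c (60 * n) hi
  rw [Nat.mul_mod_right, Nat.mul_div_cancel_left n (by norm_num : 0 < 60)] at h
  have e : (1 ::ₘ H b ::ₘ H c ::ₘ ((0 : ℕ) : ℝ) / 200 ::ₘ Multiset.replicate n ((60 : ℝ) / 200))
      = 0 ::ₘ (1 ::ₘ H b ::ₘ H c ::ₘ Multiset.replicate n (3 / 10 : ℝ)) := by
    rw [show ((0 : ℕ) : ℝ) / 200 = 0 by norm_num, show (60 : ℝ) / 200 = 3 / 10 by norm_num]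
    simp only [← Multiset.singleton_add]
    abel
  rw [e, FM_zero_cons] at h
  refine h.trans (le_of_eq ?_)
  congr 1
  push_cast
  ring

/-- the first node -/
theorem nodeB (b c : Bool) :
    FM (1 ::ₘ H b ::ₘ H c ::ₘ (1 / 5 : ℝ) ::ₘ Multiset.replicate 2 (3 / 10 : ℝ))
      ≤ Wc (H b + H c + (1 / 5 + 2 * (3 / 10))) := by
  have h := all_sound b c 160 (by decide +kernel)
  have e : (1 ::ₘ H b ::ₘ H c ::ₘ ((160 % 60 : ℕ) : ℝ) / 200 ::ₘ Multiset.replicate (160 / 60) ((60 : ℝ) / 200))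
      = 1 ::ₘ H b ::ₘ H c ::ₘ (1 / 5 : ℝ) ::ₘ Multiset.replicate 2 (3 / 10 : ℝ) := by
    norm_num
  rw [e] at h
  refine h.trans (le_of_eq ?_)
  congr 1
  push_cast
  ring

end RIM

open RIM

theorem specRI_of (hR2 : SpecR2) : SpecRI := by
  intro h t M hh0 hh1 ht0 ht1 hM hs
  rcases le_or_gt (37 / 5) (h + t + M.sum) with hbig | hsmall
  · have := specT30 h t M (by linarith) hh1 (by linarith) ht1 hM hbig
    linarith
  · have hent : ∀ z ∈ (1 ::ₘ h ::ₘ t ::ₘ (0 : Multiset ℝ)), 0 ≤ z ∧ z ≤ 1 := by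
      intro z hz
      rcases Multiset.mem_cons.mp hz with rfl | hz
      · exact ⟨zero_le_one, le_rfl⟩
      rcases Multiset.mem_cons.mp hz with rfl | hz
      · exact ⟨by linarith, hh1⟩
      rcases Multiset.mem_cons.mp hz with rfl | hz
      · exact ⟨by linarith, ht1⟩
      exact absurd hz (Multiset.notMem_zero z)
    obtain ⟨m, n, r, h1, h2, h3, h4, h5⟩ := piece 0 (3 / 10) le_rfl (by norm_num) (by norm_num) M
      (1 ::ₘ h ::ₘ t ::ₘ (0 : Multiset ℝ)) (Multiset.mem_cons_self _ _) hent hM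
    -- the free entry
    obtain ⟨ρ, hρ0, hρ1, hρs, hρF⟩ : ∃ ρ : ℝ, 0 ≤ ρ ∧ ρ ≤ 3 / 10 ∧ r.sum = ρ ∧
        ∀ s : Multiset ℝ, FM (r + s) = FM (ρ ::ₘ s) := by
      rcases Nat.lt_or_ge 0 r.card with hr | hr
      · obtain ⟨y, rfl⟩ := Multiset.card_eq_one.mp (le_antisymm h1 hr)
        have hy := h2 y (Multiset.mem_singleton_self y)
        exact ⟨y, hy.1.le, hy.2.le, Multiset.sum_singleton y, fun s => by rw [Multiset.singleton_add]⟩
      · have hr0 : r = 0 := Multiset.card_eq_zero.mp (Nat.le_zero.mp hr)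
        exact ⟨0, le_rfl, by norm_num, by rw [hr0]; exact Multiset.sum_zero, fun s => by
          rw [hr0, zero_add, FM_zero_cons]⟩
    have hsum : M.sum = n * (3 / 10) + ρ := by
      rw [← hρs]
      have := h4
      linarith
    have hF : FM (1 ::ₘ h ::ₘ t ::ₘ M) ≤ FM (1 ::ₘ h ::ₘ t ::ₘ 0 ::ₘ ρ ::ₘ Multiset.replicate n (3 / 10 : ℝ)) := by
      have e1 : (1 ::ₘ h ::ₘ t ::ₘ M) = (1 ::ₘ h ::ₘ t ::ₘ (0 : Multiset ℝ)) + M := by
        simp only [← Multiset.singleton_add]
        abel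
      rw [e1]
      refine h5.trans (le_of_eq ?_)
      have e2 : (1 ::ₘ h ::ₘ t ::ₘ (0 : Multiset ℝ)) + (Multiset.replicate m 0 + Multiset.replicate n (3 / 10 : ℝ) + r)
          = Multiset.replicate m 0 + (r + (1 ::ₘ h ::ₘ t ::ₘ Multiset.replicate n (3 / 10 : ℝ))) := by
        simp only [← Multiset.singleton_add]
        abel
      rw [e2, FM_zero_add, hρF]
      have e3 : (1 ::ₘ h ::ₘ t ::ₘ 0 ::ₘ ρ ::ₘ Multiset.replicate n (3 / 10 : ℝ))
          = 0 ::ₘ (ρ ::ₘ (1 ::ₘ h ::ₘ t ::ₘ Multiset.replicate n (3 / 10 : ℝ))) := by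
        simp only [← Multiset.singleton_add]
        abel
      rw [e3, FM_zero_cons]
    have hn2 : 2 ≤ n := by
      by_contra hcon
      have : (n : ℝ) ≤ 1 := by exact_mod_cast (by omega : n ≤ 1)
      linarith
    have hn18 : n ≤ 18 := by
      by_contra hcon
      have : (19 : ℝ) ≤ n := by exact_mod_cast (by omega : 19 ≤ n)
      linarith
    obtain ⟨r0, hr0, hr0', hcase⟩ : ∃ r0 : ℝ, 0 ≤ r0 ∧ r0 ≤ ρ ∧ ∀ b c : Bool,
        FM (1 ::ₘ H b ::ₘ H c ::ₘ r0 ::ₘ Multiset.replicate n (3 / 10 : ℝ)) ≤ Wc (H b + H c + (r0 + n * (3 / 10))) := by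
      rcases Nat.lt_or_ge n 3 with hn | hn
      · have hn' : n = 2 := by omega
        subst hn'
        refine ⟨1 / 5, by norm_num, by push_cast at hsum; linarith, fun b c => ?_⟩
        have := nodeB b c
        push_cast
        exact this
      · refine ⟨0, le_rfl, hρ0, fun b c => ?_⟩
        have := nodeA b c n hn (by omega)
        have e : (1 ::ₘ H b ::ₘ H c ::ₘ 0 ::ₘ Multiset.replicate n (3 / 10 : ℝ))
            = 0 ::ₘ (1 ::ₘ H b ::ₘ H c ::ₘ Multiset.replicate n (3 / 10 : ℝ)) := by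
          simp only [← Multiset.singleton_add]
          abel
        rw [e, FM_zero_cons, zero_add]
        exact this
    have hcorner := hR2 (17 / 20) 1 (17 / 20) 1 0 0 r0 (3 / 10) 0 h t 0 ρ (3 / 10) n (by norm_num) (by norm_num)
      le_rfl hr0 (by norm_num) le_rfl le_rfl (by norm_num) (by norm_num) (by norm_num) hh0 hh1 ht0 ht1 le_rfl le_rfl
      hr0' hρ1 (by
        intro bh bt bx br
        have ebx : (bif bx then (0 : ℝ) else 0) = 0 := by cases bx <;> rfl
        rw [ebx]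
        have eh : (bif bh then (1 : ℝ) else 17 / 20) = H bh := rfl
        have et : (bif bt then (1 : ℝ) else 17 / 20) = H bt := rfl
        rw [eh, et]
        have e0 : ∀ s : Multiset ℝ, (1 ::ₘ H bh ::ₘ H bt ::ₘ 0 ::ₘ s) = 0 ::ₘ (1 ::ₘ H bh ::ₘ H bt ::ₘ s) := by
          intro s
          simp only [← Multiset.singleton_add]
          abel
        rw [e0, FM_zero_cons, Multiset.sum_cons, Multiset.sum_replicate, nsmul_eq_mul]
        cases br with
        | false =>
          show FM (1 ::ₘ H bh ::ₘ H bt ::ₘ r0 ::ₘ Multiset.replicate n (3 / 10 : ℝ))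
            - Wc (H bh + H bt + 0 + (r0 + n * (3 / 10))) ≤ 0
          have := hcase bh bt
          rw [add_zero]
          linarith
        | true =>
          show FM (1 ::ₘ H bh ::ₘ H bt ::ₘ (3 / 10 : ℝ) ::ₘ Multiset.replicate n (3 / 10 : ℝ))
            - Wc (H bh + H bt + 0 + (3 / 10 + n * (3 / 10))) ≤ 0
          have := nodeA bh bt (n + 1) (by omega) (by omega)
          rw [Multiset.replicate_succ] at this
          have e : H bh + H bt + 0 + (3 / 10 + n * (3 / 10)) = H bh + H bt + ((n + 1 : ℕ) : ℝ) * (3 / 10) := by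
            push_cast
            ring
          rw [e]
          linarith)
    have hW := Wc_le_What (h + t + M.sum) (by linarith) hsmall.le
    rw [Multiset.sum_cons, Multiset.sum_replicate, nsmul_eq_mul] at hcorner
    have e : h + t + 0 + (ρ + n * (3 / 10)) = h + t + M.sum := by
      rw [hsum]
      ring
    rw [e] at hcorner
    linarith

theorem specRI : SpecRI := specRI_of specR2

end PkA
end Pool.Agent.Lib.MP_6947cd_al
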