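import Pool.Agent.Lib.MP_6947cd_al.Y.Prob
import Pool.Agent.Lib.MP_6947cd_al.Y.RI
import Pool.Agent.Lib.MP_6947cd_al.Y.G

/-!
Problem MP_6947cd_al (Chollet).  CASE B, large second entry: the boxes of a list cover all the configurations.
-/

set_option autoImplicit false
open Finset

namespace Pool.Agent.Lib.MP_6947cd_al
namespace B1

open Ent Fr PkA

namespace CovM

/-- all the consecutive pairs of the list; the last node is at least `e` -/
def prs (e : ℕ) (P : ℕ → ℕ → Bool) : ℕ → List ℕ → Bool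
  | a, [] => Nat.ble e a
  | a, b :: l => P a b && prs e P b l

lemma prs_sound (e : ℕ) (P : ℕ → ℕ → Bool) (l : List ℕ) : ∀ (a : ℕ) (x : ℝ), prs e P a l = true →
    (a : ℝ) / 200 ≤ x → (l = [] → (a : ℝ) / 200 < x) → x ≤ (e : ℝ) / 200 →
    ∃ c d : ℕ, P c d = true ∧ (c : ℝ) / 200 ≤ x ∧ x ≤ (d : ℝ) / 200 := by
  induction l with
  | nil =>
    intro a x h _ h2 h3
    have h4 := h2 rfl
    have h5 : (e : ℝ) ≤ a := by exact_mod_cast Nat.le_of_ble_eq_true h
    exfalso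
    have : (e : ℝ) / 200 ≤ (a : ℝ) / 200 := by linarith
    linarith
  | cons b l ih =>
    intro a x h h1 _ h3
    have h' : (P a b && prs e P b l) = true := h
    rw [Bool.and_eq_true] at h'
    rcases le_or_gt x ((b : ℝ) / 200) with h4 | h4
    · exact ⟨a, b, h'.1, h1, h4⟩
    · exact ih b x h'.2 h4.le (fun _ => h4) h3

/-- the lower bound `g0` of `g` is admissible -/
def lowOK (H0 T0 g0 : ℕ) : Bool :=
  Nat.ble (200 * g0) (H0 * T0) && Nat.ble 200 (H0 + T0 + g0) &&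
    Nat.ble (4 * H0 * T0 * g0) (200 * (H0 + T0 + g0 - 200) ^ 2)

/-- the box is contained in a box of the list -/
def memL (l : List (ℕ × ℕ × ℕ × ℕ × ℕ × ℕ)) (H0 H1 T0 T1 G0 G1 : ℕ) : Bool :=
  l.any fun b => Nat.ble b.1 H0 && Nat.ble H1 b.2.1 && Nat.ble b.2.2.1 T0 && Nat.ble T1 b.2.2.2.1 &&
    Nat.ble b.2.2.2.2.1 G0 && Nat.ble G1 b.2.2.2.2.2

/-- one cell -/
def cell (cand : List ℕ) (l : List (ℕ × ℕ × ℕ × ℕ × ℕ × ℕ)) (H0 H1 T0 T1 G0 G1 : ℕ) : Bool :=
  Nat.blt H1 T0 || cand.any fun g0 => lowOK (max H0 T0) T0 g0 &&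
    (Nat.blt G1 g0 || memL l (max H0 T0) H1 T0 (min T1 H1) (max G0 g0) G1)

/-- THE CHECK: grids of `h`, `t` (from 170 to 200), `g` (from 0 to 200), candidates for lower bounds of `g` -/
def cover (hs ts gs cand : List ℕ) (l : List (ℕ × ℕ × ℕ × ℕ × ℕ × ℕ)) : Bool :=
  !hs.isEmpty && !ts.isEmpty && !gs.isEmpty &&
  prs 200 (fun H0 H1 => prs 200 (fun T0 T1 => prs 200 (fun G0 G1 => cell cand l H0 H1 T0 T1 G0 G1) 0 gs) 170 ts)
    170 hs

lemma cast_max (a b : ℕ) : ((max a b : ℕ) : ℝ) / 200 = max ((a : ℝ) / 200) ((b : ℝ) / 200) := by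
  rw [Nat.cast_max, max_div_div_right (by norm_num : (0 : ℝ) ≤ 200)]

lemma cast_min (a b : ℕ) : ((min a b : ℕ) : ℝ) / 200 = min ((a : ℝ) / 200) ((b : ℝ) / 200) := by
  rw [Nat.cast_min, min_div_div_right (by norm_num : (0 : ℝ) ≤ 200)]

/-- every configuration lies in a box of the list -/
theorem find {hs ts gs cand : List ℕ} {l : List (ℕ × ℕ × ℕ × ℕ × ℕ × ℕ)} (hc : cover hs ts gs cand l = true)
    (h t g : ℝ) (hth : t ≤ h) (h1 : h ≤ 1) (t0 : 17 / 20 ≤ t) (hg0 : 0 ≤ g) (hg1 : g ≤ 1) (htri : Tri h t g) :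
    ∃ b ∈ l, (b.1 : ℝ) / 200 ≤ h ∧ h ≤ (b.2.1 : ℝ) / 200 ∧ (b.2.2.1 : ℝ) / 200 ≤ t ∧ t ≤ (b.2.2.2.1 : ℝ) / 200 ∧
      (b.2.2.2.2.1 : ℝ) / 200 ≤ g ∧ g ≤ (b.2.2.2.2.2 : ℝ) / 200 := by
  unfold cover at hc
  rw [Bool.and_eq_true, Bool.and_eq_true, Bool.and_eq_true] at hc
  obtain ⟨⟨⟨e1, e2⟩, e3⟩, hc⟩ := hc
  obtain ⟨H0, H1, hc, a1, a2⟩ := prs_sound _ _ _ _ h hc (by push_cast; linarith) (fun h => by rw [h] at e1; exact absurd e1 (by simp))
    (by push_cast; linarith)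
  obtain ⟨T0, T1, hc, b1, b2⟩ := prs_sound _ _ _ _ t hc (by push_cast; linarith) (fun h => by rw [h] at e2; exact absurd e2 (by simp))
    (by push_cast; linarith)
  obtain ⟨G0, G1, hc, c1, c2⟩ := prs_sound _ _ _ _ g hc (by push_cast; linarith) (fun h => by rw [h] at e3; exact absurd e3 (by simp))
    (by push_cast; linarith)
  have hc' : (Nat.blt H1 T0 || cand.any fun g0 => lowOK (max H0 T0) T0 g0 &&
    (Nat.blt G1 g0 || memL l (max H0 T0) H1 T0 (min T1 H1) (max G0 g0) G1)) = true := hc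
  rw [Bool.or_eq_true] at hc'
  rcases hc' with hc | hc
  · exfalso
    have h2 : H1 + 1 ≤ T0 := Nat.le_of_ble_eq_true hc
    have h3 : (H1 : ℝ) + 1 ≤ T0 := by exact_mod_cast h2
    have : (H1 : ℝ) / 200 < (T0 : ℝ) / 200 := by linarith
    linarith
  · obtain ⟨g0, hg, hc⟩ := List.any_eq_true.mp hc
    rw [Bool.and_eq_true, Bool.or_eq_true] at hc
    obtain ⟨hlow, hc⟩ := hc
    unfold lowOK at hlow
    rw [Bool.and_eq_true, Bool.and_eq_true] at hlow
    obtain ⟨⟨l1, l2⟩, l3⟩ := hlow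
    have l1 := Nat.le_of_ble_eq_true l1
    have l2 := Nat.le_of_ble_eq_true l2
    have l3 := Nat.le_of_ble_eq_true l3
    obtain ⟨w, hw⟩ := Nat.exists_eq_add_of_le l2
    rw [hw, Nat.add_sub_cancel_left] at l3
    have mh : (((max H0 T0 : ℕ) : ℝ)) / 200 ≤ h := by
      rw [cast_max]
      exact max_le a1 (b1.trans hth)
    have mt : t ≤ ((min T1 H1 : ℕ) : ℝ) / 200 := by
      rw [cast_min]
      exact le_min b2 (hth.trans a2)
    have l1' : (200 : ℝ) * g0 ≤ ((max H0 T0 : ℕ) : ℝ) * T0 := by exact_mod_cast l1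
    have l3' : (4 : ℝ) * ((max H0 T0 : ℕ) : ℝ) * T0 * g0 ≤ 200 * (w : ℝ) ^ 2 := by exact_mod_cast l3
    have hw' : ((max H0 T0 : ℕ) : ℝ) + T0 + g0 = 200 + w := by exact_mod_cast hw
    have hw0 : (0 : ℝ) ≤ w := Nat.cast_nonneg w
    have hg' : (g0 : ℝ) / 200 ≤ g := by
      refine specG2 ((g0 : ℝ) / 200) (((max H0 T0 : ℕ) : ℝ) / 200) ((T0 : ℝ) / 200) h t g (by positivity)
        (by positivity) mh h1 (by positivity) b1 (hth.trans h1) hg0 ?_ ?_ ?_ htri
      · rw [div_mul_div_comm, div_le_div_iff₀ (by norm_num) (by norm_num)]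
        linarith
      · have : ((max H0 T0 : ℕ) : ℝ) / 200 + (T0 : ℝ) / 200 + (g0 : ℝ) / 200 - 1 = w / 200 := by
          rw [← add_div, ← add_div, hw']
          ring
        rw [this]
        positivity
      · have : ((max H0 T0 : ℕ) : ℝ) / 200 + (T0 : ℝ) / 200 + (g0 : ℝ) / 200 - 1 = w / 200 := by
          rw [← add_div, ← add_div, hw']
          ring
        rw [this]
        have e : 4 * (((max H0 T0 : ℕ) : ℝ) / 200) * ((T0 : ℝ) / 200) * ((g0 : ℝ) / 200)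
            = (4 * ((max H0 T0 : ℕ) : ℝ) * T0 * g0) / 8000000 := by ring
        rw [e, div_pow, div_le_div_iff₀ (by norm_num) (by norm_num)]
        nlinarith
    rcases hc with hc | hc
    · exfalso
      have h2 : G1 + 1 ≤ g0 := Nat.le_of_ble_eq_true hc
      have h3 : (G1 : ℝ) + 1 ≤ g0 := by exact_mod_cast h2
      have : (G1 : ℝ) / 200 < (g0 : ℝ) / 200 := by linarith
      linarith
    · obtain ⟨b, hb, hc⟩ := List.any_eq_true.mp hc
      have mg : ((max G0 g0 : ℕ) : ℝ) / 200 ≤ g := by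
        rw [cast_max]
        exact max_le c1 hg'
      simp only [Bool.and_eq_true] at hc
      obtain ⟨⟨⟨⟨⟨k1, k2⟩, k3⟩, k4⟩, k5⟩, k6⟩ := hc
      have up : ∀ {a b : ℕ}, Nat.ble a b = true → (a : ℝ) / 200 ≤ (b : ℝ) / 200 := by
        intro a b hab
        have : (a : ℝ) ≤ b := by exact_mod_cast Nat.le_of_ble_eq_true hab
        linarith
      exact ⟨b, hb, (up k1).trans mh, a2.trans (up k2), (up k3).trans b1, mt.trans (up k4), (up k5).trans mg,
        c2.trans (up k6)⟩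

end CovM

open CovM

/-- THE COVER. -/
theorem cover_sound {hs ts gs cand : List ℕ} {l : List (ℕ × ℕ × ℕ × ℕ × ℕ × ℕ)}
    (hc : cover hs ts gs cand l = true) (hP : Probs l) : NoZ ∧ NoV := by
  have key : ∀ (X : ℕ) (_ : X < 5) (bj bk : Bool) (m h t g x y z : ℝ) (Mi Mj Mk : Multiset ℝ) (Gj Gk : ℝ),
      XR X m x y z Mi.sum → x + Mi.sum ≤ 160 / 200 → ¬ Cfg bj bk m h t g x y z Mi Mj Mk Gj Gk := by
    intro X hX bj bk m h t g x y z Mi Mj Mk Gj Gk hXR hs c
    obtain ⟨b, hb, k1, k2, k3, k4, k5, k6⟩ := find hc h t g c.th c.h1 c.t0 c.g01.1 c.g01.2 c.trig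
    exact hP b hb X hX bj bk m h t g x y z Mi Mj Mk Gj Gk hXR hs k1 k2 k3 k4 k5 k6 c
  constructor
  · intro bj bk h t g Mi Mj Mk Gj Gk hs c
    rcases le_total Mi.sum (10 / 200) with h1 | h1
    · exact key 0 (by norm_num) bj bk (3 / 10) h t g 0 0 0 Mi Mj Mk Gj Gk (Or.inl ⟨rfl, rfl, rfl, rfl, rfl, h1⟩)
        (by linarith) c
    · exact key 1 (by norm_num) bj bk (3 / 10) h t g 0 0 0 Mi Mj Mk Gj Gk
        (Or.inr (Or.inl ⟨rfl, rfl, rfl, rfl, rfl, h1, by linarith⟩)) (by linarith) c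
  · intro bj bk h t g x y z Mi Mj Mk Gj Gk hs c
    have hx := c.x01
    rcases le_or_gt (x + Mi.sum) (160 / 200) with h1 | h1
    · rcases le_total x (20 / 200) with h2 | h2
      · exact key 2 (by norm_num) bj bk x h t g x y z Mi Mj Mk Gj Gk
          (Or.inr (Or.inr (Or.inl ⟨rfl, rfl, h2, by linarith⟩))) h1 c
      · rcases le_total x (40 / 200) with h3 | h3
        · exact key 3 (by norm_num) bj bk x h t g x y z Mi Mj Mk Gj Gk
            (Or.inr (Or.inr (Or.inr (Or.inl ⟨rfl, rfl, h2, h3, by linarith⟩)))) h1 c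
        · exact key 4 (by norm_num) bj bk x h t g x y z Mi Mj Mk Gj Gk
            (Or.inr (Or.inr (Or.inr (Or.inr ⟨rfl, rfl, h3, by linarith, by linarith⟩)))) h1 c
    · have hR := specRI h t (x ::ₘ Mi) (c.t0.trans c.th) c.h1 c.t0 (c.th.trans c.h1) (by
        intro e he
        rcases Multiset.mem_cons.mp he with rfl | he
        · exact hx
        · have := c.ri e he
          exact ⟨this.1, this.2.trans hx.2⟩) (by rw [Multiset.sum_cons]; linarith)
      have hd := c.di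
      rw [Multiset.sum_cons, ← add_assoc] at hR
      linarith

end B1
end Pool.Agent.Lib.MP_6947cd_al
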