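import Pool.Agent.Lib.MP_6947cd_al.Y.D.B0_0
import Pool.Agent.Lib.MP_6947cd_al.Y.D.B0_1
import Pool.Agent.Lib.MP_6947cd_al.Y.D.B0_2
import Pool.Agent.Lib.MP_6947cd_al.Y.D.B0_3
import Pool.Agent.Lib.MP_6947cd_al.Y.D.B0_4
import Pool.Agent.Lib.MP_6947cd_al.Y.D.B1_0
import Pool.Agent.Lib.MP_6947cd_al.Y.D.B1_1
import Pool.Agent.Lib.MP_6947cd_al.Y.D.B1_2
import Pool.Agent.Lib.MP_6947cd_al.Y.D.B1_3
import Pool.Agent.Lib.MP_6947cd_al.Y.D.B1_4
import Pool.Agent.Lib.MP_6947cd_al.Y.D.B2_0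
import Pool.Agent.Lib.MP_6947cd_al.Y.D.B2_1
import Pool.Agent.Lib.MP_6947cd_al.Y.D.B2_2
import Pool.Agent.Lib.MP_6947cd_al.Y.D.B2_3
import Pool.Agent.Lib.MP_6947cd_al.Y.D.B2_4
import Pool.Agent.Lib.MP_6947cd_al.Y.D.B3_0
import Pool.Agent.Lib.MP_6947cd_al.Y.D.B3_1
import Pool.Agent.Lib.MP_6947cd_al.Y.D.B3_2
import Pool.Agent.Lib.MP_6947cd_al.Y.D.B3_3
import Pool.Agent.Lib.MP_6947cd_al.Y.D.B3_4
import Pool.Agent.Lib.MP_6947cd_al.Y.D.B4_0
import Pool.Agent.Lib.MP_6947cd_al.Y.D.B4_1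
import Pool.Agent.Lib.MP_6947cd_al.Y.D.B4_2
import Pool.Agent.Lib.MP_6947cd_al.Y.D.B4_3
import Pool.Agent.Lib.MP_6947cd_al.Y.D.B4_4
import Pool.Agent.Lib.MP_6947cd_al.Y.D.B5_0
import Pool.Agent.Lib.MP_6947cd_al.Y.D.B5_1
import Pool.Agent.Lib.MP_6947cd_al.Y.D.B5_2
import Pool.Agent.Lib.MP_6947cd_al.Y.D.B5_3
import Pool.Agent.Lib.MP_6947cd_al.Y.D.B5_4
import Pool.Agent.Lib.MP_6947cd_al.Y.D.B6_0
import Pool.Agent.Lib.MP_6947cd_al.Y.D.B6_1
import Pool.Agent.Lib.MP_6947cd_al.Y.D.B6_2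
import Pool.Agent.Lib.MP_6947cd_al.Y.D.B6_3
import Pool.Agent.Lib.MP_6947cd_al.Y.D.B6_4
import Pool.Agent.Lib.MP_6947cd_al.Y.Cover
import Pool.Agent.Lib.MP_6947cd_al.Y.D

/-!
Problem MP_6947cd_al (Chollet).  CASE B, large second entry: `SpecBI What (17/20) 1`.
-/

set_option autoImplicit false
open Finset

namespace Pool.Agent.Lib.MP_6947cd_al
namespace B1

open Ent Fr D

/-- the boxes -/
def boxes : List (ℕ × ℕ × ℕ × ℕ × ℕ × ℕ) := [(170, 180, 170, 180, 98, 200),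
  (180, 190, 170, 180, 98, 200),
  (180, 190, 180, 190, 98, 200),
  (190, 200, 170, 175, 130, 200),
  (190, 200, 175, 180, 130, 200),
  (190, 200, 180, 190, 130, 200),
  (190, 200, 190, 200, 130, 200)]

theorem probs : Probs boxes := by
  intro b hb X hX bj bk
  simp only [boxes, List.mem_cons, List.not_mem_nil, or_false] at hb
  rcases hb with rfl | rfl | rfl | rfl | rfl | rfl | rfl
  · interval_cases X
    · exact pb0_0 bj bk
    · exact pb0_1 bj bk
    · exact pb0_2 bj bk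
    · exact pb0_3 bj bk
    · exact pb0_4 bj bk
  · interval_cases X
    · exact pb1_0 bj bk
    · exact pb1_1 bj bk
    · exact pb1_2 bj bk
    · exact pb1_3 bj bk
    · exact pb1_4 bj bk
  · interval_cases X
    · exact pb2_0 bj bk
    · exact pb2_1 bj bk
    · exact pb2_2 bj bk
    · exact pb2_3 bj bk
    · exact pb2_4 bj bk
  · interval_cases X
    · exact pb3_0 bj bk
    · exact pb3_1 bj bk
    · exact pb3_2 bj bk
    · exact pb3_3 bj bk
    · exact pb3_4 bj bk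
  · interval_cases X
    · exact pb4_0 bj bk
    · exact pb4_1 bj bk
    · exact pb4_2 bj bk
    · exact pb4_3 bj bk
    · exact pb4_4 bj bk
  · interval_cases X
    · exact pb5_0 bj bk
    · exact pb5_1 bj bk
    · exact pb5_2 bj bk
    · exact pb5_3 bj bk
    · exact pb5_4 bj bk
  · interval_cases X
    · exact pb6_0 bj bk
    · exact pb6_1 bj bk
    · exact pb6_2 bj bk
    · exact pb6_3 bj bk
    · exact pb6_4 bj bk

theorem covered : CovM.cover [180, 190, 200] [175, 180, 190, 200] [98, 130, 200] [98, 128, 131] boxes = true := by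
  decide +kernel

/-- CASE B, second entry at least 17/20. -/
theorem specBI_high : LL.SpecBI What (17 / 20) 1 :=
  specD (cover_sound covered probs).1 (cover_sound covered probs).2

end B1
end Pool.Agent.Lib.MP_6947cd_al
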