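import Pool.Agent.Lib.MP_6947cd_al.Y.RC

/-!
Problem MP_6947cd_al (Chollet).  CASE B, large second entry: REDUCTION of a configuration (proof of `SpecRC`).
-/

set_option autoImplicit false
open Finset

namespace Pool.Agent.Lib.MP_6947cd_al
namespace B1

open Ent Ent.Pk Fr Fr.WT PkA

namespace RCM

/-- the last knot is a cap -/
lemma cap (g1 : SpecG1) {b0 sm : ℕ} {ks Ps : List ℕ} (hK : KnP b0 sm ks Ps) {h s u : ℝ}
    (hb : (b0 : ℝ) / 200 ≤ h) (h1 : h ≤ 1) (s0 : 0 ≤ s) (s1 : s ≤ 3 / 10) (ss : s ≤ (sm : ℝ) / 200)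
    (u0 : 0 ≤ u) (u1 : u ≤ 1) (ht : Tri h s u) : u ≤ top 0 (kR ks) := by
  obtain ⟨μ, hμ, c1, c2⟩ := hK.cap
  have k := g1 μ ((b0 : ℝ) / 200) h s u hμ (by positivity) hb h1 s0 (by linarith) u0 u1 ht
  have k2 : (μ - 1) * s ≤ (μ - 1) * ((sm : ℝ) / 200) := mul_le_mul_of_nonneg_left ss (by linarith)
  have k3 : u * (1 - (b0 : ℝ) / 200 / μ) ≤ top 0 (kR ks) * (1 - (b0 : ℝ) / 200 / μ) := by linarith
  exact le_of_mul_le_mul_right k3 c2

/-- the price of an entry -/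
lemma price (g1 : SpecG1) (r8 : SpecR8) {b0 sm : ℕ} {ks Ps : List ℕ} (hK : KnP b0 sm ks Ps) {h s u : ℝ}
    (hb : (b0 : ℝ) / 200 ≤ h) (h1 : h ≤ 1) (s0 : 0 ≤ s) (s1 : s ≤ 3 / 10) (ss : s ≤ (sm : ℝ) / 200)
    (u0 : 0 ≤ u) (u1 : u ≤ 1) (ht : Tri h s u) : prF ks Ps u ≤ s := by
  have hc := cap g1 hK hb h1 s0 s1 ss u0 u1 ht
  have hne : kR ks ≠ [] := by
    intro h0
    apply hK.ne
    have := congrArg List.length h0
    rw [kR_length] at this
    exact List.length_eq_zero_iff.mp this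
  exact r8 ((b0 : ℝ) / 200) (kR ks) (pR Ps) 0 0 (by positivity) le_rfl hK.inc hne
    (by simp [kR, pR, hK.len]) hK.pr h s u hb h1 s0 (by linarith) u0 hc u1 ht

/-- reduction of a row -/
lemma row (r6 : SpecR6) (r7 : SpecR7) {b0 sm : ℕ} {ks Ps : List ℕ} (hK : KnP b0 sm ks Ps)
    {b g y : ℝ} (hb : 0 ≤ b ∧ b ≤ 1) (hg : 0 ≤ g ∧ g ≤ 1) (hy : 0 ≤ y ∧ y ≤ 1) (M : Multiset ℝ)
    (hM : ∀ u ∈ M, 0 ≤ u ∧ u ≤ top 0 (kR ks)) :
    ∃ (ns : List ℕ) (fs : List Bool) (M' : Multiset ℝ), Red 0 (kR ks) ns fs M' ∧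
      FM (1 ::ₘ b ::ₘ g ::ₘ y ::ₘ M) ≤ FM (1 ::ₘ b ::ₘ g ::ₘ y ::ₘ M') ∧ M'.sum = M.sum ∧
      (M'.map (prF ks Ps)).sum = (M.map (prF ks Ps)).sum ∧ Om M ≤ (M'.map (omF ks)).sum := by
  obtain ⟨m, ns, fs, M', e1, e2, e3, e4⟩ := reduce (kR ks) 0 le_rfl hK.inc (1 ::ₘ b ::ₘ g ::ₘ {y}) M
    (Multiset.mem_cons_self _ _) (by
      intro z hz
      simp only [Multiset.mem_cons, Multiset.mem_singleton] at hz
      rcases hz with rfl | rfl | rfl | rfl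
      · norm_num
      · exact hb
      · exact hg
      · exact hy) hM
  obtain ⟨p1, p2, -⟩ := prF_facts r7 ks Ps hK.inc hK.len
  obtain ⟨o1, o2, -⟩ := omF_facts r7 ks hK.inc
  refine ⟨ns, fs, M', e1, ?_, ?_, ?_, ?_⟩
  · have a1 : (1 ::ₘ b ::ₘ g ::ₘ ({y} : Multiset ℝ)) + M = 1 ::ₘ b ::ₘ g ::ₘ y ::ₘ M := by
      simp only [← Multiset.singleton_add]
      abel
    have a2 : (1 ::ₘ b ::ₘ g ::ₘ ({y} : Multiset ℝ)) + (Multiset.replicate m 0 + M')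
        = Multiset.replicate m 0 + (1 ::ₘ b ::ₘ g ::ₘ y ::ₘ M') := by
      simp only [← Multiset.singleton_add]
      abel
    rw [a1, a2, FM_zero_add] at e2
    exact e2
  · rw [e4]; ring
  · rw [e3 _ p1, p2]; ring
  · have h1 := e3 _ o1
    rw [o2, mul_zero, zero_add] at h1
    rw [← h1]
    unfold Om
    refine Multiset.sum_map_le_sum_map _ _ ?_
    intro u hu
    have := r6 (kR ks) 0 hK.inc u (hM u hu).1 (hM u hu).2
    have o0 : omg 0 = 0 := by unfold omg; norm_num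
    rw [o0] at this
    exact this

end RCM

/-- REDUCTION of a configuration, with the sums of the rests. -/
theorem specRC' (g1 : SpecG1) (r6 : SpecR6) (r7 : SpecR7) (r8 : SpecR8) (bj bk : Bool)
    (m tl TCj TCk H0 T0 sm : ℕ) (ksj Psj ksk Psk : List ℕ) (m' h t g x y z : ℝ) (Mi Mj Mk : Multiset ℝ)
    (Gj Gk : ℝ) (hC : Cfg bj bk m' h t g x y z Mi Mj Mk Gj Gk) (hKj : KnP H0 sm ksj Psj)
    (hKk : KnP T0 sm ksk Psk) (hH : (H0 : ℝ) / 200 ≤ h) (hT : (T0 : ℝ) / 200 ≤ t) (hxs : x ≤ (sm : ℝ) / 200)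
    (hs : ∀ s : ℝ, 0 ≤ s → s ≤ m' → s ≤ Mi.sum → s ≤ (sm : ℝ) / 200) (hm : ∀ e ∈ Mi, e ≤ (m : ℝ) / 200)
    (htl : (tl : ℝ) / 200 ≤ x + Mi.sum) (hti : h + t + x + Mi.sum ≤ 37 / 5)
    (htj : h + g + y + Mj.sum ≤ (TCj : ℝ) / 200) (htk : t + g + z + Mk.sum ≤ (TCk : ℝ) / 200)
    (hTj : TCj ≤ 1480) (hTk : TCk ≤ 1480) :
    y ≤ top 0 (kR ksj) ∧ z ≤ top 0 (kR ksk) ∧ ∃ nj fj Mj' nk fk Mk', Mj'.sum = Mj.sum ∧ Mk'.sum = Mk.sum ∧
      RC bj bk m tl TCj TCk ksj Psj ksk Psk h t g x y z Mi nj fj Mj' nk fk Mk' Gj Gk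
        (What (h + g + y + Mj.sum)) (What (t + g + z + Mk.sum)) := by
  have t0 := hC.t0
  have h01 : 0 ≤ h ∧ h ≤ 1 := ⟨by linarith [hC.th], hC.h1⟩
  have t01 : 0 ≤ t ∧ t ≤ 1 := ⟨by linarith, hC.th.trans hC.h1⟩
  have m0 := hC.m0
  have hcy : y ≤ top 0 (kR ksj) :=
    RCM.cap g1 hKj hH h01.2 hC.x01.1 hC.x01.2 hxs hC.y01.1 hC.y01.2 hC.triy
  have hcz : z ≤ top 0 (kR ksk) :=
    RCM.cap g1 hKk hT t01.2 hC.x01.1 hC.x01.2 hxs hC.z01.1 hC.z01.2 hC.triz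
  have hMj : ∀ u ∈ Mj, 0 ≤ u ∧ u ≤ top 0 (kR ksj) := by
    intro u hu
    obtain ⟨u0, u1, s, s0, s1, s2, ht⟩ := hC.rj u hu
    exact ⟨u0, RCM.cap g1 hKj hH h01.2 s0 (by linarith) (hs s s0 s1 s2) u0 u1 ht⟩
  have hMk : ∀ u ∈ Mk, 0 ≤ u ∧ u ≤ top 0 (kR ksk) := by
    intro u hu
    obtain ⟨u0, u1, s, s0, s1, s2, ht⟩ := hC.rk u hu
    exact ⟨u0, RCM.cap g1 hKk hT t01.2 s0 (by linarith) (hs s s0 s1 s2) u0 u1 ht⟩
  have hpj : (Mj.map (prF ksj Psj)).sum ≤ Mi.sum := hC.pj _ (by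
    intro s u s0 s1 s2 u0 u1 ht
    exact RCM.price g1 r8 hKj hH h01.2 s0 (by linarith) (hs s s0 s1 s2) u0 u1 ht)
  have hpk : (Mk.map (prF ksk Psk)).sum ≤ Mi.sum := hC.pk _ (by
    intro s u s0 s1 s2 u0 u1 ht
    exact RCM.price g1 r8 hKk hT t01.2 s0 (by linarith) (hs s s0 s1 s2) u0 u1 ht)
  obtain ⟨nj, fj, Mj', a1, a2, a3, a4, a5⟩ := RCM.row r6 r7 hKj h01 hC.g01 hC.y01 Mj hMj
  obtain ⟨nk, fk, Mk', b1, b2, b3, b4, b5⟩ := RCM.row r6 r7 hKk t01 hC.g01 hC.z01 Mk hMk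
  have hMj0 : 0 ≤ Mj.sum := Multiset.sum_nonneg fun u hu => (hMj u hu).1
  have hMk0 : 0 ≤ Mk.sum := Multiset.sum_nonneg fun u hu => (hMk u hu).1
  have hTj' : (TCj : ℝ) / 200 ≤ 37 / 5 := by
    have : (TCj : ℝ) ≤ 1480 := by exact_mod_cast hTj
    linarith
  have hTk' : (TCk : ℝ) / 200 ≤ 37 / 5 := by
    have : (TCk : ℝ) ≤ 1480 := by exact_mod_cast hTk
    linarith
  have hg0 := hC.g01.1
  have hy0 := hC.y01.1
  have hz0 := hC.z01.1
  refine ⟨hcy, hcz, nj, fj, Mj', nk, fk, Mk', a3, b3, ?_⟩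
  refine
    { th := hC.th
      x0 := hC.x01.1
      ri := fun e he => ⟨(hC.ri e he).1, hm e he⟩
      redj := a1
      redk := b1
      tl := htl
      totj := by rw [a3]; exact htj
      totk := by rw [b3]; exact htk
      prj := by rw [a4]; exact hpj
      prk := by rw [b4]; exact hpk
      pry := RCM.price g1 r8 hKj hH h01.2 hC.x01.1 hC.x01.2 hxs hC.y01.1 hC.y01.2 hC.triy
      prz := RCM.price g1 r8 hKk hT t01.2 hC.x01.1 hC.x01.2 hxs hC.z01.1 hC.z01.2 hC.triz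
      di := hC.di
      toti := hti
      nr := by
        have := hC.nr
        linarith
      gj := ?_
      gk := ?_
      wj := by
        rw [a3]
        exact Wc_le_What _ (by linarith [hC.th]) (by linarith)
      wk := by
        rw [b3]
        exact Wc_le_What _ (by linarith) (by linarith)
      cj := ?_
      ck := ?_
      payj := ?_
      payk := ?_
      pay2 := ?_ }
  · have := hC.cj
    cases bj with
    | true =>
      simp only [if_true] at this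
      exact (this.2.trans a2).trans (le_max_left _ _)
    | false =>
      simp only [Bool.false_eq_true, if_false] at this
      refine this.2.trans (max_le_max a2 ?_)
      norm_num [cF]
  · have := hC.ck
    cases bk with
    | true =>
      simp only [if_true] at this
      exact (this.2.trans b2).trans (le_max_left _ _)
    | false =>
      simp only [Bool.false_eq_true, if_false] at this
      refine this.2.trans (max_le_max b2 ?_)
      norm_num [cF]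
  · have := hC.cj
    split_ifs at this ⊢ with hb
    · exact this.1
    · exact this.1
  · have := hC.ck
    split_ifs at this ⊢ with hb
    · exact this.1
    · exact this.1
  · intro hb
    have := hC.payj hb
    rw [neg_sub]
    exact this
  · intro hb
    have := hC.payk hb
    rw [neg_sub]
    exact this
  · intro hb1 hb2
    have := hC.pay2 hb1 hb2
    rw [neg_sub, neg_sub]
    exact this

/-- **RC.** -/
theorem specRC (g1 : SpecG1) (r6 : SpecR6) (r7 : SpecR7) (r8 : SpecR8) : SpecRC := by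
  intro bj bk m tl TCj TCk H0 T0 sm ksj Psj ksk Psk m' h t g x y z Mi Mj Mk Gj Gk hC hKj hKk hH hT hxs
    hs hm htl hti htj htk hTj hTk
  obtain ⟨c1, c2, nj, fj, Mj', nk, fk, Mk', -, -, c3⟩ := specRC' g1 r6 r7 r8 bj bk m tl TCj TCk H0 T0 sm ksj
    Psj ksk Psk m' h t g x y z Mi Mj Mk Gj Gk hC hKj hKk hH hT hxs hs hm htl hti htj htk hTj hTk
  exact ⟨c1, c2, nj, fj, Mj', nk, fk, Mk', c3⟩

end B1
end Pool.Agent.Lib.MP_6947cd_al
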