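import Pool.Agent.Lib.MP_6947cd_al.Y.PE
import Pool.Agent.Lib.MP_6947cd_al.Y.RCp

/-!
Problem MP_6947cd_al (Chollet).  CASE B, large second entry: REDUCTION of a problem to pairs of stages.
-/

set_option autoImplicit false
open Finset

namespace Pool.Agent.Lib.MP_6947cd_al

namespace Fr

open CholB.WM IA

/-- the threshold of a large total is at least `1` -/
theorem What_big (s : ℝ) (hs : 7 ≤ s) : 1 ≤ What s := by
  have hc : chk [.sub (.cst 1 1) (.mul (.cst 2 1) (.sub (.add (.sub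
    (.log (.div (.add (.cst 3 1) .x0) (.cst 4 1))) (.cst 577216 1000000))
    (.mul (.div (.cst 2 1) (.add (.cst 1 1) .x0)) (.log (.div (.add (.cst 3 1) .x0) (.cst 2 1)))))
    (.cst 304 1000000)))] (T.v 0) ⟨7696581394432, 7696581394432⟩ ⟨0, 0⟩ ⟨0, 0⟩ = true := by
    decide +kernel
  have h := chk1 _ _ _ hc 7 (by norm_num) (by norm_num)
  simp only [E.ev] at h
  push_cast at h
  simp only [div_one] at h
  have h2 := w0_mono (show (7 : ℝ) ∈ Set.Ici 0 by simp only [Set.mem_Ici]; norm_num)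
    (show s ∈ Set.Ici (0 : ℝ) by simp only [Set.mem_Ici]; linarith) hs
  have h3 : 0 ≤ Real.log ((8 / 9 + s) / (1 + s)) + (1 / 9) / (8 / 9 + s) := by
    have h11 := Real.one_sub_inv_le_log_of_pos (show 0 < (8 / 9 + s) / (1 + s) by positivity)
    have h12 : 1 - ((8 / 9 + s) / (1 + s))⁻¹ = -((1 / 9) / (8 / 9 + s)) := by
      rw [inv_div]
      field_simp
      ring
    rw [h12] at h11
    linarith
  have h4 : w0 7 = Real.log ((3 + 7) / 4) - 577216 / 1000000 + 2 / (1 + 7) * Real.log ((3 + 7) / 2) := rfl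
  have h5 := What_six s (by linarith)
  unfold W6 at h5
  linarith

end Fr

namespace B1

open Ent Ent.Pk Fr Fr.WT PkA

namespace StgM

lemma top_nat : ∀ (ks : List ℕ) (a : ℝ), ks ≠ [] → top a (kR ks) = (topN ks : ℝ) / 200 := by
  intro ks
  induction ks with
  | nil => intro a h; exact absurd rfl h
  | cons k ks ih =>
    intro a _
    have e : top a (kR (k :: ks)) = top ((k : ℝ) / 200) (kR ks) := rfl
    rw [e]
    cases ks with
    | nil => simp [kR, top, topN]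
    | cons k' ks' =>
      rw [ih _ (by simp)]
      simp [topN]

lemma yval_top {ks : List ℕ} (h : ks ≠ []) : yval ks ks.length = topN ks := by
  cases ks with
  | nil => exact absurd rfl h
  | cons k ks => simp [yval, topN]

lemma chS_sound (e : ℕ) : ∀ (L : List Stg) (a : ℕ) (τ : ℝ), chS e a L = true → (a : ℝ) / 200 < τ →
    τ ≤ (e : ℝ) / 200 → ∃ s ∈ L, (s.TL : ℝ) / 200 ≤ τ ∧ τ ≤ (s.TC : ℝ) / 200 := by
  intro L
  induction L with
  | nil =>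
    intro a τ h h1 h2
    have h3 : (e : ℝ) ≤ a := by exact_mod_cast Nat.le_of_ble_eq_true h
    linarith
  | cons s L ih =>
    intro a τ h h1 h2
    have h' : (Nat.ble s.TL a && chS e s.TC L) = true := h
    rw [Bool.and_eq_true] at h'
    have h3 : (s.TL : ℝ) ≤ a := by exact_mod_cast Nat.le_of_ble_eq_true h'.1
    rcases le_or_gt τ ((s.TC : ℝ) / 200) with h4 | h4
    · exact ⟨s, List.mem_cons_self, by linarith, h4⟩
    · obtain ⟨s', hs', h5⟩ := ih s.TC τ h'.2 h4 h2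
      exact ⟨s', List.mem_cons_of_mem _ hs', h5⟩

/-- the facts about the row `i` -/
structure XF (X : ℕ) (m x y z S : ℝ) : Prop where
  tl : (tlX X : ℝ) / 200 ≤ x + S
  x0 : (x0X X : ℝ) / 200 ≤ x
  x1 : x ≤ (x1X X : ℝ) / 200
  s0 : (s0X X : ℝ) / 200 ≤ S
  s2 : S ≤ (s2X X : ℝ) / 200
  xm : x ≤ (mX X : ℝ) / 200
  sm : ∀ s : ℝ, 0 ≤ s → s ≤ m → s ≤ S → s ≤ (mX X : ℝ) / 200
  yz : X < 2 → y = 0 ∧ z = 0

lemma xf {X : ℕ} {m x y z S : ℝ} (h : XR X m x y z S) (hS : 0 ≤ S) (hx : 0 ≤ x) (hT : x + S ≤ 160 / 200) :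
    XF X m x y z S := by
  rcases h with ⟨rfl, rfl, rfl, rfl, rfl, h1⟩ | ⟨rfl, rfl, rfl, rfl, rfl, h1, h2⟩ | ⟨rfl, rfl, h1, h2⟩ |
    ⟨rfl, rfl, h1, h2, h3⟩ | ⟨rfl, rfl, h1, h2, h3⟩
  · refine ⟨?_, ?_, ?_, ?_, ?_, ?_, ?_, ?_⟩
    · simp [tlX]; linarith
    · simp [x0X]
    · simp [x1X]
    · simp [s0X]; linarith
    · simp [s2X]; linarith
    · norm_num [mX]
    · intro s _ _ h4
      simp [mX]; linarith
    · intro _; exact ⟨rfl, rfl⟩
  · refine ⟨?_, ?_, ?_, ?_, ?_, ?_, ?_, ?_⟩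
    · simp [tlX]; linarith
    · simp [x0X]
    · simp [x1X]
    · simp [s0X]; linarith
    · simp [s2X]; linarith
    · norm_num [mX]
    · intro s _ _ h4
      simp [mX]; linarith
    · intro _; exact ⟨rfl, rfl⟩
  · refine ⟨?_, ?_, ?_, ?_, ?_, ?_, ?_, ?_⟩
    · simp [tlX]; linarith
    · simp [x0X]; linarith
    · simp [x1X]; linarith
    · simp [s0X]; linarith
    · simp [s2X]; linarith
    · simp [mX]; linarith
    · intro s _ h4 _
      simp [mX]; linarith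
    · intro h4; exact absurd h4 (by norm_num)
  · refine ⟨?_, ?_, ?_, ?_, ?_, ?_, ?_, ?_⟩
    · simp [tlX]; linarith
    · simp [x0X]; linarith
    · simp [x1X]; linarith
    · simp [s0X]; linarith
    · simp [s2X]; linarith
    · simp [mX]; linarith
    · intro s _ h4 _
      simp [mX]; linarith
    · intro h4; exact absurd h4 (by norm_num)
  · refine ⟨?_, ?_, ?_, ?_, ?_, ?_, ?_, ?_⟩
    · simp [tlX]; linarith
    · simp [x0X]; linarith
    · simp [x1X]; linarith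
    · simp [s0X]; linarith
    · simp [s2X]; linarith
    · simp [mX]; linarith
    · intro s _ h4 _
      simp [mX]; linarith
    · intro h4; exact absurd h4 (by norm_num)

/-- the position of a reduced row -/
lemma rootRow (hS2 : SpecS2) {X b0 b1 g0 g1 TL TC u : ℕ} {ks : List ℕ} (hk : KnOK ks) (hne : ks ≠ [])
    (hu : TL = 0 ∨ u = 1) {b g y : ℝ} {M M' : Multiset ℝ} {ns : List ℕ} {fs : List Bool}
    (hb1 : (b0 : ℝ) / 200 ≤ b) (hb2 : b ≤ (b1 : ℝ) / 200) (hg1 : (g0 : ℝ) / 200 ≤ g) (hg2 : g ≤ (g1 : ℝ) / 200)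
    (hy0 : 0 ≤ y) (hy : y ≤ top 0 (kR ks)) (hyX : X < 2 → y = 0)
    (h1 : (TL : ℝ) / 200 ≤ b + g + y + M.sum) (h2 : b + g + y + M.sum ≤ (TC : ℝ) / 200)
    (hred : Red 0 (kR ks) ns fs M') (hsum : M'.sum = M.sum) :
    (yval ks 0 : ℝ) / 200 ≤ y ∧ y ≤ (yval ks (yR X ks) : ℝ) / 200 ∧
    J0R X TL b1 g1 ks ≤ Pk.dotN ns ks + u * uppN ks fs ∧ Pk.dotN ns ks ≤ J1R TC b0 g0 := by
  obtain ⟨q1, q2, q3, q4, q5⟩ := hS2 (kR ks) 0 ns fs M' le_rfl hk hred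
  rw [top_nat ks 0 hne] at hy
  have d1 := dotR_nat ns ks 200
  have l1 := lowS_nat 200 ks 0 fs
  have l2 := uppS_nat 200 ks fs
  simp only [Nat.cast_zero, zero_div] at l1
  have q1' : (Pk.dotN ns ks : ℝ) / 200 + (lowN 0 ks fs : ℝ) / 200 ≤ M'.sum := by
    rw [← l1, ← d1]; exact q1
  have q2' : M'.sum ≤ (Pk.dotN ns ks : ℝ) / 200 + (uppN ks fs : ℝ) / 200 := by
    rw [← l2, ← d1]; exact q2
  have hl0 : (0 : ℝ) ≤ lowN 0 ks fs := Nat.cast_nonneg _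
  refine ⟨?_, ?_, ?_, ?_⟩
  · have : yval ks 0 = 0 := by simp [yval]
    rw [this]
    simpa using hy0
  · unfold yR
    split_ifs with hX
    · have : yval ks 0 = 0 := by simp [yval]
      rw [this, hyX hX]
      simp
    · rw [yval_top hne]
      exact hy
  · rcases hu with hu | hu
    · rw [hu]
      unfold J0R
      omega
    · rw [hu, one_mul]
      have hyt : y ≤ ((if X < 2 then 0 else topN ks : ℕ) : ℝ) / 200 := by
        split_ifs with hX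
        · rw [hyX hX]; simp
        · exact hy
      have h3 : (TL : ℝ) ≤ (b1 : ℝ) + g1 + ((if X < 2 then 0 else topN ks : ℕ) : ℝ) + Pk.dotN ns ks + uppN ks fs := by
        rw [hsum] at q2'
        linarith
      have h4 : TL ≤ b1 + g1 + (if X < 2 then 0 else topN ks) + Pk.dotN ns ks + uppN ks fs := by
        exact_mod_cast h3
      unfold J0R
      omega
  · have h3 : (Pk.dotN ns ks : ℝ) + b0 + g0 ≤ TC := by
      rw [hsum] at q1'
      linarith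
    have h4 : Pk.dotN ns ks + b0 + g0 ≤ TC := by exact_mod_cast h3
    unfold J1R
    omega

/-- data of a row -/
structure RowD (X b0 b1 g0 g1 : ℕ) (bad : Bool) (m b g x y S : ℝ) (M : Multiset ℝ) (G : ℝ) : Prop where
  b0 : (b0 : ℝ) / 200 ≤ b
  b1 : b ≤ (b1 : ℝ) / 200
  bl : 17 / 20 ≤ b
  bu : b ≤ 1
  g0 : (g0 : ℝ) / 200 ≤ g
  g1 : g ≤ (g1 : ℝ) / 200
  gu : 0 ≤ g ∧ g ≤ 1
  x0 : 0 ≤ x
  x1 : x ≤ 3 / 10
  xm : x ≤ (mX X : ℝ) / 200
  y01 : 0 ≤ y ∧ y ≤ 1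
  yX : X < 2 → y = 0
  m1 : m ≤ 3 / 10
  sm : ∀ s : ℝ, 0 ≤ s → s ≤ m → s ≤ S → s ≤ (mX X : ℝ) / 200
  tri : Tri b x y
  r : ∀ u ∈ M, 0 ≤ u ∧ u ≤ 1 ∧ ∃ s, 0 ≤ s ∧ s ≤ m ∧ s ≤ S ∧ Tri b s u
  p : ∀ φ : ℝ → ℝ, (∀ s u, 0 ≤ s → s ≤ m → s ≤ S → 0 ≤ u → u ≤ 1 → Tri b s u → φ u ≤ s) →
    (M.map φ).sum ≤ S
  c : if bad = true then 0 < G - What (b + g + y + M.sum) ∧ G ≤ FM (1 ::ₘ b ::ₘ g ::ₘ y ::ₘ M)
    else G - What (b + g + y + M.sum) ≤ 0 ∧ G ≤ max (FM (1 ::ₘ b ::ₘ g ::ₘ y ::ₘ M)) (1 / 2)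

lemma RowD.capM (g1 : SpecG1) {X b0 b1 g0' g1' : ℕ} {bad : Bool} {m b g x y S : ℝ} {M : Multiset ℝ} {G : ℝ}
    (d : RowD X b0 b1 g0' g1' bad m b g x y S M G) {ks Ps : List ℕ} (hK : KnP b0 (mX X) ks Ps) :
    (∀ u ∈ M, 0 ≤ u ∧ u ≤ top 0 (kR ks)) ∧ y ≤ top 0 (kR ks) := by
  refine ⟨?_, RCM.cap g1 hK d.b0 d.bu d.x0 d.x1 d.xm d.y01.1 d.y01.2 d.tri⟩
  intro u hu
  obtain ⟨u0, u1, s, s0, s1, s2, ht⟩ := d.r u hu
  exact ⟨u0, RCM.cap g1 hK d.b0 d.bu s0 (s1.trans d.m1) (d.sm s s0 s1 s2) u0 u1 ht⟩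

/-- the total of a row is in a stage -/
lemma row_stage (g1s : SpecG1)
    {A X b0 b1 g0 g1 kb db ot : ℕ} {bad : Bool} {L : List Stg} (hb170 : 170 ≤ b0) (hL : L ≠ [])
    (hLok : ∀ s ∈ L, s.OK A b0 b1 g0 g1 (cF bad) (mX X))
    (hch : chS 1480 0 L = true) (hkb : ∀ s ∈ L, topN s.e.ks ≤ kb)
    (hT : SpecT ((kb : ℝ) / 200) ((db : ℝ) / 10 ^ 7)) (hdb : db ≤ 5000000)
    {m b g x y S : ℝ} {M : Multiset ℝ} {G : ℝ}
    (d : RowD X b0 b1 g0 g1 bad m b g x y S M G) {D R : ℝ} (hD : 0 < D) (hR0 : 0 ≤ R)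
    (hR : R ≤ (ot : ℝ) / 200 + x + S)
    (htail : bad = false → ∃ Dh : ℝ, D ≤ Dh ∧ Dh * (4 * ((b0 : ℝ) / 200) - ((b0 : ℝ) / 200) ^ 2)
        + 4 * ((ot : ℝ) / 200 + x + S) * max Dh (1 / 1000) ≤ 3 * ((b0 : ℝ) / 200) ^ 2 * ((db : ℝ) / 10 ^ 7))
    (hpay : bad = false → 3 * b ^ 2 * (What (b + g + y + M.sum) - G) < need D b R) :
    ∃ s ∈ L, (s.TL : ℝ) / 200 ≤ b + g + y + M.sum ∧ b + g + y + M.sum ≤ (s.TC : ℝ) / 200 := by
  obtain ⟨s0, hs0⟩ : ∃ s0, s0 ∈ L := by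
    cases L with
    | nil => exact absurd rfl hL
    | cons s L => exact ⟨s, List.mem_cons_self⟩
  obtain ⟨c1, c2⟩ := d.capM g1s (hLok s0 hs0).kn
  have hM0 : 0 ≤ M.sum := Multiset.sum_nonneg fun u hu => (c1 u hu).1
  have hτ0 : 0 < b + g + y + M.sum := by linarith [d.bl, d.gu.1, d.y01.1]
  have htop : top 0 (kR s0.e.ks) ≤ (kb : ℝ) / 200 := by
    rw [top_nat _ _ (hLok s0 hs0).kn.ne]
    have : (topN s0.e.ks : ℝ) ≤ kb := by exact_mod_cast hkb s0 hs0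
    linarith
  have hdb' : (db : ℝ) / 10 ^ 7 ≤ 1 / 2 := by
    have : (db : ℝ) ≤ 5000000 := by exact_mod_cast hdb
    linarith
  have hdb0 : 0 ≤ (db : ℝ) / 10 ^ 7 := by positivity
  have hTl : 37 / 5 ≤ b + g + y + M.sum →
      FM (1 ::ₘ b ::ₘ g ::ₘ y ::ₘ M) ≤ What (b + g + y + M.sum) - (db : ℝ) / 10 ^ 7 := by
    intro h
    have := hT b g (y ::ₘ M) (by linarith [d.bl]) d.bu d.gu.1 d.gu.2 (by
      intro e he
      rcases Multiset.mem_cons.1 he with rfl | he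
      · exact ⟨d.y01.1, c2.trans htop⟩
      · exact ⟨(c1 e he).1, (c1 e he).2.trans htop⟩) (by rw [Multiset.sum_cons]; linarith)
    rw [Multiset.sum_cons, ← add_assoc] at this
    exact this
  rcases le_or_gt (b + g + y + M.sum) (37 / 5) with h | h
  · exact chS_sound 1480 L 0 _ hch (by simpa using hτ0) (by push_cast; linarith)
  exfalso
  have hc := d.c
  cases bad with
  | false =>
    simp only [Bool.false_eq_true, if_false] at hc
    obtain ⟨Dh, hDh, hDe⟩ := htail rfl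
    have hW := What_big (b + g + y + M.sum) (by linarith)
    have hG : G + (db : ℝ) / 10 ^ 7 ≤ What (b + g + y + M.sum) := by
      have h3 := hTl h.le
      have h4 : max (FM (1 ::ₘ b ::ₘ g ::ₘ y ::ₘ M)) (1 / 2) ≤ What (b + g + y + M.sum) - (db : ℝ) / 10 ^ 7 :=
        max_le h3 (by linarith)
      linarith [hc.2]
    have hb0' : (0 : ℝ) < (b0 : ℝ) / 200 := by
      have : (170 : ℝ) ≤ b0 := by exact_mod_cast hb170
      linarith
    refine payer_contra hb0' d.b0 d.bu hD hDh hR0 hR hDe hG ?_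
    have := hpay rfl
    rw [neg_sub]
    exact this
  | true =>
    simp only [if_true] at hc
    linarith [hTl h.le, hc.1, hc.2]

end StgM

open StgM in
/-- **Stg.** -/
theorem specStg (g1s : SpecG1) (r6 : SpecR6) (r8 : SpecR8) (hS : SpS) : SpecStg := by
  intro A O bj bk X H0 H1 T0 T1 G0 G1 kj kk dj dk cI Lj Lk hA hO hX hT170 hTH hH01 hH1 hT01 hT1 hG01 hG1
    hLj hLk hLjo hLko hcj hck hkj hkk hSTj hSTk hdj hdk hBig htj htk hNo
    m h t g x y z Mi Mj Mk Gj Gk hXR hxS hh0 hh1 ht0 ht1 hg0 hg1 hC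
  have hri : ∀ e ∈ Mi, 0 ≤ e := fun e he => (hC.ri e he).1
  have hS0 : 0 ≤ Mi.sum := Multiset.sum_nonneg hri
  have F := xf hXR hS0 hC.x01.1 hxS
  have hHi : ∀ e ∈ Mi, e ≤ (mX X : ℝ) / 200 := fun e he =>
    F.sm e (hC.ri e he).1 (hC.ri e he).2 (Multiset.single_le_sum hri e he)
  have hh17 : 17 / 20 ≤ h := hC.t0.trans hC.th
  have ht1' : t ≤ 1 := hC.th.trans hC.h1
  have hti : h + t + x + Mi.sum ≤ 37 / 5 := by
    have := hC.h1
    linarith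
  have hx0 := hC.x01.1
  have hriX : ∀ e ∈ Mi, 0 ≤ e ∧ e ≤ (mX X : ℝ) / 200 := fun e he => ⟨hri e he, hHi e he⟩
  have hs1 : Mi.sum ≤ (s1X X : ℝ) / 200 := by
    rcases le_or_gt Mi.sum ((s1X X : ℝ) / 200) with h9 | h9
    · exact h9
    · have h10 := hBig h t x Mi hh0 hh1 ht0 ht1 F.x0 F.x1 hriX h9 F.s2 hti
      linarith [hC.di]
  have dJ : RowD X H0 H1 G0 G1 bj m h g x y Mi.sum Mj Gj :=
    { b0 := hh0, b1 := hh1, bl := hh17, bu := hC.h1, g0 := hg0, g1 := hg1, gu := hC.g01, x0 := hC.x01.1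
      x1 := hC.x01.2, xm := F.xm, y01 := hC.y01, yX := fun h => (F.yz h).1, m1 := hC.m0, sm := F.sm
      tri := hC.triy, r := hC.rj, p := hC.pj, c := hC.cj }
  have dK : RowD X T0 T1 G0 G1 bk m t g x z Mi.sum Mk Gk :=
    { b0 := ht0, b1 := ht1, bl := hC.t0, bu := ht1', g0 := hg0, g1 := hg1, gu := hC.g01, x0 := hC.x01.1
      x1 := hC.x01.2, xm := F.xm, y01 := hC.z01, yX := fun h => (F.yz h).2, m1 := hC.m0, sm := F.sm
      tri := hC.triz, r := hC.rk, p := hC.pk, c := hC.ck }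
  obtain ⟨sj, hsj, j1, j2⟩ := row_stage g1s (ot := bif bk then T1 else 0)
    (hT170.trans hTH) hLj hLjo hcj hkj hSTj hdj dJ hC.di
    (R := (if bk = true then t else 0) + x + Mi.sum) (by
      have : 0 ≤ (if bk = true then t else 0) := by split_ifs <;> linarith [hC.t0]
      linarith) (by
      cases bk with
      | true => simp only [if_true, cond_true]; linarith
      | false => simp) (fun hb => htj hb h t x Mi hh0 hh1 ht0 ht1 F.x0 F.x1 hriX F.s0 hs1 hti hC.di) hC.payj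
  obtain ⟨sk, hsk, k1, k2⟩ := row_stage g1s (ot := bif bj then H1 else 0)
    hT170 hLk hLko hck hkk hSTk hdk dK hC.di
    (R := (if bj = true then h else 0) + x + Mi.sum) (by
      have : 0 ≤ (if bj = true then h else 0) := by split_ifs <;> linarith
      linarith) (by
      cases bj with
      | true => simp only [if_true, cond_true]; linarith
      | false => simp) (fun hb => htk hb h t x Mi hh0 hh1 ht0 ht1 F.x0 F.x1 hriX F.s0 hs1 hti hC.di) hC.payk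
  have okj := hLjo sj hsj
  have okk := hLko sk hsk
  obtain ⟨cy, cz, nj, fj', Mj', nk, fk', Mk', sj', sk', hRC⟩ := specRC' g1s r6 hS.r7 r8 bj bk (mX X) (tlX X) sj.TC sk.TC
    H0 T0 (mX X) sj.e.ks sj.e.Ps sk.e.ks sk.e.Ps m h t g x y z Mi Mj Mk Gj Gk hC okj.kn okk.kn hh0 ht0 F.xm F.sm
    hHi F.tl hti j2 k2 okj.TC okk.TC
  obtain ⟨rj1, rj2, rj3, rj4⟩ := rootRow hS.s2 (X := X) okj.kn.inc okj.kn.ne okj.u hh0 hh1 hg0 hg1 hC.y01.1 cy
    (fun h => (F.yz h).1) j1 j2 hRC.redj sj'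
  obtain ⟨rk1, rk2, rk3, rk4⟩ := rootRow hS.s2 (X := X) okk.kn.inc okk.kn.ne okk.u ht0 ht1 hg0 hg1 hC.z01.1 cz
    (fun h => (F.yz h).2) k1 k2 hRC.redk sk'
  refine hNo sj hsj sk hsk h t g x y z Mi nj fj' Mj' nk fk' Mk' Gj Gk _ _ hRC
    ⟨hh0, hh1, ht0, ht1, hg0, hg1, F.x0, F.x1⟩ ?_
  exact ⟨F.s0, hs1, rj1, rj2, rk1, rk2, rj3, rj4, rk3, rk4⟩

end B1
end Pool.Agent.Lib.MP_6947cd_al
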