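import Pool.Agent.Lib.MP_6947cd_al.Y.Box
import Pool.Agent.Lib.MP_6947cd_al.Y.Stg
import Pool.Agent.Lib.MP_6947cd_al.Y.R1
import Pool.Agent.Lib.MP_6947cd_al.Y.R4
import Pool.Agent.Lib.MP_6947cd_al.Y.S1
import Pool.Agent.Lib.MP_6947cd_al.Y.S4
import Pool.Agent.Lib.MP_6947cd_al.Y.S5
import Pool.Agent.Lib.MP_6947cd_al.Y.S6
import Pool.Agent.Lib.MP_6947cd_al.Y.G
import Pool.Agent.Lib.MP_6947cd_al.Y.T

/-!
Problem MP_6947cd_al (Chollet).  CASE B, large second entry: everything which does not depend on data.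
-/

set_option autoImplicit false
open Finset

namespace Pool.Agent.Lib.MP_6947cd_al
namespace B1

open Ent Ent.Pk Fr Fr.WT PkA

theorem spS : SpS := ⟨specS2, specS3, specS4, specS5, specS6, specR7⟩

theorem spR : SpR := ⟨specR1, specR2, specR3, specR4, specR5⟩

theorem spAll : SpAll := ⟨spR, spS, specS1⟩

theorem stgAll : SpecStg := specStg specG1 specR6 (specR8 specG1) spS

theorem t3All : SpT3 := by
  refine ⟨?_, ?_, ?_⟩
  · have e1 : (3 / 10 : ℝ) = ((60 : ℕ) : ℝ) / 200 := by norm_num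
    have e2 : (1 / 4 : ℝ) = ((2500000 : ℕ) : ℝ) / 10 ^ 7 := by norm_num
    rw [← e1, ← e2]
    exact specT30
  · have e1 : (51 / 100 : ℝ) = ((102 : ℕ) : ℝ) / 200 := by norm_num
    have e2 : (47 / 200 : ℝ) = ((2350000 : ℕ) : ℝ) / 10 ^ 7 := by norm_num
    rw [← e1, ← e2]
    exact specT51
  · have e1 : (7 / 10 : ℝ) = ((140 : ℕ) : ℝ) / 200 := by norm_num
    have e2 : (41 / 200 : ℝ) = ((2050000 : ℕ) : ℝ) / 10 ^ 7 := by norm_num
    rw [← e1, ← e2]
    exact specT70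

/-- THE PROBLEMS OF A BOX AND A TYPE from the kernel check. -/
theorem probC {A O X H0 H1 T0 T1 G0 G1 : ℕ} {B : BX} (hB : B.OK X H0 H1 T0 T1 G0 G1)
    (h : boxC A O X H0 H1 T0 T1 G0 G1 B = true) (bj bk : Bool) : Prob bj bk H0 H1 T0 T1 G0 G1 X :=
  boxC_sound spAll stgAll t3All hB h bj bk

end B1
end Pool.Agent.Lib.MP_6947cd_al
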