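import Pool.Agent.Lib.MP_6947cd_al.Y.Tab

/-!
Problem MP_6947cd_al (Chollet).  PACKED CHECK of all the cells of a row.
-/

set_option autoImplicit false
open Finset

namespace Pool.Agent.Lib.MP_6947cd_al
namespace PkA

open Ent Ent.Pk Fr Fr.WT B1

/-! ### counting tables -/

/-- counting tables: digit `i` of the table `a` is the digit `a` of the index `i` -/
structure CntOK (rd Ns : List ℕ) : Prop where
  lt : ∀ X ∈ Ns, X < 2 ^ (64 * prd rd)
  dgs : ∀ i < prd rd, (Ns.map fun X => dg X i) = CA.dig rd i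

/-- comparison of the digits -/
noncomputable def eqL (Ns : List ℕ) (i : ℕ) : List ℕ → Bool :=
  @List.rec ℕ (fun _ => List ℕ → Bool)
    (fun ns => @List.rec ℕ (fun _ => Bool) true (fun _ _ _ => false) ns)
    (fun X _ ih ns => @List.rec ℕ (fun _ => Bool) false
      (fun n ns' _ => cond (Nat.beq (dg X i) n) (ih ns') false) ns) Ns

noncomputable def cntL (rd Ns : List ℕ) (f : ℕ) : ℕ → Bool :=
  @Nat.rec (fun _ => ℕ → Bool) (fun _ => true)
    (fun _ ih i => cond (CA.digC rd i fun ns => eqL Ns i ns) (frc (Nat.succ i) fun i' => ih i') false) f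

noncomputable def szL (n : ℕ) (Ns : List ℕ) : Bool :=
  @List.rec ℕ (fun _ => Bool) true (fun X _ ih => cond (Nat.beq (Nat.shiftRight X n) (nat_lit 0)) ih false) Ns

lemma eqL_sound (Ns : List ℕ) (i : ℕ) : ∀ ns, eqL Ns i ns = true → (Ns.map fun X => dg X i) = ns := by
  induction Ns with
  | nil =>
    intro ns h
    cases ns with
    | nil => rfl
    | cons n ns => exact absurd h (by simp [eqL])
  | cons X Ns ih =>
    intro ns h
    cases ns with
    | nil => exact absurd h (by simp [eqL])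
    | cons n ns =>
      have e : eqL (X :: Ns) i (n :: ns) = cond (Nat.beq (dg X i) n) (eqL Ns i ns) false := rfl
      rw [e] at h
      obtain ⟨h1, h2⟩ := cond_eq_true h
      rw [List.map_cons, ih ns h2, Nat.eq_of_beq_eq_true h1]

lemma cntL_sound (rd Ns : List ℕ) (f : ℕ) : ∀ i0, cntL rd Ns f i0 = true → ∀ i, i0 ≤ i → i < i0 + f →
    (Ns.map fun X => dg X i) = CA.dig rd i := by
  induction f with
  | zero => intro i0 _ i h1 h2; omega
  | succ f ih =>
    intro i0 h i h1 h2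
    have e : cntL rd Ns (f + 1) i0 = cond (CA.digC rd i0 fun ns => eqL Ns i0 ns)
      (frc (Nat.succ i0) fun i' => cntL rd Ns f i') false := rfl
    rw [e] at h
    obtain ⟨h3, h4⟩ := cond_eq_true h
    rw [frc_eq] at h4
    rw [CA.digC_eq] at h3
    rcases Nat.eq_or_lt_of_le h1 with rfl | hlt
    · exact eqL_sound _ _ _ h3
    · exact ih _ h4 i hlt (by omega)

lemma szL_sound (n : ℕ) (Ns : List ℕ) (h : szL n Ns = true) : ∀ X ∈ Ns, X < 2 ^ n := by
  induction Ns with
  | nil => intro X hX; exact absurd hX (by simp)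
  | cons Y Ns ih =>
    have e : szL n (Y :: Ns) = cond (Nat.beq (Nat.shiftRight Y n) (nat_lit 0)) (szL n Ns) false := rfl
    rw [e] at h
    obtain ⟨h1, h2⟩ := cond_eq_true h
    intro X hX
    rcases List.mem_cons.mp hX with rfl | hX
    · exact shift_zero h1
    · exact ih h2 X hX

/-- geometric series -/
def gm (r s : ℕ) : ℕ :=
  Nat.div (Nat.sub (Nat.shiftLeft (nat_lit 1) (Nat.mul (Nat.mul (nat_lit 64) s) r)) (nat_lit 1))
    (Nat.sub (Nat.shiftLeft (nat_lit 1) (Nat.mul (nat_lit 64) s)) (nat_lit 1))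

/-- counting series -/
noncomputable def cm (r s : ℕ) : ℕ :=
  @Nat.rec (fun _ => ℕ) (nat_lit 0)
    (fun n ih => Nat.add ih (Nat.shiftLeft n (Nat.mul (Nat.mul (nat_lit 64) s) n))) r

/-- the counting tables (as a program with continuation) -/
noncomputable def cntsC (rd : List ℕ) : ℕ → (List ℕ → Bool) → Bool :=
  @List.rec ℕ (fun _ => ℕ → (List ℕ → Bool) → Bool) (fun _ k => k [])
    (fun r rd' ih s k => frc (Nat.mul (Nat.mul (gm s (nat_lit 1)) (cm r s)) (gm (prd rd') (Nat.mul s r))) fun X =>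
      frc (Nat.mul s r) fun s' => ih s' fun l => k (X :: l)) rd

/-- the counting tables -/
noncomputable def cnts : List ℕ → ℕ → List ℕ
  | [], _ => []
  | r :: rd', s => Nat.mul (Nat.mul (gm s (nat_lit 1)) (cm r s)) (gm (prd rd') (Nat.mul s r))
      :: cnts rd' (Nat.mul s r)

lemma cntsC_eq (rd : List ℕ) : ∀ s k, cntsC rd s k = k (cnts rd s) := by
  induction rd with
  | nil => intro s k; rfl
  | cons r rd ih =>
    intro s k
    have e : cntsC (r :: rd) s k = frc (Nat.mul (Nat.mul (gm s (nat_lit 1)) (cm r s))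
      (gm (prd rd) (Nat.mul s r))) fun X => frc (Nat.mul s r) fun s' => cntsC rd s' fun l => k (X :: l) := rfl
    rw [e, frc_eq, frc_eq, ih]
    rfl

/-- the check of the counting tables -/
noncomputable def cntOKb (rd : List ℕ) : Bool :=
  frc (prd rd) fun N => cntsC rd (nat_lit 1) fun Ns => cond (szL (Nat.mul (nat_lit 64) N) Ns)
    (cntL rd Ns N (nat_lit 0)) false

theorem cntOK_sound (rd : List ℕ) (h : cntOKb rd = true) : CntOK rd (cnts rd 1) := by
  unfold cntOKb at h
  rw [frc_eq, cntsC_eq] at h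
  obtain ⟨h1, h2⟩ := cond_eq_true h
  exact ⟨szL_sound _ _ h1, fun i hi => cntL_sound _ _ _ _ h2 i (Nat.zero_le _) (by omega)⟩

/-! ### linear combinations of packed numbers -/

/-- linear combination -/
noncomputable def linC (cs : List ℕ) : List ℕ → ℕ :=
  @List.rec ℕ (fun _ => List ℕ → ℕ) (fun _ => nat_lit 0)
    (fun c _ ih Xs => @List.rec ℕ (fun _ => ℕ) (nat_lit 0)
      (fun X Xs' _ => Nat.add (Nat.mul c X) (ih Xs')) Xs) cs

lemma linC_eq (N : ℕ) (cs : List ℕ) : ∀ Xs : List ℕ, (∀ X ∈ Xs, X < 2 ^ (64 * N)) →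
    linC cs Xs = pk (fun i => Pk.dotN (Xs.map fun X => dg X i) cs) N := by
  induction cs with
  | nil =>
    intro Xs _
    have e : (fun i => Pk.dotN (Xs.map fun X => dg X i) []) = fun _ => 0 := by
      funext i
      cases Xs <;> rfl
    rw [e]
    show 0 = _
    unfold pk
    simp
  | cons c cs ih =>
    intro Xs hX
    cases Xs with
    | nil =>
      have e : (fun i => Pk.dotN (([] : List ℕ).map fun X => dg X i) (c :: cs)) = fun _ => 0 := rfl
      rw [e]
      show 0 = _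
      unfold pk
      simp
    | cons X Xs =>
      have e : linC (c :: cs) (X :: Xs) = c * X + linC cs Xs := rfl
      rw [e, ih Xs fun Y hY => hX Y (List.mem_cons_of_mem _ hY)]
      have e2 : c * X = pk (fun i => c * dg X i) N := by
        rw [← pk_mul, pk_dg N X (hX X List.mem_cons_self)]
      rw [e2, pk_add]
      refine pk_congr _ _ _ fun i _ => ?_
      show c * dg X i + Pk.dotN (Xs.map fun X => dg X i) cs
        = dg X i * c + Pk.dotN (Xs.map fun X => dg X i) cs
      ring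

theorem lin_eq (rd Ns cs : List ℕ) (h : CntOK rd Ns) :
    linC cs Ns = pk (fun i => Pk.dotN (CA.dig rd i) cs) (prd rd) := by
  rw [linC_eq (prd rd) cs Ns h.lt]
  exact pk_congr _ _ _ fun i hi => by rw [h.dgs i hi]

/-! ### bits -/

lemma bit_lt {X N i j : ℕ} (h : X < 2 ^ (64 * N)) (hj : j < 64) (hb : X.testBit (64 * i + j) = true) :
    i < N := by
  have h1 := Nat.ge_two_pow_of_testBit hb
  have h2 : 2 ^ (64 * i + j) < 2 ^ (64 * N) := lt_of_le_of_lt h1 h
  have h3 := (Nat.pow_lt_pow_iff_right (by norm_num : 1 < 2)).mp h2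
  omega

lemma shr_pk {T N e : ℕ} (h : T < 2 ^ (64 * N)) :
    Nat.shiftRight T (Nat.mul 64 e) = pk (fun i => dg T (i + e)) N := by
  have h1 : Nat.shiftRight T (Nat.mul 64 e) < 2 ^ (64 * N) := by
    refine lt_of_le_of_lt ?_ h
    show T >>> (64 * e) ≤ T
    rw [Nat.shiftRight_eq_div_pow]
    exact Nat.div_le_self _ _
  rw [← pk_dg N _ h1]
  refine pk_congr _ _ _ fun i _ => ?_
  show dg (T >>> (64 * e)) i = dg T (i + e)
  have e1 : ∀ X i, dg X i = (X >>> (64 * i)) &&& (2 ^ 64 - 1) := fun X i => rfl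
  rw [e1, e1, ← Nat.shiftRight_add]
  congr 2
  ring

/-- valid line bits -/
def lineB (HH ONE a4 b4 muX Om T' W' L R : ℕ) : ℕ :=
  Nat.land (Nat.sub (Nat.add HH (Nat.add (Nat.add (Nat.mul R ONE) (Nat.mul b4 W')) muX))
      (Nat.add (Nat.add (Nat.mul a4 T') Om) (Nat.mul L ONE)))
    (Nat.sub (Nat.add HH T') ONE)

/-- valid richness bits -/
def richB (HH ONE T' W' d : ℕ) : ℕ :=
  Nat.land (Nat.sub (Nat.add HH W') (Nat.add T' (Nat.mul d ONE))) (Nat.sub (Nat.add HH T') ONE)

lemma land_bit {a b i : ℕ} (h : (Nat.land a b).testBit i = true) : a.testBit i = true ∧ b.testBit i = true :=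
  testBit_land_one h

theorem valid_bit (N : ℕ) (t : ℕ → ℕ) (ht : ∀ i < N, t i < 2 ^ 63) (i : ℕ)
    (h : (Nat.sub (Nat.add (pk (fun _ => 2 ^ 63) N) (pk t N)) (pk (fun _ => 1) N)).testBit (64 * i + 63) = true) :
    i < N ∧ 1 ≤ t i := by
  have h0 : Nat.sub (Nat.add (pk (fun _ => 2 ^ 63) N) (pk t N)) (pk (fun _ => 1) N)
      = pk (fun i => 2 ^ 63 + t i - 1) N := by
    show pk (fun _ => 2 ^ 63) N + pk t N - pk (fun _ => 1) N = _
    rw [pk_add, pk_sub _ _ _ fun i _ => by omega]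
  have hi : i < N := by
    refine bit_lt (j := 63) (pk_lt (fun i => 2 ^ 63 + t i - 1) N fun i hi => ?_) (by norm_num) (by rw [← h0]; exact h)
    have := ht i hi
    show 2 ^ 63 + t i - 1 < 2 ^ 64
    omega
  exact ⟨hi, (cmp_bit N t (fun _ => 1) ht (fun _ _ => by norm_num) i hi).mp h⟩

theorem lineB_bit (N a4 b4 L R : ℕ) (mx om t w : ℕ → ℕ) (h1 : ∀ i < N, R + b4 * w i + mx i < 2 ^ 63)
    (h2 : ∀ i < N, a4 * t i + om i + L ≤ 2 ^ 63) (h3 : ∀ i < N, t i < 2 ^ 63) (i : ℕ)
    (h : (lineB (pk (fun _ => 2 ^ 63) N) (pk (fun _ => 1) N) a4 b4 (pk mx N) (pk om N) (pk t N) (pk w N) L R).testBit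
      (64 * i + 63) = true) : i < N ∧ 1 ≤ t i ∧ a4 * t i + om i + L ≤ R + b4 * w i + mx i := by
  obtain ⟨h4, h5⟩ := land_bit h
  obtain ⟨hi, h6⟩ := valid_bit N t h3 i h5
  refine ⟨hi, h6, ?_⟩
  have e1 : Nat.add (Nat.add (Nat.mul R (pk (fun _ => 1) N)) (Nat.mul b4 (pk w N))) (pk mx N)
      = pk (fun i => R + b4 * w i + mx i) N := by
    show R * pk (fun _ => 1) N + b4 * pk w N + pk mx N = _
    rw [pk_mul, pk_mul, pk_add, pk_add]
    refine pk_congr _ _ _ fun i _ => ?_
    ring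
  have e2 : Nat.add (Nat.add (Nat.mul a4 (pk t N)) (pk om N)) (Nat.mul L (pk (fun _ => 1) N))
      = pk (fun i => a4 * t i + om i + L) N := by
    show a4 * pk t N + pk om N + L * pk (fun _ => 1) N = _
    rw [pk_mul, pk_mul, pk_add, pk_add]
    refine pk_congr _ _ _ fun i _ => ?_
    ring
  rw [e1, e2] at h4
  exact (cmp_bit N _ _ h1 h2 i hi).mp h4

theorem richB_bit (N d : ℕ) (t w : ℕ → ℕ) (h1 : ∀ i < N, w i < 2 ^ 63) (h2 : ∀ i < N, t i + d ≤ 2 ^ 63)
    (h3 : ∀ i < N, t i < 2 ^ 63) (i : ℕ)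
    (h : (richB (pk (fun _ => 2 ^ 63) N) (pk (fun _ => 1) N) (pk t N) (pk w N) d).testBit (64 * i + 63) = true) :
    i < N ∧ 1 ≤ t i ∧ t i + d ≤ w i := by
  obtain ⟨h4, h5⟩ := land_bit h
  obtain ⟨hi, h6⟩ := valid_bit N t h3 i h5
  refine ⟨hi, h6, ?_⟩
  have e2 : Nat.add (pk t N) (Nat.mul d (pk (fun _ => 1) N)) = pk (fun i => t i + d) N := by
    show pk t N + d * pk (fun _ => 1) N = _
    rw [pk_mul, pk_add]
    refine pk_congr _ _ _ fun i _ => ?_
    ring
  rw [e2] at h4
  exact (cmp_bit N _ _ h1 h2 i hi).mp h4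

/-! ### the corners of the box -/

/-- four tables with one `y`-node: offset `e`, constants `L`, `Ra` -/
noncomputable def crn1 (HH ONE a4 b4 muX Om d bR bL e L Ra : ℕ) (tabs : List (ℕ × ℕ)) :
    List ℕ → ℕ → ℕ → (List ℕ → ℕ → ℕ → Bool) → Bool :=
  @List.rec (ℕ × ℕ) (fun _ => List ℕ → ℕ → ℕ → (List ℕ → ℕ → ℕ → Bool) → Bool)
    (fun rs P Q k => k rs P Q)
    (fun TW _ ih rs P Q k => @Prod.rec ℕ ℕ (fun _ => Bool) (fun T W =>
      @List.rec ℕ (fun _ => Bool) false (fun r rs' _ =>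
        cond (Nat.ble (Nat.add (Nat.add r Ra) bR) (nat_lit 9223372036854775807))
        (cond (Nat.ble (Nat.add bL L) (nat_lit 9223372036854775808))
        (frc (Nat.shiftRight T (Nat.mul (nat_lit 64) e)) fun T' =>
          frc (Nat.shiftRight W (Nat.mul (nat_lit 64) e)) fun W' =>
          frc (Nat.land P (lineB HH ONE a4 b4 muX Om T' W' L (Nat.add r Ra))) fun P' =>
          frc (Nat.land Q (richB HH ONE T' W' d)) fun Q' => ih rs' P' Q' k) false) false) rs) TW) tabs

/-- the facts at an index, from the line bits (`q` = corner of the box) -/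
def LineAt (N a4 b4 e L Ra : ℕ) (mx om : ℕ → ℕ) (tabs : List (ℕ × ℕ)) (rs : List ℕ) (j : ℕ) : Prop :=
  j < N ∧ ∀ q < tabs.length, 1 ≤ dg (tabs.getD q (0, 0)).1 (j + e) ∧
    a4 * dg (tabs.getD q (0, 0)).1 (j + e) + om j + L
      ≤ rs.getD q 0 + Ra + b4 * dg (tabs.getD q (0, 0)).2 (j + e) + mx j

/-- the facts at an index, from the richness bits -/
def RichAt (N d e : ℕ) (tabs : List (ℕ × ℕ)) (j : ℕ) : Prop :=
  j < N ∧ ∀ q < tabs.length, 1 ≤ dg (tabs.getD q (0, 0)).1 (j + e) ∧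
    dg (tabs.getD q (0, 0)).1 (j + e) + d ≤ dg (tabs.getD q (0, 0)).2 (j + e)

/-- small digits -/
def SmT (N : ℕ) (tabs : List (ℕ × ℕ)) : Prop := ∀ q < tabs.length,
  (tabs.getD q (0, 0)).1 < 2 ^ (64 * N) ∧ (tabs.getD q (0, 0)).2 < 2 ^ (64 * N) ∧
  (∀ i < N, dg (tabs.getD q (0, 0)).1 i < 2 ^ 32) ∧ ∀ i < N, dg (tabs.getD q (0, 0)).2 i < 2 ^ 32

lemma dg_big {T N i : ℕ} (h : T < 2 ^ (64 * N)) (hi : N ≤ i) : dg T i = 0 := by
  rw [dg_eq]
  have h1 : 2 ^ (64 * N) ≤ 2 ^ (64 * i) := Nat.pow_le_pow_right (by norm_num) (by omega)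
  rw [Nat.div_eq_of_lt (lt_of_lt_of_le h h1)]
  rfl

lemma dg_small {T N : ℕ} (h : T < 2 ^ (64 * N)) (h' : ∀ i < N, dg T i < 2 ^ 32) (i : ℕ) : dg T i < 2 ^ 32 := by
  rcases Nat.lt_or_ge i N with h1 | h1
  · exact h' i h1
  · rw [dg_big h h1]; norm_num

theorem crn1_sound (N a4 b4 d bR bL e L Ra : ℕ) (mx om : ℕ → ℕ)
    (hR : ∀ i < N, b4 * 2 ^ 32 + mx i ≤ bR) (hL : ∀ i < N, a4 * 2 ^ 32 + om i ≤ bL) (hd : d < 2 ^ 62)
    (tabs : List (ℕ × ℕ)) : SmT N tabs → ∀ rs P Q k,
    crn1 (pk (fun _ => 2 ^ 63) N) (pk (fun _ => 1) N) a4 b4 (pk mx N) (pk om N) d bR bL e L Ra tabs rs P Q k = true →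
    ∃ P' Q', k (rs.drop tabs.length) P' Q' = true ∧
      (∀ i, P'.testBit (64 * i + 63) = true → P.testBit (64 * i + 63) = true) ∧
      (∀ i, Q'.testBit (64 * i + 63) = true → Q.testBit (64 * i + 63) = true) ∧
      (∀ i, P'.testBit (64 * i + 63) = true → tabs ≠ [] → LineAt N a4 b4 e L Ra mx om tabs rs i) ∧
      (∀ i, Q'.testBit (64 * i + 63) = true → tabs ≠ [] → RichAt N d e tabs i) := by
  induction tabs with
  | nil =>
    intro _ rs P Q k h
    exact ⟨P, Q, h, fun _ h => h, fun _ h => h, fun _ _ h => absurd rfl h, fun _ _ h => absurd rfl h⟩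
  | cons TW tabs ih =>
    obtain ⟨T, W⟩ := TW
    intro hs rs P Q k h
    cases rs with
    | nil => exact absurd h (by simp [crn1])
    | cons r rs =>
      have e1 : crn1 (pk (fun _ => 2 ^ 63) N) (pk (fun _ => 1) N) a4 b4 (pk mx N) (pk om N) d bR bL e L Ra
          ((T, W) :: tabs) (r :: rs) P Q k
        = cond (Nat.ble (Nat.add (Nat.add r Ra) bR) (nat_lit 9223372036854775807))
        (cond (Nat.ble (Nat.add bL L) (nat_lit 9223372036854775808))
        (frc (Nat.shiftRight T (Nat.mul (nat_lit 64) e)) fun T' =>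
          frc (Nat.shiftRight W (Nat.mul (nat_lit 64) e)) fun W' =>
          frc (Nat.land P (lineB (pk (fun _ => 2 ^ 63) N) (pk (fun _ => 1) N) a4 b4 (pk mx N) (pk om N) T' W' L
            (Nat.add r Ra))) fun P' =>
          frc (Nat.land Q (richB (pk (fun _ => 2 ^ 63) N) (pk (fun _ => 1) N) T' W' d)) fun Q' =>
            crn1 (pk (fun _ => 2 ^ 63) N) (pk (fun _ => 1) N) a4 b4 (pk mx N) (pk om N) d bR bL e L Ra tabs rs P' Q' k)
          false) false := rfl
      rw [e1] at h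
      obtain ⟨h1, h⟩ := cond_eq_true h
      obtain ⟨h2, h⟩ := cond_eq_true h
      simp only [frc_eq] at h
      have h1 : r + Ra + bR ≤ 9223372036854775807 := Nat.le_of_ble_eq_true h1
      have h2 : bL + L ≤ 9223372036854775808 := Nat.le_of_ble_eq_true h2
      obtain ⟨s1, s2, s3, s4⟩ := hs 0 (by simp)
      simp only [List.getD_cons_zero] at s1 s2 s3 s4
      obtain ⟨P', Q', g1, g2, g3, g4, g5⟩ := ih (fun q hq => by
        have := hs (q + 1) (by simp; omega)
        simpa using this) rs _ _ k h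
      have hT := fun i => dg_small s1 s3 (i + e)
      have hW := fun i => dg_small s2 s4 (i + e)
      have c1 : ∀ i < N, r + Ra + b4 * dg W (i + e) + mx i < 2 ^ 63 := by
        intro i hi
        have h3 := hR i hi
        have h4 : b4 * dg W (i + e) ≤ b4 * 2 ^ 32 := Nat.mul_le_mul_left b4 (hW i).le
        omega
      have c2 : ∀ i < N, a4 * dg T (i + e) + om i + L ≤ 2 ^ 63 := by
        intro i hi
        have h3 := hL i hi
        have h4 : a4 * dg T (i + e) ≤ a4 * 2 ^ 32 := Nat.mul_le_mul_left a4 (hT i).le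
        omega
      have c3 : ∀ i < N, dg T (i + e) < 2 ^ 63 := fun i _ => by have := hT i; omega
      refine ⟨P', Q', g1, fun i hi => (land_bit (g2 i hi)).1, fun i hi => (land_bit (g3 i hi)).1, ?_, ?_⟩
      · intro i hi _
        have hb := (land_bit (g2 i hi)).2
        rw [shr_pk s1, shr_pk s2] at hb
        obtain ⟨k1, k2, k3⟩ := lineB_bit N a4 b4 L (Nat.add r Ra) mx om _ _ c1 c2 c3 i hb
        refine ⟨k1, fun q hq => ?_⟩
        cases q with
        | zero => exact ⟨k2, k3⟩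
        | succ q =>
          have hq' : q < tabs.length := by simpa using hq
          have hne : tabs ≠ [] := by
            rintro rfl
            exact absurd hq' (by simp)
          have := (g4 i hi hne).2 q hq'
          simpa using this
      · intro i hi _
        have hb := (land_bit (g3 i hi)).2
        rw [shr_pk s1, shr_pk s2] at hb
        obtain ⟨k1, k2, k3⟩ := richB_bit N d _ _ (fun i _ => by have := hW i; omega)
          (fun i _ => by have := hT i; omega) c3 i hb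
        refine ⟨k1, fun q hq => ?_⟩
        cases q with
        | zero => exact ⟨k2, k3⟩
        | succ q =>
          have hq' : q < tabs.length := by simpa using hq
          have hne : tabs ≠ [] := by
            rintro rfl
            exact absurd hq' (by simp)
          have := (g5 i hi hne).2 q hq'
          simpa using this

end PkA
end Pool.Agent.Lib.MP_6947cd_al
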