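import Pool.Agent.Lib.MP_6947cd_al.Y.PE

/-!
Problem MP_6947cd_al (Chollet).  CASE B, large second entry: the check of a tail (`TailP`).
-/

set_option autoImplicit false
open Finset

namespace Pool.Agent.Lib.MP_6947cd_al
namespace B1

open Ent Ent.Pk Fr Fr.WT PkA

namespace TailM

/-- the defect of the row `i` is bounded by the corners (version of `defect_le` without `RC`) -/
theorem defect_le' (hR : SpR) {m : ℕ} {h t x : ℝ} {Mi : Multiset ℝ}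
    (ri : ∀ e ∈ Mi, 0 ≤ e ∧ e ≤ (m : ℝ) / 200) (cx0 : 0 ≤ x) (toti : h + t + x + Mi.sum ≤ 37 / 5)
    {q : ℕ} {sa sb : ℝ} (sg : Seg m q sa sb Mi) {h0 h1 t0 t1 x0 x1 Dh : ℝ} (hh0 : 0 < h0) (ht0 : 0 < t0) (hx0 : 0 ≤ x0)
    (hh1 : h1 ≤ 1) (ht1 : t1 ≤ 1) (hx1 : x1 ≤ 1) (a1 : h0 ≤ h) (a2 : h ≤ h1) (a3 : t0 ≤ t) (a4 : t ≤ t1)
    (a5 : x0 ≤ x) (a6 : x ≤ x1) (s0 : 17 / 20 ≤ h) (s0' : 17 / 20 ≤ t)
    (hD : ∀ bh bt bx br : Bool,
      FM (1 ::ₘ (bif bh then h1 else h0) ::ₘ (bif bt then t1 else t0) ::ₘ (bif bx then x1 else x0)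
        ::ₘ (bif br then sb - q * ((m : ℝ) / 200) else sa - q * ((m : ℝ) / 200))
        ::ₘ Multiset.replicate q ((m : ℝ) / 200))
      - Wc ((bif bh then h1 else h0) + (bif bt then t1 else t0) + (bif bx then x1 else x0)
        + ((bif br then sb - q * ((m : ℝ) / 200) else sa - q * ((m : ℝ) / 200))
          ::ₘ Multiset.replicate q ((m : ℝ) / 200)).sum) ≤ Dh) :
    FM (1 ::ₘ h ::ₘ t ::ₘ x ::ₘ Mi) - What (h + t + x + Mi.sum) ≤ Dh := by
  have hm0 : (0 : ℝ) < (m : ℝ) / 200 := by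
    have : (0 : ℝ) < m := by exact_mod_cast sg.m0
    positivity
  have hm1 : (m : ℝ) / 200 ≤ 1 := by
    have : (m : ℝ) ≤ 200 := by exact_mod_cast sg.m1
    linarith
  have hS0 : 0 ≤ Mi.sum := Multiset.sum_nonneg fun e he => (ri e he).1
  have e0 : ∀ M : Multiset ℝ, (1 : ℝ) ::ₘ h ::ₘ t ::ₘ x ::ₘ M = (1 ::ₘ h ::ₘ t ::ₘ x ::ₘ 0) + M := by
    intro M
    simp only [Multiset.cons_add, zero_add]
  obtain ⟨f1, f2⟩ := hR.r4 (1 ::ₘ h ::ₘ t ::ₘ x ::ₘ 0) Mi ((m : ℝ) / 200) q (by simp) (by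
      intro e he
      simp only [Multiset.mem_cons, Multiset.notMem_zero, or_false] at he
      rcases he with rfl | rfl | rfl | rfl
      · exact ⟨zero_le_one, le_rfl⟩
      · exact ⟨by linarith, by linarith⟩
      · exact ⟨by linarith, by linarith⟩
      · exact ⟨by linarith, by linarith⟩) hm0 hm1 ri (sg.qa.trans sg.aS) (sg.Sb.trans sg.bq)
  rw [← e0, ← e0] at f1
  have hsum : ((Mi.sum - q * ((m : ℝ) / 200)) ::ₘ Multiset.replicate q ((m : ℝ) / 200)).sum = Mi.sum := by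
    rw [Multiset.sum_cons, Multiset.sum_replicate, nsmul_eq_mul]
    ring
  have hW := Wc_le_What (h + t + x + Mi.sum) (by linarith [cx0]) toti
  have := hR.r2 h0 h1 t0 t1 x0 x1 (sa - q * ((m : ℝ) / 200)) (sb - q * ((m : ℝ) / 200)) Dh h t x
    (Mi.sum - q * ((m : ℝ) / 200)) ((m : ℝ) / 200) q hh0.le ht0.le hx0 (by linarith [sg.qa]) hm0.le hh1 ht1 hx1
    (by linarith [sg.bq]) hm1 a1 a2 a3 a4 a5 a6 (by linarith [sg.aS]) (by linarith [sg.Sb]) hD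
  rw [hsum] at this
  linarith

/-- the nodes cover `[s0, s1]` -/
noncomputable def nodT (m s0 s1 : ℕ) (nodes : List ℕ) : Bool :=
  @List.rec ℕ (fun _ => Bool) false (fun a r _ => cond (Nat.ble a s0) (chn m s1 r a) false) nodes

lemma nodT_sound {m s0 s1 : ℕ} {nodes : List ℕ} (hm : 0 < m) (h : nodT m s0 s1 nodes = true) {S : ℝ}
    (h1 : (s0 : ℝ) / 200 ≤ S) (h2 : S ≤ (s1 : ℝ) / 200) : ∃ a ∈ nodes, ∃ b ∈ nodes, a ≤ b ∧ b ≤ (a / m + 1) * m ∧
      (a : ℝ) / 200 ≤ S ∧ S ≤ (b : ℝ) / 200 := by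
  cases nodes with
  | nil => exact absurd h (by simp [nodT])
  | cons a r =>
    have e : nodT m s0 s1 (a :: r) = cond (Nat.ble a s0) (chn m s1 r a) false := rfl
    rw [e] at h
    obtain ⟨h3, h4⟩ := cond_eq_true h
    have h5 : (a : ℝ) ≤ s0 := by exact_mod_cast Nat.le_of_ble_eq_true h3
    exact chn_sound m s1 hm r a h4 S ((div_le_div_of_nonneg_right h5 (by norm_num)).trans h1) h2

lemma bif_div (b : Bool) (u v : ℕ) : (bif b then (u : ℝ) / 200 else (v : ℝ) / 200)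
    = ((bif b then u else v : ℕ) : ℝ) / 200 := by cases b <;> rfl

lemma bif_div' (b : Bool) (u v : ℕ) (w : ℝ) : (bif b then (u : ℝ) / 200 - w else (v : ℝ) / 200 - w)
    = ((bif b then u else v : ℕ) : ℝ) / 200 - w := by cases b <;> rfl

/-- a node of the segment, at a corner -/
lemma seg_node {m a b : ℕ} (hm : 0 < m) (hab : a ≤ b) (hb : b ≤ (a / m + 1) * m) (br : Bool) :
    a / m * m ≤ (bif br then b else a) ∧ (bif br then b else a) ≤ (a / m + 1) * m := by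
  have h1 := Nat.div_mul_le_self a m
  have h2 : a < (a / m + 1) * m := by
    have := Nat.lt_div_mul_add (a := a) (b := m) hm
    rw [Nat.add_mul, Nat.one_mul]
    omega
  cases br <;> simp only [cond_true, cond_false] <;> constructor <;> omega

/-- the corner records of the row `i` are correct -/
structure CI (m H0 H1 T0 T1 X0 X1 : ℕ) (cI : List (ℕ × ℕ × ℕ)) : Prop where
  c : ∀ bh bt bx : Bool, (cI.getD (ix bh bt bx) (0, 0, 0)).2.1
      = (bif bh then H1 else H0) + (bif bt then T1 else T0) + (bif bx then X1 else X0) ∧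
    (cI.getD (ix bh bt bx) (0, 0, 0)).2.2 = (bif bx then X1 else X0) ∧
    RowI m (bif bh then H1 else H0) (bif bt then T1 else T0) (bif bx then X1 else X0)
      (cI.getD (ix bh bt bx) (0, 0, 0)).1
  l : cI.length = 8

/-- the defect on a list of nodes -/
theorem crn_defect (hR : SpR) {m H0 H1 T0 T1 X0 X1 : ℕ} {cI : List (ℕ × ℕ × ℕ)} (hc : CI m H0 H1 T0 T1 X0 X1 cI)
    (hm0 : 0 < m) (hm1 : m ≤ 200) (hH0 : 170 ≤ H0) (hH01 : H0 ≤ H1) (hH1 : H1 ≤ 200) (hT0 : 170 ≤ T0) (hT01 : T0 ≤ T1)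
    (hT1 : T1 ≤ 200) (hX1 : X1 ≤ 200) {s0 s1 : ℕ} {nodes : List ℕ} (hn : nodT m s0 s1 nodes = true) {D : ℕ}
    {Ls : List ℕ} (hN : ∀ q < cI.length, ∀ s ∈ nodes, NodeF 0 0 0 0 0 m (cI.getD q (0, 0, 0)).2.1
        (x5 0 0 (cI.getD q (0, 0, 0)).2.2) 0 (cI.getD q (0, 0, 0)).1 (Ls.getD q 0) D s)
    {h t x : ℝ} {Mi : Multiset ℝ} (a1 : (H0 : ℝ) / 200 ≤ h) (a2 : h ≤ (H1 : ℝ) / 200) (a3 : (T0 : ℝ) / 200 ≤ t)
    (a4 : t ≤ (T1 : ℝ) / 200) (a5 : (X0 : ℝ) / 200 ≤ x) (a6 : x ≤ (X1 : ℝ) / 200)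
    (ri : ∀ e ∈ Mi, 0 ≤ e ∧ e ≤ (m : ℝ) / 200) (S0 : (s0 : ℝ) / 200 ≤ Mi.sum) (S1 : Mi.sum ≤ (s1 : ℝ) / 200)
    (toti : h + t + x + Mi.sum ≤ 37 / 5) :
    FM (1 ::ₘ h ::ₘ t ::ₘ x ::ₘ Mi) - What (h + t + x + Mi.sum) ≤ (D : ℝ) / 10 ^ 7 := by
  obtain ⟨a, ha, b, hb, hab, hbm, hS1, hS2⟩ := nodT_sound hm0 hn S0 S1
  have hH0' : (170 : ℝ) ≤ H0 := by exact_mod_cast hH0
  have hT0' : (170 : ℝ) ≤ T0 := by exact_mod_cast hT0
  have hH1' : (H1 : ℝ) ≤ 200 := by exact_mod_cast hH1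
  have hT1' : (T1 : ℝ) ≤ 200 := by exact_mod_cast hT1
  have hX1' : (X1 : ℝ) ≤ 200 := by exact_mod_cast hX1
  have hX0 : (0 : ℝ) ≤ (X0 : ℝ) / 200 := by positivity
  have sg : Seg m (a / m) ((a : ℝ) / 200) ((b : ℝ) / 200) Mi := by
    refine ⟨hm0, hm1, ?_, ?_, hS1, hS2⟩
    · have h1 : ((a / m * m : ℕ) : ℝ) ≤ (a : ℝ) := by exact_mod_cast Nat.div_mul_le_self a m
      rw [Nat.cast_mul] at h1
      rw [← mul_div_assoc]
      exact div_le_div_of_nonneg_right h1 (by norm_num)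
    · have h1 : (b : ℝ) ≤ (((a / m + 1) * m : ℕ) : ℝ) := by exact_mod_cast hbm
      rw [Nat.cast_mul, Nat.cast_add, Nat.cast_one] at h1
      rw [← mul_div_assoc]
      exact div_le_div_of_nonneg_right h1 (by norm_num)
  refine defect_le' hR ri (hX0.trans a5) toti sg (by linarith) (by linarith) hX0 (by linarith) (by linarith)
    (by linarith) a1 a2 a3 a4 a5 a6 (by linarith) (by linarith) ?_
  intro bh bt bx br
  obtain ⟨c1, c2, c3⟩ := hc.c bh bt bx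
  have hq : ix bh bt bx < cI.length := by
    rw [hc.l]
    cases bh <;> cases bt <;> cases bx <;> decide
  have hs : (bif br then b else a) ∈ nodes := by cases br <;> assumption
  have hn := hN _ hq _ hs
  rw [c1, c2] at hn
  obtain ⟨g1, g2⟩ := seg_node hm0 hab hbm br
  have hH : 60 ≤ (bif bh then H1 else H0) + (bif bt then T1 else T0) + (bif bx then X1 else X0) := by
    cases bh <;> simp only [cond_true, cond_false] <;> omega
  have := (node_U (A := 0) (κ := 0) (Γ := 0) (mS := 0) (CX := 0) (Ct := 0) (tl := 0) c3 hm0 g1 g2 hH hn).2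
  rw [bif_div, bif_div, bif_div, bif_div']
  exact this

end TailM

open TailM

/-- THE CHECK OF A TAIL: consecutive segments `(s1, nodes)`, from `a` to `e` at least -/
noncomputable def tailC (m X1 b0 ot del : ℕ) (cI : List (ℕ × ℕ × ℕ)) (e : ℕ) (l : List (ℕ × List ℕ)) : ℕ → Bool :=
  @List.rec (ℕ × List ℕ) (fun _ => ℕ → Bool) (fun a => Nat.ble e a)
    (fun sn _ ih a => cond (nodT m a sn.1 sn.2)
      (crnI (nat_lit 0) (nat_lit 0) (nat_lit 0) (nat_lit 0) (nat_lit 0) (nat_lit 0) m (nat_lit 0) sn.2 cI (nat_lit 0)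
        fun _ D => cond (Nat.ble (Nat.add (Nat.mul D (Nat.mul b0 (Nat.sub (nat_lit 800) b0)))
            (Nat.mul (Nat.mul (nat_lit 800) (Nat.add (Nat.add ot X1) sn.1)) (mx D (nat_lit 10000))))
            (Nat.mul (Nat.mul (nat_lit 3) (Nat.mul b0 b0)) del)) (ih sn.1) false) false) l

theorem tailC_sound (hR : SpR) {X b0 ot del H0 H1 T0 T1 : ℕ} {cI : List (ℕ × ℕ × ℕ)}
    (hc : CI (mX X) H0 H1 T0 T1 (x0X X) (x1X X) cI) (hX : X < 5) (hH0 : 170 ≤ H0) (hH01 : H0 ≤ H1) (hH1 : H1 ≤ 200)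
    (hT0 : 170 ≤ T0) (hT01 : T0 ≤ T1) (hT1 : T1 ≤ 200) (hb0 : b0 ≤ 800) {l : List (ℕ × List ℕ)}
    (h : tailC (mX X) (x1X X) b0 ot del cI (s1X X) l (s0X X) = true) : TailP X b0 ot del H0 H1 T0 T1 := by
  have hm0 : 0 < mX X ∧ mX X ≤ 200 ∧ x1X X ≤ 200 ∧ s0X X < s1X X := by
    have : X = 0 ∨ X = 1 ∨ X = 2 ∨ X = 3 ∨ X = 4 := by omega
    rcases this with rfl | rfl | rfl | rfl | rfl <;> decide
  obtain ⟨m0, m1, hx1, hs⟩ := hm0
  intro ht t x Mi a1 a2 a3 a4 a5 a6 ri S0 S1 toti _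
  have key : ∀ (l : List (ℕ × List ℕ)) (a : ℕ), tailC (mX X) (x1X X) b0 ot del cI (s1X X) l a = true →
      (a : ℝ) / 200 ≤ Mi.sum → (a < s1X X ∨ (a : ℝ) / 200 < Mi.sum) →
      ∃ Dh : ℝ, FM (1 ::ₘ ht ::ₘ t ::ₘ x ::ₘ Mi) - What (ht + t + x + Mi.sum) ≤ Dh ∧
      Dh * (4 * ((b0 : ℝ) / 200) - ((b0 : ℝ) / 200) ^ 2)
        + 4 * ((ot : ℝ) / 200 + x + Mi.sum) * max Dh (1 / 1000)
          ≤ 3 * ((b0 : ℝ) / 200) ^ 2 * ((del : ℝ) / 10 ^ 7) := by
    intro l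
    induction l with
    | nil =>
      intro a h h1 h2
      exfalso
      have h3 : s1X X ≤ a := Nat.le_of_ble_eq_true h
      have h4 : (s1X X : ℝ) ≤ a := by exact_mod_cast h3
      rcases h2 with h2 | h2
      · omega
      · linarith
    | cons sn l ih =>
      intro a h h1 h2
      have e : tailC (mX X) (x1X X) b0 ot del cI (s1X X) (sn :: l) a = cond (nodT (mX X) a sn.1 sn.2)
          (crnI (nat_lit 0) (nat_lit 0) (nat_lit 0) (nat_lit 0) (nat_lit 0) (nat_lit 0) (mX X) (nat_lit 0) sn.2 cI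
          (nat_lit 0)
          fun _ D => cond (Nat.ble (Nat.add (Nat.mul D (Nat.mul b0 (Nat.sub (nat_lit 800) b0)))
            (Nat.mul (Nat.mul (nat_lit 800) (Nat.add (Nat.add ot (x1X X)) sn.1)) (mx D (nat_lit 10000))))
            (Nat.mul (Nat.mul (nat_lit 3) (Nat.mul b0 b0)) del))
            (tailC (mX X) (x1X X) b0 ot del cI (s1X X) l sn.1) false) false := rfl
      rw [e] at h
      obtain ⟨hn, h⟩ := cond_eq_true h
      obtain ⟨Ls, D, hk, -, hN⟩ := crnI_sound _ _ _ _ _ _ _ _ _ _ _ _ h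
      obtain ⟨hi, hrec⟩ := cond_eq_true hk
      rcases le_or_gt Mi.sum ((sn.1 : ℝ) / 200) with h3 | h3
      · refine ⟨(D : ℝ) / 10 ^ 7, crn_defect hR hc m0 m1 hH0 hH01 hH1 hT0 hT01 hT1 hx1 hn hN a1 a2 a3 a4 a5 a6 ri h1 h3
          toti, ?_⟩
        have hi' : D * (b0 * (800 - b0)) + 800 * (ot + x1X X + sn.1) * mx D 10000 ≤ 3 * (b0 * b0) * del :=
          Nat.le_of_ble_eq_true hi
        have hi2 : (D : ℝ) * (b0 * (800 - b0)) + 800 * (ot + x1X X + sn.1) * (mx D 10000 : ℕ)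
            ≤ 3 * (b0 * b0) * del := by
          have h5 : ((D * (b0 * (800 - b0)) + 800 * (ot + x1X X + sn.1) * mx D 10000 : ℕ) : ℝ)
            ≤ ((3 * (b0 * b0) * del : ℕ) : ℝ) := by exact_mod_cast hi'
          push_cast [Nat.cast_sub hb0] at h5
          exact h5
        have hE : max ((D : ℝ) / 10 ^ 7) (1 / 1000) ≤ ((mx D 10000 : ℕ) : ℝ) / 10 ^ 7 := by
          refine max_le ?_ ?_
          · have : (D : ℝ) ≤ (mx D 10000 : ℕ) := by exact_mod_cast le_mx_left D 10000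
            exact div_le_div_of_nonneg_right this (by positivity)
          · have : ((10000 : ℕ) : ℝ) ≤ (mx D 10000 : ℕ) := by exact_mod_cast le_mx_right D 10000
            rw [le_div_iff₀ (by positivity)]
            push_cast at this
            linarith
        have hR' : (ot : ℝ) / 200 + x + Mi.sum ≤ ((ot : ℝ) + x1X X + sn.1) / 200 := by linarith
        have hR0 : 0 ≤ (ot : ℝ) / 200 + x + Mi.sum := by
          have h6 : (0 : ℝ) ≤ ot := Nat.cast_nonneg _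
          have h7 : (0 : ℝ) ≤ (x0X X : ℝ) := Nat.cast_nonneg _
          have h8 : (0 : ℝ) ≤ (a : ℝ) := Nat.cast_nonneg _
          linarith
        have hE0 : 0 ≤ ((mx D 10000 : ℕ) : ℝ) / 10 ^ 7 := by positivity
        have h9 : ((ot : ℝ) / 200 + x + Mi.sum) * max ((D : ℝ) / 10 ^ 7) (1 / 1000)
            ≤ ((ot : ℝ) + x1X X + sn.1) / 200 * (((mx D 10000 : ℕ) : ℝ) / 10 ^ 7) :=
          mul_le_mul hR' hE (le_trans (by norm_num) (le_max_right _ _)) (hR0.trans hR')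
        have e1 : (D : ℝ) / 10 ^ 7 * (4 * ((b0 : ℝ) / 200) - ((b0 : ℝ) / 200) ^ 2)
            + 4 * (((ot : ℝ) + x1X X + sn.1) / 200 * (((mx D 10000 : ℕ) : ℝ) / 10 ^ 7))
            = ((D : ℝ) * (b0 * (800 - b0)) + 800 * (ot + x1X X + sn.1) * (mx D 10000 : ℕ)) / (40000 * 10 ^ 7) := by
          ring
        have e2 : 3 * ((b0 : ℝ) / 200) ^ 2 * ((del : ℝ) / 10 ^ 7) = 3 * (b0 * b0) * del / (40000 * 10 ^ 7) := by
          ring
        have h10 := div_le_div_of_nonneg_right hi2 (show (0 : ℝ) ≤ 40000 * 10 ^ 7 by positivity)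
        rw [← e1, ← e2] at h10
        have e3 : 4 * ((ot : ℝ) / 200 + x + Mi.sum) * max ((D : ℝ) / 10 ^ 7) (1 / 1000)
            = 4 * (((ot : ℝ) / 200 + x + Mi.sum) * max ((D : ℝ) / 10 ^ 7) (1 / 1000)) := by ring
        rw [e3]
        linarith
      · exact ih sn.1 hrec h3.le (Or.inr h3)
  exact key l (s0X X) h S0 (Or.inl hs)

/-- THE CHECK OF THE LARGE RESTS: the row `i` is not bad for `S` in `]s1, s2]` -/
noncomputable def bigC (m s1 s2 : ℕ) (cI : List (ℕ × ℕ × ℕ)) (nodes : List ℕ) : Bool :=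
  cond (Nat.ble s2 s1) true (cond (nodT m s1 s2 nodes)
    (crnI (nat_lit 0) (nat_lit 0) (nat_lit 0) (nat_lit 0) (nat_lit 0) (nat_lit 0) m (nat_lit 0) nodes cI
      (nat_lit 0) fun _ D => Nat.beq D (nat_lit 0)) false)

theorem bigC_sound (hR : SpR) {X H0 H1 T0 T1 : ℕ} {cI : List (ℕ × ℕ × ℕ)}
    (hc : CI (mX X) H0 H1 T0 T1 (x0X X) (x1X X) cI) (hX : X < 5) (hH0 : 170 ≤ H0) (hH01 : H0 ≤ H1) (hH1 : H1 ≤ 200)
    (hT0 : 170 ≤ T0) (hT01 : T0 ≤ T1) (hT1 : T1 ≤ 200) {nodes : List ℕ}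
    (h : bigC (mX X) (s1X X) (s2X X) cI nodes = true) : BigS X H0 H1 T0 T1 := by
  have hm0 : 0 < mX X ∧ mX X ≤ 200 ∧ x1X X ≤ 200 := by
    have : X = 0 ∨ X = 1 ∨ X = 2 ∨ X = 3 ∨ X = 4 := by omega
    rcases this with rfl | rfl | rfl | rfl | rfl <;> decide
  obtain ⟨m0, m1, hx1⟩ := hm0
  intro ht t x Mi a1 a2 a3 a4 a5 a6 ri S0 S1 toti
  unfold bigC at h
  cases hb : Nat.ble (s2X X) (s1X X) with
  | true =>
    have h1 : (s2X X : ℝ) ≤ s1X X := by exact_mod_cast Nat.le_of_ble_eq_true hb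
    exfalso
    linarith
  | false =>
    rw [hb, cond_false] at h
    obtain ⟨hn, h⟩ := cond_eq_true h
    obtain ⟨Ls, D, hk, -, hN⟩ := crnI_sound _ _ _ _ _ _ _ _ _ _ _ _ h
    have hD : D = 0 := Nat.eq_of_beq_eq_true hk
    have h2 := crn_defect hR hc m0 m1 hH0 hH01 hH1 hT0 hT01 hT1 hx1 hn hN a1 a2 a3 a4 a5 a6 ri S0.le S1 toti
    rw [hD, Nat.cast_zero, zero_div] at h2
    exact h2

end B1
end Pool.Agent.Lib.MP_6947cd_al
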