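import Pool.Agent.Lib.MP_6947cd_al.Y.PE

/-!
Problem MP_6947cd_al (Chollet).  CASE B, large second entry: the check of a leaf and the tree of a problem.
-/

set_option autoImplicit false
open Finset

namespace Pool.Agent.Lib.MP_6947cd_al
namespace B1

open Ent Ent.Pk Fr Fr.WT PkA

/-- the nodes cover `[s0, s1]` -/
noncomputable def nodC (m s0 s1 : ℕ) (nodes : List ℕ) : Bool :=
  @List.rec ℕ (fun _ => Bool) false (fun a r _ => cond (Nat.ble a s0) (chn m s1 r a) false) nodes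

/-- THE CHECK OF A LEAF -/
noncomputable def leafC (A O : ℕ) (P : PE) (s0 s1 ya0 ya1 za0 za1 J0 J1 K0 K1 : ℕ) (nodes rj rk : List ℕ)
    (K KJ KK lI βj βk μj μk Cy Cz Ct Γ dj dk : ℕ) : Bool :=
  cond (cond P.bj (Nat.beq (Nat.add K KJ) (nat_lit 0)) (Nat.ble (Nat.mul βj (Nat.sub (nat_lit 800) P.H0))
    (Nat.mul (Nat.mul (nat_lit 3) P.H0) (Nat.add K KJ))))
  (cond (cond P.bk (Nat.beq (Nat.add K KK) (nat_lit 0)) (Nat.ble (Nat.mul βk (Nat.sub (nat_lit 800) P.T0))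
    (Nat.mul (Nat.mul (nat_lit 3) P.T0) (Nat.add K KK))))
  (cond (cond (Nat.beq Cy (nat_lit 0)) true (Nat.beq ya1 (Nat.succ ya0)))
  (cond (cond (Nat.beq Cz (nat_lit 0)) true (Nat.beq za1 (Nat.succ za0)))
  (frc (Nat.add P.X1 s1) fun R2 => frc (Nat.add (cond P.bk P.T1 (nat_lit 0)) R2) fun Rj =>
   frc (Nat.add (cond P.bj P.H1 (nat_lit 0)) R2) fun Rk =>
   frc (Nat.mul P.H0 (Nat.sub (nat_lit 800) P.H0)) fun qh => frc (Nat.mul P.T0 (Nat.sub (nat_lit 800) P.T0)) fun qt =>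
   cond (Nat.ble (Nat.add (Nat.add (Nat.mul (Nat.mul (nat_lit 800) K) (Nat.mul R2 qh))
      (Nat.mul (Nat.mul (nat_lit 800) KJ) (Nat.mul Rj qt))) (Nat.mul (Nat.mul (nat_lit 800) KK) (Nat.mul Rk qh)))
      (Nat.mul Γ (Nat.mul qt qh)))
   (cond (nodC P.m s0 s1 nodes)
   (frc (Nat.add (Nat.add (Nat.add K KJ) KK) lI) fun κ =>
    frc (Nat.mul (nat_lit 4) (Nat.add A κ)) fun aF => frc (Nat.mul (nat_lit 4) Γ) fun aG =>
    frc (Nat.mul (nat_lit 5) A) fun aO =>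
    frc (Nat.mul (nat_lit 64) (Nat.add (Nat.add μj μk) Ct)) fun sS =>
    frc (Nat.mul (nat_lit 64) (Nat.add (Nat.add Cy Cz) Ct)) fun sX => frc (Nat.mul (nat_lit 4) κ) fun aW =>
    frc (Nat.mul (Nat.mul (nat_lit 64) Ct) P.tl) fun ct =>
    crnI aF aG aO sS sX aW P.m ct nodes P.cI (nat_lit 0) fun Ls D =>
      cond (cond P.bj true (Nat.ble (Nat.add (Nat.mul D qh) (Nat.mul (Nat.mul (nat_lit 800) Rj) (mx D (nat_lit 10000))))
        (Nat.mul (Nat.mul (nat_lit 3) (Nat.mul P.H0 P.H0)) dj)))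
      (cond (cond P.bk true (Nat.ble (Nat.add (Nat.mul D qt) (Nat.mul (Nat.mul (nat_lit 800) Rk) (mx D (nat_lit 10000))))
        (Nat.mul (Nat.mul (nat_lit 3) (Nat.mul P.T0 P.T0)) dk)))
      (cond (all64 A (Nat.mul (nat_lit 200000) O) P.H0 P.H1 P.T0 P.T1 P.G0 P.G1 Ls rj rk)
      (cond (sideN A P.J βj μj Cy O dj (Nat.add P.H0 P.G0) P.TCj (Nat.mul (nat_lit 64) s1) J0 J1 ya0 ya1 rj)
        (sideN A P.K βk μk Cz O dk (Nat.add P.T0 P.G0) P.TCk (Nat.mul (nat_lit 64) s1) K0 K1 za0 za1 rk)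
        false) false) false) false) false) false) false) false) false) false

/-- the check of a trivial leaf: the row `i` is not bad -/
noncomputable def trivC (P : PE) (s0 s1 : ℕ) (nodes : List ℕ) : Bool :=
  cond (nodC P.m s0 s1 nodes)
    (crnI (nat_lit 0) (nat_lit 0) (nat_lit 0) (nat_lit 0) (nat_lit 0) (nat_lit 0) P.m (nat_lit 0) nodes P.cI
      (nat_lit 0) fun _ D => Nat.beq D (nat_lit 0)) false

lemma nodC_sound {m s0 s1 : ℕ} {nodes : List ℕ} (hm : 0 < m) (h : nodC m s0 s1 nodes = true) {S : ℝ}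
    (h1 : (s0 : ℝ) / 200 ≤ S) (h2 : S ≤ (s1 : ℝ) / 200) : ∃ a ∈ nodes, ∃ b ∈ nodes, a ≤ b ∧ b ≤ (a / m + 1) * m ∧
      (a : ℝ) / 200 ≤ S ∧ S ≤ (b : ℝ) / 200 := by
  cases nodes with
  | nil => exact absurd h (by simp [nodC])
  | cons a r =>
    have e : nodC m s0 s1 (a :: r) = cond (Nat.ble a s0) (chn m s1 r a) false := rfl
    rw [e] at h
    obtain ⟨h3, h4⟩ := cond_eq_true h
    have h5 : (a : ℝ) ≤ s0 := by exact_mod_cast Nat.le_of_ble_eq_true h3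
    exact chn_sound m s1 hm r a h4 S ((div_le_div_of_nonneg_right h5 (by norm_num)).trans h1) h2

lemma bif_div (b : Bool) (u v : ℕ) : (bif b then (u : ℝ) / 200 else (v : ℝ) / 200)
    = ((bif b then u else v : ℕ) : ℝ) / 200 := by cases b <;> rfl

lemma bif_div' (b : Bool) (u v : ℕ) (w : ℝ) : (bif b then (u : ℝ) / 200 - w else (v : ℝ) / 200 - w)
    = ((bif b then u else v : ℕ) : ℝ) / 200 - w := by cases b <;> rfl

/-- a node of the segment, at a corner -/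
lemma seg_node {m a b : ℕ} (hm : 0 < m) (hab : a ≤ b) (hb : b ≤ (a / m + 1) * m) (br : Bool) :
    a / m * m ≤ (bif br then b else a) ∧ (bif br then b else a) ≤ (a / m + 1) * m := by
  have h1 := Nat.div_mul_le_self a m
  have h2 : a < (a / m + 1) * m := by
    have := Nat.lt_div_mul_add (a := a) (b := m) hm
    rw [Nat.add_mul, Nat.one_mul]
    omega
  cases br <;> simp only [cond_true, cond_false] <;> constructor <;> omega

/-- defects at the corners -/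
lemma defects {A O : ℕ} {P : PE} (hP : P.OK A O) {aF aG aO sS sX aW ct a b D : ℕ} {Ls : List ℕ} {κ Γ mS CX Ct A' : ℕ}
    (e1 : aF = 4 * (A' + κ)) (e2 : aG = 4 * Γ) (e3 : aO = 5 * A') (e4 : sS = 64 * mS) (e5 : sX = 64 * CX)
    (e6 : aW = 4 * κ) (e7 : ct = 64 * Ct * P.tl) (hab : a ≤ b) (hb : b ≤ (a / P.m + 1) * P.m)
    (hN : ∀ q < P.cI.length, ∀ s ∈ [a, b], NodeF aF aG aO sS aW P.m (P.cI.getD q (0, 0, 0)).2.1
      (x5 aO sX (P.cI.getD q (0, 0, 0)).2.2) ct (P.cI.getD q (0, 0, 0)).1 (Ls.getD q 0) D s) (bh bt bx br : Bool) :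
    UI A' κ Γ ((CX : ℝ) / 3125) (bif bh then (P.H1 : ℝ) / 200 else (P.H0 : ℝ) / 200)
      (bif bt then (P.T1 : ℝ) / 200 else (P.T0 : ℝ) / 200) (bif bx then (P.X1 : ℝ) / 200 else (P.X0 : ℝ) / 200)
      ((bif br then (b : ℝ) / 200 - (a / P.m : ℕ) * ((P.m : ℝ) / 200) else (a : ℝ) / 200 - (a / P.m : ℕ) * ((P.m : ℝ) / 200))
        ::ₘ Multiset.replicate (a / P.m) ((P.m : ℝ) / 200))
      + A' * (43 / 200 * ((bif br then (b : ℝ) / 200 - (a / P.m : ℕ) * ((P.m : ℝ) / 200)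
          else (a : ℝ) / 200 - (a / P.m : ℕ) * ((P.m : ℝ) / 200)) + (a / P.m : ℕ) * ((P.m : ℝ) / 200))
        + 39 / 200 * ((bif br then (b : ℝ) / 200 - (a / P.m : ℕ) * ((P.m : ℝ) / 200)
          else (a : ℝ) / 200 - (a / P.m : ℕ) * ((P.m : ℝ) / 200)) ^ 2 + (a / P.m : ℕ) * ((P.m : ℝ) / 200) ^ 2))
      + (mS : ℝ) / 3125 * ((bif br then (b : ℝ) / 200 - (a / P.m : ℕ) * ((P.m : ℝ) / 200)
          else (a : ℝ) / 200 - (a / P.m : ℕ) * ((P.m : ℝ) / 200)) + (a / P.m : ℕ) * ((P.m : ℝ) / 200))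
      ≤ (Ls.getD (ix bh bt bx) 0 : ℝ) / 40000000 + (Ct : ℝ) / 3125 * ((P.tl : ℝ) / 200) ∧
    FM (1 ::ₘ (bif bh then (P.H1 : ℝ) / 200 else (P.H0 : ℝ) / 200)
      ::ₘ (bif bt then (P.T1 : ℝ) / 200 else (P.T0 : ℝ) / 200) ::ₘ (bif bx then (P.X1 : ℝ) / 200 else (P.X0 : ℝ) / 200)
      ::ₘ (bif br then (b : ℝ) / 200 - (a / P.m : ℕ) * ((P.m : ℝ) / 200) else (a : ℝ) / 200 - (a / P.m : ℕ) * ((P.m : ℝ) / 200))
        ::ₘ Multiset.replicate (a / P.m) ((P.m : ℝ) / 200))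
      - Wc ((bif bh then (P.H1 : ℝ) / 200 else (P.H0 : ℝ) / 200)
      + (bif bt then (P.T1 : ℝ) / 200 else (P.T0 : ℝ) / 200) + (bif bx then (P.X1 : ℝ) / 200 else (P.X0 : ℝ) / 200)
      + ((bif br then (b : ℝ) / 200 - (a / P.m : ℕ) * ((P.m : ℝ) / 200) else (a : ℝ) / 200 - (a / P.m : ℕ) * ((P.m : ℝ) / 200))
        ::ₘ Multiset.replicate (a / P.m) ((P.m : ℝ) / 200)).sum) ≤ (D : ℝ) / 10 ^ 7 := by
  obtain ⟨c1, c2, c3⟩ := hP.cI bh bt bx
  have hq : ix bh bt bx < P.cI.length := by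
    rw [hP.lI]
    cases bh <;> cases bt <;> cases bx <;> decide
  have hs : (bif br then b else a) ∈ [a, b] := by cases br <;> simp
  have hn := hN _ hq _ hs
  rw [c1, c2, e1, e2, e3, e4, e5, e6, e7] at hn
  obtain ⟨g1, g2⟩ := seg_node hP.m0 hab hb br
  have hH : 60 ≤ (bif bh then P.H1 else P.H0) + (bif bt then P.T1 else P.T0) + (bif bx then P.X1 else P.X0) := by
    have := hP.h0
    have := hP.h01
    cases bh <;> simp only [cond_true, cond_false] <;> omega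
  have := node_U c3 hP.m0 g1 g2 hH hn
  rw [bif_div, bif_div, bif_div, bif_div']
  exact this

lemma cv_side {A : ℕ} (hr7 : SpecR7) {e : SE} {b0 b1 g0 g1 cf : ℕ} (he : e.OK A b0 b1 g0 g1 cf) {C ya0 ya1 : ℕ}
    (hC : cond (Nat.beq C (nat_lit 0)) true (Nat.beq ya1 (Nat.succ ya0)) = true) (hya : ya1 ≤ e.ks.length) :
    ConvexOn ℝ (Set.Icc ((yval e.ks ya0 : ℝ) / 200) ((yval e.ks ya1 : ℝ) / 200))
      (fun u => -((C : ℝ) / 3125 * prF e.ks e.Ps u)) := by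
  cases hb : Nat.beq C (nat_lit 0) with
  | true =>
    have hC0 : C = 0 := Nat.eq_of_beq_eq_true hb
    subst hC0
    simp only [Nat.cast_zero, zero_div, zero_mul, neg_zero]
    exact convexOn_const 0 (convex_Icc _ _)
  | false =>
    rw [hb, cond_false] at hC
    have hy : ya1 = ya0 + 1 := Nat.eq_of_beq_eq_true hC
    subst hy
    obtain ⟨hA, -, -⟩ := prF_facts hr7 e.ks e.Ps he.kn (by rw [he.lP, he.lk])
    have key : ∀ (ks : List ℝ) (a : ℝ) (φ : ℝ → ℝ), Aff φ a ks → ∀ n < ks.length, ∃ α β : ℝ, ∀ x,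
        (a :: ks).getD n 0 ≤ x → x ≤ (a :: ks).getD (n + 1) 0 → φ x = α * x + β := by
      intro ks
      induction ks with
      | nil => intro a φ _ n hn; exact absurd hn (by simp)
      | cons k ks ih =>
        intro a φ h n hn
        cases n with
        | zero =>
          obtain ⟨α, β, h1⟩ := h.1
          exact ⟨α, β, fun x h2 h3 => h1 x (by simpa using h2) (by simpa using h3)⟩
        | succ n =>
          obtain ⟨α, β, h1⟩ := ih k φ h.2 n (by simpa using hn)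
          exact ⟨α, β, fun x h2 h3 => h1 x (by simpa using h2) (by simpa using h3)⟩
    obtain ⟨α, β, h1⟩ := key (kR e.ks) 0 (prF e.ks e.Ps) hA ya0 (by rw [kR_length]; omega)
    have e1 : (0 :: kR e.ks).getD ya0 0 = (yval e.ks ya0 : ℝ) / 200 := by
      cases ya0 with
      | zero => simp [yval]
      | succ a => simp only [List.getD_cons_succ, kR_getD, yval]
    have e2 : (0 :: kR e.ks).getD (ya0 + 1) 0 = (yval e.ks (ya0 + 1) : ℝ) / 200 := by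
      simp only [List.getD_cons_succ, kR_getD, yval]
    rw [e1, e2] at h1
    refine ⟨convex_Icc _ _, fun x hx y hy p q hp hq hpq => ?_⟩
    have hz := (convex_Icc ((yval e.ks ya0 : ℝ) / 200) ((yval e.ks (ya0 + 1) : ℝ) / 200)) hx hy hp hq hpq
    simp only [smul_eq_mul] at hz ⊢
    rw [h1 _ hz.1 hz.2, h1 _ hx.1 hx.2, h1 _ hy.1 hy.2]
    have hq' : q = 1 - p := by linarith
    rw [hq']
    apply le_of_eq
    ring

/-- the entries of a reduced multiset are in `[0, 1]` -/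
lemma ent01 (hs2 : SpecS2) {ks : List ℕ} (hk : KnOK ks) {ns : List ℕ} {fs : List Bool}
    {M' : Multiset ℝ} (h : Red 0 (kR ks) ns fs M') : ∀ e ∈ M', 0 ≤ e ∧ e ≤ 1 := by
  obtain ⟨-, -, q3, -, -⟩ := hs2 (kR ks) 0 ns fs M' le_rfl hk h
  have htop : ∀ (l : List ℝ) (a : ℝ), Inc a l → top a l ≤ 1 := by
    intro l
    induction l with
    | nil => intro a h; exact h
    | cons k l ih => intro a h; exact ih k h.2
  intro e he
  exact ⟨(q3 e he).1, (q3 e he).2.trans (htop _ _ hk)⟩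

/-- numbers of `[0, 1]` -/
lemma le1 {n : ℕ} (h : n ≤ 200) : (n : ℝ) / 200 ≤ 1 := by
  rw [div_le_one (by norm_num)]
  exact_mod_cast h

lemma yval_le1 {ks : List ℕ} (h : ∀ k ∈ ks, k ≤ 200) (n : ℕ) : (yval ks n : ℝ) / 200 ≤ 1 := by
  refine le1 ?_
  unfold yval
  rcases lt_or_ge n (0 :: ks).length with h1 | h1
  · rw [List.getD_eq_getElem _ _ h1]
    have := List.getElem_mem h1
    rcases List.mem_cons.mp this with h2 | h2
    · rw [h2]; omega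
    · exact h _ h2
  · rw [List.getD_eq_default _ _ h1]
    omega

/-- SOUNDNESS of the check of a leaf. -/
theorem leafC_sound (sp : SpAll) {A O : ℕ} (hA : 0 < A) {P : PE} (hP : P.OK A O) {h t g x y z : ℝ}
    {Mi : Multiset ℝ} {nj : List ℕ} {fj : List Bool} {Mj : Multiset ℝ} {nk : List ℕ} {fk : List Bool}
    {Mk : Multiset ℝ} {Gj Gk Wj Wk : ℝ}
    (c : RC P.bj P.bk P.m P.tl P.TCj P.TCk P.J.ks P.J.Ps P.K.ks P.K.Ps h t g x y z Mi nj fj Mj nk fk Mk Gj Gk Wj Wk)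
    (bx : InBox P h t g x) {s0 s1 ya0 ya1 za0 za1 J0 J1 K0 K1 : ℕ}
    (st : St P y z Mi.sum nj fj nk fk s0 s1 ya0 ya1 za0 za1 J0 J1 K0 K1)
    {nodes rj rk : List ℕ} {K KJ KK lI βj βk μj μk Cy Cz Ct Γ dj dk : ℕ}
    (hc : leafC A O P s0 s1 ya0 ya1 za0 za1 J0 J1 K0 K1 nodes rj rk K KJ KK lI βj βk μj μk Cy Cz Ct Γ dj dk = true) :
    False := by
  unfold leafC at hc
  obtain ⟨c1, hc⟩ := cond_eq_true hc
  obtain ⟨c2, hc⟩ := cond_eq_true hc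
  obtain ⟨c3, hc⟩ := cond_eq_true hc
  obtain ⟨c4, hc⟩ := cond_eq_true hc
  simp only [frc_eq] at hc
  obtain ⟨c5, hc⟩ := cond_eq_true hc
  obtain ⟨c6, hc⟩ := cond_eq_true hc
  obtain ⟨a, ha, b, hb, hab, hbm, haS, hSb⟩ := nodC_sound hP.m0 c6 st.sa st.sb
  obtain ⟨Ls, D, hc, -, hN⟩ := crnI_sound _ _ _ _ _ _ _ _ _ _ _ _ hc
  obtain ⟨c7, hc⟩ := cond_eq_true hc
  obtain ⟨c8, hc⟩ := cond_eq_true hc
  obtain ⟨c9, hc⟩ := cond_eq_true hc
  obtain ⟨c10, c11⟩ := cond_eq_true hc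
  have h170 := hP.h0
  have h01 := hP.h01
  have h200 := hP.h1
  have t170 := hP.t0
  have t01 := hP.t01
  have t200 := hP.t1
  have g01 := hP.g01
  have g200 := hP.g1
  have x01 := hP.x01
  have x200 := hP.x1
  have hdf := fun bh bt bx br => defects hP (A' := A) (κ := K + KJ + KK + lI) (Γ := Γ) (mS := μj + μk + Ct)
    (CX := Cy + Cz + Ct) (Ct := Ct) rfl rfl rfl rfl rfl rfl rfl hab hbm
    (fun q hq s hs => hN q hq s (by
      simp only [List.mem_cons, List.not_mem_nil, or_false] at hs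
      rcases hs with rfl | rfl
      · exact ha
      · exact hb)) bh bt bx br
  have sg : Seg P.m (a / P.m) ((a : ℝ) / 200) ((b : ℝ) / 200) Mi := by
    refine ⟨hP.m0, hP.m1, ?_, ?_, haS, hSb⟩
    · have : ((a / P.m * P.m : ℕ) : ℝ) ≤ (a : ℝ) := by exact_mod_cast Nat.div_mul_le_self a P.m
      push_cast at this
      linarith
    · have : (b : ℝ) ≤ (((a / P.m + 1) * P.m : ℕ) : ℝ) := by exact_mod_cast hbm
      push_cast at this
      linarith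
  obtain ⟨y1, y2, sj⟩ := side_leaf sp.S sp.S1 hP.J h01 h200 g01 g200 c10 c.redj bx.h0 bx.h1 bx.g0 bx.g1 st.ya st.yb
    c.totj c.prj (by
      have := st.sb
      have e : ((Nat.mul 64 s1 : ℕ) : ℝ) = 64 * s1 := by
        show ((64 * s1 : ℕ) : ℝ) = _
        push_cast
        ring
      rw [e]
      linarith) st.Ja st.Jb
  obtain ⟨z1, z2, sk⟩ := side_leaf sp.S sp.S1 hP.K t01 t200 g01 g200 c11 c.redk bx.t0 bx.t1 bx.g0 bx.g1 st.za st.zb
    c.totk c.prk (by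
      have := st.sb
      have e : ((Nat.mul 64 s1 : ℕ) : ℝ) = 64 * s1 := by
        show ((64 * s1 : ℕ) : ℝ) = _
        push_cast
        ring
      rw [e]
      linarith) st.Ka st.Kb
  have H0pos : (0 : ℝ) < P.H0 := by exact_mod_cast (by omega : 0 < P.H0)
  have T0pos : (0 : ℝ) < P.T0 := by exact_mod_cast (by omega : 0 < P.T0)
  have H0le : (P.H0 : ℝ) ≤ 200 := by exact_mod_cast (by omega : P.H0 ≤ 200)
  have T0le : (P.T0 : ℝ) ≤ 200 := by exact_mod_cast (by omega : P.T0 ≤ 200)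
  have H0ge : (170 : ℝ) ≤ P.H0 := by exact_mod_cast h170
  have T0ge : (170 : ℝ) ≤ P.T0 := by exact_mod_cast t170
  have s800 : ((800 - P.H0 : ℕ) : ℝ) = 800 - P.H0 := by
    rw [Nat.cast_sub (by omega)]
    norm_num
  have t800 : ((800 - P.T0 : ℕ) : ℝ) = 800 - P.T0 := by
    rw [Nat.cast_sub (by omega)]
    norm_num
  have hqh : (0 : ℝ) < P.H0 * (800 - P.H0) := mul_pos H0pos (by linarith)
  have hqt : (0 : ℝ) < P.T0 * (800 - P.T0) := mul_pos T0pos (by linarith)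
  have emx : ((mx D 10000 : ℕ) : ℝ) / 10 ^ 7 ≥ max ((D : ℝ) / 10 ^ 7) (1 / 1000) := by
    refine max_le ?_ ?_
    · exact div_le_div_of_nonneg_right (by exact_mod_cast le_mx_left D 10000) (by positivity)
    · have k3 : ((10000 : ℕ) : ℝ) ≤ ((mx D 10000 : ℕ) : ℝ) := by exact_mod_cast le_mx_right D 10000
      rw [le_div_iff₀ (by positivity)]
      refine le_trans (le_of_eq ?_) k3
      norm_num
  have ct01 : ∀ n : ℕ, (0 : ℝ) ≤ n := fun n => Nat.cast_nonneg n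
  have hk1 : P.bj = true → (K : ℝ) = 0 ∧ (KJ : ℝ) = 0 := by
    intro hb
    rw [hb, cond_true] at c1
    have : K + KJ = 0 := Nat.eq_of_beq_eq_true c1
    exact ⟨by exact_mod_cast (by omega : K = 0), by exact_mod_cast (by omega : KJ = 0)⟩
  have hk2 : P.bk = true → (K : ℝ) = 0 ∧ (KK : ℝ) = 0 := by
    intro hb
    rw [hb, cond_true] at c2
    have : K + KK = 0 := Nat.eq_of_beq_eq_true c2
    exact ⟨by exact_mod_cast (by omega : K = 0), by exact_mod_cast (by omega : KK = 0)⟩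
  have hk3 : P.bj = false → (βj : ℝ) * (4 - (P.H0 : ℝ) / 200) ≤ 3 * ((P.H0 : ℝ) / 200) * ((K : ℝ) + KJ) := by
    intro hb
    rw [hb, cond_false] at c1
    have h1 : βj * (800 - P.H0) ≤ 3 * P.H0 * (K + KJ) := Nat.le_of_ble_eq_true c1
    have h2 := (Nat.cast_le (α := ℝ)).mpr h1
    push_cast [s800] at h2
    linarith
  have hk4 : P.bk = false → (βk : ℝ) * (4 - (P.T0 : ℝ) / 200) ≤ 3 * ((P.T0 : ℝ) / 200) * ((K : ℝ) + KK) := by
    intro hb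
    rw [hb, cond_false] at c2
    have h1 : βk * (800 - P.T0) ≤ 3 * P.T0 * (K + KK) := Nat.le_of_ble_eq_true c2
    have h2 := (Nat.cast_le (α := ℝ)).mpr h1
    push_cast [t800] at h2
    linarith
  have eRj : (((bif P.bk then P.T1 else 0) + (P.X1 + s1) : ℕ) : ℝ)
      = 200 * ((if P.bk = true then (P.T1 : ℝ) / 200 else 0) + (P.X1 : ℝ) / 200 + (s1 : ℝ) / 200) := by
    cases P.bk <;> simp <;> ring
  have eRk : (((bif P.bj then P.H1 else 0) + (P.X1 + s1) : ℕ) : ℝ)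
      = 200 * ((if P.bj = true then (P.H1 : ℝ) / 200 else 0) + (P.X1 : ℝ) / 200 + (s1 : ℝ) / 200) := by
    cases P.bj <;> simp <;> ring
  obtain ⟨QJ, hQJ⟩ : ∃ Q, Q = (bif P.bk then P.T1 else 0) + (P.X1 + s1) := ⟨_, rfl⟩
  obtain ⟨QK, hQK⟩ : ∃ Q, Q = (bif P.bj then P.H1 else 0) + (P.X1 + s1) := ⟨_, rfl⟩
  rw [← hQJ] at eRj
  rw [← hQK] at eRk
  have hk5 : (K : ℝ) * ((P.X1 : ℝ) / 200 + (s1 : ℝ) / 200) * (4 / (4 * ((P.T0 : ℝ) / 200) - ((P.T0 : ℝ) / 200) ^ 2))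
      + KJ * ((if P.bk = true then (P.T1 : ℝ) / 200 else 0) + (P.X1 : ℝ) / 200 + (s1 : ℝ) / 200)
        * (4 / (4 * ((P.H0 : ℝ) / 200) - ((P.H0 : ℝ) / 200) ^ 2))
      + KK * ((if P.bj = true then (P.H1 : ℝ) / 200 else 0) + (P.X1 : ℝ) / 200 + (s1 : ℝ) / 200)
        * (4 / (4 * ((P.T0 : ℝ) / 200) - ((P.T0 : ℝ) / 200) ^ 2)) ≤ Γ := by
    have h1 : 800 * K * ((P.X1 + s1) * (P.H0 * (800 - P.H0))) + 800 * KJ * (QJ * (P.T0 * (800 - P.T0)))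
        + 800 * KK * (QK * (P.H0 * (800 - P.H0))) ≤ Γ * (P.T0 * (800 - P.T0) * (P.H0 * (800 - P.H0))) := by
      rw [hQJ, hQK]
      exact Nat.le_of_ble_eq_true c5
    have h2 := (Nat.cast_le (α := ℝ)).mpr h1
    push_cast [s800, t800] at h2
    rw [eRj, eRk] at h2
    have e1 : (4 : ℝ) / (4 * ((P.T0 : ℝ) / 200) - ((P.T0 : ℝ) / 200) ^ 2) = 160000 / (P.T0 * (800 - P.T0)) := by
      rw [div_eq_div_iff (by nlinarith) hqt.ne']
      ring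
    have e2 : (4 : ℝ) / (4 * ((P.H0 : ℝ) / 200) - ((P.H0 : ℝ) / 200) ^ 2) = 160000 / (P.H0 * (800 - P.H0)) := by
      rw [div_eq_div_iff (by nlinarith) hqh.ne']
      ring
    rw [e1, e2]
    set RJ := (if P.bk = true then (P.T1 : ℝ) / 200 else 0) + (P.X1 : ℝ) / 200 + (s1 : ℝ) / 200
    set RK := (if P.bj = true then (P.H1 : ℝ) / 200 else 0) + (P.X1 : ℝ) / 200 + (s1 : ℝ) / 200
    obtain ⟨a1, ha1⟩ : ∃ a1, a1 = (P.T0 : ℝ) * (800 - P.T0) := ⟨_, rfl⟩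
    obtain ⟨a2, ha2⟩ : ∃ a2, a2 = (P.H0 : ℝ) * (800 - P.H0) := ⟨_, rfl⟩
    rw [← ha1] at hqt h2 ⊢
    rw [← ha2] at hqh h2 ⊢
    have e3 : (K : ℝ) * ((P.X1 : ℝ) / 200 + (s1 : ℝ) / 200) * (160000 / a1) + KJ * RJ * (160000 / a2)
        + KK * RK * (160000 / a1) = (800 * K * ((P.X1 + s1) * a2) + 800 * KJ * (200 * RJ * a1)
          + 800 * KK * (200 * RK * a2)) / (a1 * a2) := by
      field_simp
      ring
    rw [e3, div_le_iff₀ (mul_pos hqt hqh)]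
    exact h2
  have hdj : P.bj = false → (D : ℝ) / 10 ^ 7 * (4 * ((P.H0 : ℝ) / 200) - ((P.H0 : ℝ) / 200) ^ 2)
      + 4 * ((if P.bk = true then (P.T1 : ℝ) / 200 else 0) + (P.X1 : ℝ) / 200 + (s1 : ℝ) / 200)
        * max ((D : ℝ) / 10 ^ 7) (1 / 1000) ≤ 3 * ((P.H0 : ℝ) / 200) ^ 2 * ((dj : ℝ) / 10 ^ 7) := by
    intro hb
    rw [hb, cond_false] at c7
    have h1 : D * (P.H0 * (800 - P.H0)) + 800 * QJ * mx D 10000 ≤ 3 * (P.H0 * P.H0) * dj := by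
      rw [hQJ]
      exact Nat.le_of_ble_eq_true c7
    have h2 := (Nat.cast_le (α := ℝ)).mpr h1
    push_cast [s800] at h2
    rw [eRj] at h2
    have hRJ : 0 ≤ (if P.bk = true then (P.T1 : ℝ) / 200 else 0) + (P.X1 : ℝ) / 200 + (s1 : ℝ) / 200 := by
      have : (0 : ℝ) ≤ QJ := Nat.cast_nonneg _
      rw [eRj] at this
      linarith
    have h3 := mul_le_mul_of_nonneg_left emx hRJ
    set RJ := (if P.bk = true then (P.T1 : ℝ) / 200 else 0) + (P.X1 : ℝ) / 200 + (s1 : ℝ) / 200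
    have h4 : 4 * RJ * max ((D : ℝ) / 10 ^ 7) (1 / 1000) ≤ 4 * (RJ * (((mx D 10000 : ℕ) : ℝ) / 10 ^ 7)) := by
      linarith
    refine (add_le_add_right h4 _).trans ?_
    linarith
  have hdk : P.bk = false → (D : ℝ) / 10 ^ 7 * (4 * ((P.T0 : ℝ) / 200) - ((P.T0 : ℝ) / 200) ^ 2)
      + 4 * ((if P.bj = true then (P.H1 : ℝ) / 200 else 0) + (P.X1 : ℝ) / 200 + (s1 : ℝ) / 200)
        * max ((D : ℝ) / 10 ^ 7) (1 / 1000) ≤ 3 * ((P.T0 : ℝ) / 200) ^ 2 * ((dk : ℝ) / 10 ^ 7) := by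
    intro hb
    rw [hb, cond_false] at c8
    have h1 : D * (P.T0 * (800 - P.T0)) + 800 * QK * mx D 10000 ≤ 3 * (P.T0 * P.T0) * dk := by
      rw [hQK]
      exact Nat.le_of_ble_eq_true c8
    have h2 := (Nat.cast_le (α := ℝ)).mpr h1
    push_cast [t800] at h2
    rw [eRk] at h2
    have hRK : 0 ≤ (if P.bj = true then (P.H1 : ℝ) / 200 else 0) + (P.X1 : ℝ) / 200 + (s1 : ℝ) / 200 := by
      have : (0 : ℝ) ≤ QK := Nat.cast_nonneg _
      rw [eRk] at this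
      linarith
    have h3 := mul_le_mul_of_nonneg_left emx hRK
    set RK := (if P.bj = true then (P.H1 : ℝ) / 200 else 0) + (P.X1 : ℝ) / 200 + (s1 : ℝ) / 200
    have h4 : 4 * RK * max ((D : ℝ) / 10 ^ 7) (1 / 1000) ≤ 4 * (RK * (((mx D 10000 : ℕ) : ℝ) / 10 ^ 7)) := by
      linarith
    refine (add_le_add_right h4 _).trans ?_
    linarith
  have hL : ∀ bh bt bg bx by' bz : Bool, (Ls.getD (ix bh bt bx) 0 : ℝ) / 40000000
      + ((rj.getD (ix bh bg by') 0 : ℝ) - O) / 40000000 + ((rk.getD (ix bt bg bz) 0 : ℝ) - O) / 40000000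
      ≤ 2 * (A : ℝ) * Real.log (2 * ((bif bh then (P.H1 : ℝ) / 200 else (P.H0 : ℝ) / 200)
        + (bif bt then (P.T1 : ℝ) / 200 else (P.T0 : ℝ) / 200) + (bif bg then (P.G1 : ℝ) / 200 else (P.G0 : ℝ) / 200))) := by
    intro bh bt bg bx by' bz
    obtain ⟨n1, n2, n3⟩ := all64_sound c9 bh bt bg bx by' bz
    obtain ⟨n, hn⟩ : ∃ n, n = (bif bh then P.H1 else P.H0) + ((bif bt then P.T1 else P.T0) + (bif bg then P.G1 else P.G0)) :=
      ⟨_, rfl⟩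
    rw [← hn] at n1 n2 n3
    have h1 := lgL_le n n1 n2
    have h2 := (Nat.cast_le (α := ℝ)).mpr n3
    have hO : ((Nat.mul 200000 O : ℕ) : ℝ) = 200000 * O := by
      show ((200000 * O : ℕ) : ℝ) = _
      push_cast
      ring
    push_cast at h2
    rw [hO] at h2
    have e1 : 2 * ((bif bh then (P.H1 : ℝ) / 200 else (P.H0 : ℝ) / 200)
        + (bif bt then (P.T1 : ℝ) / 200 else (P.T0 : ℝ) / 200) + (bif bg then (P.G1 : ℝ) / 200 else (P.G0 : ℝ) / 200))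
        = (n : ℝ) / 100 := by
      rw [bif_div, bif_div, bif_div, hn]
      push_cast
      ring
    rw [e1]
    have h3 := mul_le_mul_of_nonneg_left h1 (show (0 : ℝ) ≤ 8 * (A : ℝ) by positivity)
    have e2 : (Ls.getD (ix bh bt bx) 0 : ℝ) / 40000000
      + ((rj.getD (ix bh bg by') 0 : ℝ) - O) / 40000000 + ((rk.getD (ix bt bg bz) 0 : ℝ) - O) / 40000000
      = (100000 * ((Ls.getD (ix bh bt bx) 0 : ℝ) + ((rj.getD (ix bh bg by') 0 : ℝ) + (rk.getD (ix bt bg bz) 0 : ℝ)))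
        - 200000 * O) / (4 * 10 ^ 12) := by ring
    rw [e2, div_le_iff₀ (by positivity)]
    linarith
  exact leaf_real sp.R c (ent01 sp.S.s2 hP.J.kn c.redj) (ent01 sp.S.s2 hP.K.kn c.redk) sg
    (h0 := (P.H0 : ℝ) / 200) (h1 := (P.H1 : ℝ) / 200) (t0 := (P.T0 : ℝ) / 200) (t1 := (P.T1 : ℝ) / 200)
    (g0 := (P.G0 : ℝ) / 200) (g1 := (P.G1 : ℝ) / 200) (x0 := (P.X0 : ℝ) / 200) (x1 := (P.X1 : ℝ) / 200)
    (y0 := (yval P.J.ks ya0 : ℝ) / 200) (y1 := (yval P.J.ks ya1 : ℝ) / 200)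
    (z0 := (yval P.K.ks za0 : ℝ) / 200) (z1 := (yval P.K.ks za1 : ℝ) / 200) (Dh := (D : ℝ) / 10 ^ 7)
    (by linarith) (by linarith) (div_nonneg (ct01 _) (by norm_num)) (div_nonneg (ct01 _) (by norm_num))
    (div_nonneg (ct01 _) (by norm_num)) (div_nonneg (ct01 _) (by norm_num))
    (div_le_div_of_nonneg_right (by exact_mod_cast hP.th) (by norm_num))
    (le1 h200) (le1 t200) (le1 g200) (le1 x200) (yval_le1 hP.J.le ya1) (yval_le1 hP.K.le za1)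
    bx.h0 bx.h1 bx.t0 bx.t1 bx.g0 bx.g1 bx.x0 bx.x1 st.ya st.yb st.za st.zb
    (fun bh bt bx br => (hdf bh bt bx br).2)
    (a := (A : ℝ)) (K := (K : ℝ)) (KJ := (KJ : ℝ)) (KK := (KK : ℝ)) (lI := (lI : ℝ)) (βj := (βj : ℝ)) (βk := (βk : ℝ))
    (μj := (μj : ℝ) / 3125) (μk := (μk : ℝ) / 3125) (cy := (Cy : ℝ) / 3125) (cz := (Cz : ℝ) / 3125)
    (ct := (Ct : ℝ) / 3125) (Γ := (Γ : ℝ)) (s1 := (s1 : ℝ) / 200) (dj := (dj : ℝ) / 10 ^ 7) (dk := (dk : ℝ) / 10 ^ 7)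
    (Li := fun bh bt bx => (Ls.getD (ix bh bt bx) 0 : ℝ) / 40000000)
    (Rj := fun bb bg by' => ((rj.getD (ix bb bg by') 0 : ℝ) - O) / 40000000)
    (Rk := fun bb bg by' => ((rk.getD (ix bb bg by') 0 : ℝ) - O) / 40000000)
    (by exact_mod_cast hA) (ct01 _) (ct01 _) (ct01 _) (ct01 _) (ct01 _) (ct01 _)
    (div_nonneg (ct01 _) (by norm_num)) (div_nonneg (ct01 _) (by norm_num)) (div_nonneg (ct01 _) (by norm_num))
    (div_nonneg (ct01 _) (by norm_num)) (div_nonneg (ct01 _) (by norm_num)) (ct01 _) st.sb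
    (cv_side sp.S.r7 hP.J c3 y2) (cv_side sp.S.r7 hP.K c4 z2) hk1 hk2 hk3 hk4 hk5 hdj (div_nonneg (ct01 _) (by positivity))
    hdk (div_nonneg (ct01 _) (by positivity))
    (by
      intro bh bt bx br
      have := (hdf bh bt bx br).1
      have e1 : ((K + KJ + KK + lI : ℕ) : ℝ) = (K : ℝ) + KJ + KK + lI := by push_cast; ring
      have e2 : ((Cy + Cz + Ct : ℕ) : ℝ) / 3125 = (Cy : ℝ) / 3125 + (Cz : ℝ) / 3125 + (Ct : ℝ) / 3125 := by push_cast; ring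
      have e3 : ((μj + μk + Ct : ℕ) : ℝ) / 3125 = (μj : ℝ) / 3125 + (μk : ℝ) / 3125 + (Ct : ℝ) / 3125 := by push_cast; ring
      rw [e1, e2, e3] at this
      exact this)
    sj sk hL

/-- SOUNDNESS of the check of a trivial leaf. -/
theorem trivC_sound (sp : SpAll) {A O : ℕ} {P : PE} (hP : P.OK A O) {h t g x y z : ℝ}
    {Mi : Multiset ℝ} {nj : List ℕ} {fj : List Bool} {Mj : Multiset ℝ} {nk : List ℕ} {fk : List Bool}
    {Mk : Multiset ℝ} {Gj Gk Wj Wk : ℝ}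
    (c : RC P.bj P.bk P.m P.tl P.TCj P.TCk P.J.ks P.J.Ps P.K.ks P.K.Ps h t g x y z Mi nj fj Mj nk fk Mk Gj Gk Wj Wk)
    (bx : InBox P h t g x) {s0 s1 : ℕ} (sa : (s0 : ℝ) / 200 ≤ Mi.sum) (sb : Mi.sum ≤ (s1 : ℝ) / 200)
    {nodes : List ℕ} (hc : trivC P s0 s1 nodes = true) : False := by
  unfold trivC at hc
  obtain ⟨c6, hc⟩ := cond_eq_true hc
  obtain ⟨a, ha, b, hb, hab, hbm, haS, hSb⟩ := nodC_sound hP.m0 c6 sa sb
  obtain ⟨Ls, D, hc, -, hN⟩ := crnI_sound _ _ _ _ _ _ _ _ _ _ _ _ hc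
  have hD0 : D = 0 := Nat.eq_of_beq_eq_true hc
  subst hD0
  have hdf := fun bh bt bx br => (defects hP (A' := 0) (κ := 0) (Γ := 0) (mS := 0) (CX := 0) (Ct := 0)
    (aF := 0) (aG := 0) (aO := 0) (sS := 0) (sX := 0) (aW := 0) (ct := 0)
    rfl rfl rfl rfl rfl rfl (by simp) hab hbm
    (fun q hq s hs => hN q hq s (by
      simp only [List.mem_cons, List.not_mem_nil, or_false] at hs
      rcases hs with rfl | rfl
      · exact ha
      · exact hb)) bh bt bx br).2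
  have sg : Seg P.m (a / P.m) ((a : ℝ) / 200) ((b : ℝ) / 200) Mi := by
    refine ⟨hP.m0, hP.m1, ?_, ?_, haS, hSb⟩
    · have : ((a / P.m * P.m : ℕ) : ℝ) ≤ (a : ℝ) := by exact_mod_cast Nat.div_mul_le_self a P.m
      push_cast at this
      linarith
    · have : (b : ℝ) ≤ (((a / P.m + 1) * P.m : ℕ) : ℝ) := by exact_mod_cast hbm
      push_cast at this
      linarith
  have H0ge : (170 : ℝ) ≤ P.H0 := by exact_mod_cast hP.h0
  have T0ge : (170 : ℝ) ≤ P.T0 := by exact_mod_cast hP.t0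
  have hh := bx.h0
  have ht := bx.t0
  obtain ⟨-, -, -, f4, f5⟩ := defect_le sp.R c sg (h0 := (P.H0 : ℝ) / 200) (h1 := (P.H1 : ℝ) / 200)
    (t0 := (P.T0 : ℝ) / 200) (t1 := (P.T1 : ℝ) / 200) (x0 := (P.X0 : ℝ) / 200) (x1 := (P.X1 : ℝ) / 200)
    (Dh := ((0 : ℕ) : ℝ) / 10 ^ 7) (by linarith) (by linarith) (div_nonneg (Nat.cast_nonneg _) (by norm_num))
    (le1 hP.h1) (le1 hP.t1) (le1 hP.x1) bx.h0 bx.h1 bx.t0 bx.t1 bx.x0 bx.x1 (by linarith) (by linarith) hdf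
  have h1 := c.di
  rw [Nat.cast_zero, zero_div] at f5
  linarith

/-! ### the tree -/

/-- certificate of a problem: leaves, trivial leaves (row `i` not bad), splits of `S`, `y`, `z` (indices of knots), of
the knots of the rows `j` and `k` -/
inductive Tr : Type
  | lf (nodes rj rk : List ℕ) (K KJ KK lI βj βk μj μk Cy Cz Ct Γ dj dk : ℕ) : Tr
  | tv (nodes : List ℕ) : Tr
  | sS (c : ℕ) (a b : Tr) : Tr
  | sY (c : ℕ) (a b : Tr) : Tr
  | sZ (c : ℕ) (a b : Tr) : Tr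
  | sJ (c : ℕ) (a b : Tr) : Tr
  | sK (c : ℕ) (a b : Tr) : Tr

/-- THE CHECK OF A TREE; state `s0 s1 ya0 ya1 za0 za1 J0 J1 K0 K1` -/
noncomputable def treeC (A O : ℕ) (P : PE) (tr : Tr) : ℕ → ℕ → ℕ → ℕ → ℕ → ℕ → ℕ → ℕ → ℕ → ℕ → Bool :=
  @Tr.rec (fun _ => ℕ → ℕ → ℕ → ℕ → ℕ → ℕ → ℕ → ℕ → ℕ → ℕ → Bool)
    (fun nodes rj rk K KJ KK lI βj βk μj μk Cy Cz Ct Γ dj dk s0 s1 ya0 ya1 za0 za1 J0 J1 K0 K1 =>
      leafC A O P s0 s1 ya0 ya1 za0 za1 J0 J1 K0 K1 nodes rj rk K KJ KK lI βj βk μj μk Cy Cz Ct Γ dj dk)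
    (fun nodes s0 s1 _ _ _ _ _ _ _ _ => trivC P s0 s1 nodes)
    (fun c _ _ iha ihb s0 s1 ya0 ya1 za0 za1 J0 J1 K0 K1 => frc c fun c =>
      cond (iha s0 c ya0 ya1 za0 za1 J0 J1 K0 K1) (ihb c s1 ya0 ya1 za0 za1 J0 J1 K0 K1) false)
    (fun c _ _ iha ihb s0 s1 ya0 ya1 za0 za1 J0 J1 K0 K1 => frc c fun c =>
      cond (iha s0 s1 ya0 c za0 za1 J0 J1 K0 K1) (ihb s0 s1 c ya1 za0 za1 J0 J1 K0 K1) false)
    (fun c _ _ iha ihb s0 s1 ya0 ya1 za0 za1 J0 J1 K0 K1 => frc c fun c =>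
      cond (iha s0 s1 ya0 ya1 za0 c J0 J1 K0 K1) (ihb s0 s1 ya0 ya1 c za1 J0 J1 K0 K1) false)
    (fun c _ _ iha ihb s0 s1 ya0 ya1 za0 za1 J0 J1 K0 K1 => frc c fun c => frc (mx J0 (Nat.succ c)) fun J0' =>
      cond (iha s0 s1 ya0 ya1 za0 za1 J0 c K0 K1) (ihb s0 s1 ya0 ya1 za0 za1 J0' J1 K0 K1) false)
    (fun c _ _ iha ihb s0 s1 ya0 ya1 za0 za1 J0 J1 K0 K1 => frc c fun c => frc (mx K0 (Nat.succ c)) fun K0' =>
      cond (iha s0 s1 ya0 ya1 za0 za1 J0 J1 K0 c) (ihb s0 s1 ya0 ya1 za0 za1 J0 J1 K0' K1) false)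
    tr

lemma mx_le {a b c : ℕ} (h1 : a ≤ c) (h2 : b ≤ c) : mx a b ≤ c := by
  unfold mx
  cases Nat.ble a b
  · exact h1
  · exact h2

/-- SOUNDNESS of the check of a tree. -/
theorem treeC_sound (sp : SpAll) {A O : ℕ} (hA : 0 < A) {P : PE} (hP : P.OK A O) (tr : Tr) :
    ∀ s0 s1 ya0 ya1 za0 za1 J0 J1 K0 K1 : ℕ, treeC A O P tr s0 s1 ya0 ya1 za0 za1 J0 J1 K0 K1 = true →
    ∀ {h t g x y z : ℝ} {Mi : Multiset ℝ} {nj : List ℕ} {fj : List Bool} {Mj : Multiset ℝ} {nk : List ℕ}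
      {fk : List Bool} {Mk : Multiset ℝ} {Gj Gk Wj Wk : ℝ},
    RC P.bj P.bk P.m P.tl P.TCj P.TCk P.J.ks P.J.Ps P.K.ks P.K.Ps h t g x y z Mi nj fj Mj nk fk Mk Gj Gk Wj Wk →
    InBox P h t g x → St P y z Mi.sum nj fj nk fk s0 s1 ya0 ya1 za0 za1 J0 J1 K0 K1 → False := by
  induction tr with
  | lf nodes rj rk K KJ KK lI βj βk μj μk Cy Cz Ct Γ dj dk =>
    intro s0 s1 ya0 ya1 za0 za1 J0 J1 K0 K1 hc h t g x y z Mi nj fj Mj nk fk Mk Gj Gk Wj Wk c bx st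
    exact leafC_sound sp hA hP c bx st hc
  | tv nodes =>
    intro s0 s1 ya0 ya1 za0 za1 J0 J1 K0 K1 hc h t g x y z Mi nj fj Mj nk fk Mk Gj Gk Wj Wk c bx st
    exact trivC_sound sp hP c bx st.sa st.sb hc
  | sS q a b iha ihb =>
    intro s0 s1 ya0 ya1 za0 za1 J0 J1 K0 K1 hc h t g x y z Mi nj fj Mj nk fk Mk Gj Gk Wj Wk c bx st
    have e : treeC A O P (Tr.sS q a b) s0 s1 ya0 ya1 za0 za1 J0 J1 K0 K1 = frc q fun q =>
      cond (treeC A O P a s0 q ya0 ya1 za0 za1 J0 J1 K0 K1) (treeC A O P b q s1 ya0 ya1 za0 za1 J0 J1 K0 K1) false :=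
      rfl
    rw [e, frc_eq] at hc
    obtain ⟨h1, h2⟩ := cond_eq_true hc
    rcases le_total Mi.sum ((q : ℝ) / 200) with h3 | h3
    · exact iha _ _ _ _ _ _ _ _ _ _ h1 c bx
        ⟨st.sa, h3, st.ya, st.yb, st.za, st.zb, st.Ja, st.Jb, st.Ka, st.Kb⟩
    · exact ihb _ _ _ _ _ _ _ _ _ _ h2 c bx
        ⟨h3, st.sb, st.ya, st.yb, st.za, st.zb, st.Ja, st.Jb, st.Ka, st.Kb⟩
  | sY q a b iha ihb =>
    intro s0 s1 ya0 ya1 za0 za1 J0 J1 K0 K1 hc h t g x y z Mi nj fj Mj nk fk Mk Gj Gk Wj Wk c bx st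
    have e : treeC A O P (Tr.sY q a b) s0 s1 ya0 ya1 za0 za1 J0 J1 K0 K1 = frc q fun q =>
      cond (treeC A O P a s0 s1 ya0 q za0 za1 J0 J1 K0 K1) (treeC A O P b s0 s1 q ya1 za0 za1 J0 J1 K0 K1) false :=
      rfl
    rw [e, frc_eq] at hc
    obtain ⟨h1, h2⟩ := cond_eq_true hc
    rcases le_total y ((yval P.J.ks q : ℝ) / 200) with h3 | h3
    · exact iha _ _ _ _ _ _ _ _ _ _ h1 c bx
        ⟨st.sa, st.sb, st.ya, h3, st.za, st.zb, st.Ja, st.Jb, st.Ka, st.Kb⟩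
    · exact ihb _ _ _ _ _ _ _ _ _ _ h2 c bx
        ⟨st.sa, st.sb, h3, st.yb, st.za, st.zb, st.Ja, st.Jb, st.Ka, st.Kb⟩
  | sZ q a b iha ihb =>
    intro s0 s1 ya0 ya1 za0 za1 J0 J1 K0 K1 hc h t g x y z Mi nj fj Mj nk fk Mk Gj Gk Wj Wk c bx st
    have e : treeC A O P (Tr.sZ q a b) s0 s1 ya0 ya1 za0 za1 J0 J1 K0 K1 = frc q fun q =>
      cond (treeC A O P a s0 s1 ya0 ya1 za0 q J0 J1 K0 K1) (treeC A O P b s0 s1 ya0 ya1 q za1 J0 J1 K0 K1) false :=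
      rfl
    rw [e, frc_eq] at hc
    obtain ⟨h1, h2⟩ := cond_eq_true hc
    rcases le_total z ((yval P.K.ks q : ℝ) / 200) with h3 | h3
    · exact iha _ _ _ _ _ _ _ _ _ _ h1 c bx
        ⟨st.sa, st.sb, st.ya, st.yb, st.za, h3, st.Ja, st.Jb, st.Ka, st.Kb⟩
    · exact ihb _ _ _ _ _ _ _ _ _ _ h2 c bx
        ⟨st.sa, st.sb, st.ya, st.yb, h3, st.zb, st.Ja, st.Jb, st.Ka, st.Kb⟩
  | sJ q a b iha ihb =>
    intro s0 s1 ya0 ya1 za0 za1 J0 J1 K0 K1 hc h t g x y z Mi nj fj Mj nk fk Mk Gj Gk Wj Wk c bx st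
    have e : treeC A O P (Tr.sJ q a b) s0 s1 ya0 ya1 za0 za1 J0 J1 K0 K1 = frc q fun q =>
      frc (mx J0 (Nat.succ q)) fun J0' =>
      cond (treeC A O P a s0 s1 ya0 ya1 za0 za1 J0 q K0 K1) (treeC A O P b s0 s1 ya0 ya1 za0 za1 J0' J1 K0 K1) false :=
      rfl
    rw [e, frc_eq, frc_eq] at hc
    obtain ⟨h1, h2⟩ := cond_eq_true hc
    rcases Nat.lt_or_ge q (Pk.dotN nj P.J.ks) with h3 | h3
    rotate_left
    · exact iha _ _ _ _ _ _ _ _ _ _ h1 c bx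
        ⟨st.sa, st.sb, st.ya, st.yb, st.za, st.zb, st.Ja, h3, st.Ka, st.Kb⟩
    · exact ihb _ _ _ _ _ _ _ _ _ _ h2 c bx
        ⟨st.sa, st.sb, st.ya, st.yb, st.za, st.zb, mx_le st.Ja (by
          have : Nat.succ q ≤ Pk.dotN nj P.J.ks := h3
          omega), st.Jb, st.Ka, st.Kb⟩
  | sK q a b iha ihb =>
    intro s0 s1 ya0 ya1 za0 za1 J0 J1 K0 K1 hc h t g x y z Mi nj fj Mj nk fk Mk Gj Gk Wj Wk c bx st
    have e : treeC A O P (Tr.sK q a b) s0 s1 ya0 ya1 za0 za1 J0 J1 K0 K1 = frc q fun q =>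
      frc (mx K0 (Nat.succ q)) fun K0' =>
      cond (treeC A O P a s0 s1 ya0 ya1 za0 za1 J0 J1 K0 q) (treeC A O P b s0 s1 ya0 ya1 za0 za1 J0 J1 K0' K1) false :=
      rfl
    rw [e, frc_eq, frc_eq] at hc
    obtain ⟨h1, h2⟩ := cond_eq_true hc
    rcases Nat.lt_or_ge q (Pk.dotN nk P.K.ks) with h3 | h3
    rotate_left
    · exact iha _ _ _ _ _ _ _ _ _ _ h1 c bx
        ⟨st.sa, st.sb, st.ya, st.yb, st.za, st.zb, st.Ja, st.Jb, st.Ka, h3⟩
    · exact ihb _ _ _ _ _ _ _ _ _ _ h2 c bx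
        ⟨st.sa, st.sb, st.ya, st.yb, st.za, st.zb, st.Ja, st.Jb, mx_le st.Ka (by
          have : Nat.succ q ≤ Pk.dotN nk P.K.ks := h3
          omega), st.Kb⟩

/-- A TREE EXCLUDES the reduced configurations of a pair of stages. -/
theorem tree_noRC (sp : SpAll) {A O : ℕ} (hA : 0 < A) {P : PE} (hP : P.OK A O) {X TLj TLk : ℕ} {tr : Tr}
    (h : treeC A O P tr (s0X X) (s1X X) 0 (yR X P.J.ks) 0 (yR X P.K.ks) (J0R X TLj P.H1 P.G1 P.J.ks)
      (J1R P.TCj P.H0 P.G0) (J0R X TLk P.T1 P.G1 P.K.ks) (J1R P.TCk P.T0 P.G0) = true) : NoRC X TLj TLk P := by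
  intro h t g x y z Mi nj fj Mj nk fk Mk Gj Gk Wj Wk c bx st
  exact treeC_sound sp hA hP tr _ _ _ _ _ _ _ _ _ _ (by assumption) c bx st

/-- the check of a tree from the root, all numbers evaluated first -/
noncomputable def rootC (A O X TLj TLk : ℕ) (P : PE) (tr : Tr) : Bool :=
  frc (s0X X) fun s0 => frc (s1X X) fun s1 => frc (yR X P.J.ks) fun ya1 => frc (yR X P.K.ks) fun za1 =>
  frc (J0R X TLj P.H1 P.G1 P.J.ks) fun J0 => frc (J1R P.TCj P.H0 P.G0) fun J1 =>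
  frc (J0R X TLk P.T1 P.G1 P.K.ks) fun K0 => frc (J1R P.TCk P.T0 P.G0) fun K1 =>
    treeC A O P tr s0 s1 (nat_lit 0) ya1 (nat_lit 0) za1 J0 J1 K0 K1

theorem root_noRC (sp : SpAll) {A O : ℕ} (hA : 0 < A) {P : PE} (hP : P.OK A O) {X TLj TLk : ℕ} {tr : Tr}
    (h : rootC A O X TLj TLk P tr = true) : NoRC X TLj TLk P := by
  unfold rootC at h
  simp only [frc_eq] at h
  exact tree_noRC sp hA hP h

end B1
end Pool.Agent.Lib.MP_6947cd_al
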