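import Pool.Agent.Lib.MP_6947cd_al.Y.Env
import Pool.Agent.Lib.MP_6947cd_al.Y.Tail
import Pool.Agent.Lib.MP_6947cd_al.Y.Tree

/-!
Problem MP_6947cd_al (Chollet).  CASE B, large second entry: ONE program for a box and a type, all four classes.
-/

set_option autoImplicit false
open Finset

namespace Pool.Agent.Lib.MP_6947cd_al
namespace B1

open Ent Ent.Pk Fr Fr.WT PkA

/-- the three tails which are proved (`specT30`, `specT51`, `specT70`): last knot, reserve (unit `1e-7`) -/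
structure SpT3 : Prop where
  a : SpecT ((60 : ℕ) / 200) ((2500000 : ℕ) / 10 ^ 7)
  b : SpecT ((102 : ℕ) / 200) ((2350000 : ℕ) / 10 ^ 7)
  c : SpecT ((140 : ℕ) / 200) ((2050000 : ℕ) / 10 ^ 7)

/-- the reserve for the bound `k` of the knots: `60`, `102` or `140` -/
def dT (k : ℕ) : ℕ := cond (Nat.ble k (nat_lit 60)) (nat_lit 2500000) (cond (Nat.ble k (nat_lit 102))
  (nat_lit 2350000) (nat_lit 2050000))

/-- admissible bounds of the knots -/
def okT (k : ℕ) : Bool := cond (Nat.beq k (nat_lit 60)) true (cond (Nat.beq k (nat_lit 102)) true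
  (Nat.beq k (nat_lit 140)))

lemma okT_sound (hT : SpT3) {k : ℕ} (h : okT k = true) : SpecT ((k : ℝ) / 200) ((dT k : ℝ) / 10 ^ 7) ∧
    dT k ≤ 5000000 := by
  unfold okT at h
  cases h1 : Nat.beq k 60 with
  | true =>
    have : k = 60 := Nat.eq_of_beq_eq_true h1
    subst this
    exact ⟨hT.a, by decide⟩
  | false =>
    rw [h1, cond_false] at h
    cases h2 : Nat.beq k 102 with
    | true =>
      have : k = 102 := Nat.eq_of_beq_eq_true h2
      subst this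
      exact ⟨hT.b, by decide⟩
    | false =>
      rw [h2, cond_false] at h
      have : k = 140 := Nat.eq_of_beq_eq_true h
      subst this
      exact ⟨hT.c, by decide⟩

/-- a larger bound of the other entry is harder -/
lemma TailP.mono {X b0 ot ot' del H0 H1 T0 T1 : ℕ} (h : TailP X b0 ot del H0 H1 T0 T1) (ho : ot' ≤ ot) :
    TailP X b0 ot' del H0 H1 T0 T1 := by
  intro h' t x Mi h1 h2 h3 h4 h5 h6 h7 h8 h9 h10 h11
  obtain ⟨Dh, h12, h13⟩ := h h' t x Mi h1 h2 h3 h4 h5 h6 h7 h8 h9 h10 h11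
  refine ⟨Dh, h12, le_trans ?_ h13⟩
  have h14 : (ot' : ℝ) ≤ ot := by exact_mod_cast ho
  have h15 : 0 < max Dh (1 / 1000) := lt_of_lt_of_le (by norm_num) (le_max_right _ _)
  have h16 : 4 * ((ot' : ℝ) / 200 + x + Mi.sum) * max Dh (1 / 1000)
      ≤ 4 * ((ot : ℝ) / 200 + x + Mi.sum) * max Dh (1 / 1000) :=
    mul_le_mul_of_nonneg_right (by linarith) h15.le
  linarith

/-! ### the environments of the stages -/

/-- data of a stage: environment, lower and upper bound of the total -/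
structure SD where
  E : ED
  TL : ℕ
  TC : ℕ

/-- the stages -/
noncomputable def envL (A : ℕ) (l : List SD) : (List Stg → Bool) → Bool :=
  @List.rec SD (fun _ => (List Stg → Bool) → Bool) (fun K => K [])
    (fun p _ ih K => envC A p.E fun e => ih fun L => K (⟨e, p.TL, p.TC⟩ :: L)) l

lemma envL_sound {A b0 b1 g0 g1 cf sm : ℕ} (l : List SD) : ∀ (K : List Stg → Bool),
    (∀ p ∈ l, EDOK b0 b1 g0 g1 cf sm p.E) → envL A l K = true →
    ∃ L : List Stg, K L = true ∧ ∀ s ∈ L, s.e.OK A b0 b1 g0 g1 cf ∧ KnP b0 sm s.e.ks s.e.Ps := by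
  induction l with
  | nil => intro K _ h; exact ⟨[], h, fun s hs => absurd hs (by simp)⟩
  | cons p l ih =>
    intro K hE h
    have e : envL A (p :: l) K = envC A p.E fun e => envL A l fun L => K (⟨e, p.TL, p.TC⟩ :: L) := rfl
    rw [e] at h
    obtain ⟨e, h1, h2, h3, -⟩ := envC_sound (hE p List.mem_cons_self) h
    obtain ⟨L, h4, h5⟩ := ih _ (fun q hq => hE q (List.mem_cons_of_mem _ hq)) h1
    refine ⟨_, h4, fun s hs => ?_⟩
    rcases List.mem_cons.mp hs with rfl | hs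
    · exact ⟨h2, h3⟩
    · exact h5 s hs

/-- the check of the stages -/
noncomputable def stgC (k : ℕ) (L : List Stg) : Bool :=
  allM (fun s => cond (cond (Nat.beq s.TL (nat_lit 0)) true (Nat.beq s.e.u (nat_lit 1)))
    (cond (Nat.ble s.TC (nat_lit 1480)) (Nat.ble (topN s.e.ks) k) false) false) L

lemma stgC_sound {k : ℕ} {L : List Stg} (h : stgC k L = true) :
    ∀ s ∈ L, (s.TL = 0 ∨ s.e.u = 1) ∧ s.TC ≤ 1480 ∧ topN s.e.ks ≤ k := by
  intro s hs
  have h1 := allM_sound _ _ h s hs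
  obtain ⟨h2, h3⟩ := cond_eq_true h1
  obtain ⟨h4, h5⟩ := cond_eq_true h3
  refine ⟨?_, Nat.le_of_ble_eq_true h4, Nat.le_of_ble_eq_true h5⟩
  cases hb : Nat.beq s.TL 0 with
  | true => exact Or.inl (Nat.eq_of_beq_eq_true hb)
  | false =>
    rw [hb, cond_false] at h2
    exact Or.inr (Nat.eq_of_beq_eq_true h2)

/-! ### the pairs of stages -/

/-- one stage of the row `j`, all the stages of the row `k` -/
noncomputable def pairC (A O X : ℕ) (bj bk : Bool) (m tl H0 H1 T0 T1 G0 G1 X0 X1 : ℕ) (cI : List (ℕ × ℕ × ℕ))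
    (sj : Stg) (Lk : List Stg) : List Tr → Bool :=
  @List.rec Stg (fun _ => List Tr → Bool) (fun _ => true)
    (fun sk _ ih trs => @List.rec Tr (fun _ => Bool) false (fun tr trs' _ =>
      cond (rootC A O X sj.TL sk.TL ⟨bj, bk, m, tl, sj.TC, sk.TC, H0, H1, T0, T1, G0, G1, X0, X1, cI, sj.e, sk.e⟩ tr)
        (ih trs') false) trs) Lk

/-- THE CHECK OF A CLASS: all the pairs of stages -/
noncomputable def clsC (A O X : ℕ) (bj bk : Bool) (m tl H0 H1 T0 T1 G0 G1 X0 X1 : ℕ) (cI : List (ℕ × ℕ × ℕ))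
    (Lj Lk : List Stg) : List (List Tr) → Bool :=
  @List.rec Stg (fun _ => List (List Tr) → Bool) (fun _ => true)
    (fun sj _ ih trs => @List.rec (List Tr) (fun _ => Bool) false (fun tr trs' _ =>
      cond (pairC A O X bj bk m tl H0 H1 T0 T1 G0 G1 X0 X1 cI sj Lk tr) (ih trs') false) trs) Lj

lemma pairC_sound {A O X : ℕ} {bj bk : Bool} {H0 H1 T0 T1 G0 G1 : ℕ} {cI : List (ℕ × ℕ × ℕ)}
    {sj : Stg} (Lk : List Stg) : ∀ trs : List Tr,
    pairC A O X bj bk (mX X) (tlX X) H0 H1 T0 T1 G0 G1 (x0X X) (x1X X) cI sj Lk trs = true →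
    ∀ sk ∈ Lk, ∃ tr, rootC A O X sj.TL sk.TL (mkPE bj bk X H0 H1 T0 T1 G0 G1 cI sj sk) tr = true := by
  induction Lk with
  | nil => intro trs _ sk hs; exact absurd hs (by simp)
  | cons sk Lk ih =>
    intro trs h sk' hs
    cases trs with
    | nil => exact absurd h (by simp [pairC])
    | cons tr trs =>
      have e : pairC A O X bj bk (mX X) (tlX X) H0 H1 T0 T1 G0 G1 (x0X X) (x1X X) cI sj (sk :: Lk) (tr :: trs)
        = cond (rootC A O X sj.TL sk.TL (mkPE bj bk X H0 H1 T0 T1 G0 G1 cI sj sk) tr)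
          (pairC A O X bj bk (mX X) (tlX X) H0 H1 T0 T1 G0 G1 (x0X X) (x1X X) cI sj Lk trs) false := rfl
      rw [e] at h
      obtain ⟨h1, h2⟩ := cond_eq_true h
      rcases List.mem_cons.mp hs with rfl | hs
      · exact ⟨tr, h1⟩
      · exact ih trs h2 sk' hs

lemma clsC_sound {A O X : ℕ} {bj bk : Bool} {H0 H1 T0 T1 G0 G1 : ℕ} {cI : List (ℕ × ℕ × ℕ)}
    {Lk : List Stg} (Lj : List Stg) : ∀ trs : List (List Tr),
    clsC A O X bj bk (mX X) (tlX X) H0 H1 T0 T1 G0 G1 (x0X X) (x1X X) cI Lj Lk trs = true →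
    ∀ sj ∈ Lj, ∀ sk ∈ Lk, ∃ tr, rootC A O X sj.TL sk.TL (mkPE bj bk X H0 H1 T0 T1 G0 G1 cI sj sk) tr = true := by
  induction Lj with
  | nil => intro trs _ sj hs; exact absurd hs (by simp)
  | cons sj Lj ih =>
    intro trs h sj' hs
    cases trs with
    | nil => exact absurd h (by simp [clsC])
    | cons tr trs =>
      have e : clsC A O X bj bk (mX X) (tlX X) H0 H1 T0 T1 G0 G1 (x0X X) (x1X X) cI (sj :: Lj) Lk (tr :: trs)
        = cond (pairC A O X bj bk (mX X) (tlX X) H0 H1 T0 T1 G0 G1 (x0X X) (x1X X) cI sj Lk tr)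
          (clsC A O X bj bk (mX X) (tlX X) H0 H1 T0 T1 G0 G1 (x0X X) (x1X X) cI Lj Lk trs) false := rfl
      rw [e] at h
      obtain ⟨h1, h2⟩ := cond_eq_true h
      rcases List.mem_cons.mp hs with rfl | hs
      · exact pairC_sound Lk tr h1
      · exact ih trs h2 sj' hs

/-! ### the box -/

/-- numeric conditions of a box -/
noncomputable def numC (A O X H0 H1 T0 T1 G0 G1 : ℕ) : Bool :=
  cond (Nat.ble (nat_lit 1) A) (cond (Nat.ble (nat_lit 1) O) (cond (Nat.ble X (nat_lit 4))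
    (cond (Nat.ble (nat_lit 170) T0) (cond (Nat.ble T0 H0) (cond (Nat.ble H0 H1) (cond (Nat.ble H1 (nat_lit 200))
      (cond (Nat.ble T0 T1) (cond (Nat.ble T1 (nat_lit 200)) (cond (Nat.ble G0 G1) (Nat.ble G1 (nat_lit 200))
        false) false) false) false) false) false) false) false) false) false

/-- the numeric conditions -/
structure Num (A O X H0 H1 T0 T1 G0 G1 : ℕ) : Prop where
  A : 0 < A
  O : 0 < O
  X : X < 5
  t0 : 170 ≤ T0
  th : T0 ≤ H0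
  h01 : H0 ≤ H1
  h1 : H1 ≤ 200
  t01 : T0 ≤ T1
  t1 : T1 ≤ 200
  g01 : G0 ≤ G1
  g1 : G1 ≤ 200

lemma numC_sound {A O X H0 H1 T0 T1 G0 G1 : ℕ} (h : numC A O X H0 H1 T0 T1 G0 G1 = true) :
    Num A O X H0 H1 T0 T1 G0 G1 := by
  unfold numC at h
  obtain ⟨h1, h⟩ := cond_eq_true h
  obtain ⟨h2, h⟩ := cond_eq_true h
  obtain ⟨h3, h⟩ := cond_eq_true h
  obtain ⟨h4, h⟩ := cond_eq_true h
  obtain ⟨h5, h⟩ := cond_eq_true h
  obtain ⟨h6, h⟩ := cond_eq_true h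
  obtain ⟨h7, h⟩ := cond_eq_true h
  obtain ⟨h8, h⟩ := cond_eq_true h
  obtain ⟨h9, h⟩ := cond_eq_true h
  obtain ⟨h10, h11⟩ := cond_eq_true h
  exact ⟨Nat.le_of_ble_eq_true h1, Nat.le_of_ble_eq_true h2, Nat.lt_succ_of_le (Nat.le_of_ble_eq_true h3),
    Nat.le_of_ble_eq_true h4, Nat.le_of_ble_eq_true h5, Nat.le_of_ble_eq_true h6, Nat.le_of_ble_eq_true h7,
    Nat.le_of_ble_eq_true h8, Nat.le_of_ble_eq_true h9, Nat.le_of_ble_eq_true h10, Nat.le_of_ble_eq_true h11⟩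

/-- the problem data of a pair of stages are correct -/
lemma pe_ok {A O X H0 H1 T0 T1 G0 G1 : ℕ} (hN : Num A O X H0 H1 T0 T1 G0 G1) {cI : List (ℕ × ℕ × ℕ)}
    (hc : TailM.CI (mX X) H0 H1 T0 T1 (x0X X) (x1X X) cI) {bj bk : Bool} {sj sk : Stg}
    (hj : sj.e.OK A H0 H1 G0 G1 (cF bj)) (hk : sk.e.OK A T0 T1 G0 G1 (cF bk)) :
    (mkPE bj bk X H0 H1 T0 T1 G0 G1 cI sj sk).OK A O := by
  have hX := hN.X
  have hm : 0 < mX X ∧ mX X ≤ 200 ∧ x0X X ≤ x1X X ∧ x1X X ≤ 200 := by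
    interval_cases X <;> decide
  exact ⟨hm.1, hm.2.1, hN.t0.trans hN.th, hN.h01, hN.h1, hN.t0, hN.t01, hN.t1, hN.th, hN.g01, hN.g1, hm.2.2.1,
    hm.2.2.2, hc.c, hc.l, hj, hk⟩

/-- data of a box and a type: corner records of the row `i`; bounds of the knots for the tails (`60`, `102`, `140`);
stages of the payers `Pj`, `Pk`, and of the bad rows `Bj`, `Bk`, all of them up to 1480; segments of the tails; nodes
of the large rests; the trees of the classes `(bj, bk)`, nested lists over the stages of `j` and of `k` -/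
structure BX where
  cI : List (ℕ × ℕ × ℕ)
  kj : ℕ
  kk : ℕ
  Pj : List SD
  Pk : List SD
  Bj : List SD
  Bk : List SD
  tj : List (ℕ × List ℕ)
  tk : List (ℕ × List ℕ)
  nt : List ℕ
  c00 : List (List Tr)
  c01 : List (List Tr)
  c10 : List (List Tr)
  c11 : List (List Tr)

/-- the data are correct -/
structure BX.OK (X H0 H1 T0 T1 G0 G1 : ℕ) (B : BX) : Prop where
  cI : TailM.CI (mX X) H0 H1 T0 T1 (x0X X) (x1X X) B.cI
  Pj : ∀ p ∈ B.Pj, EDOK H0 H1 G0 G1 5000000 (mX X) p.E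
  Pk : ∀ p ∈ B.Pk, EDOK T0 T1 G0 G1 5000000 (mX X) p.E
  Bj : ∀ p ∈ B.Bj, EDOK H0 H1 G0 G1 0 (mX X) p.E
  Bk : ∀ p ∈ B.Bk, EDOK T0 T1 G0 G1 0 (mX X) p.E

/-- THE CHECK of a box and a type, all four classes -/
noncomputable def boxC (A O X H0 H1 T0 T1 G0 G1 : ℕ) (B : BX) : Bool :=
  @BX.rec (fun _ => Bool) (fun cI kj kk Pj Pk Bj Bk tj tk nt c00 c01 c10 c11 =>
    cond (numC A O X H0 H1 T0 T1 G0 G1) (cond (okT kj) (cond (okT kk)
    (frc (mX X) fun m => frc (tlX X) fun tl => frc (x0X X) fun X0 => frc (x1X X) fun X1 =>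
     frc (s0X X) fun s0 => frc (s1X X) fun s1 => frc (s2X X) fun s2 =>
    cond (tailC m X1 H0 T1 (dT kj) cI s1 tj s0) (cond (tailC m X1 T0 H1 (dT kk) cI s1 tk s0)
    (cond (bigC m s1 s2 cI nt)
    (envL A Pj fun Lj => envL A Pk fun Lk => envL A Bj fun Mj => envL A Bk fun Mk =>
     cond (stgC kj Lj) (cond (stgC kk Lk) (cond (stgC kj Mj) (cond (stgC kk Mk)
     (cond (chS (nat_lit 1480) (nat_lit 0) Lj) (cond (chS (nat_lit 1480) (nat_lit 0) Lk)
     (cond (chS (nat_lit 1480) (nat_lit 0) Mj) (cond (chS (nat_lit 1480) (nat_lit 0) Mk)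
     (cond (clsC A O X false false m tl H0 H1 T0 T1 G0 G1 X0 X1 cI Lj Lk c00)
     (cond (clsC A O X false true m tl H0 H1 T0 T1 G0 G1 X0 X1 cI Lj Mk c01)
     (cond (clsC A O X true false m tl H0 H1 T0 T1 G0 G1 X0 X1 cI Mj Lk c10)
       (clsC A O X true true m tl H0 H1 T0 T1 G0 G1 X0 X1 cI Mj Mk c11)
       false) false) false) false) false) false) false) false) false) false) false) false) false) false)
       false) false) false) B

/-- the stages of a row -/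
lemma rowSt {A X b0 b1 g0 g1 k cf : ℕ} {L : List Stg}
    (hL : ∀ s ∈ L, s.e.OK A b0 b1 g0 g1 cf ∧ KnP b0 (mX X) s.e.ks s.e.Ps) (h1 : stgC k L = true)
    (h3 : chS 1480 0 L = true) :
    L ≠ [] ∧ (∀ s ∈ L, s.OK A b0 b1 g0 g1 cf (mX X)) ∧ chS 1480 0 L = true ∧ ∀ s ∈ L, topN s.e.ks ≤ k := by
  have h4 := stgC_sound h1
  refine ⟨?_, ?_, h3, fun s hs => (h4 s hs).2.2⟩
  · rintro rfl
    exact absurd h3 (by decide)
  · intro s hs
    obtain ⟨h5, h6, -⟩ := h4 s hs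
    exact ⟨(hL s hs).1, (hL s hs).2, h5, h6⟩

/-- SOUNDNESS of the check of a box and a type. -/
theorem boxC_sound (sp : SpAll) (st : SpecStg) (hT : SpT3) {A O X H0 H1 T0 T1 G0 G1 : ℕ} {B : BX}
    (hB : B.OK X H0 H1 T0 T1 G0 G1) (h : boxC A O X H0 H1 T0 T1 G0 G1 B = true) (bj bk : Bool) :
    Prob bj bk H0 H1 T0 T1 G0 G1 X := by
  obtain ⟨cI, kj, kk, Pj, Pk, Bj, Bk, tj, tk, nt, c00, c01, c10, c11⟩ := B
  obtain ⟨hc, hPj, hPk, hBj, hBk⟩ := hB
  simp only at hc hPj hPk hBj hBk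
  have e : boxC A O X H0 H1 T0 T1 G0 G1 ⟨cI, kj, kk, Pj, Pk, Bj, Bk, tj, tk, nt, c00, c01, c10, c11⟩ =
    cond (numC A O X H0 H1 T0 T1 G0 G1) (cond (okT kj) (cond (okT kk)
    (frc (mX X) fun m => frc (tlX X) fun tl => frc (x0X X) fun X0 => frc (x1X X) fun X1 =>
     frc (s0X X) fun s0 => frc (s1X X) fun s1 => frc (s2X X) fun s2 =>
    cond (tailC m X1 H0 T1 (dT kj) cI s1 tj s0) (cond (tailC m X1 T0 H1 (dT kk) cI s1 tk s0)
    (cond (bigC m s1 s2 cI nt)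
    (envL A Pj fun Lj => envL A Pk fun Lk => envL A Bj fun Mj => envL A Bk fun Mk =>
     cond (stgC kj Lj) (cond (stgC kk Lk) (cond (stgC kj Mj) (cond (stgC kk Mk)
     (cond (chS (nat_lit 1480) (nat_lit 0) Lj) (cond (chS (nat_lit 1480) (nat_lit 0) Lk)
     (cond (chS (nat_lit 1480) (nat_lit 0) Mj) (cond (chS (nat_lit 1480) (nat_lit 0) Mk)
     (cond (clsC A O X false false m tl H0 H1 T0 T1 G0 G1 X0 X1 cI Lj Lk c00)
     (cond (clsC A O X false true m tl H0 H1 T0 T1 G0 G1 X0 X1 cI Lj Mk c01)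
     (cond (clsC A O X true false m tl H0 H1 T0 T1 G0 G1 X0 X1 cI Mj Lk c10)
       (clsC A O X true true m tl H0 H1 T0 T1 G0 G1 X0 X1 cI Mj Mk c11)
       false) false) false) false) false) false) false) false) false) false) false) false) false) false)
       false) false) false := rfl
  rw [e] at h
  obtain ⟨h1, h⟩ := cond_eq_true h
  obtain ⟨h2, h⟩ := cond_eq_true h
  obtain ⟨h3, h⟩ := cond_eq_true h
  simp only [frc_eq] at h
  obtain ⟨h4, h⟩ := cond_eq_true h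
  obtain ⟨h5, h⟩ := cond_eq_true h
  obtain ⟨h6, h⟩ := cond_eq_true h
  obtain ⟨Lj, h, oLj⟩ := envL_sound Pj _ hPj h
  obtain ⟨Lk, h, oLk⟩ := envL_sound Pk _ hPk h
  obtain ⟨Mj, h, oMj⟩ := envL_sound Bj _ hBj h
  obtain ⟨Mk, h, oMk⟩ := envL_sound Bk _ hBk h
  obtain ⟨h7, h⟩ := cond_eq_true h
  obtain ⟨h8, h⟩ := cond_eq_true h
  obtain ⟨h9, h⟩ := cond_eq_true h
  obtain ⟨h10, h⟩ := cond_eq_true h
  obtain ⟨h11, h⟩ := cond_eq_true h
  obtain ⟨h12, h⟩ := cond_eq_true h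
  obtain ⟨h13, h⟩ := cond_eq_true h
  obtain ⟨h14, h⟩ := cond_eq_true h
  obtain ⟨h15, h⟩ := cond_eq_true h
  obtain ⟨h16, h⟩ := cond_eq_true h
  obtain ⟨h17, h18⟩ := cond_eq_true h
  have hN := numC_sound h1
  obtain ⟨sTj, dTj⟩ := okT_sound hT h2
  obtain ⟨sTk, dTk⟩ := okT_sound hT h3
  have hH0 := hN.t0.trans hN.th
  have tPj := tailC_sound sp.R hc hN.X hH0 hN.h01 hN.h1 hN.t0 hN.t01 hN.t1
    (show H0 ≤ 800 by have := hN.h01; have := hN.h1; omega) h4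
  have tPk := tailC_sound sp.R hc hN.X hH0 hN.h01 hN.h1 hN.t0 hN.t01 hN.t1
    (show T0 ≤ 800 by have := hN.t01; have := hN.t1; omega) h5
  have big := bigC_sound sp.R hc hN.X hH0 hN.h01 hN.h1 hN.t0 hN.t01 hN.t1 h6
  have pj := rowSt oLj h7 h11
  have pk := rowSt oLk h8 h12
  have mj := rowSt oMj h9 h13
  have mk := rowSt oMk h10 h14
  have key : ∀ (Rj Rk : List Stg), (Rj ≠ [] ∧ (∀ s ∈ Rj, s.OK A H0 H1 G0 G1 (cF bj) (mX X)) ∧ chS 1480 0 Rj = true ∧
      ∀ s ∈ Rj, topN s.e.ks ≤ kj) → (Rk ≠ [] ∧ (∀ s ∈ Rk, s.OK A T0 T1 G0 G1 (cF bk) (mX X)) ∧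
      chS 1480 0 Rk = true ∧ ∀ s ∈ Rk, topN s.e.ks ≤ kk) →
      (∀ sj ∈ Rj, ∀ sk ∈ Rk, ∃ tr, rootC A O X sj.TL sk.TL (mkPE bj bk X H0 H1 T0 T1 G0 G1 cI sj sk) tr = true) →
      Prob bj bk H0 H1 T0 T1 G0 G1 X := by
    intro Rj Rk rj rk hrt
    refine st A O bj bk X H0 H1 T0 T1 G0 G1 kj kk (dT kj) (dT kk) cI Rj Rk hN.A hN.O hN.X hN.t0 hN.th hN.h01 hN.h1
      hN.t01 hN.t1 hN.g01 hN.g1 rj.1 rk.1 rj.2.1 rk.2.1 rj.2.2.1 rk.2.2.1 rj.2.2.2 rk.2.2.2 sTj sTk dTj dTk big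
      ?_ ?_ ?_
    · intro _
      exact tPj.mono (by cases bk <;> simp)
    · intro _
      exact tPk.mono (by cases bj <;> simp)
    · intro sj hsj sk hsk
      obtain ⟨tr, htr⟩ := hrt sj hsj sk hsk
      exact root_noRC sp hN.A (pe_ok hN hc (rj.2.1 sj hsj).e (rk.2.1 sk hsk).e) htr
  cases bj <;> cases bk
  · exact key Lj Lk pj pk (clsC_sound _ _ h15)
  · exact key Lj Mk pj mk (clsC_sound _ _ h16)
  · exact key Mj Lk mj pk (clsC_sound _ _ h17)
  · exact key Mj Mk mj mk (clsC_sound _ _ h18)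

end B1
end Pool.Agent.Lib.MP_6947cd_al
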