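import Pool.Agent.Lib.MP_6947cd_al.Y.Bits

/-!
Problem MP_6947cd_al (Chollet).  PACKED CHECK of all the cells of a row: the masks and the domain of the cells.
-/

set_option autoImplicit false
open Finset

namespace Pool.Agent.Lib.MP_6947cd_al
namespace PkA

open Ent Ent.Pk Fr Fr.WT B1

/-- sum over the mask of the values at the lower ends of the pieces -/
def lowN : ℕ → List ℕ → List Bool → ℕ
  | va, v :: vs, f :: fs => (if f = true then va else 0) + lowN v vs fs
  | _, _, _ => 0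

/-- sum over the mask of the values at the upper ends of the pieces -/
def uppN : List ℕ → List Bool → ℕ
  | v :: vs, f :: fs => (if f = true then v else 0) + uppN vs fs
  | _, _ => 0

/-- the masks: offsets of the corners, lower ends (entries, prices), upper ends -/
def mm : List ℕ → List ℕ → List ℕ → ℕ → ℕ → List (List (ℕ × ℕ) × ℕ × ℕ × ℕ)
  | r :: rd, k :: ks, p :: Ps, kp, pp => (mm rd ks Ps k p).flatMap fun m =>
      [(m.1.flatMap fun t => [(0, t.1 + r * t.2)], 0 + m.2.1, 0 + m.2.2.1, 0 + m.2.2.2),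
       (m.1.flatMap fun t => [(1, t.1 + r * t.2), (0, t.1 + 1 + r * t.2)],
        kp + m.2.1, pp + m.2.2.1, k + m.2.2.2)]
  | _, _, _, _, _ => [([(0, 0)], 0, 0, 0)]

lemma mm_mem (rd : List ℕ) : ∀ (ks Ps : List ℕ) (fs : List Bool) (kp pp : ℕ), ks.length = rd.length →
    Ps.length = rd.length → fs.length = rd.length →
    (coff rd fs, lowN kp ks fs, lowN pp Ps fs, uppN ks fs) ∈ mm rd ks Ps kp pp := by
  induction rd with
  | nil =>
    intro ks Ps fs kp pp h1 h2 h3
    have h1' := List.eq_nil_of_length_eq_zero h1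
    have h2' := List.eq_nil_of_length_eq_zero h2
    have h3' := List.eq_nil_of_length_eq_zero h3
    subst h1' h2' h3'
    simp [coff, lowN, uppN, mm]
  | cons r rd ih =>
    intro ks Ps fs kp pp h1 h2 h3
    cases ks with
    | nil => simp at h1
    | cons k ks =>
      cases Ps with
      | nil => simp at h2
      | cons p Ps =>
        cases fs with
        | nil => simp at h3
        | cons f fs =>
          have := ih ks Ps fs k p (by simpa using h1) (by simpa using h2) (by simpa using h3)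
          rw [mm, List.mem_flatMap]
          refine ⟨_, this, ?_⟩
          cases f with
          | false =>
            refine List.mem_cons.mpr (Or.inl ?_)
            simp [coff, lowN, uppN]
          | true =>
            refine List.mem_cons.mpr (Or.inr (List.mem_singleton.mpr ?_))
            simp [coff, lowN, uppN]

/-- the intersection of the shifts -/
noncomputable def ands (P : ℕ) (offs : List (ℕ × ℕ)) : ℕ → (ℕ → Bool) → Bool :=
  @List.rec (ℕ × ℕ) (fun _ => ℕ → (ℕ → Bool) → Bool) (fun A k => k A)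
    (fun o _ ih A k => frc (Nat.land A (Nat.shiftRight P (Nat.mul (nat_lit 64) o.2))) fun A' => ih A' k) offs

lemma ands_sound (P : ℕ) (offs : List (ℕ × ℕ)) : ∀ A k, ands P offs A k = true →
    ∃ A', k A' = true ∧ ∀ i, A'.testBit (64 * i + 63) = true → A.testBit (64 * i + 63) = true ∧
      ∀ o ∈ offs, P.testBit (64 * (i + o.2) + 63) = true := by
  induction offs with
  | nil => intro A k h; exact ⟨A, h, fun i hi => ⟨hi, fun o ho => absurd ho (by simp)⟩⟩
  | cons o offs ih =>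
    intro A k h
    have e : ands P (o :: offs) A k = frc (Nat.land A (Nat.shiftRight P (Nat.mul (nat_lit 64) o.2)))
      fun A' => ands P offs A' k := rfl
    rw [e, frc_eq] at h
    obtain ⟨A', h1, h2⟩ := ih _ _ h
    refine ⟨A', h1, fun i hi => ?_⟩
    obtain ⟨h3, h4⟩ := h2 i hi
    obtain ⟨h5, h6⟩ := land_bit h3
    refine ⟨h5, fun o' ho' => ?_⟩
    rcases List.mem_cons.mp ho' with rfl | ho'
    · have e2 : (Nat.shiftRight P (Nat.mul (nat_lit 64) o'.2)).testBit (64 * i + 63)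
          = P.testBit (64 * (i + o'.2) + 63) := by
        show (P >>> (64 * o'.2)).testBit (64 * i + 63) = _
        rw [Nat.testBit_shiftRight]
        congr 1
        ring
      rw [← e2]
      exact h6
    · exact h4 o' ho'

/-- the check of a mask -/
noncomputable def mskC (HH ONE R0 X0 P Q c0 TC p1 lb u ub : ℕ) (m : List (ℕ × ℕ) × ℕ × ℕ × ℕ) : Bool :=
  cond (Nat.ble (Nat.add c0 m.2.1) TC) (cond (Nat.ble m.2.2.1 p1)
    (frc (Nat.land (Nat.land (Nat.land (Nat.land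
        (Nat.sub (Nat.add HH (Nat.mul (Nat.sub TC (Nat.add c0 m.2.1)) ONE)) R0)
        (Nat.sub (Nat.add HH (Nat.mul (Nat.sub p1 m.2.2.1) ONE)) X0))
        (Nat.sub (Nat.add HH R0) (Nat.mul (Nat.sub lb (Nat.mul u m.2.2.2)) ONE)))
        (Nat.sub (Nat.add HH (Nat.mul ub ONE)) R0)) HH) fun D =>
      ands P m.1 HH fun A => ands Q m.1 HH fun B => Nat.beq (Nat.land D (Nat.lor A B)) D) true) true

lemma hh_bit {N i : ℕ} (hi : i < N) : (pk (fun _ => 2 ^ 63) N).testBit (64 * i + 63) = true := by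
  rw [testBit_pk _ _ (fun _ _ => by norm_num) i 63 hi (by norm_num)]
  exact Nat.testBit_two_pow_self

theorem mskC_sound (N : ℕ) (r x : ℕ → ℕ) (P Q c0 TC p1 lb u ub : ℕ) (m : List (ℕ × ℕ) × ℕ × ℕ × ℕ)
    (hr : ∀ i < N, r i < 2 ^ 62) (hx : ∀ i < N, x i < 2 ^ 62) (hTC : TC < 2 ^ 62) (hp : p1 < 2 ^ 62)
    (hlb : lb < 2 ^ 62) (hub : ub < 2 ^ 62)
    (h : mskC (pk (fun _ => 2 ^ 63) N) (pk (fun _ => 1) N) (pk r N) (pk x N) P Q c0 TC p1 lb u ub m = true)
    (i : ℕ) (hi : i < N) (h1 : r i + c0 + m.2.1 ≤ TC) (h2 : x i + m.2.2.1 ≤ p1)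
    (h3 : lb ≤ r i + u * m.2.2.2) (h4 : r i ≤ ub) :
    (∀ o ∈ m.1, P.testBit (64 * (i + o.2) + 63) = true) ∨ (∀ o ∈ m.1, Q.testBit (64 * (i + o.2) + 63) = true) := by
  unfold mskC at h
  rw [Nat.ble_eq_true_of_le (show Nat.add c0 m.2.1 ≤ TC by show c0 + m.2.1 ≤ TC; omega), cond_true,
    Nat.ble_eq_true_of_le (show m.2.2.1 ≤ p1 by omega), cond_true, frc_eq] at h
  obtain ⟨A, h, hA⟩ := ands_sound _ _ _ _ h
  obtain ⟨B, h, hB⟩ := ands_sound _ _ _ _ h
  have hbeq := Nat.eq_of_beq_eq_true h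
  have hc : ∀ c, Nat.mul c (pk (fun _ => 1) N) = pk (fun _ => c) N := by
    intro c
    show c * pk (fun _ => 1) N = _
    rw [pk_mul]
    simp
  simp only [hc] at hbeq
  have b1 := (cmp_bit N (fun _ => Nat.sub TC (Nat.add c0 m.2.1)) r
    (fun i _ => by
      have : Nat.sub TC (Nat.add c0 m.2.1) ≤ TC := Nat.sub_le _ _
      show Nat.sub TC (Nat.add c0 m.2.1) < 2 ^ 63
      omega) (fun i hi => by have := hr i hi; omega) i hi).mpr
    (show r i ≤ TC - (c0 + m.2.1) by omega)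
  have b2 := (cmp_bit N (fun _ => Nat.sub p1 m.2.2.1) x
    (fun i _ => by
      have : Nat.sub p1 m.2.2.1 ≤ p1 := Nat.sub_le _ _
      show Nat.sub p1 m.2.2.1 < 2 ^ 63
      omega) (fun i hi => by have := hx i hi; omega) i hi).mpr
    (show x i ≤ p1 - m.2.2.1 by omega)
  have b3 := (cmp_bit N r (fun _ => Nat.sub lb (Nat.mul u m.2.2.2))
    (fun i hi => by have := hr i hi; omega) (fun i _ => by
      have : Nat.sub lb (Nat.mul u m.2.2.2) ≤ lb := Nat.sub_le _ _
      show Nat.sub lb (Nat.mul u m.2.2.2) ≤ 2 ^ 63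
      omega) i hi).mpr (show lb - u * m.2.2.2 ≤ r i by omega)
  have b4 := (cmp_bit N (fun _ => ub) r (fun _ _ => by omega) (fun i hi => by have := hr i hi; omega) i hi).mpr h4
  have b5 := hh_bit hi
  have hD := congrArg (fun t => Nat.testBit t (64 * i + 63)) hbeq
  beta_reduce at hD
  have eA : ∀ a b : ℕ, Nat.land a b = a &&& b := fun _ _ => rfl
  have eO : ∀ a b : ℕ, Nat.lor a b = a ||| b := fun _ _ => rfl
  have eS : ∀ a b : ℕ, Nat.sub a b = a - b := fun _ _ => rfl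
  have eP : ∀ a b : ℕ, Nat.add a b = a + b := fun _ _ => rfl
  simp only [eA, eO, eS, eP, Nat.testBit_and, Nat.testBit_or] at hD b1 b2 b3 b4
  rw [b1, b2, b3, b4, b5] at hD
  simp only [Bool.and_true, Bool.true_and] at hD
  rcases Bool.or_eq_true _ _ |>.mp hD with h5 | h5
  · exact Or.inl (hA i h5).2
  · exact Or.inr (hB i h5).2

/-- all members -/
noncomputable def allM {α : Type} (f : α → Bool) (ms : List α) : Bool :=
  @List.rec α (fun _ => Bool) true (fun m _ ih => cond (f m) ih false) ms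

lemma allM_sound {α : Type} (f : α → Bool) (ms : List α) (h : allM f ms = true) : ∀ m ∈ ms, f m = true := by
  induction ms with
  | nil => intro m hm; exact absurd hm (by simp)
  | cons a ms ih =>
    have e : allM f (a :: ms) = cond (f a) (allM f ms) false := rfl
    rw [e] at h
    obtain ⟨h1, h2⟩ := cond_eq_true h
    intro m hm
    rcases List.mem_cons.mp hm with rfl | hm
    · exact h1
    · exact ih h2 m hm

/-- THE CHECK OF A ROW: eight corners of the box `(b, g, y)`, all the cells. -/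
noncomputable def sideC (ms : List (List (ℕ × ℕ) × ℕ × ℕ × ℕ)) (HH ONE a4 b4 mu Om X0 R0 bX bO d c0 TC p1 lb u ub
    e0 L0 A0 e1 L1 A1 : ℕ) (tabs : List (ℕ × ℕ)) (rs : List ℕ) : Bool :=
  cond (Nat.ble (Nat.add (Nat.add (Nat.add TC p1) (Nat.add lb ub)) d) (nat_lit 1152921504606846976))
  (frc (Nat.mul mu X0) fun muX =>
    frc (Nat.add (Nat.mul b4 (nat_lit 4294967296)) (Nat.mul mu bX)) fun bR =>
    frc (Nat.add (Nat.mul a4 (nat_lit 4294967296)) bO) fun bL =>
    crn1 HH ONE a4 b4 muX Om d bR bL e0 L0 A0 tabs rs HH HH fun rs' P Q =>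
    crn1 HH ONE a4 b4 muX Om d bR bL e1 L1 A1 tabs rs' P Q fun _ P' Q' =>
      allM (mskC HH ONE R0 X0 P' Q' c0 TC p1 lb u ub) ms) false

lemma dig_lt (rd : List ℕ) : ∀ i, i < prd rd → List.Forall₂ (fun n r => n < r) (CA.dig rd i) rd := by
  induction rd with
  | nil => intro i _; exact List.Forall₂.nil
  | cons r rd ih =>
    intro i hi
    have hi' : i < r * prd rd := hi
    have hr : 0 < r := by
      rcases Nat.eq_zero_or_pos r with h | h
      · rw [h, Nat.zero_mul] at hi'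
        exact absurd hi' (Nat.not_lt_zero _)
      · exact h
    refine List.Forall₂.cons (Nat.mod_lt _ hr) (ih _ ?_)
    rw [Nat.div_lt_iff_lt_mul hr, mul_comm]
    exact hi'

lemma dot_le_rd (rd cs : List ℕ) (i : ℕ) (hi : i < prd rd) : Pk.dotN (CA.dig rd i) cs ≤ Pk.dotN rd cs :=
  Pk.dotN_mono cs _ _ ((dig_lt rd i hi).imp fun _ _ h => le_of_lt h)

/-- SOUNDNESS of the check of a row. -/
theorem sideC_sound (rd ks Ps Oms Ns : List ℕ) (hcnt : CntOK rd Ns) (hk : ks.length = rd.length)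
    (hP : Ps.length = rd.length) (a4 b4 mu d c0 TC p1 lb u ub e0 L0 A0 e1 L1 A1 : ℕ) (tabs : List (ℕ × ℕ))
    (rs : List ℕ) (hne : tabs ≠ []) (hs : SmT (prd rd) tabs) (hX : Pk.dotN rd Ps < 2 ^ 62)
    (hR : Pk.dotN rd ks < 2 ^ 62)
    (h : sideC (mm rd ks Ps 0 0) (pk (fun _ => 2 ^ 63) (prd rd)) (pk (fun _ => 1) (prd rd)) a4 b4 mu
      (linC Oms Ns) (linC Ps Ns) (linC ks Ns) (Pk.dotN rd Ps) (Pk.dotN rd Oms) d c0 TC p1 lb u ub
      e0 L0 A0 e1 L1 A1 tabs rs = true)
    (ns : List ℕ) (fs : List Bool) (hns : CA.OkD rd ns) (hfs : fs.length = rd.length)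
    (h1 : Pk.dotN ns ks + c0 + lowN 0 ks fs ≤ TC) (h2 : Pk.dotN ns Ps + lowN 0 Ps fs ≤ p1)
    (h3 : lb ≤ Pk.dotN ns ks + u * uppN ks fs) (h4 : Pk.dotN ns ks ≤ ub) :
    (∀ o ∈ coff rd fs, LineAt (prd rd) a4 b4 e0 L0 A0 (fun i => mu * Pk.dotN (CA.dig rd i) Ps)
        (fun i => Pk.dotN (CA.dig rd i) Oms) tabs rs (CA.idx rd ns + o.2) ∧
      LineAt (prd rd) a4 b4 e1 L1 A1 (fun i => mu * Pk.dotN (CA.dig rd i) Ps)
        (fun i => Pk.dotN (CA.dig rd i) Oms) tabs (rs.drop tabs.length) (CA.idx rd ns + o.2)) ∨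
    (∀ o ∈ coff rd fs, RichAt (prd rd) d e0 tabs (CA.idx rd ns + o.2) ∧
      RichAt (prd rd) d e1 tabs (CA.idx rd ns + o.2)) := by
  unfold sideC at h
  obtain ⟨hb, h⟩ := cond_eq_true h
  have hb : TC + p1 + (lb + ub) + d ≤ 1152921504606846976 := Nat.le_of_ble_eq_true hb
  simp only [frc_eq] at h
  rw [lin_eq rd Ns Oms hcnt, lin_eq rd Ns Ps hcnt, lin_eq rd Ns ks hcnt,
    show Nat.mul mu (pk (fun i => Pk.dotN (CA.dig rd i) Ps) (prd rd))
      = pk (fun i => mu * Pk.dotN (CA.dig rd i) Ps) (prd rd) from pk_mul _ _ _] at h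
  have bR : ∀ i < prd rd, b4 * 2 ^ 32 + mu * Pk.dotN (CA.dig rd i) Ps
      ≤ Nat.add (Nat.mul b4 4294967296) (Nat.mul mu (Pk.dotN rd Ps)) := by
    intro i hi
    show _ ≤ b4 * 4294967296 + mu * Pk.dotN rd Ps
    have := Nat.mul_le_mul_left mu (dot_le_rd rd Ps i hi)
    norm_num
    exact this
  have bL : ∀ i < prd rd, a4 * 2 ^ 32 + Pk.dotN (CA.dig rd i) Oms
      ≤ Nat.add (Nat.mul a4 4294967296) (Pk.dotN rd Oms) := by
    intro i hi
    show _ ≤ a4 * 4294967296 + Pk.dotN rd Oms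
    have := dot_le_rd rd Oms i hi
    norm_num
    exact this
  obtain ⟨P, Q, h, -, -, g3, g4⟩ := crn1_sound (prd rd) a4 b4 d _ _ e0 L0 A0 _ _ bR bL (by omega) tabs hs _ _ _ _ h
  obtain ⟨P', Q', h, k1, k2, k3, k4⟩ := crn1_sound (prd rd) a4 b4 d _ _ e1 L1 A1 _ _ bR bL (by omega) tabs hs _ _ _ _ h
  have hm := allM_sound _ _ h _ (mm_mem rd ks Ps fs 0 0 hk hP hfs)
  have hi := idx_lt rd ns hns
  have hd := CA.dig_idx rd ns hns
  rcases mskC_sound (prd rd) _ _ P' Q' c0 TC p1 lb u ub _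
    (fun i hi => lt_of_le_of_lt (dot_le_rd rd ks i hi) hR) (fun i hi => lt_of_le_of_lt (dot_le_rd rd Ps i hi) hX)
    (by omega) (by omega) (by omega) (by omega) hm (CA.idx rd ns) hi (by rw [hd]; exact h1) (by rw [hd]; exact h2)
    (by rw [hd]; exact h3) (by rw [hd]; exact h4) with h5 | h5
  · exact Or.inl fun o ho => ⟨g3 _ (k1 _ (h5 o ho)) hne, k3 _ (h5 o ho) hne⟩
  · exact Or.inr fun o ho => ⟨g4 _ (k2 _ (h5 o ho)) hne, k4 _ (h5 o ho) hne⟩

end PkA
end Pool.Agent.Lib.MP_6947cd_al
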