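import Pool.Agent.Lib.MP_6947cd_al.Y.Defs

/-!
Problem MP_6947cd_al (Chollet).  CASE B, large second entry: the finitely many problems (unit 1/200).
-/

set_option autoImplicit false
open Finset

namespace Pool.Agent.Lib.MP_6947cd_al
namespace B1

open Ent Fr

/-- type of the third entry and of the rests: `X = 0, 1`: no special vertex, rests together in `[0, 10]`, `[10, 30]`;
`X = 2, 3, 4`: special vertex, `x` in `[0, 20]`, `[20, 40]`, `[40, 60]` -/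
def XR (X : ℕ) (m x y z S : ℝ) : Prop :=
  (X = 0 ∧ m = 3 / 10 ∧ x = 0 ∧ y = 0 ∧ z = 0 ∧ S ≤ 10 / 200) ∨
  (X = 1 ∧ m = 3 / 10 ∧ x = 0 ∧ y = 0 ∧ z = 0 ∧ 10 / 200 ≤ S ∧ S ≤ 30 / 200) ∨
  (X = 2 ∧ m = x ∧ x ≤ 20 / 200 ∧ 30 / 200 ≤ x + S) ∨
  (X = 3 ∧ m = x ∧ 20 / 200 ≤ x ∧ x ≤ 40 / 200 ∧ 30 / 200 ≤ x + S) ∨
  (X = 4 ∧ m = x ∧ 40 / 200 ≤ x ∧ x ≤ 60 / 200 ∧ 30 / 200 ≤ x + S)

/-- no configuration in the box; the rests of the row `i` are bounded (the others are harmless: `SpecRI`) -/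
def Prob (bj bk : Bool) (H0 H1 T0 T1 G0 G1 X : ℕ) : Prop :=
  ∀ (m h t g x y z : ℝ) (Mi Mj Mk : Multiset ℝ) (Gj Gk : ℝ), XR X m x y z Mi.sum → x + Mi.sum ≤ 160 / 200 →
    (H0 : ℝ) / 200 ≤ h → h ≤ (H1 : ℝ) / 200 → (T0 : ℝ) / 200 ≤ t → t ≤ (T1 : ℝ) / 200 →
    (G0 : ℝ) / 200 ≤ g → g ≤ (G1 : ℝ) / 200 → ¬ Cfg bj bk m h t g x y z Mi Mj Mk Gj Gk

/-- a list of boxes `(H0, H1, T0, T1, G0, G1)` with all the classes and types -/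
def Probs (l : List (ℕ × ℕ × ℕ × ℕ × ℕ × ℕ)) : Prop :=
  ∀ b ∈ l, ∀ X < 5, ∀ bj bk : Bool, Prob bj bk b.1 b.2.1 b.2.2.1 b.2.2.2.1 b.2.2.2.2.1 b.2.2.2.2.2 X

end B1
end Pool.Agent.Lib.MP_6947cd_al
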