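import Pool.Agent.Lib.MP_6947cd_al.Y.SideL
import Pool.Agent.Lib.MP_6947cd_al.Y.Prob

/-!
Problem MP_6947cd_al (Chollet).  CASE B, large second entry: a problem, the state of a configuration in the tree, the
stages of the totals of the rows.
-/

set_option autoImplicit false
open Finset

namespace Pool.Agent.Lib.MP_6947cd_al
namespace B1

open Ent Ent.Pk Fr Fr.WT PkA

/-- a problem: classes, knot of the row `i`, lower bound `tl` of `x + S`, bounds of the totals, box, corner records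
of the row `i` (table, `h + t + x`, `x`), rows `j` and `k` -/
structure PE where
  bj : Bool
  bk : Bool
  m : ℕ
  tl : ℕ
  TCj : ℕ
  TCk : ℕ
  H0 : ℕ
  H1 : ℕ
  T0 : ℕ
  T1 : ℕ
  G0 : ℕ
  G1 : ℕ
  X0 : ℕ
  X1 : ℕ
  cI : List (ℕ × ℕ × ℕ)
  J : SE
  K : SE

/-- the problem data are correct -/
structure PE.OK (A O : ℕ) (P : PE) : Prop where
  m0 : 0 < P.m
  m1 : P.m ≤ 200
  h0 : 170 ≤ P.H0
  h01 : P.H0 ≤ P.H1
  h1 : P.H1 ≤ 200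
  t0 : 170 ≤ P.T0
  t01 : P.T0 ≤ P.T1
  t1 : P.T1 ≤ 200
  th : P.T0 ≤ P.H0
  g01 : P.G0 ≤ P.G1
  g1 : P.G1 ≤ 200
  x01 : P.X0 ≤ P.X1
  x1 : P.X1 ≤ 200
  cI : ∀ bh bt bx : Bool, (P.cI.getD (ix bh bt bx) (0, 0, 0)).2.1
      = (bif bh then P.H1 else P.H0) + (bif bt then P.T1 else P.T0) + (bif bx then P.X1 else P.X0) ∧
    (P.cI.getD (ix bh bt bx) (0, 0, 0)).2.2 = (bif bx then P.X1 else P.X0) ∧
    RowI P.m (bif bh then P.H1 else P.H0) (bif bt then P.T1 else P.T0) (bif bx then P.X1 else P.X0)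
      (P.cI.getD (ix bh bt bx) (0, 0, 0)).1
  lI : P.cI.length = 8
  J : P.J.OK A P.H0 P.H1 P.G0 P.G1 (cF P.bj)
  K : P.K.OK A P.T0 P.T1 P.G0 P.G1 (cF P.bk)

/-- the state of a configuration in the tree -/
structure St (P : PE) (y z S : ℝ) (nj : List ℕ) (fj : List Bool) (nk : List ℕ) (fk : List Bool)
    (s0 s1 ya0 ya1 za0 za1 J0 J1 K0 K1 : ℕ) : Prop where
  sa : (s0 : ℝ) / 200 ≤ S
  sb : S ≤ (s1 : ℝ) / 200
  ya : (yval P.J.ks ya0 : ℝ) / 200 ≤ y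
  yb : y ≤ (yval P.J.ks ya1 : ℝ) / 200
  za : (yval P.K.ks za0 : ℝ) / 200 ≤ z
  zb : z ≤ (yval P.K.ks za1 : ℝ) / 200
  Ja : J0 ≤ Pk.dotN nj P.J.ks + P.J.u * uppN P.J.ks fj
  Jb : Pk.dotN nj P.J.ks ≤ J1
  Ka : K0 ≤ Pk.dotN nk P.K.ks + P.K.u * uppN P.K.ks fk
  Kb : Pk.dotN nk P.K.ks ≤ K1

/-- everything which is proved abstractly -/
structure SpAll : Prop where
  R : SpR
  S : SpS
  S1 : SpecS1

/-- the configuration in the box -/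
structure InBox (P : PE) (h t g x : ℝ) : Prop where
  h0 : (P.H0 : ℝ) / 200 ≤ h
  h1 : h ≤ (P.H1 : ℝ) / 200
  t0 : (P.T0 : ℝ) / 200 ≤ t
  t1 : t ≤ (P.T1 : ℝ) / 200
  g0 : (P.G0 : ℝ) / 200 ≤ g
  g1 : g ≤ (P.G1 : ℝ) / 200
  x0 : (P.X0 : ℝ) / 200 ≤ x
  x1 : x ≤ (P.X1 : ℝ) / 200

/-! ### types and stages -/

/-- knot of the row `i`, and upper bound of its entries beyond the first two (unit 1/200) -/
def mX (X : ℕ) : ℕ := [10, 30, 20, 40, 60].getD X 0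

/-- lower bound of `x + S` -/
def tlX (X : ℕ) : ℕ := [0, 10, 30, 30, 30].getD X 0

/-- range of `x` -/
def x0X (X : ℕ) : ℕ := [0, 0, 0, 20, 40].getD X 0

/-- range of `x` -/
def x1X (X : ℕ) : ℕ := [0, 0, 20, 40, 60].getD X 0

/-- range of the rests `S` of the row `i` -/
def s0X (X : ℕ) : ℕ := [0, 10, 10, 0, 0].getD X 0

/-- range of the rests `S` of the row `i` -/
def s1X (X : ℕ) : ℕ := [10, 30, 125, 115, 110].getD X 0

/-- a priori bound of the rests `S` of the row `i`; beyond `s1X` the row is not bad (`BigS`) -/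
def s2X (X : ℕ) : ℕ := [10, 30, 160, 140, 120].getD X 0

/-- a stage of a row: environment, lower and upper bound of the total -/
structure Stg where
  e : SE
  TL : ℕ
  TC : ℕ

/-- the stage is correct -/
structure Stg.OK (A b0 b1 g0 g1 cf sm : ℕ) (s : Stg) : Prop where
  e : s.e.OK A b0 b1 g0 g1 cf
  kn : KnP b0 sm s.e.ks s.e.Ps
  u : s.TL = 0 ∨ s.e.u = 1
  TC : s.TC ≤ 1480

/-- the last knot -/
def topN (ks : List ℕ) : ℕ := ks.getD (ks.length - 1) 0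

/-- index of the upper end of the range of `y` at the root -/
def yR (X : ℕ) (ks : List ℕ) : ℕ := if X < 2 then 0 else ks.length

/-- lower bound of the knots at the root -/
def J0R (X TL b1 g1 : ℕ) (ks : List ℕ) : ℕ := TL - (b1 + g1 + (if X < 2 then 0 else topN ks))

/-- upper bound of the knots at the root -/
def J1R (TC b0 g0 : ℕ) : ℕ := TC - (b0 + g0)

/-- the problem of two stages -/
def mkPE (bj bk : Bool) (X H0 H1 T0 T1 G0 G1 : ℕ) (cI : List (ℕ × ℕ × ℕ)) (sj sk : Stg) : PE :=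
  ⟨bj, bk, mX X, tlX X, sj.TC, sk.TC, H0, H1, T0, T1, G0, G1, x0X X, x1X X, cI, sj.e, sk.e⟩

/-- the root of the tree -/
def Root (X TLj TLk : ℕ) (P : PE) (y z S : ℝ) (nj : List ℕ) (fj : List Bool) (nk : List ℕ) (fk : List Bool) : Prop :=
  St P y z S nj fj nk fk (s0X X) (s1X X) 0 (yR X P.J.ks) 0 (yR X P.K.ks)
    (J0R X TLj P.H1 P.G1 P.J.ks) (J1R P.TCj P.H0 P.G0) (J0R X TLk P.T1 P.G1 P.K.ks) (J1R P.TCk P.T0 P.G0)

/-- no reduced configuration for a pair of stages -/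
def NoRC (X TLj TLk : ℕ) (P : PE) : Prop :=
  ∀ (h t g x y z : ℝ) (Mi : Multiset ℝ) (nj : List ℕ) (fj : List Bool) (Mj : Multiset ℝ) (nk : List ℕ)
    (fk : List Bool) (Mk : Multiset ℝ) (Gj Gk Wj Wk : ℝ),
    RC P.bj P.bk P.m P.tl P.TCj P.TCk P.J.ks P.J.Ps P.K.ks P.K.Ps h t g x y z Mi nj fj Mj nk fk Mk Gj Gk Wj Wk →
    InBox P h t g x → Root X TLj TLk P y z Mi.sum nj fj nk fk → False

/-- the stages cover the totals up to `e` -/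
def chS (e : ℕ) : ℕ → List Stg → Bool
  | a, [] => Nat.ble e a
  | a, s :: l => Nat.ble s.TL a && chS e s.TC l

/-- LARGE RESTS: the row `i` is not bad if the sum of its rests is in `]s1X, s2X]` -/
def BigS (X H0 H1 T0 T1 : ℕ) : Prop :=
  ∀ (h t x : ℝ) (Mi : Multiset ℝ), (H0 : ℝ) / 200 ≤ h → h ≤ (H1 : ℝ) / 200 → (T0 : ℝ) / 200 ≤ t → t ≤ (T1 : ℝ) / 200 →
    (x0X X : ℝ) / 200 ≤ x → x ≤ (x1X X : ℝ) / 200 → (∀ e ∈ Mi, 0 ≤ e ∧ e ≤ (mX X : ℝ) / 200) →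
    (s1X X : ℝ) / 200 < Mi.sum → Mi.sum ≤ (s2X X : ℝ) / 200 → h + t + x + Mi.sum ≤ 37 / 5 →
    FM (1 ::ₘ h ::ₘ t ::ₘ x ::ₘ Mi) - What (h + t + x + Mi.sum) ≤ 0

/-- TAIL: the reserve `del` (unit `1e-7`) of a payer `j` (`b0` = lower bound of its entry of the row `i`, `ot` = upper
bound of the other large entry if its vertex is bad, otherwise `0`) is enough, for all rests `S` of the row `i` -/
def TailP (X b0 ot del H0 H1 T0 T1 : ℕ) : Prop :=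
  ∀ (h t x : ℝ) (Mi : Multiset ℝ), (H0 : ℝ) / 200 ≤ h → h ≤ (H1 : ℝ) / 200 → (T0 : ℝ) / 200 ≤ t → t ≤ (T1 : ℝ) / 200 →
    (x0X X : ℝ) / 200 ≤ x → x ≤ (x1X X : ℝ) / 200 → (∀ e ∈ Mi, 0 ≤ e ∧ e ≤ (mX X : ℝ) / 200) →
    (s0X X : ℝ) / 200 ≤ Mi.sum → Mi.sum ≤ (s1X X : ℝ) / 200 → h + t + x + Mi.sum ≤ 37 / 5 →
    0 < FM (1 ::ₘ h ::ₘ t ::ₘ x ::ₘ Mi) - What (h + t + x + Mi.sum) →
    ∃ Dh : ℝ, FM (1 ::ₘ h ::ₘ t ::ₘ x ::ₘ Mi) - What (h + t + x + Mi.sum) ≤ Dh ∧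
      Dh * (4 * ((b0 : ℝ) / 200) - ((b0 : ℝ) / 200) ^ 2)
        + 4 * ((ot : ℝ) / 200 + x + Mi.sum) * max Dh (1 / 1000) ≤ 3 * ((b0 : ℝ) / 200) ^ 2 * ((del : ℝ) / 10 ^ 7)

/-- REDUCTION OF A PROBLEM to pairs of stages (`SpecRC` and `SpecG1` are proved; `S2`: sums of reduced rests).
`Lj`, `Lk`: stages of the rows (up to 1480);
`kj`, `kk`: bound of the last knots for the tails, `dj`, `dk`: reserves of the tails. -/
def SpecStg : Prop := ∀ (A O : ℕ) (bj bk : Bool) (X H0 H1 T0 T1 G0 G1 kj kk dj dk : ℕ) (cI : List (ℕ × ℕ × ℕ))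
  (Lj Lk : List Stg),
  0 < A → 0 < O → X < 5 → 170 ≤ T0 → T0 ≤ H0 → H0 ≤ H1 → H1 ≤ 200 → T0 ≤ T1 → T1 ≤ 200 → G0 ≤ G1 → G1 ≤ 200 →
  Lj ≠ [] → Lk ≠ [] →
  (∀ s ∈ Lj, s.OK A H0 H1 G0 G1 (cF bj) (mX X)) → (∀ s ∈ Lk, s.OK A T0 T1 G0 G1 (cF bk) (mX X)) →
  chS 1480 0 Lj = true → chS 1480 0 Lk = true →
  (∀ s ∈ Lj, topN s.e.ks ≤ kj) → (∀ s ∈ Lk, topN s.e.ks ≤ kk) →
  SpecT ((kj : ℝ) / 200) ((dj : ℝ) / 10 ^ 7) → SpecT ((kk : ℝ) / 200) ((dk : ℝ) / 10 ^ 7) →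
  dj ≤ 5000000 → dk ≤ 5000000 →
  BigS X H0 H1 T0 T1 →
  (bj = false → TailP X H0 (bif bk then T1 else 0) dj H0 H1 T0 T1) →
  (bk = false → TailP X T0 (bif bj then H1 else 0) dk H0 H1 T0 T1) →
  (∀ sj ∈ Lj, ∀ sk ∈ Lk, NoRC X sj.TL sk.TL (mkPE bj bk X H0 H1 T0 T1 G0 G1 cI sj sk)) →
  Prob bj bk H0 H1 T0 T1 G0 G1 X

end B1
end Pool.Agent.Lib.MP_6947cd_al
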