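import Pool.Agent.Lib.MP_6947cd_al.Y.Tab

/-!
Problem MP_6947cd_al (Chollet).  PACKED TABLES in one number: digit (64 bits) = row bound + `2 ^ 32` row value.
The check visits only the nonzero digits, from the lowest to the highest, in blocks of 32 digits.
-/

set_option autoImplicit false
open Finset

namespace Pool.Agent.Lib.MP_6947cd_al
namespace PkA

open Ent Ent.Pk Fr Fr.WT B1

/-- the row bounds -/
def loT (N X : ℕ) : ℕ := Nat.land X (Nat.mul (nat_lit 4294967295) (one N))

/-- the row values -/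
def hiT (N X : ℕ) : ℕ := Nat.land (Nat.shiftRight X (nat_lit 32)) (Nat.mul (nat_lit 4294967295) (one N))

/-- the index of the lowest nonzero digit (64 bits) -/
def lowD (T : ℕ) : ℕ :=
  Nat.shiftRight (Nat.log2 (Nat.xor T (Nat.land T (Nat.sub T (nat_lit 1))))) (nat_lit 6)

/-! ### bits of digits -/

lemma testBit_dg (X i j : ℕ) : (dg X i).testBit j = (decide (j < 64) && X.testBit (64 * i + j)) := by
  rw [dg_eq, Nat.testBit_mod_two_pow, Nat.testBit_div_two_pow]
  congr 2
  ring

lemma testBit_m32 (j : ℕ) : Nat.testBit 4294967295 j = decide (j < 32) := by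
  have e : 4294967295 = 2 ^ 32 - 1 := by norm_num
  rw [e, Nat.testBit_two_pow_sub_one]

lemma testBit_msk (N i j : ℕ) (hi : i < N) (hj : j < 64) :
    (Nat.mul 4294967295 (one N)).testBit (64 * i + j) = decide (j < 32) := by
  rw [const_eq, testBit_pk _ N (fun _ _ => by norm_num) i j hi hj, testBit_m32]

lemma dg_lo (N X i : ℕ) (hi : i < N) : dg (loT N X) i = Nat.land (dg X i) 4294967295 := by
  refine Nat.eq_of_testBit_eq fun j => ?_
  have e1 : Nat.land (dg X i) 4294967295 = dg X i &&& 4294967295 := rfl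
  have e2 : loT N X = X &&& Nat.mul 4294967295 (one N) := rfl
  rw [e1, e2, testBit_dg, Nat.testBit_and, Nat.testBit_and, testBit_dg, testBit_m32]
  rcases Nat.lt_or_ge j 64 with h | h
  · rw [testBit_msk N i j hi h, Bool.and_assoc]
  · rw [decide_eq_false (by omega), Bool.false_and, Bool.false_and, Bool.false_and]

lemma dg_hi (N X i : ℕ) (hi : i < N) : dg (hiT N X) i = Nat.shiftRight (dg X i) 32 := by
  refine Nat.eq_of_testBit_eq fun j => ?_
  have e1 : Nat.shiftRight (dg X i) 32 = dg X i >>> 32 := rfl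
  have e2 : hiT N X = (X >>> 32) &&& Nat.mul 4294967295 (one N) := rfl
  rw [e1, e2, testBit_dg, Nat.testBit_and, Nat.testBit_shiftRight, Nat.testBit_shiftRight, testBit_dg]
  rcases Nat.lt_or_ge j 64 with h | h
  · rw [testBit_msk N i j hi h, show 32 + (64 * i + j) = 64 * i + (32 + j) by ring]
    rcases Nat.lt_or_ge j 32 with h2 | h2
    · rw [decide_eq_true h, decide_eq_true h2, decide_eq_true (show 32 + j < 64 by omega), Bool.and_true]
    · rw [decide_eq_false (show ¬ j < 32 by omega), decide_eq_false (show ¬ 32 + j < 64 by omega),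
        Bool.and_false, Bool.and_false, Bool.false_and]
  · rw [decide_eq_false (show ¬ j < 64 by omega), decide_eq_false (show ¬ 32 + j < 64 by omega),
      Bool.false_and, Bool.false_and]

lemma lo_lt (N X : ℕ) : loT N X < 2 ^ (64 * N) := by
  have h1 : loT N X ≤ Nat.mul 4294967295 (one N) := Nat.and_le_right
  rw [const_eq] at h1
  exact lt_of_le_of_lt h1 (pk_lt _ N fun _ _ => by norm_num)

lemma hi_lt (N X : ℕ) : hiT N X < 2 ^ (64 * N) := by
  have h1 : hiT N X ≤ Nat.mul 4294967295 (one N) := Nat.and_le_right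
  rw [const_eq] at h1
  exact lt_of_le_of_lt h1 (pk_lt _ N fun _ _ => by norm_num)

lemma land32_lt (x : ℕ) : Nat.land x 4294967295 < 2 ^ 32 := by
  have h1 : Nat.land x 4294967295 ≤ 4294967295 := Nat.and_le_right
  omega

lemma dgs_lt (X i : ℕ) : Nat.shiftRight (dg X i) 32 < 2 ^ 32 := by
  have h1 : dg X i < 2 ^ 64 := dg_lt X i
  show dg X i >>> 32 < 2 ^ 32
  rw [Nat.shiftRight_eq_div_pow]
  omega

/-- digits below a shift vanish -/
lemma dg_shl (T1 d j : ℕ) (h : j < d) : dg (Nat.shiftLeft T1 (Nat.mul 64 d)) j = 0 := by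
  rw [dg_eq]
  show (T1 <<< (64 * d)) / 2 ^ (64 * j) % 2 ^ 64 = 0
  rw [Nat.shiftLeft_eq]
  obtain ⟨e, rfl⟩ := Nat.exists_eq_add_of_lt h
  have e1 : T1 * 2 ^ (64 * (j + e + 1)) = 2 ^ (64 * j) * (2 ^ 64 * (T1 * 2 ^ (64 * e))) := by
    rw [show 64 * (j + e + 1) = 64 * j + (64 + 64 * e) by ring, pow_add, pow_add]
    ring
  rw [e1, Nat.mul_div_cancel_left _ (by positivity)]
  exact Nat.mul_mod_right _ _

lemma dg_shr (T d j : ℕ) : dg (Nat.shiftRight T (Nat.mul 64 d)) j = dg T (j + d) := by
  have e1 : ∀ X i, dg X i = (X >>> (64 * i)) &&& (2 ^ 64 - 1) := fun X i => rfl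
  show dg (T >>> (64 * d)) j = dg T (j + d)
  rw [e1, e1, ← Nat.shiftRight_add]
  congr 2
  ring

/-- the mask of a block -/
def mBk : ℕ := Nat.sub (Nat.shiftLeft (nat_lit 1) (nat_lit 2048)) (nat_lit 1)

set_option exponentiation.threshold 3000 in
/-- a block of 32 digits -/
lemma dg_blk (T j : ℕ) (h : j < 32) : dg (Nat.land T mBk) j = dg T j := by
  refine Nat.eq_of_testBit_eq fun l => ?_
  have e0 : mBk = 2 ^ 2048 - 1 := by
    have e2 : mBk = (1 <<< 2048) - 1 := rfl
    rw [e2, Nat.one_shiftLeft]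
  have e1 : Nat.land T mBk = T &&& mBk := rfl
  rw [e1, e0, testBit_dg, testBit_dg, Nat.testBit_and, Nat.testBit_two_pow_sub_one]
  rcases Nat.lt_or_ge l 64 with h1 | h1
  · rw [decide_eq_true (show 64 * j + l < 2048 by omega), Bool.and_true]
  · rw [decide_eq_false (show ¬ l < 64 by omega), Bool.false_and, Bool.false_and]

/-! ### the check -/

/-- the loop over the nonzero digits of a block; `b` = index of the lowest digit of `B`, `n` = number of certificates
used so far -/
noncomputable def tabBL (v : List (ℕ × ℕ)) (rd ks : List ℕ) (c c0 R R32 msk : ℕ) (f : ℕ) :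
    ℕ → ℕ → ℕ → ℕ → (ℕ → Bool) → Bool :=
  @Nat.rec (fun _ => ℕ → ℕ → ℕ → ℕ → (ℕ → Bool) → Bool) (fun _ B _ n k => cond (Nat.beq B (nat_lit 0)) (k n) false)
    (fun _ ih b B XC n k => cond (Nat.beq B (nat_lit 0)) (k n)
      (frc (lowD B) fun d => frc (Nat.add b d) fun i => frc (Nat.mul (nat_lit 64) d) fun s =>
        frc (Nat.shiftRight B s) fun B1 =>
        cond (Nat.beq (Nat.shiftLeft B1 s) B)
          (frc (Nat.land B1 (nat_lit 18446744073709551615)) fun D =>
          frc (Nat.land D (nat_lit 4294967295)) fun V =>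
          cond (CA.digC rd i fun ns =>
              cond (frc (Nat.land XC msk) fun N => CA.upk R N fun X => rowOK v (CA.app [1, 1, 1] ns) X V)
                (cond (Nat.ble c0 V) (frc (ldot ns ks c) fun tt =>
                  Nat.ble (Nat.mul (nat_lit 4) (Nat.shiftRight D (nat_lit 32))) (w4 tt)) false) false)
            (frc (Nat.succ i) fun i' => frc (Nat.shiftRight B1 (nat_lit 64)) fun B' =>
              frc (Nat.shiftRight XC R32) fun XC' => frc (Nat.succ n) fun n' => ih i' B' XC' n' k) false) false)) f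

/-- the loop over the blocks -/
noncomputable def tabTL (v : List (ℕ × ℕ)) (rd ks : List ℕ) (c c0 R R32 msk mB mC : ℕ) (f : ℕ) : ℕ → ℕ → ℕ → Bool :=
  @Nat.rec (fun _ => ℕ → ℕ → ℕ → Bool) (fun _ T _ => Nat.beq T (nat_lit 0))
    (fun _ ih b T XS => cond (Nat.beq T (nat_lit 0)) true
      (frc (Nat.land T mB) fun B => frc (Nat.land XS mC) fun XC =>
        tabBL v rd ks c c0 R R32 msk (nat_lit 32) b B XC (nat_lit 0) fun n =>
          frc (Nat.add b (nat_lit 32)) fun b' => frc (Nat.shiftRight T (nat_lit 2048)) fun T' =>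
          frc (Nat.shiftRight XS (Nat.mul R32 n)) fun XS' => ih b' T' XS')) f

/-- THE CHECK OF A TABLE (`R = 3 + number of knots`; `XS`: certificates of the nonzero digits, `R` words of 32 bits,
from the lowest to the highest) -/
noncomputable def tabW (rd ks : List ℕ) (b g c0 R TW XS : ℕ) : Bool :=
  cond (Nat.ble (nat_lit 60) (Nat.add b g))
    (frc (prd rd) fun N => frc (Nat.mul (nat_lit 32) R) fun R32 =>
      frc (Nat.sub (Nat.shiftLeft (nat_lit 1) R32) (nat_lit 1)) fun msk =>
      frc mBk fun mB =>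
      frc (Nat.sub (Nat.shiftLeft (nat_lit 1) (Nat.mul (nat_lit 32) R32)) (nat_lit 1)) fun mC =>
        tabTL (vls b g ks) rd ks (Nat.add b g) c0 R R32 msk mB mC N (nat_lit 0) TW XS) false

/-- the facts at an index -/
def FctT (v : List (ℕ × ℕ)) (rd ks : List ℕ) (c c0 D i : ℕ) : Prop :=
  c0 ≤ Nat.land D 4294967295 ∧
    FM (mk (1 :: 1 :: 1 :: CA.dig rd i) (v.map fun u => (u.1 : ℝ) / (u.2 : ℝ))) ≤ (Nat.land D 4294967295 : ℕ) / 10 ^ 7 ∧
    ((Nat.shiftRight D 32 : ℕ) : ℝ) / 10 ^ 7 ≤ Wc (((c + Pk.dotN (CA.dig rd i) ks : ℕ) : ℝ) / 200)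

lemma tabBL_sound (v : List (ℕ × ℕ)) (rd ks : List ℕ) (c c0 R R32 msk : ℕ) (hc : 60 ≤ c) (f : ℕ) :
    ∀ b B XC n k, tabBL v rd ks c c0 R R32 msk f b B XC n k = true → (∃ n', k n' = true) ∧
      ∀ j, 1 ≤ dg B j → FctT v rd ks c c0 (dg B j) (b + j) := by
  induction f with
  | zero =>
    intro b B XC n k h
    have e : tabBL v rd ks c c0 R R32 msk 0 b B XC n k = cond (Nat.beq B (nat_lit 0)) (k n) false := rfl
    rw [e] at h
    obtain ⟨h1, h2⟩ := cond_eq_true h
    refine ⟨⟨n, h2⟩, fun j hj => ?_⟩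
    have h0 : B = 0 := Nat.eq_of_beq_eq_true h1
    rw [h0, dg_eq, Nat.zero_div] at hj
    norm_num at hj
  | succ f ih =>
    intro b B XC n k h
    have e : tabBL v rd ks c c0 R R32 msk (f + 1) b B XC n k = cond (Nat.beq B (nat_lit 0)) (k n)
      (frc (lowD B) fun d => frc (Nat.add b d) fun i => frc (Nat.mul (nat_lit 64) d) fun s =>
        frc (Nat.shiftRight B s) fun B1 =>
        cond (Nat.beq (Nat.shiftLeft B1 s) B)
          (frc (Nat.land B1 (nat_lit 18446744073709551615)) fun D =>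
          frc (Nat.land D (nat_lit 4294967295)) fun V =>
          cond (CA.digC rd i fun ns =>
              cond (frc (Nat.land XC msk) fun N => CA.upk R N fun X => rowOK v (CA.app [1, 1, 1] ns) X V)
                (cond (Nat.ble c0 V) (frc (ldot ns ks c) fun tt =>
                  Nat.ble (Nat.mul (nat_lit 4) (Nat.shiftRight D (nat_lit 32))) (w4 tt)) false) false)
            (frc (Nat.succ i) fun i' => frc (Nat.shiftRight B1 (nat_lit 64)) fun B' =>
              frc (Nat.shiftRight XC R32) fun XC' => frc (Nat.succ n) fun n' =>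
                tabBL v rd ks c c0 R R32 msk f i' B' XC' n' k) false) false) := rfl
    rw [e] at h
    simp only [frc_eq] at h
    cases hb : Nat.beq B (nat_lit 0) with
    | true =>
      rw [hb, cond_true] at h
      refine ⟨⟨n, h⟩, fun j hj => ?_⟩
      have h0 : B = 0 := Nat.eq_of_beq_eq_true hb
      rw [h0, dg_eq, Nat.zero_div] at hj
      norm_num at hj
    | false =>
      rw [hb, cond_false] at h
      obtain ⟨d, hd⟩ : ∃ d, d = lowD B := ⟨_, rfl⟩
      rw [← hd] at h
      obtain ⟨h1, h⟩ := cond_eq_true h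
      obtain ⟨h2, h3⟩ := cond_eq_true h
      have h1 : Nat.shiftLeft (Nat.shiftRight B (Nat.mul 64 d)) (Nat.mul 64 d) = B := Nat.eq_of_beq_eq_true h1
      have e3 : Nat.shiftRight (Nat.shiftRight B (Nat.mul 64 d)) (nat_lit 64) = Nat.shiftRight B (Nat.mul 64 (d + 1)) := by
        show (B >>> (64 * d)) >>> 64 = B >>> (64 * (d + 1))
        rw [← Nat.shiftRight_add]
        congr 1
      have eD : Nat.land (Nat.shiftRight B (Nat.mul 64 d)) (nat_lit 18446744073709551615) = dg B d := rfl
      rw [e3] at h3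
      rw [eD] at h2
      obtain ⟨h4, h5⟩ := ih _ _ _ _ _ h3
      refine ⟨h4, fun j hj => ?_⟩
      rcases Nat.lt_trichotomy j d with hlt | rfl | hgt
      · exfalso
        rw [← h1, dg_shl _ _ _ hlt] at hj
        norm_num at hj
      · rw [CA.digC_eq] at h2
        obtain ⟨h9, h10⟩ := cond_eq_true h2
        obtain ⟨h11, h12⟩ := cond_eq_true h10
        obtain ⟨X, hX⟩ := CA.upk_sound _ _ _ h9
        rw [CA.app_eq] at hX
        refine ⟨Nat.le_of_ble_eq_true h11, row_sound _ _ _ _ hX, ?_⟩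
        have h13 := Nat.le_of_ble_eq_true h12
        rw [ldot_eq] at h13
        have h14 := w4_le (c + Pk.dotN (CA.dig rd (Nat.add b j)) ks) (by omega)
        have h15 : (4 : ℝ) * ((Nat.shiftRight (dg B j) 32 : ℕ) : ℝ)
            ≤ (w4 (c + Pk.dotN (CA.dig rd (Nat.add b j)) ks) : ℝ) := by
          exact_mod_cast h13
        refine le_trans ?_ h14
        rw [div_le_div_iff₀ (by norm_num) (by norm_num)]
        nlinarith
      · obtain ⟨e', he'⟩ := Nat.exists_eq_add_of_lt hgt
        have h6 := h5 e' (by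
          rw [dg_shr, show e' + (d + 1) = j by omega]
          exact hj)
        rw [dg_shr, show e' + (d + 1) = j by omega] at h6
        have e4 : Nat.succ (Nat.add b d) + e' = b + j := by
          show b + d + 1 + e' = b + j
          omega
        rw [e4] at h6
        exact h6

lemma tabTL_sound (v : List (ℕ × ℕ)) (rd ks : List ℕ) (c c0 R R32 msk mC : ℕ) (hc : 60 ≤ c) (f : ℕ) :
    ∀ b T XS, tabTL v rd ks c c0 R R32 msk mBk mC f b T XS = true → ∀ j, 1 ≤ dg T j →
      FctT v rd ks c c0 (dg T j) (b + j) := by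
  induction f with
  | zero =>
    intro b T XS h j hj
    have h0 : T = 0 := Nat.eq_of_beq_eq_true h
    rw [h0, dg_eq, Nat.zero_div] at hj
    norm_num at hj
  | succ f ih =>
    intro b T XS h j hj
    have e : tabTL v rd ks c c0 R R32 msk mBk mC (f + 1) b T XS = cond (Nat.beq T (nat_lit 0)) true
      (frc (Nat.land T mBk) fun B => frc (Nat.land XS mC) fun XC =>
        tabBL v rd ks c c0 R R32 msk (nat_lit 32) b B XC (nat_lit 0) fun n =>
          frc (Nat.add b (nat_lit 32)) fun b' => frc (Nat.shiftRight T (nat_lit 2048)) fun T' =>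
          frc (Nat.shiftRight XS (Nat.mul R32 n)) fun XS' =>
            tabTL v rd ks c c0 R R32 msk mBk mC f b' T' XS') := rfl
    rw [e] at h
    simp only [frc_eq] at h
    cases hb : Nat.beq T (nat_lit 0) with
    | true =>
      have h0 : T = 0 := Nat.eq_of_beq_eq_true hb
      rw [h0, dg_eq, Nat.zero_div] at hj
      norm_num at hj
    | false =>
      rw [hb, cond_false] at h
      obtain ⟨⟨n, h1⟩, h2⟩ := tabBL_sound _ _ _ _ _ _ _ _ hc _ _ _ _ _ _ h
      rcases Nat.lt_or_ge j 32 with h3 | h3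
      · have h4 := h2 j (by rw [dg_blk T j h3]; exact hj)
        rw [dg_blk T j h3] at h4
        exact h4
      · obtain ⟨e', rfl⟩ := Nat.exists_eq_add_of_le h3
        have e3 : Nat.shiftRight T (nat_lit 2048) = Nat.shiftRight T (Nat.mul 64 32) := rfl
        rw [e3] at h1
        have h4 := ih _ _ _ h1 e' (by
          rw [dg_shr, show e' + 32 = 32 + e' by ring]
          exact hj)
        rw [dg_shr, show e' + 32 = 32 + e' by ring] at h4
        have e4 : Nat.add b 32 + e' = b + (32 + e') := by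
          show b + 32 + e' = b + (32 + e')
          ring
        rw [e4] at h4
        exact h4

/-- SOUNDNESS of the check of a table. -/
theorem tabW_sound {rd ks : List ℕ} {b g c0 R TW XS : ℕ} (h : tabW rd ks b g c0 R TW XS = true) :
    RowT rd ks b g c0 (loT (prd rd) TW) (hiT (prd rd) TW) := by
  unfold tabW at h
  obtain ⟨h3, h⟩ := cond_eq_true h
  simp only [frc_eq] at h
  have h4 := tabTL_sound _ _ _ _ _ _ _ _ _ (Nat.le_of_ble_eq_true h3) _ _ _ _ h
  have ev : (vls b g ks).map (fun u => (u.1 : ℝ) / (u.2 : ℝ))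
      = 1 :: (b : ℝ) / 200 :: (g : ℝ) / 200 :: ks.map fun k : ℕ => (k : ℝ) / 200 := by
    unfold vls
    simp only [List.map_cons, List.map_map]
    norm_num
  unfold FctT at h4
  rw [ev] at h4
  simp only [Nat.zero_add] at h4
  have h5 : ∀ i < prd rd, 1 ≤ dg (loT (prd rd) TW) i → 1 ≤ dg TW i := by
    intro i hi hp
    rw [dg_lo _ _ _ hi] at hp
    have h6 : Nat.land (dg TW i) 4294967295 ≤ dg TW i := Nat.and_le_left
    omega
  refine ⟨lo_lt _ _, hi_lt _ _, ?_, ?_, ?_, ?_, ?_⟩
  · intro i hi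
    rw [dg_lo _ _ _ hi]
    exact land32_lt _
  · intro i hi
    rw [dg_hi _ _ _ hi]
    exact dgs_lt _ _
  · intro i hi hp
    have := (h4 i (h5 i hi hp)).1
    rw [dg_lo _ _ _ hi]
    exact this
  · intro i hi hp
    have := (h4 i (h5 i hi hp)).2.1
    rw [dg_lo _ _ _ hi]
    exact this
  · intro i hi hp
    have := (h4 i (h5 i hi hp)).2.2
    rw [dg_hi _ _ _ hi]
    exact this

/-- a smaller constant in the maximum -/
theorem RowT.mono {rd ks : List ℕ} {b g c0 c0' T W : ℕ} (h : RowT rd ks b g c0 T W) (hc : c0' ≤ c0) :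
    RowT rd ks b g c0' T W :=
  ⟨h.hT, h.hW, h.dT, h.dW, fun i hi hp => hc.trans (h.hc i hi hp), h.hF, h.hw⟩

end PkA
end Pool.Agent.Lib.MP_6947cd_al
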