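import Pool.Agent.Lib.MP_6947cd_al.Y.MsC
import Pool.Agent.Lib.MP_6947cd_al.Y.TW
import Pool.Agent.Lib.MP_6947cd_al.Y.PE

/-!
Problem MP_6947cd_al (Chollet).  CASE B, large second entry: the environment of a row, built by the kernel from data.
-/

set_option autoImplicit false
open Finset

namespace Pool.Agent.Lib.MP_6947cd_al
namespace B1

open Ent Ent.Pk Fr Fr.WT PkA

/-- data of an environment: radices, knots, prices, the four tables (one numeral each, 64 bits per digit: row bound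
`+ 2 ^ 32` row value) at the corners `(b0, g0)`, `(b1, g0)`, `(b0, g1)`, `(b1, g1)` -/
structure ED where
  rd : List ℕ
  ks : List ℕ
  Ps : List ℕ
  u : ℕ
  tb : List ℕ

/-- the data of an environment are correct (to be proved once; `cnt` by `decide +kernel`, `kn` by `knpC_sound`, `tb` by
`tabW_sound`) -/
structure EDOK (b0 b1 g0 g1 cf sm : ℕ) (E : ED) : Prop where
  cnt : cntOKb E.rd = true
  kn : KnP b0 sm E.ks E.Ps
  tb : ∀ bb bg : Bool, RowT E.rd E.ks (bif bb then b1 else b0) (bif bg then g1 else g0) cf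
    (loT (prd E.rd) (E.tb.getD (ix bb bg false) 0)) (hiT (prd E.rd) (E.tb.getD (ix bb bg false) 0))

/-- the four tables one by one -/
theorem edOK {b0 b1 g0 g1 cf sm u X0 X1 X2 X3 : ℕ} {rd ks Ps : List ℕ} (hc : cntOKb rd = true) (hk : KnP b0 sm ks Ps)
    (h0 : RowT rd ks b0 g0 cf (loT (prd rd) X0) (hiT (prd rd) X0))
    (h1 : RowT rd ks b1 g0 cf (loT (prd rd) X1) (hiT (prd rd) X1))
    (h2 : RowT rd ks b0 g1 cf (loT (prd rd) X2) (hiT (prd rd) X2))
    (h3 : RowT rd ks b1 g1 cf (loT (prd rd) X3) (hiT (prd rd) X3)) :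
    EDOK b0 b1 g0 g1 cf sm ⟨rd, ks, Ps, u, [X0, X1, X2, X3]⟩ := by
  refine ⟨hc, hk, fun bb bg => ?_⟩
  cases bb <;> cases bg
  · exact h0
  · exact h2
  · exact h1
  · exact h3

/-- THE ENVIRONMENT, computed by the kernel; the fields get literals. -/
noncomputable def envC (A : ℕ) (E : ED) (K : SE → Bool) : Bool :=
  @ED.rec (fun _ => Bool) (fun rd ks Ps u tb =>
    cond (Nat.beq ks.length rd.length)
      (frc (ldot rd Ps (nat_lit 0)) fun bX => frc (ldot rd (omA A ks) (nat_lit 0)) fun bO =>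
       cond (Nat.ble bX (nat_lit 4611686018427387903))
       (cond (Nat.ble (ldot rd ks (nat_lit 0)) (nat_lit 4611686018427387903))
        (frc (one (prd rd)) fun ONE => frc (Nat.mul (nat_lit 9223372036854775808) ONE) fun HH =>
         frc (Nat.mul (nat_lit 4294967295) ONE) fun M =>
         frc (gt tb (nat_lit 0)) fun X0 => frc (gt tb (nat_lit 1)) fun X1 =>
         frc (gt tb (nat_lit 2)) fun X2 => frc (gt tb (nat_lit 3)) fun X3 =>
         frc (Nat.land X0 M) fun T0 => frc (Nat.land (Nat.shiftRight X0 (nat_lit 32)) M) fun W0 =>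
         frc (Nat.land X1 M) fun T1 => frc (Nat.land (Nat.shiftRight X1 (nat_lit 32)) M) fun W1 =>
         frc (Nat.land X2 M) fun T2 => frc (Nat.land (Nat.shiftRight X2 (nat_lit 32)) M) fun W2 =>
         frc (Nat.land X3 M) fun T3 => frc (Nat.land (Nat.shiftRight X3 (nat_lit 32)) M) fun W3 =>
         cntsC rd (nat_lit 1) fun Ns =>
         frc (linC (omA A ks) Ns) fun Om => frc (linC Ps Ns) fun P0 => frc (linC ks Ns) fun R0 =>
         mmC rd ks Ps (nat_lit 0) (nat_lit 0) fun ms =>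
           K ⟨ms, HH, ONE, Om, P0, R0, bX, bO, [(T0, W0), (T1, W1), (T2, W2), (T3, W3)], rd, ks, Ps, u⟩)
        false) false) false) E

/-- SOUNDNESS: the environment is correct. -/
theorem envC_sound {A b0 b1 g0 g1 cf sm : ℕ} {E : ED} {K : SE → Bool} (hE : EDOK b0 b1 g0 g1 cf sm E)
    (h : envC A E K = true) :
    ∃ e : SE, K e = true ∧ e.OK A b0 b1 g0 g1 cf ∧ KnP b0 sm e.ks e.Ps ∧ e.rd = E.rd ∧ e.ks = E.ks ∧ e.Ps = E.Ps ∧
      e.u = E.u := by
  obtain ⟨rd, ks, Ps, u, tb⟩ := E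
  obtain ⟨hc, hk, ht⟩ := hE
  simp only at hc hk ht
  have e : envC A ⟨rd, ks, Ps, u, tb⟩ K = cond (Nat.beq ks.length rd.length)
      (frc (ldot rd Ps (nat_lit 0)) fun bX => frc (ldot rd (omA A ks) (nat_lit 0)) fun bO =>
       cond (Nat.ble bX (nat_lit 4611686018427387903))
       (cond (Nat.ble (ldot rd ks (nat_lit 0)) (nat_lit 4611686018427387903))
        (frc (one (prd rd)) fun ONE => frc (Nat.mul (nat_lit 9223372036854775808) ONE) fun HH =>
         frc (Nat.mul (nat_lit 4294967295) ONE) fun M =>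
         frc (gt tb (nat_lit 0)) fun X0 => frc (gt tb (nat_lit 1)) fun X1 =>
         frc (gt tb (nat_lit 2)) fun X2 => frc (gt tb (nat_lit 3)) fun X3 =>
         frc (Nat.land X0 M) fun T0 => frc (Nat.land (Nat.shiftRight X0 (nat_lit 32)) M) fun W0 =>
         frc (Nat.land X1 M) fun T1 => frc (Nat.land (Nat.shiftRight X1 (nat_lit 32)) M) fun W1 =>
         frc (Nat.land X2 M) fun T2 => frc (Nat.land (Nat.shiftRight X2 (nat_lit 32)) M) fun W2 =>
         frc (Nat.land X3 M) fun T3 => frc (Nat.land (Nat.shiftRight X3 (nat_lit 32)) M) fun W3 =>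
         cntsC rd (nat_lit 1) fun Ns =>
         frc (linC (omA A ks) Ns) fun Om => frc (linC Ps Ns) fun P0 => frc (linC ks Ns) fun R0 =>
         mmC rd ks Ps (nat_lit 0) (nat_lit 0) fun ms =>
           K ⟨ms, HH, ONE, Om, P0, R0, bX, bO, [(T0, W0), (T1, W1), (T2, W2), (T3, W3)], rd, ks, Ps, u⟩)
        false) false) false := rfl
  rw [e] at h
  obtain ⟨h1, h⟩ := cond_eq_true h
  rw [frc_eq, frc_eq] at h
  obtain ⟨h2, h⟩ := cond_eq_true h
  obtain ⟨h3, h⟩ := cond_eq_true h
  simp only [frc_eq, cntsC_eq, mmC_eq, ldot_eq, gt_eq, Nat.zero_add] at h h2 h3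
  have h2 : Pk.dotN rd Ps ≤ 4611686018427387903 := Nat.le_of_ble_eq_true h2
  have h3 : Pk.dotN rd ks ≤ 4611686018427387903 := Nat.le_of_ble_eq_true h3
  have h1 : ks.length = rd.length := Nat.eq_of_beq_eq_true h1
  refine ⟨_, h, ?_, hk, rfl, rfl, rfl, rfl⟩
  have hcnt := cntOK_sound rd hc
  refine
    { Ns := ⟨cnts rd 1, hcnt, rfl, rfl, rfl⟩
      ms := rfl
      HH := const_eq _ _
      ONE := one_eq _
      bX := rfl
      bO := rfl
      bX2 := ?_
      bR2 := ?_
      tabs := ⟨rfl, ?_⟩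
      lk := h1
      lP := by
        show Ps.length = rd.length
        rw [hk.len, h1]
      kn := hk.inc
      mo := hk.mo
      le := hk.le }
  · show Pk.dotN rd Ps < 2 ^ 62
    omega
  · show Pk.dotN rd ks < 2 ^ 62
    omega
  · intro bb bg
    have := ht bb bg
    cases bb <;> cases bg <;> exact this

end B1
end Pool.Agent.Lib.MP_6947cd_al
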