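import Pool.Agent.Lib.MP_6947cd_al.Y.RC

/-!
Problem MP_6947cd_al (Chollet).  CASE B, large second entry: the kernel check of knots and prices.
-/

set_option autoImplicit false
open Finset

namespace Pool.Agent.Lib.MP_6947cd_al
namespace B1

open Ent Ent.Pk Fr Fr.WT PkA

/-- the point `(ka, Pa)` is below the tangent with parameter `p / q` -/
def KnpM.tan (b0 ka Pa p q : ℕ) : Bool :=
  Nat.ble (Nat.add (Nat.mul (Nat.mul (nat_lit 25) Pa) (Nat.mul (Nat.sub p q) p))
    (Nat.add (Nat.mul (Nat.mul (nat_lit 1600) (Nat.sub (nat_lit 200) b0)) (Nat.mul p q))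
      (Nat.mul (Nat.mul (nat_lit 8) ka) (Nat.mul b0 (Nat.mul q q)))))
    (Nat.mul (Nat.mul (nat_lit 1600) ka) (Nat.mul p q))

/-- the last knot is a cap -/
def KnpM.cap (b0 sm K p q : ℕ) : Bool :=
  Nat.ble (Nat.add (Nat.mul (Nat.mul (nat_lit 200) (Nat.sub (nat_lit 200) b0)) (Nat.mul p q))
    (Nat.add (Nat.mul (Nat.mul (nat_lit 200) (Nat.sub p q)) (Nat.mul sm p))
      (Nat.mul K (Nat.mul b0 (Nat.mul q q)))))
    (Nat.mul (Nat.mul (nat_lit 200) K) (Nat.mul p q))

/-- a rational number above `1` -/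
def KnpM.gt1 (p q : ℕ) : Bool := cond (Nat.ble (nat_lit 1) q) (Nat.ble (Nat.succ q) p) false

/-- the pieces; `ka`, `Pa`: the knot to the left and its price -/
noncomputable def KnpM.lp (b0 sm : ℕ) (ks : List ℕ) : ℕ → ℕ → List ℕ → List (ℕ × ℕ) → Bool :=
  @List.rec ℕ (fun _ => ℕ → ℕ → List ℕ → List (ℕ × ℕ) → Bool)
    (fun ka _ Ps mus => @List.rec ℕ (fun _ => Bool)
      (@List.rec (ℕ × ℕ) (fun _ => Bool) false
        (fun m _ _ => cond (KnpM.gt1 m.1 m.2) (KnpM.cap b0 sm ka m.1 m.2) false) mus) (fun _ _ _ => false) Ps)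
    (fun k _ ih ka Pa Ps mus => @List.rec ℕ (fun _ => Bool) false
      (fun P Ps' _ => @List.rec (ℕ × ℕ) (fun _ => Bool) false
        (fun m mus' _ => cond (Nat.ble (Nat.succ ka) k) (cond (Nat.ble k (nat_lit 200)) (cond (Nat.ble Pa P)
          (cond (cond (Nat.beq P (nat_lit 0)) true (cond (KnpM.gt1 m.1 m.2)
            (cond (KnpM.tan b0 ka Pa m.1 m.2) (KnpM.tan b0 k P m.1 m.2) false) false))
            (ih k P Ps' mus') false) false) false) false) mus) Ps) ks

/-- THE CHECK of knots and prices: knots in `1/200`, prices in `1/12800`; `mus`: one rational number `p / q > 1` for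
every piece (ignored if both prices are `0`), and the last one for the cap. -/
noncomputable def knpC (b0 sm : ℕ) (ks Ps : List ℕ) (mus : List (ℕ × ℕ)) : Bool :=
  cond (Nat.ble b0 (nat_lit 200)) (@List.rec ℕ (fun _ => Bool) false
    (fun _ _ _ => KnpM.lp b0 sm ks (nat_lit 0) (nat_lit 0) Ps mus) ks) false

namespace KnpM

lemma gt1_sound {p q : ℕ} (h : gt1 p q = true) : 0 < q ∧ q < p := by
  unfold gt1 at h
  obtain ⟨h1, h2⟩ := cond_eq_true h
  exact ⟨Nat.le_of_ble_eq_true h1, Nat.le_of_ble_eq_true h2⟩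

lemma mu_gt {p q : ℕ} (h0 : 0 < q) (h1 : q < p) : (1 : ℝ) < (p : ℝ) / q := by
  have hq : (0 : ℝ) < q := by exact_mod_cast h0
  rw [lt_div_iff₀ hq, one_mul]
  exact_mod_cast h1

lemma tan_sound {b0 ka Pa p q : ℕ} (hb : b0 ≤ 200) (h0 : 0 < q) (h1 : q < p) (h : tan b0 ka Pa p q = true) :
    (Pa : ℝ) / 12800 * ((p : ℝ) / q - 1) ≤ (ka : ℝ) / 200 * (1 - (b0 : ℝ) / 200 / ((p : ℝ) / q))
      - (1 - (b0 : ℝ) / 200) := by
  have h2 : 25 * Pa * ((p - q) * p) + (1600 * (200 - b0) * (p * q) + 8 * ka * (b0 * (q * q)))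
      ≤ 1600 * ka * (p * q) := Nat.le_of_ble_eq_true h
  have h3 : (25 : ℝ) * Pa * ((p - q) * p) + (1600 * (200 - b0) * (p * q) + 8 * ka * (b0 * (q * q)))
      ≤ 1600 * ka * (p * q) := by
    have := (Nat.cast_le (α := ℝ)).mpr h2
    push_cast [Nat.cast_sub h1.le, Nat.cast_sub hb] at this
    exact this
  have hq : (0 : ℝ) < q := by exact_mod_cast h0
  have hp : (0 : ℝ) < p := by exact_mod_cast (by omega : 0 < p)
  rw [← sub_nonneg]
  have e : (ka : ℝ) / 200 * (1 - (b0 : ℝ) / 200 / ((p : ℝ) / q)) - (1 - (b0 : ℝ) / 200)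
      - (Pa : ℝ) / 12800 * ((p : ℝ) / q - 1)
      = (1600 * ka * (p * q) - (25 * Pa * ((p - q) * p) + (1600 * (200 - b0) * (p * q)
        + 8 * ka * (b0 * (q * q))))) / (320000 * p * q) := by
    field_simp
    ring
  rw [e]
  exact div_nonneg (by linarith) (by positivity)

lemma cap_sound {b0 sm K p q : ℕ} (hb : b0 ≤ 200) (h0 : 0 < q) (h1 : q < p) (h : cap b0 sm K p q = true) :
    1 - (b0 : ℝ) / 200 + ((p : ℝ) / q - 1) * ((sm : ℝ) / 200) ≤ (K : ℝ) / 200 * (1 - (b0 : ℝ) / 200 / ((p : ℝ) / q)) ∧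
      0 < 1 - (b0 : ℝ) / 200 / ((p : ℝ) / q) := by
  have h2 : 200 * (200 - b0) * (p * q) + (200 * (p - q) * (sm * p) + K * (b0 * (q * q)))
      ≤ 200 * K * (p * q) := Nat.le_of_ble_eq_true h
  have h3 : (200 : ℝ) * (200 - b0) * (p * q) + (200 * (p - q) * (sm * p) + K * (b0 * (q * q)))
      ≤ 200 * K * (p * q) := by
    have := (Nat.cast_le (α := ℝ)).mpr h2
    push_cast [Nat.cast_sub h1.le, Nat.cast_sub hb] at this
    exact this
  have hq : (0 : ℝ) < q := by exact_mod_cast h0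
  have hp : (0 : ℝ) < p := by exact_mod_cast (by omega : 0 < p)
  have hqp : (q : ℝ) < p := by exact_mod_cast h1
  have hb' : (b0 : ℝ) ≤ 200 := by exact_mod_cast hb
  refine ⟨?_, ?_⟩
  · rw [← sub_nonneg]
    have e : (K : ℝ) / 200 * (1 - (b0 : ℝ) / 200 / ((p : ℝ) / q))
        - (1 - (b0 : ℝ) / 200 + ((p : ℝ) / q - 1) * ((sm : ℝ) / 200))
        = (200 * K * (p * q) - (200 * (200 - b0) * (p * q) + (200 * (p - q) * (sm * p) + K * (b0 * (q * q)))))
          / (40000 * p * q) := by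
      field_simp
      ring
    rw [e]
    exact div_nonneg (by linarith) (by positivity)
  · have e : 1 - (b0 : ℝ) / 200 / ((p : ℝ) / q) = (200 * p - b0 * q) / (200 * p) := by
      field_simp
    rw [e]
    refine div_pos ?_ (by positivity)
    nlinarith

/-- the facts -/
structure Lp (b0 sm ka Pa : ℕ) (ks Ps : List ℕ) : Prop where
  len : Ps.length = ks.length
  inc : Inc ((ka : ℝ) / 200) (kR ks)
  le : ∀ k ∈ ks, k ≤ 200
  mo : Mo ((Pa : ℝ) / 12800) (pR Ps)
  pr : PrOK ((b0 : ℝ) / 200) ((ka : ℝ) / 200) ((Pa : ℝ) / 12800) (kR ks) (pR Ps)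
  cap : ∃ μ : ℝ, 1 < μ ∧ 1 - (b0 : ℝ) / 200 + (μ - 1) * ((sm : ℝ) / 200)
    ≤ top ((ka : ℝ) / 200) (kR ks) * (1 - (b0 : ℝ) / 200 / μ) ∧ 0 < 1 - (b0 : ℝ) / 200 / μ

lemma lp_sound {b0 sm : ℕ} (hb : b0 ≤ 200) (ks : List ℕ) : ∀ (ka Pa : ℕ) (Ps : List ℕ) (mus : List (ℕ × ℕ)),
    ka ≤ 200 → lp b0 sm ks ka Pa Ps mus = true → Lp b0 sm ka Pa ks Ps := by
  induction ks with
  | nil =>
    intro ka Pa Ps mus hka h
    cases Ps with
    | cons P Ps => exact absurd h (by simp [lp])
    | nil =>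
      cases mus with
      | nil => exact absurd h (by simp [lp])
      | cons m mus =>
        have e : lp b0 sm [] ka Pa [] (m :: mus) = cond (gt1 m.1 m.2) (KnpM.cap b0 sm ka m.1 m.2) false := rfl
        rw [e] at h
        obtain ⟨h1, h2⟩ := cond_eq_true h
        obtain ⟨h3, h4⟩ := gt1_sound h1
        have hka' : (ka : ℝ) ≤ 200 := by exact_mod_cast hka
        refine ⟨rfl, ?_, fun k hk => absurd hk (by simp), trivial, trivial,
          ⟨_, mu_gt h3 h4, cap_sound hb h3 h4 h2⟩⟩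
        show (ka : ℝ) / 200 ≤ 1
        linarith
  | cons k ks ih =>
    intro ka Pa Ps mus hka h
    cases Ps with
    | nil => exact absurd h (by simp [lp])
    | cons P Ps =>
      cases mus with
      | nil => exact absurd h (by simp [lp])
      | cons m mus =>
        have e : lp b0 sm (k :: ks) ka Pa (P :: Ps) (m :: mus) = cond (Nat.ble (Nat.succ ka) k)
          (cond (Nat.ble k (nat_lit 200)) (cond (Nat.ble Pa P)
          (cond (cond (Nat.beq P (nat_lit 0)) true (cond (gt1 m.1 m.2)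
            (cond (tan b0 ka Pa m.1 m.2) (tan b0 k P m.1 m.2) false) false))
            (lp b0 sm ks k P Ps mus) false) false) false) false := rfl
        rw [e] at h
        obtain ⟨h1, h⟩ := cond_eq_true h
        obtain ⟨h2, h⟩ := cond_eq_true h
        obtain ⟨h3, h⟩ := cond_eq_true h
        obtain ⟨h4, h⟩ := cond_eq_true h
        have h1 : ka < k := Nat.le_of_ble_eq_true h1
        have h2 : k ≤ 200 := Nat.le_of_ble_eq_true h2
        have h3 : Pa ≤ P := Nat.le_of_ble_eq_true h3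
        have hr := ih k P Ps mus h2 h
        have h1' : (ka : ℝ) < k := by exact_mod_cast h1
        have h3' : (Pa : ℝ) ≤ P := by exact_mod_cast h3
        refine ⟨by simpa using hr.len, ⟨?_, hr.inc⟩, ?_, ⟨?_, hr.mo⟩, ⟨?_, hr.pr⟩, hr.cap⟩
        · exact div_lt_div_of_pos_right h1' (by norm_num)
        · intro k' hk'
          rcases List.mem_cons.mp hk' with rfl | hk'
          · exact h2
          · exact hr.le k' hk'
        · exact div_le_div_of_nonneg_right h3' (by norm_num)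
        · cases hP : Nat.beq P (nat_lit 0) with
          | true =>
            left
            have hP0 : P = 0 := Nat.eq_of_beq_eq_true hP
            have hPa0 : Pa = 0 := by omega
            rw [hP0, hPa0]
            norm_num
          | false =>
            right
            rw [hP, cond_false] at h4
            obtain ⟨h5, h4⟩ := cond_eq_true h4
            obtain ⟨h6, h7⟩ := cond_eq_true h4
            obtain ⟨h8, h9⟩ := gt1_sound h5
            exact ⟨_, mu_gt h8 h9, tan_sound hb h8 h9 h6, tan_sound hb h8 h9 h7⟩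

end KnpM

/-- SOUNDNESS of the check of knots and prices. -/
theorem knpC_sound {b0 sm : ℕ} {ks Ps : List ℕ} {mus : List (ℕ × ℕ)} (h : knpC b0 sm ks Ps mus = true) :
    KnP b0 sm ks Ps := by
  unfold knpC at h
  obtain ⟨h1, h⟩ := cond_eq_true h
  have hb : b0 ≤ 200 := Nat.le_of_ble_eq_true h1
  cases ks with
  | nil => exact absurd h (by simp)
  | cons k ks =>
    have h' : KnpM.lp b0 sm (k :: ks) 0 0 Ps mus = true := h
    have hr := KnpM.lp_sound hb (k :: ks) 0 0 Ps mus (by norm_num) h'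
    have e0 : ((0 : ℕ) : ℝ) / 200 = 0 := by norm_num
    have e1 : ((0 : ℕ) : ℝ) / 12800 = 0 := by norm_num
    refine ⟨?_, by simp, hr.le, hr.len, ?_, ?_, ?_⟩
    · have := hr.inc
      rw [e0] at this
      exact this
    · have := hr.mo
      rw [e1] at this
      exact this
    · have := hr.pr
      rw [e0, e1] at this
      exact this
    · have := hr.cap
      rw [e0] at this
      exact this

end B1
end Pool.Agent.Lib.MP_6947cd_al
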