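import Pool.Agent.Lib.MP_6947cd_al.Y.RC

/-!
Problem MP_6947cd_al (Chollet).  CASE B, large second entry: the leaf, real form.
-/

set_option autoImplicit false
open Finset

namespace Pool.Agent.Lib.MP_6947cd_al
namespace B1

open Ent Ent.Pk Fr Fr.WT PkA

/-- the real analysis behind a leaf -/
structure SpR : Prop where
  r1 : SpecR1
  r2 : SpecR2
  r3 : SpecR3
  r4 : SpecR4
  r5 : SpecR5

/-- the position of the rests of the row `i` -/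
structure Seg (m q : ℕ) (sa sb : ℝ) (Mi : Multiset ℝ) : Prop where
  m0 : 0 < m
  m1 : m ≤ 200
  qa : (q : ℝ) * ((m : ℝ) / 200) ≤ sa
  bq : sb ≤ ((q : ℝ) + 1) * ((m : ℝ) / 200)
  aS : sa ≤ Mi.sum
  Sb : Mi.sum ≤ sb

/-- the defect of the row `i` is bounded by the corners -/
theorem defect_le (hR : SpR) {bj bk : Bool} {m tl TCj TCk : ℕ} {ksj Psj ksk Psk : List ℕ} {h t g x y z : ℝ}
    {Mi : Multiset ℝ} {nj : List ℕ} {fj : List Bool} {Mj : Multiset ℝ} {nk : List ℕ} {fk : List Bool}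
    {Mk : Multiset ℝ} {Gj Gk Wj Wk : ℝ}
    (c : RC bj bk m tl TCj TCk ksj Psj ksk Psk h t g x y z Mi nj fj Mj nk fk Mk Gj Gk Wj Wk)
    {q : ℕ} {sa sb : ℝ} (sg : Seg m q sa sb Mi) {h0 h1 t0 t1 x0 x1 Dh : ℝ} (hh0 : 0 < h0) (ht0 : 0 < t0) (hx0 : 0 ≤ x0)
    (hh1 : h1 ≤ 1) (ht1 : t1 ≤ 1) (hx1 : x1 ≤ 1) (a1 : h0 ≤ h) (a2 : h ≤ h1) (a3 : t0 ≤ t) (a4 : t ≤ t1)
    (a5 : x0 ≤ x) (a6 : x ≤ x1) (s0 : 17 / 20 ≤ h) (s0' : 17 / 20 ≤ t)
    (hD : ∀ bh bt bx br : Bool,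
      FM (1 ::ₘ (bif bh then h1 else h0) ::ₘ (bif bt then t1 else t0) ::ₘ (bif bx then x1 else x0)
        ::ₘ (bif br then sb - q * ((m : ℝ) / 200) else sa - q * ((m : ℝ) / 200))
        ::ₘ Multiset.replicate q ((m : ℝ) / 200))
      - Wc ((bif bh then h1 else h0) + (bif bt then t1 else t0) + (bif bx then x1 else x0)
        + ((bif br then sb - q * ((m : ℝ) / 200) else sa - q * ((m : ℝ) / 200))
          ::ₘ Multiset.replicate q ((m : ℝ) / 200)).sum) ≤ Dh) :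
    FM (1 ::ₘ h ::ₘ t ::ₘ x ::ₘ Mi) ≤ FM (1 ::ₘ h ::ₘ t ::ₘ x ::ₘ (Mi.sum - q * ((m : ℝ) / 200))
      ::ₘ Multiset.replicate q ((m : ℝ) / 200)) ∧
    Om Mi ≤ 43 / 200 * Mi.sum + 39 / 200 * ((Mi.sum - q * ((m : ℝ) / 200)) ^ 2 + q * ((m : ℝ) / 200) ^ 2) ∧
    ((Mi.sum - q * ((m : ℝ) / 200)) ::ₘ Multiset.replicate q ((m : ℝ) / 200)).sum = Mi.sum ∧
    FM (1 ::ₘ h ::ₘ t ::ₘ x ::ₘ Mi) - What (h + t + x + Mi.sum)
      ≤ FM (1 ::ₘ h ::ₘ t ::ₘ x ::ₘ (Mi.sum - q * ((m : ℝ) / 200))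
        ::ₘ Multiset.replicate q ((m : ℝ) / 200)) - Wc (h + t + x + Mi.sum) ∧
    FM (1 ::ₘ h ::ₘ t ::ₘ x ::ₘ (Mi.sum - q * ((m : ℝ) / 200))
        ::ₘ Multiset.replicate q ((m : ℝ) / 200)) - Wc (h + t + x + Mi.sum) ≤ Dh := by
  have hm0 : (0 : ℝ) < (m : ℝ) / 200 := by
    have : (0 : ℝ) < m := by exact_mod_cast sg.m0
    positivity
  have hm1 : (m : ℝ) / 200 ≤ 1 := by
    have : (m : ℝ) ≤ 200 := by exact_mod_cast sg.m1
    linarith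
  have hS0 : 0 ≤ Mi.sum := Multiset.sum_nonneg fun e he => (c.ri e he).1
  have e0 : ∀ M : Multiset ℝ, (1 : ℝ) ::ₘ h ::ₘ t ::ₘ x ::ₘ M = (1 ::ₘ h ::ₘ t ::ₘ x ::ₘ 0) + M := by
    intro M
    simp only [Multiset.cons_add, zero_add]
  obtain ⟨f1, f2⟩ := hR.r4 (1 ::ₘ h ::ₘ t ::ₘ x ::ₘ 0) Mi ((m : ℝ) / 200) q (by simp) (by
      intro e he
      simp only [Multiset.mem_cons, Multiset.notMem_zero, or_false] at he
      rcases he with rfl | rfl | rfl | rfl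
      · exact ⟨zero_le_one, le_rfl⟩
      · exact ⟨by linarith, by linarith⟩
      · exact ⟨by linarith, by linarith⟩
      · exact ⟨by linarith, by linarith⟩) hm0 hm1 c.ri (sg.qa.trans sg.aS) (sg.Sb.trans sg.bq)
  rw [← e0, ← e0] at f1
  have hsum : ((Mi.sum - q * ((m : ℝ) / 200)) ::ₘ Multiset.replicate q ((m : ℝ) / 200)).sum = Mi.sum := by
    rw [Multiset.sum_cons, Multiset.sum_replicate, nsmul_eq_mul]
    ring
  have hW := Wc_le_What (h + t + x + Mi.sum) (by linarith [c.x0]) c.toti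
  refine ⟨f1, f2, hsum, by linarith, ?_⟩
  have := hR.r2 h0 h1 t0 t1 x0 x1 (sa - q * ((m : ℝ) / 200)) (sb - q * ((m : ℝ) / 200)) Dh h t x
    (Mi.sum - q * ((m : ℝ) / 200)) ((m : ℝ) / 200) q hh0.le ht0.le hx0 (by linarith [sg.qa]) hm0.le hh1 ht1 hx1
    (by linarith [sg.bq]) hm1 a1 a2 a3 a4 a5 a6 (by linarith [sg.aS]) (by linarith [sg.Sb]) hD
  rw [hsum] at this
  exact this

/-- a payer with a large reserve does not need anybody -/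
lemma payer_contra {h0 h D Dh R R' d Wv Gv : ℝ} (hh0 : 0 < h0) (a1 : h0 ≤ h) (a2 : h ≤ 1) (hD0 : 0 < D)
    (hDD : D ≤ Dh) (hR0 : 0 ≤ R) (hRR : R ≤ R')
    (hd : Dh * (4 * h0 - h0 ^ 2) + 4 * R' * max Dh (1 / 1000) ≤ 3 * h0 ^ 2 * d) (hG : Gv + d ≤ Wv)
    (hpay : 3 * h ^ 2 * (-(Gv - Wv)) < need D h R) : False := by
  unfold need at hpay
  have h1 : max D (1 / 1000) ≤ max Dh (1 / 1000) := max_le_max hDD le_rfl
  have h2 : (0 : ℝ) < max Dh (1 / 1000) := lt_of_lt_of_le (by norm_num) (le_max_right _ _)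
  set E := max Dh (1 / 1000) with hE
  have h3 : R * max D (1 / 1000) ≤ R' * E := mul_le_mul hRR h1 (le_trans (by norm_num) (le_max_right _ _)) (hR0.trans hRR)
  have h4 : D * (4 * h - h ^ 2) ≤ Dh * (4 * h - h ^ 2) := mul_le_mul_of_nonneg_right hDD (by nlinarith)
  have h5 : 3 * h ^ 2 * d < Dh * (4 * h - h ^ 2) + 4 * (R' * E) := by
    have : d ≤ -(Gv - Wv) := by linarith
    have := mul_le_mul_of_nonneg_left this (show (0 : ℝ) ≤ 3 * h ^ 2 by positivity)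
    linarith
  -- multiply by h0 ^ 2 and compare
  have hDh : 0 ≤ Dh := (hD0.trans_le hDD).le
  have hRE : 0 ≤ R' * E := mul_nonneg (hR0.trans hRR) h2.le
  have hh : 0 < h := lt_of_lt_of_le hh0 a1
  have k1 : h0 ^ 2 * (Dh * (4 * h - h ^ 2)) ≤ h ^ 2 * (Dh * (4 * h0 - h0 ^ 2)) := by
    have : h ^ 2 * (Dh * (4 * h0 - h0 ^ 2)) - h0 ^ 2 * (Dh * (4 * h - h ^ 2)) = 4 * Dh * h * h0 * (h - h0) := by ring
    have h6 : 0 ≤ 4 * Dh * h * h0 * (h - h0) := by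
      have : 0 ≤ h - h0 := by linarith
      positivity
    linarith
  have k2 : h0 ^ 2 * (4 * (R' * E)) ≤ h ^ 2 * (4 * (R' * E)) :=
    mul_le_mul_of_nonneg_right (by nlinarith) (by linarith)
  have k3 : h0 ^ 2 * (3 * h ^ 2 * d) < h0 ^ 2 * (Dh * (4 * h - h ^ 2) + 4 * (R' * E)) :=
    mul_lt_mul_of_pos_left h5 (by positivity)
  have k4 : h ^ 2 * (Dh * (4 * h0 - h0 ^ 2) + 4 * R' * E) ≤ h ^ 2 * (3 * h0 ^ 2 * d) :=
    mul_le_mul_of_nonneg_left hd (by positivity)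
  nlinarith [k1, k2, k3, k4]

/-- THE LEAF, real form. -/
theorem leaf_real (hR : SpR) {bj bk : Bool} {m tl TCj TCk : ℕ} {ksj Psj ksk Psk : List ℕ} {h t g x y z : ℝ}
    {Mi : Multiset ℝ} {nj : List ℕ} {fj : List Bool} {Mj : Multiset ℝ} {nk : List ℕ} {fk : List Bool}
    {Mk : Multiset ℝ} {Gj Gk Wj Wk : ℝ}
    (c : RC bj bk m tl TCj TCk ksj Psj ksk Psk h t g x y z Mi nj fj Mj nk fk Mk Gj Gk Wj Wk)
    (hMj : ∀ e ∈ Mj, 0 ≤ e ∧ e ≤ 1) (hMk : ∀ e ∈ Mk, 0 ≤ e ∧ e ≤ 1)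
    {q : ℕ} {sa sb : ℝ} (sg : Seg m q sa sb Mi) {h0 h1 t0 t1 g0 g1 x0 x1 y0 y1 z0 z1 Dh : ℝ}
    (hh0 : 17 / 20 ≤ h0) (ht0 : 17 / 20 ≤ t0) (hg0 : 0 ≤ g0) (hx0 : 0 ≤ x0) (hy0 : 0 ≤ y0) (hz0 : 0 ≤ z0)
    (hth : t0 ≤ h0) (hh1 : h1 ≤ 1) (ht1 : t1 ≤ 1) (hg1 : g1 ≤ 1) (hx1 : x1 ≤ 1) (hy1 : y1 ≤ 1) (hz1 : z1 ≤ 1)
    (a1 : h0 ≤ h) (a2 : h ≤ h1) (a3 : t0 ≤ t) (a4 : t ≤ t1) (b1 : g0 ≤ g) (b2 : g ≤ g1)
    (a5 : x0 ≤ x) (a6 : x ≤ x1) (b3 : y0 ≤ y) (b4 : y ≤ y1) (b5 : z0 ≤ z) (b6 : z ≤ z1)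
    (hD : ∀ bh bt bx br : Bool,
      FM (1 ::ₘ (bif bh then h1 else h0) ::ₘ (bif bt then t1 else t0) ::ₘ (bif bx then x1 else x0)
        ::ₘ (bif br then sb - q * ((m : ℝ) / 200) else sa - q * ((m : ℝ) / 200))
        ::ₘ Multiset.replicate q ((m : ℝ) / 200))
      - Wc ((bif bh then h1 else h0) + (bif bt then t1 else t0) + (bif bx then x1 else x0)
        + ((bif br then sb - q * ((m : ℝ) / 200) else sa - q * ((m : ℝ) / 200))
          ::ₘ Multiset.replicate q ((m : ℝ) / 200)).sum) ≤ Dh)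
    {a K KJ KK lI βj βk μj μk cy cz ct Γ s1 dj dk : ℝ} {Li Rj Rk : Bool → Bool → Bool → ℝ}
    (hap : 0 < a) (hK : 0 ≤ K) (hKJ : 0 ≤ KJ) (hKK : 0 ≤ KK) (hlI : 0 ≤ lI) (hβj : 0 ≤ βj) (hβk : 0 ≤ βk)
    (hμj : 0 ≤ μj) (hμk : 0 ≤ μk) (hcy : 0 ≤ cy) (hcz : 0 ≤ cz) (hct : 0 ≤ ct) (hΓ : 0 ≤ Γ) (hs1 : Mi.sum ≤ s1)
    (cvy : ConvexOn ℝ (Set.Icc y0 y1) (fun u => -(cy * prF ksj Psj u)))
    (cvz : ConvexOn ℝ (Set.Icc z0 z1) (fun u => -(cz * prF ksk Psk u)))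
    (k1 : bj = true → K = 0 ∧ KJ = 0) (k2 : bk = true → K = 0 ∧ KK = 0)
    (k3 : bj = false → βj * (4 - h0) ≤ 3 * h0 * (K + KJ)) (k4 : bk = false → βk * (4 - t0) ≤ 3 * t0 * (K + KK))
    (k5 : K * (x1 + s1) * (4 / (4 * t0 - t0 ^ 2)) + KJ * ((if bk = true then t1 else 0) + x1 + s1) * (4 / (4 * h0 - h0 ^ 2))
      + KK * ((if bj = true then h1 else 0) + x1 + s1) * (4 / (4 * t0 - t0 ^ 2)) ≤ Γ)
    (dj1 : bj = false → Dh * (4 * h0 - h0 ^ 2) + 4 * ((if bk = true then t1 else 0) + x1 + s1) * max Dh (1 / 1000)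
      ≤ 3 * h0 ^ 2 * dj) (dj0 : 0 ≤ dj)
    (dk1 : bk = false → Dh * (4 * t0 - t0 ^ 2) + 4 * ((if bj = true then h1 else 0) + x1 + s1) * max Dh (1 / 1000)
      ≤ 3 * t0 ^ 2 * dk) (dk0 : 0 ≤ dk)
    (hI : ∀ bh bt bx br : Bool, UI a (K + KJ + KK + lI) Γ (cy + cz + ct) (bif bh then h1 else h0) (bif bt then t1 else t0)
      (bif bx then x1 else x0) ((bif br then sb - q * ((m : ℝ) / 200) else sa - q * ((m : ℝ) / 200))
        ::ₘ Multiset.replicate q ((m : ℝ) / 200))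
      + a * (43 / 200 * ((bif br then sb - q * ((m : ℝ) / 200) else sa - q * ((m : ℝ) / 200)) + q * ((m : ℝ) / 200))
        + 39 / 200 * ((bif br then sb - q * ((m : ℝ) / 200) else sa - q * ((m : ℝ) / 200)) ^ 2
          + q * ((m : ℝ) / 200) ^ 2))
      + (μj + μk + ct) * ((bif br then sb - q * ((m : ℝ) / 200) else sa - q * ((m : ℝ) / 200)) + q * ((m : ℝ) / 200))
      ≤ Li bh bt bx + ct * ((tl : ℝ) / 200))
    (hJ : (∀ bb bg by' : Bool, UJ a βj ((cF bj : ℝ) / 10 ^ 7) cy μj (omF ksj) (prF ksj Psj) (bif bb then h1 else h0)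
        (bif bg then g1 else g0) (bif by' then y1 else y0) Mj ≤ Rj bb bg by') ∨
      (max (FM (1 ::ₘ h ::ₘ g ::ₘ y ::ₘ Mj)) ((cF bj : ℝ) / 10 ^ 7) + dj ≤ Wc (h + g + y + Mj.sum)))
    (hKs : (∀ bb bg by' : Bool, UJ a βk ((cF bk : ℝ) / 10 ^ 7) cz μk (omF ksk) (prF ksk Psk) (bif bb then t1 else t0)
        (bif bg then g1 else g0) (bif by' then z1 else z0) Mk ≤ Rk bb bg by') ∨
      (max (FM (1 ::ₘ t ::ₘ g ::ₘ z ::ₘ Mk)) ((cF bk : ℝ) / 10 ^ 7) + dk ≤ Wc (t + g + z + Mk.sum)))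
    (hL : ∀ bh bt bg bx by' bz : Bool, Li bh bt bx + Rj bh bg by' + Rk bt bg bz
      ≤ 2 * a * Real.log (2 * ((bif bh then h1 else h0) + (bif bt then t1 else t0) + (bif bg then g1 else g0)))) :
    False := by
  obtain ⟨f1, f2, f3, f4, f5⟩ := defect_le hR c sg (by linarith) (by linarith) hx0 hh1 ht1 hx1 a1 a2 a3 a4 a5 a6
    (by linarith) (by linarith) hD
  have ha : 0 ≤ a := hap.le
  have hm0 : (0 : ℝ) < (m : ℝ) / 200 := by
    have : (0 : ℝ) < m := by exact_mod_cast sg.m0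
    positivity
  have hm1 : (m : ℝ) / 200 ≤ 1 := by
    have : (m : ℝ) ≤ 200 := by exact_mod_cast sg.m1
    linarith
  have hS0 : 0 ≤ Mi.sum := Multiset.sum_nonneg fun e he => (c.ri e he).1
  have hdi := c.di
  have hx := c.x0
  obtain ⟨D, hDdef⟩ : ∃ D, D = FM (1 ::ₘ h ::ₘ t ::ₘ x ::ₘ Mi) - What (h + t + x + Mi.sum) := ⟨_, rfl⟩
  have hpj := c.payj
  have hpk := c.payk
  have hp2 := c.pay2
  rw [← hDdef] at hdi f4 hpj hpk hp2
  -- the side j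
  rcases hJ with hJ | hJ
  swap
  · have g1' := c.gj
    have w1 := c.wj
    have hG : Gj + dj ≤ Wj := by linarith
    cases bj with
    | true =>
      have h7 : 0 < Gj - Wj := by simpa using c.cj
      linarith
    | false =>
      refine payer_contra (by linarith) a1 (a2.trans hh1) hdi (f4.trans f5) ?_ ?_ (dj1 rfl) hG (hpj rfl)
      · cases bk <;> simp <;> linarith
      · cases bk <;> simp <;> linarith
  rcases hKs with hKs | hKs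
  swap
  · have g1' := c.gk
    have w1 := c.wk
    have hG : Gk + dk ≤ Wk := by linarith
    cases bk with
    | true =>
      have h7 : 0 < Gk - Wk := by simpa using c.ck
      linarith
    | false =>
      refine payer_contra (by linarith) a3 (a4.trans ht1) hdi (f4.trans f5) ?_ ?_ (dk1 rfl) hG (hpk rfl)
      · cases bj <;> simp <;> linarith
      · cases bj <;> simp <;> linarith
  -- the payments
  have hR5 := hR.r5 bj bk h t x Mi.sum D (Gj - Wj) (Gk - Wk) K KJ KK βj βk Γ (x1 + s1)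
    ((if bk = true then t1 else 0) + x1 + s1) ((if bj = true then h1 else 0) + x1 + s1) h0 t0
    (by linarith) (by linarith) a1 a3 (a2.trans hh1) (a4.trans ht1) hth hx hS0 hdi hK hKJ hKK hβj hβk hΓ
    (by linarith) (by cases bk <;> simp <;> linarith) (by cases bj <;> simp <;> linarith) k1 k2 k3 k4 k5 c.cj c.ck
    hpj hpk hp2
  -- the total function
  set N : Multiset ℝ := (Mi.sum - q * ((m : ℝ) / 200)) ::ₘ Multiset.replicate q ((m : ℝ) / 200) with hN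
  set r : ℝ := Mi.sum - q * ((m : ℝ) / 200) with hr
  have hr0 : 0 ≤ r := by rw [hr]; linarith [sg.qa, sg.aS]
  have hr1 : r ≤ 1 := by rw [hr]; linarith [sg.bq, sg.Sb]
  have hNv : ∀ e ∈ N, 0 ≤ e ∧ e ≤ 1 := by
    intro e he
    rw [hN] at he
    rcases Multiset.mem_cons.mp he with rfl | he
    · exact ⟨hr0, hr1⟩
    · rw [Multiset.eq_of_mem_replicate he]
      exact ⟨hm0.le, hm1⟩
  obtain ⟨C, hC⟩ : ∃ C, C = ct * ((tl : ℝ) / 200) - (a * (43 / 200 * (r + q * ((m : ℝ) / 200))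
      + 39 / 200 * (r ^ 2 + q * ((m : ℝ) / 200) ^ 2)) + (μj + μk + ct) * (r + q * ((m : ℝ) / 200))) := ⟨_, rfl⟩
  have hR1 := hR.r1 a (K + KJ + KK + lI) Γ (cy + cz + ct) βj βk ((cF bj : ℝ) / 10 ^ 7) ((cF bk : ℝ) / 10 ^ 7) cy cz μj μk C
    (omF ksj) (prF ksj Psj) (omF ksk) (prF ksk Psk) h0 h1 t0 t1 g0 g1 x0 x1 y0 y1 z0 z1 h t g x y z N Mj Mk
    ha (by positivity) hΓ hβj hβk hNv hMj hMk (by linarith) (by linarith) hg0 hx0 hy0 hz0 hh1 ht1 hg1 hx1 hy1 hz1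
    a1 a2 a3 a4 b1 b2 a5 a6 b3 b4 b5 b6 cvy cvz (by
      intro bh bt bg bx by' bz
      have e1 := hJ bh bg by'
      have e2 := hKs bt bg bz
      have e3 := hL bh bt bg bx by' bz
      have hbh : 0 ≤ (bif bh then h1 else h0) ∧ (bif bh then h1 else h0) ≤ 1 := by
        cases bh <;> simp <;> constructor <;> linarith
      have hbt : 0 ≤ (bif bt then t1 else t0) ∧ (bif bt then t1 else t0) ≤ 1 := by
        cases bt <;> simp <;> constructor <;> linarith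
      have hbx : 0 ≤ (bif bx then x1 else x0) ∧ (bif bx then x1 else x0) ≤ 1 := by
        cases bx <;> simp <;> constructor <;> linarith
      have e4 := hR.r3 a (K + KJ + KK + lI) Γ (cy + cz + ct) (μj + μk + ct) (sa - q * ((m : ℝ) / 200))
        (sb - q * ((m : ℝ) / 200)) (Li bh bt bx + ct * ((tl : ℝ) / 200)) (bif bh then h1 else h0)
        (bif bt then t1 else t0) (bif bx then x1 else x0) r ((m : ℝ) / 200) q ha (by positivity) hΓ hbh.1 hbt.1 hbx.1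
        (by linarith [sg.qa]) hm0.le hbh.2 hbt.2 hbx.2 (by linarith [sg.bq]) hm1 (by rw [hr]; linarith [sg.aS])
        (by rw [hr]; linarith [sg.Sb]) (hI bh bt bx)
      rw [hC]
      linarith)
  -- the contradiction
  have g1' := c.gj
  have g2' := c.gk
  have w1 := c.wj
  have w2 := c.wk
  have hnr := c.nr
  have hsumN : r + q * ((m : ℝ) / 200) = Mi.sum := by rw [hr]; ring
  rw [hC, hsumN] at hR1
  unfold UI UJ at hR1
  rw [f3] at hR1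
  obtain ⟨F1, hF1⟩ : ∃ F1, F1 = FM (1 ::ₘ h ::ₘ t ::ₘ x ::ₘ N) := ⟨_, rfl⟩
  obtain ⟨F2, hF2⟩ : ∃ F2, F2 = max (FM (1 ::ₘ h ::ₘ g ::ₘ y ::ₘ Mj)) ((cF bj : ℝ) / 10 ^ 7) := ⟨_, rfl⟩
  obtain ⟨F3, hF3⟩ : ∃ F3, F3 = max (FM (1 ::ₘ t ::ₘ g ::ₘ z ::ₘ Mk)) ((cF bk : ℝ) / 10 ^ 7) := ⟨_, rfl⟩
  rw [← hF1] at f1 f4 f5 hR1
  rw [← hF2] at g1' hR1
  rw [← hF3] at g2' hR1
  obtain ⟨E, hE⟩ : ∃ E, E = max (F1 - Wc (h + t + x + Mi.sum)) (1 / 1000) := ⟨_, rfl⟩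
  have hE1 : max D (1 / 1000) ≤ E := by rw [hE]; exact max_le_max f4 le_rfl
  rw [← hE] at hR1
  have u1 := mul_le_mul_of_nonneg_left hE1 hΓ
  have u2 := mul_le_mul_of_nonneg_left f4 (show 0 ≤ K + KJ + KK + lI by positivity)
  have u3 := mul_nonneg hlI hdi.le
  have u4 := mul_le_mul_of_nonneg_left g1' (show 0 ≤ a + βj by positivity)
  have u5 := mul_le_mul_of_nonneg_left g2' (show 0 ≤ a + βk by positivity)
  have u6 := mul_le_mul_of_nonneg_left w1 hβj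
  have u7 := mul_le_mul_of_nonneg_left w2 hβk
  have u8 := mul_le_mul_of_nonneg_left c.prj hμj
  have u9 := mul_le_mul_of_nonneg_left c.prk hμk
  have v1 := mul_le_mul_of_nonneg_left c.pry hcy
  have v2 := mul_le_mul_of_nonneg_left c.prz hcz
  have v3 := mul_le_mul_of_nonneg_left c.tl hct
  have v4 := mul_le_mul_of_nonneg_left f1 ha
  have v5 := mul_le_mul_of_nonneg_left f2 ha
  have v6 := mul_lt_mul_of_pos_left hnr hap
  linarith [u1, u2, u3, u4, u5, u6, u7, u8, u9, v1, v2, v3, v4, v5, v6, hR1, hR5]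

end B1
end Pool.Agent.Lib.MP_6947cd_al
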