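import Pool.Agent.Lib.MP_6947cd_al.Y.KnpC

/-!
Problem MP_6947cd_al (Chollet).  CASE B, large second entry: the masks, as a kernel program.
-/

set_option autoImplicit false
open Finset

namespace Pool.Agent.Lib.MP_6947cd_al
namespace PkA

open Ent Ent.Pk Fr Fr.WT B1

namespace MsM

/-- a mask -/
abbrev Mk : Type := List (ℕ × ℕ) × ℕ × ℕ × ℕ

/-- the offsets of the corners: no entry in the piece -/
noncomputable def offA (r : ℕ) (l : List (ℕ × ℕ)) : (List (ℕ × ℕ) → Bool) → Bool :=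
  @List.rec (ℕ × ℕ) (fun _ => (List (ℕ × ℕ) → Bool) → Bool) (fun K => K [])
    (fun t _ ih K => frc (Nat.add t.1 (Nat.mul r t.2)) fun v => ih fun l' => K ((nat_lit 0, v) :: l')) l

/-- the offsets of the corners: an entry in the piece -/
noncomputable def offB (r : ℕ) (l : List (ℕ × ℕ)) : (List (ℕ × ℕ) → Bool) → Bool :=
  @List.rec (ℕ × ℕ) (fun _ => (List (ℕ × ℕ) → Bool) → Bool) (fun K => K [])
    (fun t _ ih K => frc (Nat.add t.1 (Nat.mul r t.2)) fun v => frc (Nat.add (Nat.succ t.1) (Nat.mul r t.2)) fun w =>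
      ih fun l' => K ((nat_lit 1, v) :: (nat_lit 0, w) :: l')) l

lemma offA_eq (r : ℕ) (l : List (ℕ × ℕ)) : ∀ K, offA r l K = K (l.flatMap fun t => [(0, t.1 + r * t.2)]) := by
  induction l with
  | nil => intro K; rfl
  | cons t l ih =>
    intro K
    have e : offA r (t :: l) K = frc (Nat.add t.1 (Nat.mul r t.2)) fun v => offA r l fun l' => K ((0, v) :: l') := rfl
    rw [e, frc_eq, ih]
    rfl

lemma offB_eq (r : ℕ) (l : List (ℕ × ℕ)) : ∀ K, offB r l K
    = K (l.flatMap fun t => [(1, t.1 + r * t.2), (0, t.1 + 1 + r * t.2)]) := by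
  induction l with
  | nil => intro K; rfl
  | cons t l ih =>
    intro K
    have e : offB r (t :: l) K = frc (Nat.add t.1 (Nat.mul r t.2)) fun v =>
      frc (Nat.add (Nat.succ t.1) (Nat.mul r t.2)) fun w => offB r l fun l' => K ((1, v) :: (0, w) :: l') := rfl
    rw [e, frc_eq, frc_eq, ih]
    rfl

/-- one more knot -/
noncomputable def stp (r kp pp k : ℕ) (L : List Mk) : (List Mk → Bool) → Bool :=
  @List.rec Mk (fun _ => (List Mk → Bool) → Bool) (fun K => K [])
    (fun m _ ih K => offA r m.1 fun A => offB r m.1 fun B =>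
      frc m.2.1 fun b1 => frc m.2.2.1 fun b2 => frc m.2.2.2 fun b3 =>
      frc (Nat.add kp b1) fun c1 => frc (Nat.add pp b2) fun c2 => frc (Nat.add k b3) fun c3 =>
        ih fun L' => K ((A, b1, b2, b3) :: (B, c1, c2, c3) :: L')) L

lemma stp_eq (r kp pp k : ℕ) (L : List Mk) : ∀ K, stp r kp pp k L K = K (L.flatMap fun m =>
      [(m.1.flatMap fun t => [(0, t.1 + r * t.2)], 0 + m.2.1, 0 + m.2.2.1, 0 + m.2.2.2),
       (m.1.flatMap fun t => [(1, t.1 + r * t.2), (0, t.1 + 1 + r * t.2)],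
        kp + m.2.1, pp + m.2.2.1, k + m.2.2.2)]) := by
  induction L with
  | nil => intro K; rfl
  | cons m L ih =>
    intro K
    have e : stp r kp pp k (m :: L) K = offA r m.1 fun A => offB r m.1 fun B =>
      frc m.2.1 fun b1 => frc m.2.2.1 fun b2 => frc m.2.2.2 fun b3 =>
      frc (Nat.add kp b1) fun c1 => frc (Nat.add pp b2) fun c2 => frc (Nat.add k b3) fun c3 =>
        stp r kp pp k L fun L' => K ((A, b1, b2, b3) :: (B, c1, c2, c3) :: L') := rfl
    rw [e, offA_eq, offB_eq]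
    simp only [frc_eq]
    rw [ih]
    simp only [List.flatMap_cons, Nat.zero_add]
    rfl

end MsM

/-- THE MASKS as a program with continuation -/
noncomputable def mmC (rd : List ℕ) : List ℕ → List ℕ → ℕ → ℕ → (List MsM.Mk → Bool) → Bool :=
  @List.rec ℕ (fun _ => List ℕ → List ℕ → ℕ → ℕ → (List MsM.Mk → Bool) → Bool)
    (fun _ _ _ _ K => K [([(nat_lit 0, nat_lit 0)], nat_lit 0, nat_lit 0, nat_lit 0)])
    (fun r _ ih ks Ps kp pp K => @List.rec ℕ (fun _ => Bool) (K [([(nat_lit 0, nat_lit 0)], nat_lit 0, nat_lit 0, nat_lit 0)])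
      (fun k ks' _ => @List.rec ℕ (fun _ => Bool) (K [([(nat_lit 0, nat_lit 0)], nat_lit 0, nat_lit 0, nat_lit 0)])
        (fun p Ps' _ => ih ks' Ps' k p fun L => MsM.stp r kp pp k L K) Ps) ks) rd

theorem mmC_eq (rd : List ℕ) : ∀ (ks Ps : List ℕ) (kp pp : ℕ) (K : List MsM.Mk → Bool),
    mmC rd ks Ps kp pp K = K (mm rd ks Ps kp pp) := by
  induction rd with
  | nil => intro ks Ps kp pp K; rfl
  | cons r rd ih =>
    intro ks Ps kp pp K
    cases ks with
    | nil => rfl
    | cons k ks =>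
      cases Ps with
      | nil => rfl
      | cons p Ps =>
        have e : mmC (r :: rd) (k :: ks) (p :: Ps) kp pp K = mmC rd ks Ps k p fun L => MsM.stp r kp pp k L K := rfl
        rw [e, ih, MsM.stp_eq, mm]

end PkA
end Pool.Agent.Lib.MP_6947cd_al
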