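import Mathlib

/-!
Problem MP_6947cd_al (Chollet).  PACKED ARITHMETIC: natural numbers with digits of 64 bits; comparison of all the
digits at once.
-/

set_option autoImplicit false
open Finset

namespace Pool.Agent.Lib.MP_6947cd_al
namespace PkA

/-- packed number with digits of 64 bits -/
def pk (f : ℕ → ℕ) (N : ℕ) : ℕ := ∑ i ∈ range N, f i * 2 ^ (64 * i)

lemma pk_succ (f : ℕ → ℕ) (N : ℕ) : pk f (N + 1) = 2 ^ (64 * N) * f N + pk f N := by
  unfold pk
  rw [Finset.sum_range_succ, add_comm, mul_comm (f N)]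

lemma pk_lt (f : ℕ → ℕ) (N : ℕ) (h : ∀ i < N, f i < 2 ^ 64) : pk f N < 2 ^ (64 * N) := by
  induction N with
  | zero => simp [pk]
  | succ N ih =>
    rw [pk_succ]
    have h1 := ih fun i hi => h i (by omega)
    have h2 := h N (by omega)
    have h3 : 2 ^ (64 * (N + 1)) = 2 ^ (64 * N) * 2 ^ 64 := by
      rw [← pow_add]
      congr 1
    rw [h3]
    have h4 : f N + 1 ≤ 2 ^ 64 := h2
    have h5 := Nat.mul_le_mul_left (2 ^ (64 * N)) h4
    rw [Nat.mul_add, Nat.mul_one] at h5
    omega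

/-- the bits of a packed number -/
theorem testBit_pk (f : ℕ → ℕ) (N : ℕ) (h : ∀ i < N, f i < 2 ^ 64) (i j : ℕ) (hi : i < N) (hj : j < 64) :
    (pk f N).testBit (64 * i + j) = (f i).testBit j := by
  induction N with
  | zero => omega
  | succ N ih =>
    rw [pk_succ, Nat.testBit_two_pow_mul_add _ (pk_lt f N fun i hi => h i (by omega))]
    rcases Nat.lt_or_ge i N with h1 | h1
    · rw [if_pos (by omega), ih (fun i hi => h i (by omega)) h1]
    · have h2 : i = N := by omega
      subst h2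
      rw [if_neg (by omega)]
      congr 1
      omega

lemma pk_add (f g : ℕ → ℕ) (N : ℕ) : pk f N + pk g N = pk (fun i => f i + g i) N := by
  unfold pk
  rw [← Finset.sum_add_distrib]
  exact Finset.sum_congr rfl fun i _ => by ring

lemma pk_mul (a : ℕ) (f : ℕ → ℕ) (N : ℕ) : a * pk f N = pk (fun i => a * f i) N := by
  unfold pk
  rw [Finset.mul_sum]
  exact Finset.sum_congr rfl fun i _ => by ring

lemma pk_mul' (a : ℕ) (f : ℕ → ℕ) (N : ℕ) : pk f N * a = pk (fun i => f i * a) N := by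
  unfold pk
  rw [Finset.sum_mul]
  exact Finset.sum_congr rfl fun i _ => by ring

lemma pk_sub (f g : ℕ → ℕ) (N : ℕ) (h : ∀ i < N, g i ≤ f i) :
    pk f N - pk g N = pk (fun i => f i - g i) N := by
  have h1 : pk g N + pk (fun i => f i - g i) N = pk f N := by
    rw [pk_add]
    unfold pk
    refine Finset.sum_congr rfl fun i hi => ?_
    have h2 := h i (Finset.mem_range.mp hi)
    have h3 : g i + (f i - g i) = f i := by omega
    show (g i + (f i - g i)) * 2 ^ (64 * i) = f i * 2 ^ (64 * i)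
    rw [h3]
  omega

lemma pk_congr (f g : ℕ → ℕ) (N : ℕ) (h : ∀ i < N, f i = g i) : pk f N = pk g N := by
  unfold pk
  exact Finset.sum_congr rfl fun i hi => by rw [h i (Finset.mem_range.mp hi)]

/-- digit -/
def dg (X i : ℕ) : ℕ := Nat.land (Nat.shiftRight X (Nat.mul (nat_lit 64) i)) (nat_lit 18446744073709551615)

lemma dg_eq (X i : ℕ) : dg X i = X / 2 ^ (64 * i) % 2 ^ 64 := by
  have e : dg X i = (X >>> (64 * i)) &&& (2 ^ 64 - 1) := rfl
  rw [e, Nat.and_two_pow_sub_one_eq_mod, Nat.shiftRight_eq_div_pow]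

lemma dg_lt (X i : ℕ) : dg X i < 2 ^ 64 := by
  rw [dg_eq]
  exact Nat.mod_lt _ (by positivity)

lemma pk_dg (N : ℕ) : ∀ X : ℕ, X < 2 ^ (64 * N) → pk (dg X) N = X := by
  induction N with
  | zero =>
    intro X hX
    have : X = 0 := by simpa using hX
    subst this
    simp [pk]
  | succ N ih =>
    intro X hX
    have h3 : 2 ^ (64 * (N + 1)) = 2 ^ (64 * N) * 2 ^ 64 := by
      rw [← pow_add]
      congr 1
    rw [h3] at hX
    have h1 : X / 2 ^ (64 * N) < 2 ^ 64 := (Nat.div_lt_iff_lt_mul (by positivity)).mpr (by rwa [mul_comm] at hX)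
    rw [pk_succ, dg_eq, Nat.mod_eq_of_lt h1]
    have h2 : pk (dg X) N = pk (dg (X % 2 ^ (64 * N))) N := by
      refine pk_congr _ _ _ fun i hi => ?_
      rw [dg_eq, dg_eq]
      have e : 64 * N = 64 * i + 64 + (64 * N - 64 * i - 64) := by omega
      rw [e, pow_add, pow_add, mul_assoc, Nat.mod_mul_right_div_self, Nat.mod_mul_right_mod]
    rw [h2, ih _ (Nat.mod_lt _ (by positivity))]
    exact Nat.div_add_mod X _

/-- COMPARISON of the digits: bit 63 of `2^63 + x - y` -/
theorem cmp_bit (N : ℕ) (x y : ℕ → ℕ) (hx : ∀ i < N, x i < 2 ^ 63) (hy : ∀ i < N, y i ≤ 2 ^ 63) (i : ℕ)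
    (hi : i < N) :
    (pk (fun _ => 2 ^ 63) N + pk x N - pk y N).testBit (64 * i + 63) = true ↔ y i ≤ x i := by
  rw [pk_add, pk_sub _ _ _ fun i hi => by have := hy i hi; omega,
    testBit_pk _ _ (fun i hi => by have := hx i hi; omega) i 63 hi (by norm_num)]
  have h1 := hx i hi
  have h2 := hy i hi
  have h3 : 2 ^ 63 + x i - y i < 2 ^ 64 := by omega
  constructor
  · intro h
    have := Nat.ge_two_pow_of_testBit h
    omega
  · intro h
    rw [Nat.testBit_eq_decide_div_mod_eq]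
    have h4 : (2 ^ 63 + x i - y i) / 2 ^ 63 = 1 := by
      rw [Nat.div_eq_of_lt_le] <;> omega
    rw [h4]
    rfl

/-- the number with all digits `1` -/
def one (N : ℕ) : ℕ :=
  Nat.div (Nat.sub (Nat.shiftLeft (nat_lit 1) (Nat.mul (nat_lit 64) N)) (nat_lit 1)) (nat_lit 18446744073709551615)

lemma one_eq (N : ℕ) : one N = pk (fun _ => 1) N := by
  have h : pk (fun _ => 1) N * (2 ^ 64 - 1) = 2 ^ (64 * N) - 1 := by
    induction N with
    | zero => simp [pk]
    | succ N ih =>
      rw [pk_succ, Nat.add_mul, ih]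
      have h3 : 2 ^ (64 * (N + 1)) = 2 ^ (64 * N) * 2 ^ 64 := by
        rw [← pow_add]
        congr 1
      rw [h3, mul_one, Nat.mul_sub, mul_one]
      have h4 : 1 ≤ 2 ^ (64 * N) := Nat.one_le_two_pow
      have h5 : 2 ^ (64 * N) * 1 ≤ 2 ^ (64 * N) * 2 ^ 64 := Nat.mul_le_mul_left _ (by norm_num)
      omega
  have e : one N = (2 ^ (64 * N) - 1) / (2 ^ 64 - 1) := by
    have e1 : one N = ((1 <<< (64 * N)) - 1) / (2 ^ 64 - 1) := rfl
    rw [e1, Nat.one_shiftLeft]
  rw [e, ← h, Nat.mul_div_cancel _ (by norm_num)]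

lemma const_eq (c N : ℕ) : Nat.mul c (one N) = pk (fun _ => c) N := by
  show c * one N = _
  rw [one_eq, pk_mul]
  simp

lemma testBit_land_one {a b i : ℕ} (h : (Nat.land a b).testBit i = true) :
    a.testBit i = true ∧ b.testBit i = true := by
  have e : Nat.land a b = a &&& b := rfl
  rw [e, Nat.testBit_and, Bool.and_eq_true] at h
  exact h

end PkA
end Pool.Agent.Lib.MP_6947cd_al
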