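import Pool.Agent.Lib.MP_6947cd_al.Y.SideR

/-!
Problem MP_6947cd_al (Chollet).  CASE B, large second entry: the reduced configuration.

`ksj`, `Psj` = knots (unit 1/200) and prices (unit 1/12800) of the row `j`; `nj`, `fj`, `Mj` = reduced rests of
the row `j` (the same for `k`).  `TCj` = bound of the total of the row `j` (unit 1/200).
-/

set_option autoImplicit false
open Finset

namespace Pool.Agent.Lib.MP_6947cd_al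
namespace B1

open Ent Ent.Pk Fr Fr.WT PkA

/-- constant in the maximum: `1/2` for payers, `0` for bad vertices (unit `1e-7`) -/
def cF (b : Bool) : ℕ := bif b then 0 else 5000000

/-- the reduced configuration -/
structure RC (bj bk : Bool) (m tl TCj TCk : ℕ) (ksj Psj ksk Psk : List ℕ) (h t g x y z : ℝ) (Mi : Multiset ℝ)
    (nj : List ℕ) (fj : List Bool) (Mj : Multiset ℝ) (nk : List ℕ) (fk : List Bool) (Mk : Multiset ℝ)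
    (Gj Gk Wj Wk : ℝ) : Prop where
  th : t ≤ h
  x0 : 0 ≤ x
  ri : ∀ e ∈ Mi, 0 ≤ e ∧ e ≤ (m : ℝ) / 200
  redj : Red 0 (kR ksj) nj fj Mj
  redk : Red 0 (kR ksk) nk fk Mk
  tl : (tl : ℝ) / 200 ≤ x + Mi.sum
  totj : h + g + y + Mj.sum ≤ (TCj : ℝ) / 200
  totk : t + g + z + Mk.sum ≤ (TCk : ℝ) / 200
  prj : (Mj.map (prF ksj Psj)).sum ≤ Mi.sum
  prk : (Mk.map (prF ksk Psk)).sum ≤ Mi.sum
  pry : prF ksj Psj y ≤ x
  prz : prF ksk Psk z ≤ x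
  di : 0 < FM (1 ::ₘ h ::ₘ t ::ₘ x ::ₘ Mi) - What (h + t + x + Mi.sum)
  toti : h + t + x + Mi.sum ≤ 37 / 5
  nr : 2 * Real.log (2 * (h + t + g)) < FM (1 ::ₘ h ::ₘ t ::ₘ x ::ₘ Mi) + (omg x + Om Mi)
    + (Gj + (omg y + (Mj.map (omF ksj)).sum)) + (Gk + (omg z + (Mk.map (omF ksk)).sum))
  gj : Gj ≤ max (FM (1 ::ₘ h ::ₘ g ::ₘ y ::ₘ Mj)) ((cF bj : ℝ) / 10 ^ 7)
  gk : Gk ≤ max (FM (1 ::ₘ t ::ₘ g ::ₘ z ::ₘ Mk)) ((cF bk : ℝ) / 10 ^ 7)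
  wj : Wc (h + g + y + Mj.sum) ≤ Wj
  wk : Wc (t + g + z + Mk.sum) ≤ Wk
  cj : if bj = true then 0 < Gj - Wj else Gj - Wj ≤ 0
  ck : if bk = true then 0 < Gk - Wk else Gk - Wk ≤ 0
  payj : bj = false → 3 * h ^ 2 * (-(Gj - Wj))
    < need (FM (1 ::ₘ h ::ₘ t ::ₘ x ::ₘ Mi) - What (h + t + x + Mi.sum)) h
      ((if bk = true then t else 0) + x + Mi.sum)
  payk : bk = false → 3 * t ^ 2 * (-(Gk - Wk))
    < need (FM (1 ::ₘ h ::ₘ t ::ₘ x ::ₘ Mi) - What (h + t + x + Mi.sum)) t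
      ((if bj = true then h else 0) + x + Mi.sum)
  pay2 : bj = false → bk = false →
    3 * h ^ 2 * (-(Gj - Wj))
        / need (FM (1 ::ₘ h ::ₘ t ::ₘ x ::ₘ Mi) - What (h + t + x + Mi.sum)) h (x + Mi.sum)
      + 3 * t ^ 2 * (-(Gk - Wk))
        / need (FM (1 ::ₘ h ::ₘ t ::ₘ x ::ₘ Mi) - What (h + t + x + Mi.sum)) t (x + Mi.sum) < 1

/-- the prices are below the geometric bound, the last knot is a cap (`b0` = lower bound of the entry of the row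
`i`, `sm` = upper bound of the entries of the row `i` beyond the first two) -/
structure KnP (b0 sm : ℕ) (ks Ps : List ℕ) : Prop where
  inc : KnOK ks
  ne : ks ≠ []
  le : ∀ k ∈ ks, k ≤ 200
  len : Ps.length = ks.length
  mo : Mo 0 (pR Ps)
  pr : PrOK ((b0 : ℝ) / 200) 0 0 (kR ks) (pR Ps)
  cap : ∃ μ : ℝ, 1 < μ ∧ 1 - (b0 : ℝ) / 200 + (μ - 1) * ((sm : ℝ) / 200)
    ≤ top 0 (kR ks) * (1 - (b0 : ℝ) / 200 / μ) ∧ 0 < 1 - (b0 : ℝ) / 200 / μ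

/-- REDUCTION of a configuration (`TCj`, `TCk`: the totals are already bounded). -/
def SpecRC : Prop := ∀ (bj bk : Bool) (m tl TCj TCk H0 T0 sm : ℕ) (ksj Psj ksk Psk : List ℕ)
  (m' h t g x y z : ℝ) (Mi Mj Mk : Multiset ℝ) (Gj Gk : ℝ),
  Cfg bj bk m' h t g x y z Mi Mj Mk Gj Gk →
  KnP H0 sm ksj Psj → KnP T0 sm ksk Psk → (H0 : ℝ) / 200 ≤ h → (T0 : ℝ) / 200 ≤ t → x ≤ (sm : ℝ) / 200 →
  (∀ s : ℝ, 0 ≤ s → s ≤ m' → s ≤ Mi.sum → s ≤ (sm : ℝ) / 200) →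
  (∀ e ∈ Mi, e ≤ (m : ℝ) / 200) →
  (tl : ℝ) / 200 ≤ x + Mi.sum → h + t + x + Mi.sum ≤ 37 / 5 →
  h + g + y + Mj.sum ≤ (TCj : ℝ) / 200 → t + g + z + Mk.sum ≤ (TCk : ℝ) / 200 → TCj ≤ 1480 → TCk ≤ 1480 →
  y ≤ top 0 (kR ksj) ∧ z ≤ top 0 (kR ksk) ∧ ∃ nj fj Mj' nk fk Mk',
    RC bj bk m tl TCj TCk ksj Psj ksk Psk h t g x y z Mi nj fj Mj' nk fk Mk' Gj Gk
      (What (h + g + y + Mj.sum)) (What (t + g + z + Mk.sum))

end B1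
end Pool.Agent.Lib.MP_6947cd_al
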