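import Pool.Agent.Lib.MP_6947cd_al.Y.Cells

/-!
Problem MP_6947cd_al (Chollet).  THE CHECK OF A ROW, real form: on every admissible reduced multiset either the row
functional is bounded at all the corners of the box, or the row is rich on the whole box.
-/

set_option autoImplicit false
open Finset

namespace Pool.Agent.Lib.MP_6947cd_al
namespace PkA

open Ent Ent.Pk Fr Fr.WT B1

/-- the knots as real numbers -/
noncomputable def kR (ks : List ℕ) : List ℝ := ks.map fun k : ℕ => (k : ℝ) / 200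

/-- the prices as real numbers -/
noncomputable def pR (Ps : List ℕ) : List ℝ := Ps.map fun p : ℕ => (p : ℝ) / 12800

/-- the losses at the knots -/
def omA (A : ℕ) (ks : List ℕ) : List ℕ := ks.map fun k => A * (5 * (8600 * k + 39 * (k * k)))

/-- the interpolated loss -/
noncomputable def omF (ks : List ℕ) : ℝ → ℝ := ipl 0 0 (kR ks) ((kR ks).map omg)

/-- the price -/
noncomputable def prF (ks Ps : List ℕ) : ℝ → ℝ := ipl 0 0 (kR ks) (pR Ps)

/-- the value of a node: `0` or a knot -/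
def yval (ks : List ℕ) (ya : ℕ) : ℕ := (0 :: ks).getD ya 0

/-- the offset of a node -/
def yoff (rd : List ℕ) : ℕ → ℕ
  | 0 => 0
  | a + 1 => strd rd a

lemma omg_nat (A k : ℕ) : 40000000 * ((A : ℝ) * omg ((k : ℝ) / 200)) = ((A * (5 * (8600 * k + 39 * (k * k))) : ℕ) : ℝ) := by
  unfold omg
  push_cast
  ring

lemma dotR_nat (ns : List ℕ) : ∀ (vs : List ℕ) (c : ℝ), dotR ns (vs.map fun v : ℕ => (v : ℝ) / c)
    = (Pk.dotN ns vs : ℝ) / c := by
  induction ns with
  | nil => intro vs c; simp [dotR, Pk.dotN]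
  | cons n ns ih =>
    intro vs c
    cases vs with
    | nil => simp [dotR, Pk.dotN]
    | cons v vs =>
      simp only [List.map_cons, dotR, Pk.dotN, ih]
      push_cast
      ring

lemma dotR_om (A : ℕ) (ns : List ℕ) : ∀ ks : List ℕ, 40000000 * ((A : ℝ) * dotR ns ((kR ks).map omg))
    = (Pk.dotN ns (omA A ks) : ℝ) := by
  induction ns with
  | nil => intro ks; simp [dotR, Pk.dotN]
  | cons n ns ih =>
    intro ks
    cases ks with
    | nil => simp [kR, omA, dotR, Pk.dotN]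
    | cons k ks =>
      have h1 := ih ks
      have h2 := omg_nat A k
      simp only [kR, omA, List.map_cons, dotR, Pk.dotN] at h1 ⊢
      push_cast at h1 h2 ⊢
      rw [← h1]
      have : (40000000 : ℝ) * (A * (n * omg (k / 200) + dotR ns (List.map omg (List.map (fun k : ℕ => (k : ℝ) / 200) ks))))
        = n * (40000000 * (A * omg (k / 200))) + 40000000 * (A * dotR ns (List.map omg (List.map (fun k : ℕ => (k : ℝ) / 200) ks))) := by
        ring
      rw [this, h2]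

lemma kR_length (ks : List ℕ) : (kR ks).length = ks.length := by simp [kR]

lemma kR_getD (ks : List ℕ) (a : ℕ) : (kR ks).getD a 0 = ((ks.getD a 0 : ℕ) : ℝ) / 200 := by
  unfold kR
  rcases Nat.lt_or_ge a ks.length with h | h
  · rw [List.getD_eq_getElem _ _ (by simpa using h), List.getD_eq_getElem _ _ h, List.getElem_map]
  · rw [List.getD_eq_default _ _ (by simpa using h), List.getD_eq_default _ _ h]
    simp

/-- the row value at a corner -/
theorem row_at (hS3 : SpecS3) (rd ks : List ℕ) (b g c0 T W : ℕ) (hT : RowT rd ks b g c0 T W) (ya : ℕ)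
    (hya : ya ≤ ks.length) (c1 : ℕ) (ns : List ℕ) (hl : ns.length = ks.length) (hok : CA.OkD rd ns)
    (hinc : ∀ a < ns.length, CA.OkD rd (Pk.incN a ns) ∧ CA.idx rd (Pk.incN a ns) = CA.idx rd ns + strd rd a)
    (hne : 1 ≤ dg T (CA.idx rd ns + yoff rd ya)) :
    FM (1 ::ₘ (b : ℝ) / 200 ::ₘ (g : ℝ) / 200 ::ₘ (yval ks ya : ℝ) / 200
        ::ₘ (Multiset.replicate c1 0 + mk ns (kR ks))) ≤ (dg T (CA.idx rd ns + yoff rd ya) : ℝ) / 10 ^ 7 ∧
    c0 ≤ dg T (CA.idx rd ns + yoff rd ya) ∧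
    (dg W (CA.idx rd ns + yoff rd ya) : ℝ) / 10 ^ 7 ≤ Wc ((b : ℝ) / 200 + (g : ℝ) / 200 + (yval ks ya : ℝ) / 200
      + (Multiset.replicate c1 (0 : ℝ) + mk ns (kR ks)).sum) := by
  obtain ⟨s1, s2, s3⟩ := hS3 (fun x => x) (kR ks) ns (by rw [kR_length]; exact hl)
  have hsum : (Multiset.replicate c1 (0 : ℝ) + mk ns (kR ks)).sum = (Pk.dotN ns ks : ℝ) / 200 := by
    rw [Multiset.sum_add, s2]
    simp only [Multiset.sum_replicate, smul_zero, zero_add]
    exact dotR_nat ns ks 200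
  cases ya with
  | zero =>
    have e0 : yoff rd 0 = 0 := rfl
    rw [e0, Nat.add_zero] at hne ⊢
    have hi := idx_lt rd ns hok
    have hd := CA.dig_idx rd ns hok
    have h1 := hT.hF _ hi hne
    have h2 := hT.hw _ hi hne
    rw [hd] at h1 h2
    refine ⟨?_, hT.hc _ hi hne, ?_⟩
    · refine le_trans (le_of_eq ?_) h1
      have ey : (yval ks 0 : ℝ) = 0 := by simp [yval]
      rw [ey, zero_div]
      have e1 : (1 : ℝ) ::ₘ (b : ℝ) / 200 ::ₘ (g : ℝ) / 200 ::ₘ (0 : ℝ)
          ::ₘ (Multiset.replicate c1 0 + mk ns (kR ks))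
          = Multiset.replicate (c1 + 1) 0 + mk (1 :: 1 :: 1 :: ns)
            (1 :: (b : ℝ) / 200 :: (g : ℝ) / 200 :: kR ks) := by
        rw [Ent.mk_cons, Ent.mk_cons, Ent.mk_cons, Multiset.replicate_one, Multiset.replicate_one, Multiset.replicate_one,
          Multiset.replicate_succ]
        simp only [← Multiset.singleton_add]
        abel
      rw [e1, FM_zero_add]
      rfl
    · rw [hsum]
      refine le_trans h2 (le_of_eq ?_)
      congr 1
      have ey : (yval ks 0 : ℝ) = 0 := by simp [yval]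
      rw [ey]
      push_cast
      ring
  | succ a =>
    have ha : a < ks.length := by omega
    obtain ⟨o1, o2⟩ := hinc a (by omega)
    have e0 : yoff rd (a + 1) = strd rd a := rfl
    rw [e0, ← o2] at hne ⊢
    have hi := idx_lt rd _ o1
    have hd := CA.dig_idx rd _ o1
    have h1 := hT.hF _ hi hne
    have h2 := hT.hw _ hi hne
    rw [hd] at h1 h2
    have ey : (yval ks (a + 1) : ℝ) / 200 = (kR ks).getD a 0 := by
      rw [kR_getD]
      simp [yval]
    have e3 := s3 a (by rw [kR_length]; exact ha)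
    refine ⟨?_, hT.hc _ hi hne, ?_⟩
    · refine le_trans (le_of_eq ?_) h1
      rw [ey]
      have e1 : (1 : ℝ) ::ₘ (b : ℝ) / 200 ::ₘ (g : ℝ) / 200 ::ₘ (kR ks).getD a 0
          ::ₘ (Multiset.replicate c1 0 + mk ns (kR ks))
          = Multiset.replicate c1 0 + mk (1 :: 1 :: 1 :: Pk.incN a ns)
            (1 :: (b : ℝ) / 200 :: (g : ℝ) / 200 :: kR ks) := by
        rw [Ent.mk_cons, Ent.mk_cons, Ent.mk_cons, Multiset.replicate_one, Multiset.replicate_one, Multiset.replicate_one, e3]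
        simp only [← Multiset.singleton_add]
        abel
      rw [e1, FM_zero_add]
      rfl
    · rw [hsum, ey]
      refine le_trans h2 (le_of_eq ?_)
      congr 1
      have h5 := dotR_nat (Pk.incN a ns) ks 200
      have h6 := Pk.incN_dot a ns (kR ks) (by omega) (by rw [kR_length]; exact hl)
      have h7 := dotR_nat ns ks 200
      unfold kR at h6
      rw [h5, h7] at h6
      push_cast
      rw [add_div, add_div, h6]
      unfold kR
      ring

/-- the knots are admissible -/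
def KnOK (ks : List ℕ) : Prop := Inc 0 (kR ks)

lemma omF_facts (hS7 : SpecR7) (ks : List ℕ) (h : KnOK ks) : Aff (omF ks) 0 (kR ks) ∧ omF ks 0 = 0 ∧
    (kR ks).map (omF ks) = (kR ks).map omg := by
  obtain ⟨h1, h2, h3⟩ := hS7 (kR ks) ((kR ks).map omg) 0 0 h (by simp)
  refine ⟨h1, h2, ?_⟩
  apply List.ext_getElem
  · simp
  · intro n hn1 hn2
    rw [List.getElem_map]
    have hn : n < (kR ks).length := by simpa using hn1
    have h4 : omF ks (kR ks)[n] = ((kR ks).map omg).getD n 0 := h3 n hn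
    rw [h4, List.getD_eq_getElem _ _ (by simpa using hn)]

lemma prF_facts (hS7 : SpecR7) (ks Ps : List ℕ) (h : KnOK ks) (hl : Ps.length = ks.length) :
    Aff (prF ks Ps) 0 (kR ks) ∧ prF ks Ps 0 = 0 ∧ (kR ks).map (prF ks Ps) = pR Ps := by
  obtain ⟨h1, h2, h3⟩ := hS7 (kR ks) (pR Ps) 0 0 h (by simp [kR, pR, hl])
  refine ⟨h1, h2, ?_⟩
  apply List.ext_getElem
  · simp [kR, pR, hl]
  · intro n hn1 hn2
    rw [List.getElem_map]
    have hn : n < (kR ks).length := by simpa using hn1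
    have h4 : prF ks Ps (kR ks)[n] = (pR Ps).getD n 0 := h3 n hn
    rw [h4, List.getD_eq_getElem _ _ hn2]

lemma prF_yval (hS7 : SpecR7) (ks Ps : List ℕ) (h : KnOK ks) (hl : Ps.length = ks.length) (ya : ℕ)
    (hya : ya ≤ ks.length) : prF ks Ps ((yval ks ya : ℝ) / 200) = (yval Ps ya : ℝ) / 12800 := by
  obtain ⟨h1, h2, h3⟩ := hS7 (kR ks) (pR Ps) 0 0 h (by simp [kR, pR, hl])
  cases ya with
  | zero =>
    have e : (yval ks 0 : ℝ) / 200 = 0 := by simp [yval]
    have e' : (yval Ps 0 : ℝ) / 12800 = 0 := by simp [yval]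
    rw [e, e']
    exact h2
  | succ a =>
    have ha : a < (kR ks).length := by rw [kR_length]; omega
    have h4 := h3 a ha
    have e : (yval ks (a + 1) : ℝ) / 200 = (kR ks)[a] := by
      have := kR_getD ks a
      rw [List.getD_eq_getElem _ _ ha] at this
      rw [this]
      simp [yval]
    rw [e]
    refine h4.trans ?_
    have ha' : a < Ps.length := by rw [hl]; omega
    rw [List.getD_eq_getElem _ _ (by simpa [pR] using ha')]
    simp only [pR, List.getElem_map]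
    have : yval Ps (a + 1) = Ps[a] := by
      simp only [yval, List.getD_cons_succ]
      rw [List.getD_eq_getElem _ _ ha']
    rw [this]

/-- one corner: the line -/
theorem line_at (hS3 : SpecS3) (hS7 : SpecR7) (rd ks Ps : List ℕ) (b g c0 T W : ℕ) (hT : RowT rd ks b g c0 T W)
    (hk : KnOK ks) (hl : Ps.length = ks.length) (ya : ℕ) (hya : ya ≤ ks.length) (c1 : ℕ) (ns : List ℕ)
    (hln : ns.length = ks.length) (hok : CA.OkD rd ns)
    (hinc : ∀ a < ns.length, CA.OkD rd (Pk.incN a ns) ∧ CA.idx rd (Pk.incN a ns) = CA.idx rd ns + strd rd a)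
    (hne : 1 ≤ dg T (CA.idx rd ns + yoff rd ya)) (A β C mu O ρ : ℕ)
    (h : 4 * (A + β) * dg T (CA.idx rd ns + yoff rd ya) + Pk.dotN ns (omA A ks)
        + (A * (5 * (8600 * yval ks ya + 39 * (yval ks ya * yval ks ya))) + O)
      ≤ ρ + C * yval Ps ya + 4 * β * dg W (CA.idx rd ns + yoff rd ya) + mu * Pk.dotN ns Ps) :
    UJ A β ((c0 : ℝ) / 10 ^ 7) ((C : ℝ) / 3125) ((mu : ℝ) / 3125) (omF ks) (prF ks Ps) ((b : ℝ) / 200) ((g : ℝ) / 200)
      ((yval ks ya : ℝ) / 200) (Multiset.replicate c1 0 + mk ns (kR ks)) ≤ ((ρ : ℝ) - O) / 40000000 := by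
  obtain ⟨r1, r2, r3⟩ := row_at hS3 rd ks b g c0 T W hT ya hya c1 ns hln hok hinc hne
  obtain ⟨o1, o2, o3⟩ := omF_facts hS7 ks hk
  obtain ⟨p1, p2, p3⟩ := prF_facts hS7 ks Ps hk hl
  have s1 := (hS3 (omF ks) (kR ks) ns (by rw [kR_length]; exact hln)).1
  have s2 := (hS3 (prF ks Ps) (kR ks) ns (by rw [kR_length]; exact hln)).1
  rw [o3] at s1
  rw [p3] at s2
  have d1 := dotR_om A ns ks
  have d2 : dotR ns (pR Ps) = (Pk.dotN ns Ps : ℝ) / 12800 := dotR_nat ns Ps 12800
  set t := CA.idx rd ns + yoff rd ya with ht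
  set N := Multiset.replicate c1 (0 : ℝ) + mk ns (kR ks) with hN
  have m1 : (N.map (omF ks)).sum = dotR ns ((kR ks).map omg) := by
    rw [hN, Multiset.map_add, Multiset.sum_add, s1, Multiset.map_replicate, Multiset.sum_replicate, o2]
    simp
  have m2 : (N.map (prF ks Ps)).sum = (Pk.dotN ns Ps : ℝ) / 12800 := by
    rw [hN, Multiset.map_add, Multiset.sum_add, s2, Multiset.map_replicate, Multiset.sum_replicate, p2, d2]
    simp
  have m3 := prF_yval hS7 ks Ps hk hl ya hya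
  have m4 := omg_nat A (yval ks ya)
  have hmax : max (FM (1 ::ₘ (b : ℝ) / 200 ::ₘ (g : ℝ) / 200 ::ₘ (yval ks ya : ℝ) / 200 ::ₘ N)) ((c0 : ℝ) / 10 ^ 7)
      ≤ (dg T t : ℝ) / 10 ^ 7 := by
    refine max_le r1 ?_
    have : (c0 : ℝ) ≤ dg T t := by exact_mod_cast r2
    exact div_le_div_of_nonneg_right this (by positivity)
  unfold UJ
  rw [m1, m2, m3, le_div_iff₀ (by norm_num)]
  have hR : 4 * ((A : ℝ) + β) * dg T t + (Pk.dotN ns (omA A ks) : ℝ)
      + (((A * (5 * (8600 * yval ks ya + 39 * (yval ks ya * yval ks ya))) : ℕ) : ℝ) + O)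
      ≤ ρ + C * yval Ps ya + 4 * β * dg W t + mu * Pk.dotN ns Ps := by
    have h0 : (((4 * (A + β) * dg T t + Pk.dotN ns (omA A ks)
        + (A * (5 * (8600 * yval ks ya + 39 * (yval ks ya * yval ks ya))) + O) : ℕ)) : ℝ)
        ≤ ((ρ + C * yval Ps ya + 4 * β * dg W t + mu * Pk.dotN ns Ps : ℕ) : ℝ) := Nat.cast_le.mpr h
    rw [Nat.cast_add, Nat.cast_add, Nat.cast_add (A * (5 * (8600 * yval ks ya + 39 * (yval ks ya * yval ks ya)))) O,
      Nat.cast_add, Nat.cast_add, Nat.cast_add] at h0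
    simp only [Nat.cast_mul, Nat.cast_add] at h0 ⊢
    push_cast at h0 ⊢
    linarith
  rw [← m4, ← d1] at hR
  have hA : (0 : ℝ) ≤ (A : ℝ) + β := add_nonneg (Nat.cast_nonneg _) (Nat.cast_nonneg _)
  have hβ : (0 : ℝ) ≤ (β : ℝ) := Nat.cast_nonneg _
  have k1 := mul_le_mul_of_nonneg_left hmax hA
  have k2 := mul_le_mul_of_nonneg_left r3 hβ
  generalize max (FM (1 ::ₘ (b : ℝ) / 200 ::ₘ (g : ℝ) / 200 ::ₘ (yval ks ya : ℝ) / 200 ::ₘ N)) ((c0 : ℝ) / 10 ^ 7)
    = X at k1 ⊢
  generalize Wc ((b : ℝ) / 200 + (g : ℝ) / 200 + (yval ks ya : ℝ) / 200 + N.sum) = Y at k2 ⊢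
  generalize dotR ns ((kR ks).map omg) = Z at hR ⊢
  generalize omg ((yval ks ya : ℝ) / 200) = V at hR ⊢
  nlinarith [k1, k2, hR]

/-- one corner: richness -/
theorem rich_at (hS3 : SpecS3) (rd ks : List ℕ) (b g c0 T W : ℕ) (hT : RowT rd ks b g c0 T W)
    (ya : ℕ) (hya : ya ≤ ks.length) (c1 : ℕ) (ns : List ℕ)
    (hln : ns.length = ks.length) (hok : CA.OkD rd ns)
    (hinc : ∀ a < ns.length, CA.OkD rd (Pk.incN a ns) ∧ CA.idx rd (Pk.incN a ns) = CA.idx rd ns + strd rd a)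
    (hne : 1 ≤ dg T (CA.idx rd ns + yoff rd ya)) (d : ℕ)
    (h : dg T (CA.idx rd ns + yoff rd ya) + d ≤ dg W (CA.idx rd ns + yoff rd ya)) :
    max (FM (1 ::ₘ (b : ℝ) / 200 ::ₘ (g : ℝ) / 200 ::ₘ (yval ks ya : ℝ) / 200
      ::ₘ (Multiset.replicate c1 0 + mk ns (kR ks)))) ((c0 : ℝ) / 10 ^ 7) + (d : ℝ) / 10 ^ 7
    ≤ Wc ((b : ℝ) / 200 + (g : ℝ) / 200 + (yval ks ya : ℝ) / 200
      + (Multiset.replicate c1 (0 : ℝ) + mk ns (kR ks)).sum) := by
  obtain ⟨r1, r2, r3⟩ := row_at hS3 rd ks b g c0 T W hT ya hya c1 ns hln hok hinc hne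
  refine le_trans ?_ r3
  have h' : (dg T (CA.idx rd ns + yoff rd ya) : ℝ) + d ≤ dg W (CA.idx rd ns + yoff rd ya) := by exact_mod_cast h
  have r2' : (c0 : ℝ) ≤ dg T (CA.idx rd ns + yoff rd ya) := by exact_mod_cast r2
  have hmax : max (FM (1 ::ₘ (b : ℝ) / 200 ::ₘ (g : ℝ) / 200 ::ₘ (yval ks ya : ℝ) / 200
      ::ₘ (Multiset.replicate c1 0 + mk ns (kR ks)))) ((c0 : ℝ) / 10 ^ 7)
      ≤ (dg T (CA.idx rd ns + yoff rd ya) : ℝ) / 10 ^ 7 :=
    max_le r1 (div_le_div_of_nonneg_right r2' (by positivity))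
  have : (dg T (CA.idx rd ns + yoff rd ya) : ℝ) / 10 ^ 7 + (d : ℝ) / 10 ^ 7
      ≤ (dg W (CA.idx rd ns + yoff rd ya) : ℝ) / 10 ^ 7 := by
    rw [← add_div]
    exact div_le_div_of_nonneg_right h' (by positivity)
  linarith

end PkA
end Pool.Agent.Lib.MP_6947cd_al
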