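import Pool.Agent.Lib.MP_6947cd_al.Y.Defs
import Pool.Agent.Lib.MP_6947cd_al.L.WConc
import Pool.Agent.Lib.MP_6947cd_al.L.Cell

/-!
Problem MP_6947cd_al (Chollet).  CASE B, large second entry: the real analysis behind a leaf.
-/

set_option autoImplicit false
open Finset

namespace Pool.Agent.Lib.MP_6947cd_al
namespace B1

open Ent Fr Fr.WT

/-- piecewise affine interpolation: value `va` at `a`, values `vs` at the knots `ks` -/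
noncomputable def ipl : ℝ → ℝ → List ℝ → List ℝ → ℝ → ℝ
  | a, va, k :: ks, v :: vs, u => if u ≤ k then va + (v - va) / (k - a) * (u - a) else ipl k v ks vs u
  | _, va, _, _, _ => va

/-- the row `i` -/
noncomputable def UI (a κ Γ w : ℝ) (h t x : ℝ) (N : Multiset ℝ) : ℝ :=
  a * (FM (1 ::ₘ h ::ₘ t ::ₘ x ::ₘ N) + omg x)
    + κ * (FM (1 ::ₘ h ::ₘ t ::ₘ x ::ₘ N) - Wc (h + t + x + N.sum))
    + Γ * max (FM (1 ::ₘ h ::ₘ t ::ₘ x ::ₘ N) - Wc (h + t + x + N.sum)) (1 / 1000) + w * x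

/-- the rows `j` and `k` -/
noncomputable def UJ (a β c0 cy μ : ℝ) (om pr : ℝ → ℝ) (b g y : ℝ) (M : Multiset ℝ) : ℝ :=
  (a + β) * max (FM (1 ::ₘ b ::ₘ g ::ₘ y ::ₘ M)) c0 - β * Wc (b + g + y + M.sum)
    + a * omg y - cy * pr y + a * (M.map om).sum - μ * (M.map pr).sum

/-- R1: the total function is convex in each of the six variables, hence bounded by the corners. -/
def SpecR1 : Prop := ∀ (a κ Γ w βj βk c0j c0k cy cz μj μk C : ℝ) (omj prj omk prk : ℝ → ℝ)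
  (h0 h1 t0 t1 g0 g1 x0 x1 y0 y1 z0 z1 h t g x y z : ℝ) (N Mj Mk : Multiset ℝ),
  0 ≤ a → 0 ≤ κ → 0 ≤ Γ → 0 ≤ βj → 0 ≤ βk →
  (∀ e ∈ N, 0 ≤ e ∧ e ≤ 1) → (∀ e ∈ Mj, 0 ≤ e ∧ e ≤ 1) → (∀ e ∈ Mk, 0 ≤ e ∧ e ≤ 1) →
  0 < h0 → 0 < t0 → 0 ≤ g0 → 0 ≤ x0 → 0 ≤ y0 → 0 ≤ z0 →
  h1 ≤ 1 → t1 ≤ 1 → g1 ≤ 1 → x1 ≤ 1 → y1 ≤ 1 → z1 ≤ 1 →
  h0 ≤ h → h ≤ h1 → t0 ≤ t → t ≤ t1 → g0 ≤ g → g ≤ g1 → x0 ≤ x → x ≤ x1 →
  y0 ≤ y → y ≤ y1 → z0 ≤ z → z ≤ z1 →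
  ConvexOn ℝ (Set.Icc y0 y1) (fun u => -(cy * prj u)) →
  ConvexOn ℝ (Set.Icc z0 z1) (fun u => -(cz * prk u)) →
  (∀ bh bt bg bx by' bz : Bool,
    UI a κ Γ w (bif bh then h1 else h0) (bif bt then t1 else t0) (bif bx then x1 else x0) N
      + UJ a βj c0j cy μj omj prj (bif bh then h1 else h0) (bif bg then g1 else g0) (bif by' then y1 else y0) Mj
      + UJ a βk c0k cz μk omk prk (bif bt then t1 else t0) (bif bg then g1 else g0) (bif bz then z1 else z0) Mk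
      ≤ C + 2 * a * Real.log (2 * ((bif bh then h1 else h0) + (bif bt then t1 else t0)
        + (bif bg then g1 else g0)))) →
  UI a κ Γ w h t x N + UJ a βj c0j cy μj omj prj h g y Mj + UJ a βk c0k cz μk omk prk t g z Mk
    ≤ C + 2 * a * Real.log (2 * (h + t + g))

/-- R2: the defect of the row `i` is convex, hence bounded by the corners (`r` = the free entry). -/
def SpecR2 : Prop := ∀ (h0 h1 t0 t1 x0 x1 r0 r1 C h t x r κ : ℝ) (q : ℕ),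
  0 ≤ h0 → 0 ≤ t0 → 0 ≤ x0 → 0 ≤ r0 → 0 ≤ κ → h1 ≤ 1 → t1 ≤ 1 → x1 ≤ 1 → r1 ≤ 1 → κ ≤ 1 →
  h0 ≤ h → h ≤ h1 → t0 ≤ t → t ≤ t1 → x0 ≤ x → x ≤ x1 → r0 ≤ r → r ≤ r1 →
  (∀ bh bt bx br : Bool,
    FM (1 ::ₘ (bif bh then h1 else h0) ::ₘ (bif bt then t1 else t0) ::ₘ (bif bx then x1 else x0)
        ::ₘ (bif br then r1 else r0) ::ₘ Multiset.replicate q κ)
      - Wc ((bif bh then h1 else h0) + (bif bt then t1 else t0) + (bif bx then x1 else x0)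
        + ((bif br then r1 else r0) ::ₘ Multiset.replicate q κ).sum) ≤ C) →
  FM (1 ::ₘ h ::ₘ t ::ₘ x ::ₘ r ::ₘ Multiset.replicate q κ)
    - Wc (h + t + x + (r ::ₘ Multiset.replicate q κ).sum) ≤ C

/-- R3: the row `i` is convex in the free entry `r`; `w` = coefficient of the rest sum. -/
def SpecR3 : Prop := ∀ (a κ Γ w v : ℝ) (r0 r1 C h t x r m : ℝ) (q : ℕ),
  0 ≤ a → 0 ≤ κ → 0 ≤ Γ →
  0 ≤ h → 0 ≤ t → 0 ≤ x → 0 ≤ r0 → 0 ≤ m → h ≤ 1 → t ≤ 1 → x ≤ 1 → r1 ≤ 1 → m ≤ 1 →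
  r0 ≤ r → r ≤ r1 →
  (∀ br : Bool, UI a κ Γ w h t x ((bif br then r1 else r0) ::ₘ Multiset.replicate q m)
    + a * (43 / 200 * ((bif br then r1 else r0) + q * m)
      + 39 / 200 * ((bif br then r1 else r0) ^ 2 + q * m ^ 2)) + v * ((bif br then r1 else r0) + q * m) ≤ C) →
  UI a κ Γ w h t x (r ::ₘ Multiset.replicate q m)
    + a * (43 / 200 * (r + q * m) + 39 / 200 * (r ^ 2 + q * m ^ 2)) + v * (r + q * m) ≤ C

/-- R4: concentration of the rests of the row `i`. -/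
def SpecR4 : Prop := ∀ (S M : Multiset ℝ) (m : ℝ) (q : ℕ), 1 ∈ S → (∀ e ∈ S, 0 ≤ e ∧ e ≤ 1) →
  0 < m → m ≤ 1 → (∀ e ∈ M, 0 ≤ e ∧ e ≤ m) → q * m ≤ M.sum → M.sum ≤ (q + 1) * m →
  FM (S + M) ≤ FM (S + (M.sum - q * m) ::ₘ Multiset.replicate q m) ∧
  Om M ≤ 43 / 200 * M.sum + 39 / 200 * ((M.sum - q * m) ^ 2 + q * m ^ 2)

/-- R5: the class constraints. -/
def SpecR5 : Prop := ∀ (bj bk : Bool) (h t x S D dj dk K KJ KK βj βk Γ R2 Rj Rk h0 t0 : ℝ),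
  0 < h0 → 0 < t0 → h0 ≤ h → t0 ≤ t → h ≤ 1 → t ≤ 1 → t0 ≤ h0 → 0 ≤ x → 0 ≤ S → 0 < D →
  0 ≤ K → 0 ≤ KJ → 0 ≤ KK → 0 ≤ βj → 0 ≤ βk → 0 ≤ Γ →
  x + S ≤ R2 → (if bk = true then t else 0) + x + S ≤ Rj → (if bj = true then h else 0) + x + S ≤ Rk →
  (bj = true → K = 0 ∧ KJ = 0) → (bk = true → K = 0 ∧ KK = 0) →
  (bj = false → βj * (4 - h0) ≤ 3 * h0 * (K + KJ)) → (bk = false → βk * (4 - t0) ≤ 3 * t0 * (K + KK)) →
  K * R2 * (4 / (4 * t0 - t0 ^ 2)) + KJ * Rj * (4 / (4 * h0 - h0 ^ 2)) + KK * Rk * (4 / (4 * t0 - t0 ^ 2)) ≤ Γ →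
  (if bj = true then 0 < dj else dj ≤ 0) → (if bk = true then 0 < dk else dk ≤ 0) →
  (bj = false → 3 * h ^ 2 * (-dj) < need D h ((if bk = true then t else 0) + x + S)) →
  (bk = false → 3 * t ^ 2 * (-dk) < need D t ((if bj = true then h else 0) + x + S)) →
  (bj = false → bk = false → 3 * h ^ 2 * (-dj) / need D h (x + S) + 3 * t ^ 2 * (-dk) / need D t (x + S) < 1) →
  0 ≤ (K + KJ + KK) * D + Γ * max D (1 / 1000) + βj * dj + βk * dk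

/-- R6: the interpolation of `omg` is an upper bound. -/
def SpecR6 : Prop := ∀ (ks : List ℝ) (a : ℝ), Inc a ks → ∀ u, a ≤ u → u ≤ top a ks →
  omg u ≤ ipl a (omg a) ks (ks.map omg) u

/-- R7: the interpolation is affine on the pieces. -/
def SpecR7 : Prop := ∀ (ks vs : List ℝ) (a va : ℝ), Inc a ks → vs.length = ks.length →
  Aff (ipl a va ks vs) a ks ∧ ipl a va ks vs a = va ∧
  ∀ (n : ℕ) (hn : n < ks.length), ipl a va ks vs ks[n] = vs.getD n 0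

/-- admissible prices: on every piece the interpolation is below a tangent of the geometric bound -/
def PrOK (h0 : ℝ) : ℝ → ℝ → List ℝ → List ℝ → Prop
  | a, va, k :: ks, v :: vs => ((va ≤ 0 ∧ v ≤ 0) ∨ ∃ μ : ℝ, 1 < μ ∧
      va * (μ - 1) ≤ a * (1 - h0 / μ) - (1 - h0) ∧ v * (μ - 1) ≤ k * (1 - h0 / μ) - (1 - h0)) ∧
      PrOK h0 k v ks vs
  | _, _, _, _ => True

/-- R8: the prices (uses `SpecG1`). -/
def SpecR8 : Prop := ∀ (h0 : ℝ) (ks vs : List ℝ) (a va : ℝ), 0 ≤ h0 → 0 ≤ a → Inc a ks → ks ≠ [] →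
  vs.length = ks.length → PrOK h0 a va ks vs → ∀ h s u, h0 ≤ h → h ≤ 1 → 0 ≤ s → s ≤ 1 → a ≤ u →
  u ≤ top a ks → u ≤ 1 → Tri h s u → ipl a va ks vs u ≤ s

end B1
end Pool.Agent.Lib.MP_6947cd_al
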