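import Pool.Agent.Lib.MP_6947cd_al.Y.SpecR
import Pool.Agent.Lib.MP_6947cd_al.L.CellN

/-!
Problem MP_6947cd_al (Chollet).  CASE B, large second entry: reduced multisets, corners and offsets.
-/

set_option autoImplicit false
open Finset

namespace Pool.Agent.Lib.MP_6947cd_al
namespace B1

open Ent Ent.Pk Fr Fr.WT

/-- nondecreasing values -/
def Mo : ℝ → List ℝ → Prop
  | _, [] => True
  | va, v :: vs => va ≤ v ∧ Mo v vs

/-- sum over the mask of the values at the lower ends of the pieces -/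
def lowS : ℝ → List ℝ → List Bool → ℝ
  | va, v :: vs, f :: fs => (if f = true then va else 0) + lowS v vs fs
  | _, _, _ => 0

/-- sum over the mask of the values at the upper ends of the pieces -/
def uppS : List ℝ → List Bool → ℝ
  | v :: vs, f :: fs => (if f = true then v else 0) + uppS vs fs
  | _, _ => 0

/-- S1: a piecewise affine nondecreasing function on a reduced multiset. -/
def SpecS1 : Prop := ∀ (ks vs : List ℝ) (a va : ℝ) (φ : ℝ → ℝ) (ns : List ℕ) (fs : List Bool)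
  (M' : Multiset ℝ), Inc a ks → vs.length = ks.length → Aff φ a ks → φ a = va →
  (∀ (n : ℕ) (_ : n < ks.length), φ (ks.getD n 0) = vs.getD n 0) → Mo va vs → Red a ks ns fs M' →
  dotR ns vs + lowS va vs fs ≤ (M'.map φ).sum ∧ (M'.map φ).sum ≤ dotR ns vs + uppS vs fs

/-- S2: the sum of a reduced multiset, and its entries. -/
def SpecS2 : Prop := ∀ (ks : List ℝ) (a : ℝ) (ns : List ℕ) (fs : List Bool) (M' : Multiset ℝ), 0 ≤ a →
  Inc a ks → Red a ks ns fs M' →
  dotR ns ks + lowS a ks fs ≤ M'.sum ∧ M'.sum ≤ dotR ns ks + uppS ks fs ∧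
  (∀ e ∈ M', a ≤ e ∧ e ≤ top a ks) ∧ ns.length = ks.length ∧ fs.length = ks.length

/-- S3: sums over `mk` -/
def SpecS3 : Prop := ∀ (φ : ℝ → ℝ) (ks : List ℝ) (ns : List ℕ), ns.length = ks.length →
  ((mk ns ks).map φ).sum = dotR ns (ks.map φ) ∧ (mk ns ks).sum = dotR ns ks ∧
  ∀ a < ks.length, mk (Pk.incN a ns) ks = ks.getD a 0 ::ₘ mk ns ks

/-- the corners as offsets: (number of entries moved to the knot to the left, offset of the index) -/
def coff : List ℕ → List Bool → List (ℕ × ℕ)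
  | r :: rd, true :: fs => (coff rd fs).flatMap fun t => [(1, t.1 + r * t.2), (0, t.1 + 1 + r * t.2)]
  | r :: rd, false :: fs => (coff rd fs).flatMap fun t => [(0, t.1 + r * t.2)]
  | _, _ => [(0, 0)]

/-- the stride of the knot `a` -/
def strd : List ℕ → ℕ → ℕ
  | r :: rd, a + 1 => r * strd rd a
  | _, _ => 1

/-- S4: corners and offsets; room for three more entries at every knot. -/
def SpecS4 : Prop := ∀ (rd ns : List ℕ) (fs : List Bool), fs.length = ns.length →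
  List.Forall₂ (fun n r => n + 3 < r) ns rd → ∀ t ∈ cors ns fs,
    ∃ o ∈ coff rd fs, o.1 = t.1 ∧ CA.idx rd t.2 = CA.idx rd ns + o.2 ∧ CA.OkD rd t.2 ∧
      t.2.length = ns.length ∧
      ∀ a < ns.length, CA.OkD rd (Pk.incN a t.2) ∧ CA.idx rd (Pk.incN a t.2) = CA.idx rd t.2 + strd rd a

/-- S5: LINES at the corners of the cell bound the row functional. -/
def SpecS5 : Prop := ∀ (a β c0 cy μ b g y C : ℝ) (om pr : ℝ → ℝ) (ks : List ℝ) (ns : List ℕ)
  (fs : List Bool) (M' : Multiset ℝ), 0 ≤ a → 0 ≤ β → 0 ≤ b → b ≤ 1 → 0 ≤ g → g ≤ 1 → 0 ≤ y → y ≤ 1 →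
  Inc 0 ks → Aff om 0 ks → Aff pr 0 ks → Red 0 ks ns fs M' →
  (∀ t ∈ cors ns fs, UJ a β c0 cy μ om pr b g y (Multiset.replicate t.1 0 + mk t.2 ks) ≤ C) →
  UJ a β c0 cy μ om pr b g y M' ≤ C

/-- S6: RICHNESS at the corners of the cell and of the box gives richness. -/
def SpecS6 : Prop := ∀ (c0 d b0 b1 g0 g1 y0 y1 b g y : ℝ) (ks : List ℝ) (ns : List ℕ)
  (fs : List Bool) (M' : Multiset ℝ), 0 ≤ b0 → b1 ≤ 1 → 0 ≤ g0 → g1 ≤ 1 → 0 ≤ y0 → y1 ≤ 1 →
  b0 ≤ b → b ≤ b1 → g0 ≤ g → g ≤ g1 → y0 ≤ y → y ≤ y1 →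
  Inc 0 ks → Red 0 ks ns fs M' →
  (∀ bb bg by' : Bool, ∀ t ∈ cors ns fs,
    max (FM (1 ::ₘ (bif bb then b1 else b0) ::ₘ (bif bg then g1 else g0) ::ₘ (bif by' then y1 else y0)
      ::ₘ (Multiset.replicate t.1 0 + mk t.2 ks))) c0 + d
    ≤ Wc ((bif bb then b1 else b0) + (bif bg then g1 else g0) + (bif by' then y1 else y0)
      + (Multiset.replicate t.1 0 + mk t.2 ks).sum)) →
  max (FM (1 ::ₘ b ::ₘ g ::ₘ y ::ₘ M')) c0 + d ≤ Wc (b + g + y + M'.sum)

end B1
end Pool.Agent.Lib.MP_6947cd_al
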