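import Pool.Agent.Lib.MP_6947cd_al.Y.Pack
import Pool.Agent.Lib.MP_6947cd_al.Y.SpecS

/-!
Problem MP_6947cd_al (Chollet).  PACKED TABLES of row bounds: the check of a table by exact certificates, the
counting tables, and the check of all the cells of a row at once.
-/

set_option autoImplicit false
open Finset

namespace Pool.Agent.Lib.MP_6947cd_al
namespace PkA

open Ent Ent.Pk Fr Fr.WT B1

/-- product of the radices -/
def prd : List ℕ → ℕ
  | [] => 1
  | r :: rd => r * prd rd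

lemma idx_lt (rd : List ℕ) : ∀ ns, CA.OkD rd ns → CA.idx rd ns < prd rd := by
  induction rd with
  | nil =>
    intro ns h
    cases h
    show 0 < 1
    norm_num
  | cons r rd ih =>
    intro ns h
    cases h with
    | cons h1 h2 =>
      rename_i n ns
      have h3 := ih ns h2
      show n + r * CA.idx rd ns < r * prd rd
      have h4 : r * (CA.idx rd ns + 1) ≤ r * prd rd := Nat.mul_le_mul_left r h3
      rw [Nat.mul_add, Nat.mul_one] at h4
      omega

/-! ### the row value -/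

/-- four times the lower bound of the row value, unit `1e-7`, at the total `tt / 200` -/
def w4 (tt : ℕ) : ℕ :=
  frc (Nat.div tt (nat_lit 4)) fun q => frc (cond (Nat.ble q (nat_lit 369)) q (nat_lit 369)) fun k =>
    frc (Nat.sub tt (Nat.mul (nat_lit 4) k)) fun r =>
      Nat.add (Nat.mul (nat_lit 4) (yn k)) (Nat.mul r (Nat.sub (yn (Nat.succ k)) (yn k)))

theorem yn_mono : ((List.range 355).all fun i => Nat.ble (yn (15 + i)) (yn (16 + i))) = true := by
  decide +kernel

lemma line_ext (s : ℝ) (hs : (369 : ℝ) / 50 ≤ s) : lineW 369 s ≤ Wc s := by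
  unfold Wc
  refine (Finset.le_inf'_iff _ _).mpr fun m hm => ?_
  obtain ⟨m1, m2⟩ := Finset.mem_Icc.mp hm
  obtain ⟨d, hd⟩ := Nat.exists_eq_add_of_le m2
  rw [hd]
  refine line_dn m m1 d s ?_ (by omega)
  rw [← hd]
  push_cast
  exact hs

theorem w4_le (tt : ℕ) (h : 60 ≤ tt) : (w4 tt : ℝ) / 40000000 ≤ Wc ((tt : ℝ) / 200) := by
  have e : w4 tt = 4 * yn (cond (Nat.ble (tt / 4) 369) (tt / 4) 369)
      + (tt - 4 * (cond (Nat.ble (tt / 4) 369) (tt / 4) 369)) * (yn ((cond (Nat.ble (tt / 4) 369) (tt / 4) 369) + 1)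
        - yn (cond (Nat.ble (tt / 4) 369) (tt / 4) 369)) := by
    unfold w4
    rw [frc_eq, frc_eq, frc_eq]
    rfl
  obtain ⟨k, hk⟩ : ∃ k, k = cond (Nat.ble (tt / 4) 369) (tt / 4) 369 := ⟨_, rfl⟩
  rw [← hk] at e
  have hk1 : 15 ≤ k ∧ k ≤ 369 ∧ 4 * k ≤ tt ∧ (k < 369 → tt < 4 * k + 4) := by
    rw [hk]
    cases hb : Nat.ble (tt / 4) 369 with
    | true =>
      have := Nat.le_of_ble_eq_true hb
      rw [cond_true]
      omega
    | false =>
      have : ¬ tt / 4 ≤ 369 := fun h' => by rw [Nat.ble_eq_true_of_le h'] at hb; exact absurd hb (by simp)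
      rw [cond_false]
      omega
  obtain ⟨k1, k2, k3, k4⟩ := hk1
  have hmono : yn k ≤ yn (k + 1) := by
    obtain ⟨i, rfl⟩ := Nat.exists_eq_add_of_le k1
    have h3 := List.all_eq_true.mp yn_mono i (List.mem_range.mpr (by omega))
    have h4 := Nat.le_of_ble_eq_true h3
    rwa [show 15 + i + 1 = 16 + i by omega]
  have e2 : (w4 tt : ℝ) / 40000000 = lineW k ((tt : ℝ) / 200) := by
    rw [e]
    unfold lineW yr
    push_cast [Nat.cast_sub hmono, Nat.cast_sub k3]
    ring
  rw [e2]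
  have hs : (k : ℝ) / 50 ≤ (tt : ℝ) / 200 := by
    have : (4 : ℝ) * k ≤ tt := by exact_mod_cast k3
    linarith
  rcases Nat.lt_or_ge k 369 with h5 | h5
  · refine line_le_Wc k k1 k2 _ hs ?_
    have : (tt : ℝ) < 4 * k + 4 := by exact_mod_cast k4 h5
    linarith
  · have h6 : k = 369 := by omega
    subst h6
    exact line_ext _ (by exact_mod_cast hs)

/-! ### the table check -/

/-- the values -/
def vls (b g : ℕ) (ks : List ℕ) : List (ℕ × ℕ) := (1, 1) :: (b, 200) :: (g, 200) :: ks.map fun k => (k, 200)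

/-- the loop: digits `T` (row bounds), `W` (row values), stream `XS` of certificates -/
noncomputable def tabL (v : List (ℕ × ℕ)) (rd ks : List ℕ) (c c0 R msk T W : ℕ) (f : ℕ) : ℕ → ℕ → Bool :=
  @Nat.rec (fun _ => ℕ → ℕ → Bool) (fun _ _ => true)
    (fun _ ih i XS => frc (dg T i) fun V => frc (dg W i) fun w =>
      cond (Nat.beq (Nat.shiftRight (Nat.lor V w) (nat_lit 32)) (nat_lit 0))
        (cond (Nat.beq V (nat_lit 0)) (frc (Nat.succ i) fun i' => ih i' XS)
          (cond (CA.digC rd i fun ns =>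
              cond (frc (Nat.land XS msk) fun N => CA.upk R N fun X => rowOK v (CA.app [1, 1, 1] ns) X V)
                (cond (Nat.ble c0 V) (frc (ldot ns ks c) fun tt => Nat.ble (Nat.mul (nat_lit 4) w) (w4 tt))
                  false) false)
            (frc (Nat.succ i) fun i' => frc (Nat.shiftRight XS (Nat.mul (nat_lit 32) R)) fun XS' =>
              ih i' XS') false)) false) f

/-- the check -/
noncomputable def tabOK (rd ks : List ℕ) (b g c0 R T W XS : ℕ) : Bool :=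
  frc (prd rd) fun N => cond (Nat.beq (Nat.shiftRight T (Nat.mul (nat_lit 64) N)) (nat_lit 0))
    (cond (Nat.beq (Nat.shiftRight W (Nat.mul (nat_lit 64) N)) (nat_lit 0))
      (cond (Nat.ble (nat_lit 60) (Nat.add b g))
      (frc (Nat.sub (Nat.shiftLeft (nat_lit 1) (Nat.mul (nat_lit 32) R)) (nat_lit 1)) fun msk =>
        tabL (vls b g ks) rd ks (Nat.add b g) c0 R msk T W N (nat_lit 0) XS) false) false) false

/-- a certified table of rows `1, b, g, knots` -/
structure RowT (rd ks : List ℕ) (b g c0 T W : ℕ) : Prop where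
  hT : T < 2 ^ (64 * prd rd)
  hW : W < 2 ^ (64 * prd rd)
  dT : ∀ i < prd rd, dg T i < 2 ^ 32
  dW : ∀ i < prd rd, dg W i < 2 ^ 32
  hc : ∀ i < prd rd, 1 ≤ dg T i → c0 ≤ dg T i
  hF : ∀ i < prd rd, 1 ≤ dg T i → FM (mk (1 :: 1 :: 1 :: CA.dig rd i)
    (1 :: (b : ℝ) / 200 :: (g : ℝ) / 200 :: ks.map fun k : ℕ => (k : ℝ) / 200)) ≤ (dg T i : ℝ) / 10 ^ 7
  hw : ∀ i < prd rd, 1 ≤ dg T i → (dg W i : ℝ) / 10 ^ 7 ≤ Wc (((b + g + Pk.dotN (CA.dig rd i) ks : ℕ) : ℝ) / 200)

lemma or_small {V w : ℕ} (h : Nat.beq (Nat.shiftRight (Nat.lor V w) 32) 0 = true) : V < 2 ^ 32 ∧ w < 2 ^ 32 := by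
  have h1 : (V ||| w) >>> 32 = 0 := Nat.eq_of_beq_eq_true h
  rw [Nat.shiftRight_eq_div_pow] at h1
  have h2 : (V ||| w) < 2 ^ 32 := by
    rcases Nat.div_eq_zero_iff.mp h1 with h3 | h3
    · exact absurd h3 (by norm_num)
    · exact h3
  exact ⟨lt_of_le_of_lt Nat.left_le_or h2, lt_of_le_of_lt Nat.right_le_or h2⟩

lemma tabL_sound (v : List (ℕ × ℕ)) (rd ks : List ℕ) (c c0 R msk T W : ℕ) (hc : 60 ≤ c) (f : ℕ) :
    ∀ i0 XS, tabL v rd ks c c0 R msk T W f i0 XS = true → ∀ i, i0 ≤ i → i < i0 + f →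
      dg T i < 2 ^ 32 ∧ dg W i < 2 ^ 32 ∧ (1 ≤ dg T i → c0 ≤ dg T i ∧
        FM (mk (1 :: 1 :: 1 :: CA.dig rd i) (v.map fun u => (u.1 : ℝ) / (u.2 : ℝ))) ≤ (dg T i : ℝ) / 10 ^ 7 ∧
        (dg W i : ℝ) / 10 ^ 7 ≤ Wc (((c + Pk.dotN (CA.dig rd i) ks : ℕ) : ℝ) / 200)) := by
  induction f with
  | zero => intro i0 XS _ i h1 h2; omega
  | succ f ih =>
    intro i0 XS h i h1 h2
    have e : tabL v rd ks c c0 R msk T W (f + 1) i0 XS = frc (dg T i0) fun V => frc (dg W i0) fun w =>
      cond (Nat.beq (Nat.shiftRight (Nat.lor V w) (nat_lit 32)) (nat_lit 0))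
        (cond (Nat.beq V (nat_lit 0)) (frc (Nat.succ i0) fun i' => tabL v rd ks c c0 R msk T W f i' XS)
          (cond (CA.digC rd i0 fun ns =>
              cond (frc (Nat.land XS msk) fun N => CA.upk R N fun X => rowOK v (CA.app [1, 1, 1] ns) X V)
                (cond (Nat.ble c0 V) (frc (ldot ns ks c) fun tt => Nat.ble (Nat.mul (nat_lit 4) w) (w4 tt))
                  false) false)
            (frc (Nat.succ i0) fun i' => frc (Nat.shiftRight XS (Nat.mul (nat_lit 32) R)) fun XS' =>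
              tabL v rd ks c c0 R msk T W f i' XS') false)) false := rfl
    rw [e] at h
    simp only [frc_eq] at h
    obtain ⟨h3, h4⟩ := cond_eq_true h
    obtain ⟨h5, h6⟩ := or_small h3
    cases hb : Nat.beq (dg T i0) (nat_lit 0) with
    | true =>
      rw [hb, cond_true] at h4
      rcases Nat.eq_or_lt_of_le h1 with rfl | hlt
      · refine ⟨h5, h6, fun h7 => ?_⟩
        have h8 : dg T i0 = 0 := Nat.eq_of_beq_eq_true hb
        omega
      · exact ih _ _ h4 i hlt (by omega)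
    | false =>
      rw [hb, cond_false] at h4
      obtain ⟨h7, h8⟩ := cond_eq_true h4
      rcases Nat.eq_or_lt_of_le h1 with rfl | hlt
      · refine ⟨h5, h6, fun _ => ?_⟩
        rw [CA.digC_eq] at h7
        obtain ⟨h9, h10⟩ := cond_eq_true h7
        obtain ⟨h11, h12⟩ := cond_eq_true h10
        obtain ⟨X, hX⟩ := CA.upk_sound _ _ _ h9
        rw [CA.app_eq] at hX
        refine ⟨Nat.le_of_ble_eq_true h11, row_sound _ _ _ _ hX, ?_⟩
        have h13 := Nat.le_of_ble_eq_true h12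
        rw [ldot_eq] at h13
        have h14 := w4_le (c + Pk.dotN (CA.dig rd i0) ks) (by omega)
        have h15 : (4 : ℝ) * (dg W i0 : ℝ) ≤ (w4 (c + Pk.dotN (CA.dig rd i0) ks) : ℝ) := by exact_mod_cast h13
        refine le_trans ?_ h14
        rw [div_le_div_iff₀ (by norm_num) (by norm_num)]
        nlinarith
      · exact ih _ _ h8 i hlt (by omega)

lemma shift_zero {T n : ℕ} (h : Nat.beq (Nat.shiftRight T n) 0 = true) : T < 2 ^ n := by
  have h1 : T >>> n = 0 := Nat.eq_of_beq_eq_true h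
  rw [Nat.shiftRight_eq_div_pow] at h1
  rcases Nat.div_eq_zero_iff.mp h1 with h3 | h3
  · exact absurd h3 (by positivity)
  · exact h3

/-- soundness of the table check -/
theorem tabOK_sound (rd ks : List ℕ) (b g c0 R T W XS : ℕ) (h : tabOK rd ks b g c0 R T W XS = true) :
    RowT rd ks b g c0 T W := by
  unfold tabOK at h
  rw [frc_eq] at h
  obtain ⟨h1, h⟩ := cond_eq_true h
  obtain ⟨h2, h⟩ := cond_eq_true h
  obtain ⟨h3, h⟩ := cond_eq_true h
  rw [frc_eq] at h
  have h4 := tabL_sound _ _ _ _ _ _ _ _ _ (Nat.le_of_ble_eq_true h3) _ _ _ h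
  have ev : (vls b g ks).map (fun u => (u.1 : ℝ) / (u.2 : ℝ))
      = 1 :: (b : ℝ) / 200 :: (g : ℝ) / 200 :: ks.map fun k : ℕ => (k : ℝ) / 200 := by
    unfold vls
    simp only [List.map_cons, List.map_map]
    norm_num
  rw [ev] at h4
  exact ⟨shift_zero h1, shift_zero h2, fun i hi => (h4 i (Nat.zero_le _) (by show i < 0 + prd rd; omega)).1,
    fun i hi => (h4 i (Nat.zero_le _) (by show i < 0 + prd rd; omega)).2.1,
    fun i hi hp => ((h4 i (Nat.zero_le _) (by show i < 0 + prd rd; omega)).2.2 hp).1,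
    fun i hi hp => ((h4 i (Nat.zero_le _) (by show i < 0 + prd rd; omega)).2.2 hp).2.1,
    fun i hi hp => ((h4 i (Nat.zero_le _) (by show i < 0 + prd rd; omega)).2.2 hp).2.2⟩

end PkA
end Pool.Agent.Lib.MP_6947cd_al
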